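import Pool.Agent.Helper23K9.T5.Ga

/-!
Cocycles with values in the points of order five.
-/

set_option autoImplicit false
set_option linter.all false

open Polynomial IsDedekindDomain WeierstrassCurve WeierstrassCurve.Affine
open scoped Classical

namespace Pool.Agent.Helper23K9.T5

open Pool.Agent.TH115.GD (Pt act incl rs ak act_act act_inj IsCoc rs_mul)

section gp

variable {K F Ω : Type} [Field K] [Field F] [Field Ω] [Algebra K F] [Algebra F Ω] [Algebra K Ω]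
  [IsScalarTower K F Ω] {b : K} (h5 : (5 : K) ≠ 0) (hb : b ≠ 0)
  (hd : b ^ 2 - 11 * b - 1 ≠ 0) {T : Pt (crv5 b) Ω} (hT5 : 5 • T = 0)
  (hTn : T ∉ HP (isE5 b Ω h5 hb hd))
  (hsurj : ∀ S : Pt (crv5 b) Ω, 5 • S = 0 → ∃ i a, S = cb (isE5 b Ω h5 hb hd) T i a)
  {ξ : (Ω →ₐ[K] Ω) → ZMod 5}
  (hξ : ∀ φ, act (crv5 b) φ T = cb (isE5 b Ω h5 hb hd) T (ξ φ) 1)

include hT5 hTn in
theorem coords_lc {f : (Ω ≃ₐ[F] Ω) → Pt (crv5 b) Ω} (hf : IsLocallyConstant f)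
    {i a : (Ω ≃ₐ[F] Ω) → ZMod 5} (e : ∀ σ, f σ = cb (isE5 b Ω h5 hb hd) T (i σ) (a σ)) :
    IsLocallyConstant i ∧ IsLocallyConstant a := by
  have h := isE5 b Ω h5 hb hd
  have h1 : IsLocallyConstant (fun σ => (i σ, a σ)) := by
    refine IsLocallyConstant.desc _ (fun p : ZMod 5 × ZMod 5 => cb h T p.1 p.2) ?_ ?_
    · have : ((fun p : ZMod 5 × ZMod 5 => cb h T p.1 p.2) ∘ fun σ => (i σ, a σ)) = f := by
        funext σ
        exact (e σ).symm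
      rw [this]
      exact hf
    · rintro ⟨x, y⟩ ⟨x', y'⟩ hxy
      obtain ⟨h1, h2⟩ := cb_inj h hT5 hTn hxy
      exact Prod.ext h1 h2
  exact ⟨h1.comp Prod.fst, h1.comp Prod.snd⟩

include hT5 hTn hξ in
theorem coords_mul {f : (Ω ≃ₐ[F] Ω) → Pt (crv5 b) Ω} (hf : IsCoc (crv5 b) f)
    {i a : (Ω ≃ₐ[F] Ω) → ZMod 5} (e : ∀ σ, f σ = cb (isE5 b Ω h5 hb hd) T (i σ) (a σ))
    (σ τ : Ω ≃ₐ[F] Ω) : a (σ * τ) = a σ + a τ ∧ i (σ * τ) = i σ + (i τ + a τ * ξ (rs K σ)) := by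
  have h1 := hf.mul σ τ
  rw [e, e, e, act_cb h5 hb hd hT5 (hξ _), cb_add _ hT5] at h1
  obtain ⟨h2, h3⟩ := cb_inj _ hT5 hTn h1
  exact ⟨h3, h2⟩

include hT5 hTn hξ in
theorem xi_comp (φ ψ : Ω →ₐ[K] Ω) : ξ (φ.comp ψ) = ξ φ + ξ ψ := by
  have h1 := hξ (φ.comp ψ)
  rw [← act_act, hξ ψ, act_cb h5 hb hd hT5 (hξ φ)] at h1
  obtain ⟨h2, -⟩ := cb_inj _ hT5 hTn h1
  rw [← h2, one_mul, add_comm]

include hT5 hTn hξ in
theorem xi_conj {τ : Ω ≃ₐ[K] Ω} {σ σ' : Ω ≃ₐ[F] Ω} (h : ∀ x, τ (σ' x) = σ (τ x)) :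
    ξ (rs K σ') = ξ (rs K σ) := by
  have h1 : (ak τ).comp (rs K σ') = (rs K σ).comp (ak τ) := AlgHom.ext fun x => h x
  have h2 := xi_comp h5 hb hd hT5 hTn hξ (ak τ) (rs K σ')
  rw [h1, xi_comp h5 hb hd hT5 hTn hξ (rs K σ) (ak τ)] at h2
  have h3 : ξ (rs K σ) + ξ (ak τ) = ξ (rs K σ') + ξ (ak τ) := by rw [h2, add_comm]
  exact (add_right_cancel h3).symm

variable {R : Pt (crv5 b) Ω} (hR : 5 • R = pP (isE5 b Ω h5 hb hd))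
  {iκ aP : (Ω ≃ₐ[F] Ω) → ZMod 5}
  (hκ : ∀ σ : Ω ≃ₐ[F] Ω, act (crv5 b) (rs K σ) R - R = cb (isE5 b Ω h5 hb hd) T (iκ σ) (aP σ))
  (hx0 : ∃ σ : Ω ≃ₐ[F] Ω, ξ (rs K σ) ≠ 0) (hP0 : ∃ σ : Ω ≃ₐ[F] Ω, aP σ ≠ 0)

include hT5 hξ in
theorem cb_cob (σ : Ω ≃ₐ[F] Ω) (i a : ZMod 5) :
    act (crv5 b) (rs K σ) (cb (isE5 b Ω h5 hb hd) T i a) - cb (isE5 b Ω h5 hb hd) T i a =
      cb (isE5 b Ω h5 hb hd) T (a * ξ (rs K σ)) 0 := by
  rw [act_cb h5 hb hd hT5 (hξ _), cb_sub _ hT5]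
  congr 1 <;> ring

include hT5 hTn hsurj hξ hR hκ hx0 hP0 in
theorem tor_F (n : ℕ) : ∀ Q : Pt (crv5 b) Ω, (∀ σ : Ω ≃ₐ[F] Ω, act (crv5 b) (rs K σ) Q = Q) →
    5 ^ n • Q = 0 → ∃ i, Q = cb (isE5 b Ω h5 hb hd) T i 0 := by
  have h := isE5 b Ω h5 hb hd
  have base : ∀ Q : Pt (crv5 b) Ω, (∀ σ : Ω ≃ₐ[F] Ω, act (crv5 b) (rs K σ) Q = Q) →
      5 • Q = 0 → ∃ i, Q = cb h T i 0 := by
    intro Q hQ h0
    obtain ⟨i, a, rfl⟩ := hsurj Q h0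
    obtain ⟨σ, hσ⟩ := hx0
    have h1 := cb_cob h5 hb hd hT5 hξ σ i a
    rw [hQ σ, sub_self] at h1
    obtain ⟨h2, -⟩ := cb_eq_zero h hT5 hTn h1.symm
    have h3 : a = 0 := mul5 _ _ h2 hσ
    exact ⟨i, by rw [h3]⟩
  induction n with
  | zero =>
    intro Q _ h0
    rw [pow_zero, one_smul] at h0
    exact ⟨0, by rw [h0, cb_zero]⟩
  | succ n ih =>
    intro Q hQ h0
    obtain ⟨i, hi⟩ := ih (5 • Q) (fun σ => by rw [map_nsmul, hQ σ])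
      (by rw [smul_smul, ← pow_succ]; exact h0)
    by_cases hi0 : i = 0
    · rw [hi0, cb_zero] at hi
      exact base Q hQ hi
    · exfalso
      obtain ⟨c, hc⟩ := inv5 i hi0
      have h1 : 5 • (c.val • Q) = pP h := by
        rw [smul_smul, mul_comm, mul_smul, hi, cb_nsmul h hT5]
        have h2 : ((c.val : ℕ) : ZMod 5) = c := by rw [ZMod.natCast_val, ZMod.cast_id]
        rw [h2, hc, mul_zero, cb_P]
      obtain ⟨i', a', e⟩ := hsurj (c.val • Q - R) (by rw [smul_sub, h1, hR, sub_self])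
      obtain ⟨σ, hσ⟩ := hP0
      have h2 := cb_cob h5 hb hd hT5 hξ σ i' a'
      rw [← e, map_sub, map_nsmul, hQ σ] at h2
      have h3 : c.val • Q - act (crv5 b) (rs K σ) R - (c.val • Q - R) =
        -(act (crv5 b) (rs K σ) R - R) := by abel
      rw [h3, hκ, neg_eq_iff_add_eq_zero, cb_add h hT5] at h2
      obtain ⟨-, h4⟩ := cb_eq_zero h hT5 hTn h2
      rw [add_zero] at h4
      exact hσ h4

include hT5 hTn hsurj hξ hR hκ hx0 hP0 in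
theorem fix_mod {Q : Pt (crv5 b) Ω} {N : ℕ} (hQ : 5 ^ N • Q = 0)
    (hD : ∀ σ : Ω ≃ₐ[F] Ω, 5 • (act (crv5 b) (rs K σ) Q - Q) = 0) :
    ∃ (j a : ZMod 5), ∀ σ : Ω ≃ₐ[F] Ω, act (crv5 b) (rs K σ) Q - Q =
      cb (isE5 b Ω h5 hb hd) T (j * iκ σ + a * ξ (rs K σ)) (j * aP σ) := by
  have h := isE5 b Ω h5 hb hd
  obtain ⟨j, hj⟩ := tor_F h5 hb hd hT5 hTn hsurj hξ hR hκ hx0 hP0 N (5 • Q)
    (fun σ => by
      have := hD σ
      rw [smul_sub, sub_eq_zero, ← map_nsmul] at this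
      exact this)
    (by rw [smul_smul, mul_comm, mul_smul, hQ, smul_zero])
  obtain ⟨i, a, e⟩ := hsurj (Q - j.val • R) (by
    rw [smul_sub, hj, smul_smul, mul_comm, mul_smul, hR, cb_i, sub_self])
  refine ⟨j, a, fun σ => ?_⟩
  have h2 := cb_cob h5 hb hd hT5 hξ σ i a
  rw [← e, map_sub, map_nsmul] at h2
  have h3 : act (crv5 b) (rs K σ) Q - j.val • act (crv5 b) (rs K σ) R - (Q - j.val • R) =
      (act (crv5 b) (rs K σ) Q - Q) - j.val • (act (crv5 b) (rs K σ) R - R) := by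
    rw [smul_sub]; abel
  have h4 : ((j.val : ℕ) : ZMod 5) = j := by rw [ZMod.natCast_val, ZMod.cast_id]
  rw [h3, hκ, cb_nsmul h hT5, h4, sub_eq_iff_eq_add, cb_add h hT5] at h2
  rw [h2]
  congr 1 <;> ring

end gp

end Pool.Agent.Helper23K9.T5
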