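import Pool.Agent.Helper23K9.T5.Idn

/-!
Translation by a second point of order five.
-/

set_option autoImplicit false
set_option linter.all false

open WeierstrassCurve WeierstrassCurve.Affine
open scoped Classical

namespace Pool.Agent.Helper23K9.T5

section basic

variable {F : Type*} [Field F] {z b : F}

theorem IsZ.eta_sq (hz : IsZ z) : eta z ^ 2 + eta z - 1 = 0 := by
  have h1 := hz.eta_mul
  have h2 := hz.eta_add
  linear_combination eta z * h2 - h1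

theorem IsZ.eta' (hz : IsZ z) : eta' z = -1 - eta z := by
  linear_combination hz.eta_add

theorem IsZ.z2 (hz : IsZ z) : z ^ 2 - eta z * z + 1 = 0 := by
  have h5 := hz.five
  unfold eta
  linear_combination -h5

theorem IsZ.ne (hz : IsZ z) : z ≠ 0 := by
  rintro rfl
  unfold IsZ at hz
  norm_num at hz

theorem AB_mul (hz : IsZ z) : AA z b * BB z b = -(b ^ 2 - 11 * b - 1) := by
  have h1 := hz.eta_sq
  unfold AA BB ep ep'
  rw [hz.eta']
  generalize eta z = e at *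
  linear_combination (100 * e ^ 2 + 100 * e - 4 * b ^ 2 + 44 * b - 71) * h1

theorem t0_eq (hz : IsZ z) : 2 * b - 1 = 5 - 10 * eta z - (4 * eta z - 2) * BB z b := by
  have h1 := hz.eta_sq
  unfold BB ep'
  rw [hz.eta']
  generalize eta z = e at *
  linear_combination (-40 * e - 8 * b + 24) * h1

end basic

section tr

variable {F : Type*} [Field F] {W : Affine F} {b : F} (h : IsE5 W b)

/-- The eigenfunctions of a point. -/
noncomputable def tq (z : F) (Q : W.Point) (j : ℕ) : F := tt z (uu h Q) j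

variable {z m : F} (hz : IsZ z)

include h hz in
theorem AA_ne : AA z b ≠ 0 := by
  intro hA
  have := AB_mul (b := b) hz
  rw [hA, zero_mul] at this
  apply h.nd
  linear_combination this

include h hz in
theorem BB_ne : BB z b ≠ 0 := by
  intro hA
  have := AB_mul (b := b) hz
  rw [hA, mul_zero] at this
  apply h.nd
  linear_combination this

include hz

theorem q5_tq {Q : W.Point} (hQ : Q ∉ HP h) : Q5 z (AA z b) (BB z b) (tq h z Q 1) (tq h z Q 2)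
    (tq h z Q 3) (tq h z Q 4) := (uu_cyc h hQ).q5 hz

theorem uu_eq_uf {Q : W.Point} (hQ : Q ∉ HP h) : uu h Q = uf z (2 * b - 1) (tq h z Q 1)
    (tq h z Q 2) (tq h z Q 3) (tq h z Q 4) := by
  have h1 := uf_tt h.five hz (uu h Q)
  have h2 : tt z (uu h Q) 0 = 2 * b - 1 := (uu_cyc h hQ).sum
  rw [h2] at h1
  exact h1.symm

theorem tq_ext {Q R : W.Point} (hQ : Q ∉ HP h) (hR : R ∉ HP h) (h1 : tq h z Q 1 = tq h z R 1)
    (h2 : tq h z Q 2 = tq h z R 2) (h3 : tq h z Q 3 = tq h z R 3) (h4 : tq h z Q 4 = tq h z R 4) :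
    Q = R := by
  apply uu_inj h hQ hR
  rw [uu_eq_uf h hz hQ, uu_eq_uf h hz hR, h1, h2, h3, h4]

theorem exists_tq {t1 t2 t3 t4 : F} (hq : Q5 z (AA z b) (BB z b) t1 t2 t3 t4) :
    ∃ Q : W.Point, Q ∉ HP h ∧ tq h z Q 1 = t1 ∧ tq h z Q 2 = t2 ∧ tq h z Q 3 = t3 ∧
      tq h z Q 4 = t4 := by
  obtain ⟨Q, hQ, e⟩ := exists_pt h (hq.cyc h.five hz)
  obtain ⟨-, w1, w2, w3, w4⟩ := tt_uf (t0 := 2 * b - 1) (t1 := t1) (t2 := t2) (t3 := t3)
    (t4 := t4) h.five hz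
  refine ⟨Q, hQ, ?_, ?_, ?_, ?_⟩ <;> unfold tq <;> rw [e] <;> assumption

theorem tq_add_pP (Q : W.Point) (n : ℕ) {j : ℕ} (hj : j = 1 ∨ j = 2 ∨ j = 3 ∨ j = 4) :
    z ^ (j * n) * tq h z (Q + n • pP h) j = tq h z Q j := by
  unfold tq
  rw [uu_add_pP]
  exact tt_shift hz.five (uu h Q) hj n

theorem tq_neg {Q : W.Point} (hQ : Q ∉ HP h) : z * tq h z (-Q) 1 = tq h z Q 4 ∧
    z ^ 2 * tq h z (-Q) 2 = tq h z Q 3 ∧ z ^ 3 * tq h z (-Q) 3 = tq h z Q 2 ∧
    z ^ 4 * tq h z (-Q) 4 = tq h z Q 1 := by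
  have h5 := hz.five
  have e0 : uu h (-Q) 0 = uu h Q 4 := uu_neg h hQ 0
  have e1 : uu h (-Q) 1 = uu h Q 3 := uu_neg h hQ 1
  have e2 : uu h (-Q) 2 = uu h Q 2 := uu_neg h hQ 2
  have e3 : uu h (-Q) 3 = uu h Q 1 := uu_neg h hQ 3
  have e4 : uu h (-Q) 4 = uu h Q 0 := uu_neg h hQ 4
  unfold tq
  simp only [tt, e0, e1, e2, e3, e4]
  refine ⟨?_, ?_, ?_, ?_⟩
  · linear_combination uu h Q 0 * h5
  · linear_combination (z * uu h Q 2 + uu h Q 0) * h5
  · linear_combination (z ^ 2 * uu h Q 1 + uu h Q 3 * z + uu h Q 0) * h5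
  · linear_combination (z ^ 3 * uu h Q 3 + z ^ 2 * uu h Q 2 + z * uu h Q 1 + uu h Q 0) * h5

/-- `T` is the second point of order five. -/
structure IsT (z m : F) (T : W.Point) : Prop where
  nm : T ∉ HP h
  t1 : tq h z T 1 = 0
  t2 : tq h z T 2 = -(2 + eta z) * m ^ 2 * BB z b
  t3 : tq h z T 3 = -(-1 - eta z) * (2 + eta z) * m ^ 3 * BB z b
  t4 : tq h z T 4 = (-1 - eta z) * (2 + eta z) * m ^ 4 * BB z b

/-- `R` is the translate of `Q`. -/
structure MRel (z m : F) (Q R : W.Point) : Prop where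
  hQ : Q ∉ HP h
  hR : R ∉ HP h
  E1 : tq h z Q 4 * tq h z R 1 = z ^ 3 * (5 + 3 * eta z) * m ^ 6 * BB z b ^ 2
  E2 : tq h z Q 4 * tq h z R 2 = z * (2 + eta z) * m ^ 2 * BB z b * tq h z Q 1
  E3 : tq h z Q 4 * tq h z R 3 = z ^ 4 * (2 + eta z) * m ^ 3 * BB z b * tq h z Q 2
  E4 : tq h z Q 4 * tq h z R 4 = z ^ 2 * (2 + eta z) * m ^ 4 * BB z b * tq h z Q 3

theorem MRel.shift {Q R : W.Point} (hM : MRel h z m Q R) (n : ℕ) :
    MRel h z m (Q + n • pP h) (R + n • pP h) := by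
  have k : n • pP h ∈ HP h := (HP h).nsmul_mem (pP_mem h) n
  have zn : z ^ n ≠ 0 := pow_ne_zero _ hz.ne
  have zn5 : (z ^ n) ^ 5 = 1 := by rw [← pow_mul, mul_comm, pow_mul, hz.five, one_pow]
  have c : ∀ (Q : W.Point) {j : ℕ} (hj : j = 1 ∨ j = 2 ∨ j = 3 ∨ j = 4),
      (z ^ n) ^ j * tq h z (Q + n • pP h) j = tq h z Q j := by
    intro Q j hj
    rw [← pow_mul, mul_comm n]
    exact tq_add_pP h hz Q n hj
  have Q1 := c Q (j := 1) (by norm_num)
  have Q2 := c Q (j := 2) (by norm_num)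
  have Q3 := c Q (j := 3) (by norm_num)
  have Q4 := c Q (j := 4) (by norm_num)
  have R1 := c R (j := 1) (by norm_num)
  have R2 := c R (j := 2) (by norm_num)
  have R3 := c R (j := 3) (by norm_num)
  have R4 := c R (j := 4) (by norm_num)
  obtain ⟨hQ, hR, E1, E2, E3, E4⟩ := hM
  rw [← Q4, ← R1] at E1
  rw [← Q4, ← R2, ← Q1] at E2
  rw [← Q4, ← R3, ← Q2] at E3
  rw [← Q4, ← R4, ← Q3] at E4
  generalize z ^ n = y at *
  refine ⟨add_not_mem h hQ k, add_not_mem h hR k, ?_, ?_, ?_, ?_⟩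
  · linear_combination E1 - (tq h z (Q + n • pP h) 4 * tq h z (R + n • pP h) 1) * zn5
  · apply mul_left_cancel₀ zn
    linear_combination E2 - (y * tq h z (Q + n • pP h) 4 * tq h z (R + n • pP h) 2) * zn5
  · apply mul_left_cancel₀ (pow_ne_zero 2 zn)
    linear_combination E3 - (y ^ 2 * tq h z (Q + n • pP h) 4 * tq h z (R + n • pP h) 3) * zn5
  · apply mul_left_cancel₀ (pow_ne_zero 3 zn)
    linear_combination E4 - (y ^ 3 * tq h z (Q + n • pP h) 4 * tq h z (R + n • pP h) 4) * zn5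

theorem exists_MRel {Q : W.Point} (hm : AA z b = (5 + 3 * eta z) * m ^ 5 * BB z b)
    (hQ : Q ∉ HP h) (h4 : tq h z Q 4 ≠ 0) : ∃ R, MRel h z m Q R := by
  obtain ⟨q0, q1, q2, q3, q4⟩ := q5_tq h hz hQ
  rw [hm, hz.eta'] at q0
  rw [hm, hz.eta'] at q2 q3
  have E : ∀ K, tq h z Q 4 * (K / tq h z Q 4) = K := fun K => mul_div_cancel₀ _ h4
  have key := move_aux hz.eta_sq hz.five h4 (E _) (E _) (E _) (E _) q0 q1 q2 q3 q4
  have hq : Q5 z (AA z b) (BB z b) (z ^ 3 * (5 + 3 * eta z) * m ^ 6 * BB z b ^ 2 / tq h z Q 4)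
      (z * (2 + eta z) * m ^ 2 * BB z b * tq h z Q 1 / tq h z Q 4)
      (z ^ 4 * (2 + eta z) * m ^ 3 * BB z b * tq h z Q 2 / tq h z Q 4)
      (z ^ 2 * (2 + eta z) * m ^ 4 * BB z b * tq h z Q 3 / tq h z Q 4) := by
    obtain ⟨k0, k1, k2, k3, k4⟩ := key
    refine ⟨?_, k1, ?_, ?_, k4⟩
    · rw [hm, hz.eta']; exact k0
    · rw [hm, hz.eta']; exact k2
    · rw [hm, hz.eta']; exact k3
  obtain ⟨R, hR, e1, e2, e3, e4⟩ := exists_tq h hz hq
  exact ⟨R, hQ, hR, by rw [e1, E], by rw [e2, E], by rw [e3, E], by rw [e4, E]⟩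

theorem exists_T (hm : AA z b = (5 + 3 * eta z) * m ^ 5 * BB z b) : ∃ T, IsT h z m T := by
  have key := tT_aux (m := m) (B := BB z b) hz.eta_sq
  have hq : Q5 z (AA z b) (BB z b) 0 (-(2 + eta z) * m ^ 2 * BB z b)
      (-(-1 - eta z) * (2 + eta z) * m ^ 3 * BB z b)
      ((-1 - eta z) * (2 + eta z) * m ^ 4 * BB z b) := by
    obtain ⟨k0, k1, k2, k3, k4⟩ := key
    refine ⟨?_, k1, ?_, ?_, k4⟩
    · rw [hm, hz.eta']; exact k0
    · rw [hm, hz.eta']; exact k2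
    · rw [hm, hz.eta']; exact k3
  obtain ⟨T, hT, e1, e2, e3, e4⟩ := exists_tq h hz hq
  exact ⟨T, hT, e1, e2, e3, e4⟩

theorem uu04 {Q : W.Point} (hQ : Q ∉ HP h) :
    5 * uu h Q 0 = 2 * b - 1 + tq h z Q 1 + tq h z Q 2 + tq h z Q 3 + tq h z Q 4 ∧
    5 * uu h Q 4 = 2 * b - 1 + z * tq h z Q 1 + z ^ 2 * tq h z Q 2 + z ^ 3 * tq h z Q 3 +
      z ^ 4 * tq h z Q 4 := by
  obtain ⟨w0, -, -, -, w4⟩ := uf_vals (t0 := 2 * b - 1) (t1 := tq h z Q 1) (t2 := tq h z Q 2)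
    (t3 := tq h z Q 3) (t4 := tq h z Q 4) h.five hz.five
  rw [← uu_eq_uf h hz hQ] at w0 w4
  exact ⟨w0, w4⟩

theorem MRel.ne {Q R : W.Point} (hM : MRel h z m Q R)
    (hm : AA z b = (5 + 3 * eta z) * m ^ 5 * BB z b) : tq h z Q 4 ≠ 0 := by
  intro h4
  have h1 := hM.E1
  rw [h4, zero_mul] at h1
  have hA := AA_ne h hz
  have hB := BB_ne h hz
  apply mul_ne_zero (mul_ne_zero (pow_ne_zero 3 hz.ne) (mul_ne_zero hA hB))
    (show m ≠ 0 by
      rintro rfl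
      rw [hm] at hA
      apply hA
      ring)
  rw [hm]
  linear_combination -h1

theorem MRel.det {Q R T : W.Point} (hT : IsT h z m T) (hM : MRel h z m Q R)
    (hm : AA z b = (5 + 3 * eta z) * m ^ 5 * BB z b) :
    (uu h T 0 - uu h Q 0) * (uu h R 0 - uu h Q 4) -
      (uu h R 4 - uu h Q 0) * (uu h T 4 - uu h Q 4) = 0 := by
  have h4 := hM.ne h hz hm
  obtain ⟨T0, T4⟩ := uu04 h hz hT.nm
  rw [hT.t1, hT.t2, hT.t3, hT.t4] at T0 T4
  obtain ⟨hQ, hR, E1, E2, E3, E4⟩ := hM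
  obtain ⟨Q0, Q4⟩ := uu04 h hz hQ
  obtain ⟨R0, R4⟩ := uu04 h hz hR
  obtain ⟨q0, q1, q2, q3, q4⟩ := q5_tq h hz hQ
  rw [hm, hz.eta'] at q0 q2 q3
  have key := det_aux (z := z) hz.eta_sq hz.z2 (t0_eq hz) q0 q1 q2 q3
  have h5 := h.five
  have hne : (5 : F) * 5 * tq h z Q 4 ≠ 0 := mul_ne_zero (mul_ne_zero h5 h5) h4
  apply mul_left_cancel₀ hne
  rw [mul_zero]
  generalize tq h z Q 1 = t1 at *
  generalize tq h z Q 2 = t2 at *
  generalize tq h z Q 3 = t3 at *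
  generalize tq h z Q 4 = t4 at *
  generalize tq h z R 1 = s1 at *
  generalize tq h z R 2 = s2 at *
  generalize tq h z R 3 = s3 at *
  generalize tq h z R 4 = s4 at *
  have M0 : t4 * (5 * uu h R 0) = (2 * b - 1) * t4 + z ^ 3 * (5 + 3 * eta z) * m ^ 6 * BB z b ^ 2 +
        z * (2 + eta z) * m ^ 2 * BB z b * t1 + z ^ 4 * (2 + eta z) * m ^ 3 * BB z b * t2 +
        z ^ 2 * (2 + eta z) * m ^ 4 * BB z b * t3 := by
    rw [R0]
    linear_combination E1 + E2 + E3 + E4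
  have M4 : t4 * (5 * uu h R 4) = (2 * b - 1) * t4 +
        z * (z ^ 3 * (5 + 3 * eta z) * m ^ 6 * BB z b ^ 2) +
        z ^ 2 * (z * (2 + eta z) * m ^ 2 * BB z b * t1) +
        z ^ 3 * (z ^ 4 * (2 + eta z) * m ^ 3 * BB z b * t2) +
        z ^ 4 * (z ^ 2 * (2 + eta z) * m ^ 4 * BB z b * t3) := by
    rw [R4]
    linear_combination z * E1 + z ^ 2 * E2 + z ^ 3 * E3 + z ^ 4 * E4
  have T0' : 5 * uu h T 0 = 2 * b - 1 + -(2 + eta z) * m ^ 2 * BB z b +
      -(-1 - eta z) * (2 + eta z) * m ^ 3 * BB z b +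
      (-1 - eta z) * (2 + eta z) * m ^ 4 * BB z b := by rw [T0]; ring
  have T4' : 5 * uu h T 4 = 2 * b - 1 + z ^ 2 * (-(2 + eta z) * m ^ 2 * BB z b) +
      z ^ 3 * (-(-1 - eta z) * (2 + eta z) * m ^ 3 * BB z b) +
      z ^ 4 * ((-1 - eta z) * (2 + eta z) * m ^ 4 * BB z b) := by rw [T4]; ring
  rw [← M0, ← M4, ← T0', ← T4', ← Q0, ← Q4] at key
  linear_combination key

omit hz in
theorem pigeon {p1 p2 p3 p4 : ZMod 5 → Prop} (h1 : ∀ i j, p1 i → p1 j → i = j)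
    (h2 : ∀ i j, p2 i → p2 j → i = j) (h3 : ∀ i j, p3 i → p3 j → i = j)
    (h4 : ∀ i j, p4 i → p4 j → i = j) : ∃ i, ¬ p1 i ∧ ¬ p2 i ∧ ¬ p3 i ∧ ¬ p4 i := by
  by_contra hcon
  push Not at hcon
  have key : ∀ i, ∃ c : Fin 4, (c = 0 ∧ p1 i) ∨ (c = 1 ∧ p2 i) ∨ (c = 2 ∧ p3 i) ∨
      (c = 3 ∧ p4 i) := by
    intro i
    by_cases a1 : p1 i
    · exact ⟨0, Or.inl ⟨rfl, a1⟩⟩
    by_cases a2 : p2 i
    · exact ⟨1, Or.inr (Or.inl ⟨rfl, a2⟩)⟩
    by_cases a3 : p3 i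
    · exact ⟨2, Or.inr (Or.inr (Or.inl ⟨rfl, a3⟩))⟩
    · exact ⟨3, Or.inr (Or.inr (Or.inr ⟨rfl, hcon i a1 a2 a3⟩))⟩
  choose c hc using key
  have inj : Function.Injective c := by
    intro i j e
    have hi := hc i
    have hj := hc j
    rw [← e] at hj
    rcases hi with ⟨e1, a1⟩ | ⟨e1, a1⟩ | ⟨e1, a1⟩ | ⟨e1, a1⟩ <;>
      rcases hj with ⟨e2, a2⟩ | ⟨e2, a2⟩ | ⟨e2, a2⟩ | ⟨e2, a2⟩ <;>
      first
        | exact h1 i j a1 a2
        | exact h2 i j a1 a2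
        | exact h3 i j a1 a2
        | exact h4 i j a1 a2
        | (rw [e1] at e2; exact absurd e2 (by decide))
  have := Fintype.card_le_of_injective c inj
  rw [ZMod.card, Fintype.card_fin] at this
  omega

omit hz in
theorem addOrderOf_pP : addOrderOf (pP h) = 5 := by
  haveI : Fact (Nat.Prime 5) := ⟨by norm_num⟩
  exact addOrderOf_eq_prime (five_pP h) (pP_ne h)

omit hz in
theorem nsmul_eq_nsmul {m n : ℕ} (e : m • pP h = n • pP h) : (m : ZMod 5) = n := by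
  rw [nsmul_eq_nsmul_iff_modEq, addOrderOf_pP] at e
  exact (ZMod.natCast_eq_natCast_iff m n 5).2 e

omit hz in
theorem val_inj {i j : ZMod 5} (e : i.val • pP h = j.val • pP h) : i = j := by
  have := nsmul_eq_nsmul h e
  rwa [ZMod.natCast_val, ZMod.natCast_val, ZMod.cast_id, ZMod.cast_id] at this

/-- The translation by `T`. -/
theorem MRel.add {Q R T : W.Point} (hT : IsT h z m T) (hM : MRel h z m Q R)
    (hm : AA z b = (5 + 3 * eta z) * m ^ 5 * BB z b) : Q + T = R := by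
  obtain ⟨i, n1, n2, n3, n4⟩ := pigeon (p1 := fun i => Q + i.val • pP h = T)
    (p2 := fun i => Q + i.val • pP h = -T) (p3 := fun i => -(R + i.val • pP h) = T)
    (p4 := fun i => -(R + i.val • pP h) = Q + i.val • pP h)
    (fun i j a b => val_inj h (add_left_cancel (a.trans b.symm)))
    (fun i j a b => val_inj h (add_left_cancel (a.trans b.symm)))
    (fun i j a b => val_inj h (add_left_cancel (neg_injective (a.trans b.symm))))
    (fun i j a b => by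
      have e1 : (2 * i.val) • pP h = -(Q + R) := by
        rw [two_mul, add_smul]
        have : i.val • pP h + i.val • pP h = (Q + i.val • pP h) - (-(R + i.val • pP h)) - (Q + R) := by
          abel
        rw [this, a, sub_self, zero_sub]
      have e2 : (2 * j.val) • pP h = -(Q + R) := by
        rw [two_mul, add_smul]
        have : j.val • pP h + j.val • pP h = (Q + j.val • pP h) - (-(R + j.val • pP h)) - (Q + R) := by
          abel
        rw [this, b, sub_self, zero_sub]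
      have e3 := nsmul_eq_nsmul h (e1.trans e2.symm)
      push_cast at e3
      rw [ZMod.natCast_val, ZMod.natCast_val, ZMod.cast_id, ZMod.cast_id] at e3
      have e4 : (3 : ZMod 5) * (2 * i) = 3 * (2 * j) := by rw [e3]
      have e5 : (3 : ZMod 5) * 2 = 1 := by decide
      rw [← mul_assoc, ← mul_assoc, e5, one_mul, one_mul] at e4
      exact e4)
  have hM' := hM.shift h hz i.val
  have hd := hM'.det h hz hT hm
  have hnR := neg_not_mem h hM'.hR
  have e0 : uu h (-(R + i.val • pP h)) 0 = uu h (R + i.val • pP h) 4 := uu_neg h hM'.hR 0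
  have e4 : uu h (-(R + i.val • pP h)) 4 = uu h (R + i.val • pP h) 0 := uu_neg h hM'.hR 4
  rw [← e0, ← e4] at hd
  have key := coll h hM'.hQ hT.nm hnR n1 n2 n4 n3 hd
  have : Q + T - R = Q + i.val • pP h + T + -(R + i.val • pP h) := by abel
  rw [key] at this
  exact sub_eq_zero.1 this

end tr

end Pool.Agent.Helper23K9.T5
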