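import Mathlib
import Pool.Agent.Helper23K9.T5.Tr
import Pool.Agent.Helper7K9.T3.Main

/-!
Orders modulo five of the elements of `k'(t)`, and the global step.
-/

set_option autoImplicit false
set_option linter.all false

open Polynomial IsDedekindDomain WeierstrassCurve WeierstrassCurve.Affine
open scoped Classical

namespace Pool.Agent.Helper23K9.T5

open Pool.Agent.TH115.GD (pl val_poly splits_of_sep exists_root_of_mem rootMult_galois mem_pl
  vInf vInf_poly)
open Pool.Agent.Helper7K9.T3 (plI prod_pow_ne_zero rootMult_prod)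

section om

variable {R F : Type} [CommRing R] [IsDedekindDomain R] [Field F] [Algebra R F]
  [IsFractionRing R F]

/-- The order of `x` at `v`, modulo five. -/
noncomputable def om5 (v : HeightOneSpectrum R) (x : F) : ZMod 5 :=
  ((-(WithZero.log (v.valuation F x)) : ℤ) : ZMod 5)

theorem om5_mul (v : HeightOneSpectrum R) {x y : F} (hx : x ≠ 0) (hy : y ≠ 0) :
    om5 v (x * y) = om5 v x + om5 v y := by
  have hx0 : v.valuation F x ≠ 0 := (Valuation.ne_zero_iff _).2 hx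
  have hy0 : v.valuation F y ≠ 0 := (Valuation.ne_zero_iff _).2 hy
  unfold om5
  rw [map_mul, WithZero.log_mul hx0 hy0]
  push_cast
  ring

theorem om5_pow (v : HeightOneSpectrum R) (x : F) (n : ℕ) : om5 v (x ^ n) = n * om5 v x := by
  unfold om5
  rw [map_pow, WithZero.log_pow, nsmul_eq_mul]
  push_cast
  ring

theorem om5_one (v : HeightOneSpectrum R) : om5 v (1 : F) = 0 := by
  have := om5_pow v (1 : F) 0
  rw [pow_zero, Nat.cast_zero, zero_mul] at this
  exact this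

theorem om5_fifth (v : HeightOneSpectrum R) {c x : F} (hc : c ≠ 0) (hx : x ≠ 0) :
    om5 v (c ^ 5 * x) = om5 v x := by
  rw [om5_mul v (pow_ne_zero 5 hc) hx, om5_pow]
  have : ((5 : ℕ) : ZMod 5) = 0 := by decide
  rw [this, zero_mul, zero_add]

theorem om5_of_Fi (v : HeightOneSpectrum R) {x : F} (h : Fi (v.valuation F x)) : om5 v x = 0 := by
  obtain ⟨β, hβ⟩ := h
  unfold om5
  rw [hβ, WithZero.log_pow, nsmul_eq_mul]
  push_cast
  have : (5 : ZMod 5) = 0 := by decide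
  rw [this]
  ring

theorem om5_div (v : HeightOneSpectrum R) {x y : F} (hx : x ≠ 0) (hy : y ≠ 0) :
    om5 v (x / y) = om5 v x - om5 v y := by
  have h := om5_mul v (div_ne_zero hx hy) hy
  rw [div_mul_cancel₀ _ hy] at h
  rw [h]; ring

end om

section fifths

variable {k' F : Type} [Field k'] [Field F] [Algebra k'[X] F] [IsFractionRing k'[X] F]

theorem fifth_dvd {π p : k'[X]} (hπ : Irreducible π) (hp : p ≠ 0) (hd : π ∣ p)
    (h : om5 (plI hπ) (algebraMap k'[X] F p) = 0) : π ^ 5 ∣ p := by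
  set v := plI hπ with hv
  have hpF : algebraMap k'[X] F p ≠ 0 := by simpa using hp
  have h1 : v.valuation F (algebraMap k'[X] F p) = v.intValuation p := v.valuation_of_algebraMap p
  have h0 : v.intValuation p ≠ 0 := by
    rw [← h1]
    exact (Valuation.ne_zero_iff _).2 hpF
  unfold om5 at h
  rw [h1, ZMod.intCast_zmod_eq_zero_iff_dvd] at h
  obtain ⟨m, hm⟩ := h
  have h2 : v.intValuation p < 1 := by
    rw [v.intValuation_lt_one_iff_dvd]
    show Ideal.span {π} ∣ Ideal.span {p}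
    rw [Ideal.dvd_span_singleton, Ideal.mem_span_singleton]
    exact hd
  have h3 : WithZero.log (v.intValuation p) < 0 := by
    by_contra h4
    rw [not_lt] at h4
    have h5 := WithZero.exp_log h0
    have h6 : (1 : WithZero (Multiplicative ℤ)) ≤ v.intValuation p := by
      rw [← h5, ← WithZero.exp_zero, WithZero.exp_le_exp]
      exact h4
    exact absurd h2 (not_lt.2 h6)
  have h7 : v.intValuation p ≤ WithZero.exp (-((5 : ℕ) : ℤ)) := by
    rw [← WithZero.exp_log h0, WithZero.exp_le_exp]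
    push_cast at hm ⊢
    omega
  rw [v.intValuation_le_pow_iff_dvd] at h7
  have h8 : Ideal.span {π} ^ 5 ∣ Ideal.span {p} := h7
  rw [Ideal.span_singleton_pow, Ideal.dvd_span_singleton, Ideal.mem_span_singleton] at h8
  exact h8

theorem fifth_poly (n : ℕ) : ∀ p : k'[X], p.natDegree ≤ n → p ≠ 0 →
    (∀ v : HeightOneSpectrum k'[X], om5 v (algebraMap k'[X] F p) = 0) →
    ∃ (u : k') (s : k'[X]), u ≠ 0 ∧ s ≠ 0 ∧ p = C u * s ^ 5 := by
  induction n with
  | zero =>
    intro p hn hp _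
    have h1 : p.natDegree = 0 := by omega
    obtain ⟨c, hc⟩ : ∃ c, p = C c := ⟨_, eq_C_of_natDegree_eq_zero h1⟩
    exact ⟨c, 1, fun h => hp (by rw [hc, h, C_0]), one_ne_zero, by rw [hc, one_pow, mul_one]⟩
  | succ n ih =>
    intro p hn hp h
    by_cases hu : IsUnit p
    · obtain ⟨c, hc, rfl⟩ := Polynomial.isUnit_iff.1 hu
      exact ⟨c, 1, hc.ne_zero, one_ne_zero, by rw [one_pow, mul_one]⟩
    · obtain ⟨π, hπ, hd⟩ := WfDvdMonoid.exists_irreducible_factor hu hp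
      obtain ⟨q, hq⟩ := fifth_dvd (F := F) hπ hp hd (h _)
      have hq0 : q ≠ 0 := by
        rintro rfl
        rw [mul_zero] at hq
        exact hp hq
      have hπ0 : π ≠ 0 := hπ.ne_zero
      have hdeg : q.natDegree ≤ n := by
        have h1 : p.natDegree = 5 * π.natDegree + q.natDegree := by
          rw [hq, natDegree_mul (pow_ne_zero 5 hπ0) hq0, natDegree_pow]
        have h2 : 0 < π.natDegree := hπ.natDegree_pos
        omega
      have hqF : algebraMap k'[X] F q ≠ 0 := by simpa using hq0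
      have hπF : algebraMap k'[X] F π ≠ 0 := by simpa using hπ0
      obtain ⟨u, s, hu, hs, e⟩ := ih q hdeg hq0 (fun v => by
        have := h v
        rw [hq, map_mul, map_pow, om5_fifth v hπF hqF] at this
        exact this)
      exact ⟨u, π * s, hu, mul_ne_zero hπ0 hs, by rw [hq, e]; ring⟩

theorem fifth_F {x : F} (hx : x ≠ 0) (h : ∀ v : HeightOneSpectrum k'[X], om5 v x = 0) :
    ∃ (u : k') (s : F), u ≠ 0 ∧ s ≠ 0 ∧ x = algebraMap k'[X] F (C u) * s ^ 5 := by
  obtain ⟨n, d, hd, rfl⟩ := IsFractionRing.div_surjective (A := k'[X]) x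
  have hd0 : d ≠ 0 := nonZeroDivisors.ne_zero hd
  have hn0 : n ≠ 0 := by
    rintro rfl
    simp at hx
  have hd' : algebraMap k'[X] F d ≠ 0 := by simpa using hd0
  have hn' : algebraMap k'[X] F n ≠ 0 := by simpa using hn0
  have e : algebraMap k'[X] F (n * d ^ 4) =
    (algebraMap k'[X] F d) ^ 5 * (algebraMap k'[X] F n / algebraMap k'[X] F d) := by
    rw [map_mul, map_pow]
    field_simp
  obtain ⟨u, s, hu, hs, e'⟩ := fifth_poly (F := F) _ (n * d ^ 4) le_rfl
    (mul_ne_zero hn0 (pow_ne_zero 4 hd0)) (fun v => by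
      rw [e, om5_fifth v hd' (div_ne_zero hn' hd')]
      exact h v)
  have hs' : algebraMap k'[X] F s ≠ 0 := by simpa using hs
  refine ⟨u, algebraMap k'[X] F s / algebraMap k'[X] F d, hu, div_ne_zero hs' hd', ?_⟩
  rw [e', map_mul, map_pow] at e
  have : algebraMap k'[X] F n / algebraMap k'[X] F d =
      (algebraMap k'[X] F (C u) * algebraMap k'[X] F s ^ 5) / (algebraMap k'[X] F d) ^ 5 := by
    rw [e]
    field_simp
  rw [this, div_pow, mul_div_assoc]

theorem om5_poly (θ : k') {p : k'[X]} (hp : p ≠ 0) :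
    om5 (pl θ) (algebraMap k'[X] F p) = (rootMultiplicity θ p : ZMod 5) := by
  unfold om5
  rw [val_poly θ hp, WithZero.log_exp]
  push_cast
  ring

theorem om5_C (v : HeightOneSpectrum k'[X]) {c : k'} (hc : c ≠ 0) :
    om5 v (algebraMap k'[X] F (C c)) = 0 := by
  apply om5_of_Fi
  have h3 : v.valuation F (algebraMap k'[X] F (C c)) = 1 := by
    rw [v.valuation_of_algebraMap, HeightOneSpectrum.intValuation_eq_one_iff]
    intro hmem
    exact v.isPrime.ne_top (Ideal.eq_top_of_isUnit_mem _ hmem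
      (Polynomial.isUnit_C.2 (isUnit_iff_ne_zero.2 hc)))
  rw [h3]
  exact Fi.one

/-- The order at a place which is not one of the linear factors. -/
theorem om5_prod_other {Z : Finset k'} {v : HeightOneSpectrum k'[X]} (hv : ∀ θ ∈ Z, v ≠ pl θ)
    (e : k' → ℕ) : om5 v (algebraMap k'[X] F (∏ θ ∈ Z, (X - C θ) ^ e θ)) = 0 := by
  apply om5_of_Fi
  have h3 : v.valuation F (algebraMap k'[X] F (∏ θ ∈ Z, (X - C θ) ^ e θ)) = 1 := by
    rw [v.valuation_of_algebraMap, HeightOneSpectrum.intValuation_eq_one_iff]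
    intro hmem
    obtain ⟨θ, hθ, hmem⟩ := (v.isPrime.prod_mem_iff).1 hmem
    have hmem := v.isPrime.mem_of_pow_mem _ hmem
    apply hv θ hθ
    apply HeightOneSpectrum.ext
    have hle : (pl θ).asIdeal ≤ v.asIdeal := by
      show Ideal.span {X - C θ} ≤ v.asIdeal
      rw [Ideal.span_singleton_le_iff_mem]; exact hmem
    exact ((pl θ).isMaximal.eq_of_le v.isPrime.ne_top hle).symm
  rw [h3]
  exact Fi.one

/-- Representation of elements modulo fifth powers. -/
theorem rep5 [IsSepClosed k'] (h5 : (5 : k') ≠ 0) {a0 : F} (h0 : a0 ≠ 0) (Z : Finset k')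
    (h : ∀ v : HeightOneSpectrum k'[X], (∀ θ ∈ Z, v ≠ pl θ) → om5 v a0 = 0) :
    ∃ c : F, c ≠ 0 ∧ a0 = c ^ 5 * algebraMap k'[X] F
      (∏ θ ∈ Z, (X - C θ) ^ (om5 (pl θ) a0).val) := by
  set e : k' → ℕ := fun θ => (om5 (pl θ) a0).val with he
  set q : k'[X] := ∏ θ ∈ Z, (X - C θ) ^ e θ with hq
  have hq0 : q ≠ 0 := prod_pow_ne_zero Z e
  have hqF : algebraMap k'[X] F q ≠ 0 := by simpa using hq0
  have hall : ∀ v : HeightOneSpectrum k'[X], om5 v (a0 * (algebraMap k'[X] F q) ^ 4) = 0 := by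
    intro v
    rw [om5_mul v h0 (pow_ne_zero 4 hqF), om5_pow]
    by_cases hv : ∃ θ ∈ Z, v = pl θ
    · obtain ⟨θ, hθ, rfl⟩ := hv
      rw [om5_poly θ hq0, hq, rootMult_prod, if_pos hθ, he]
      show om5 (pl θ) a0 + ((4 : ℕ) : ZMod 5) * (((om5 (pl θ) a0).val : ℕ) : ZMod 5) = 0
      rw [ZMod.natCast_val, ZMod.cast_id]
      have : ∀ y : ZMod 5, y + ((4 : ℕ) : ZMod 5) * y = 0 := by decide
      exact this _
    · push Not at hv
      rw [h v hv, hq, om5_prod_other hv e, mul_zero, add_zero]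
  obtain ⟨u, s, hu, hs, e'⟩ := fifth_F (mul_ne_zero h0 (pow_ne_zero 4 hqF)) hall
  haveI : NeZero ((5 : ℕ) : k') := ⟨by exact_mod_cast h5⟩
  obtain ⟨r, hr⟩ := IsSepClosed.exists_pow_nat_eq u 5
  have hr0 : r ≠ 0 := by
    rintro rfl
    rw [zero_pow (by norm_num)] at hr
    exact hu hr.symm
  have hrF : algebraMap k'[X] F (C r) ≠ 0 := by simpa using hr0
  refine ⟨algebraMap k'[X] F (C r) * s / algebraMap k'[X] F q,
    div_ne_zero (mul_ne_zero hrF hs) hqF, ?_⟩
  rw [← hr, C_pow, map_pow] at e'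
  rw [div_pow, mul_pow, ← e']
  field_simp

end fifths

section galois

variable {k k' K F Ω : Type} [Field k] [Field k'] [Algebra k k']
  [Field K] [Field F] [Algebra k'[X] F]
  [IsFractionRing k'[X] F] [Field Ω] [Algebra F Ω] [Algebra K Ω]

theorem om5_div_poly (θ : k') {n d : k'[X]} (hn : n ≠ 0) (hd : d ≠ 0) :
    om5 (pl θ) (algebraMap k'[X] F n / algebraMap k'[X] F d) =
      (rootMultiplicity θ n : ZMod 5) - (rootMultiplicity θ d : ZMod 5) := by
  have hd' : algebraMap k'[X] F d ≠ 0 := by simpa using hd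
  have hn' : algebraMap k'[X] F n ≠ 0 := by simpa using hn
  rw [om5_div _ hn' hd', om5_poly θ hn, om5_poly θ hd]

theorem om5_galois (τ : Ω ≃ₐ[K] Ω) (s : k' ≃ₐ[k] k') (hs : ∀ p : k'[X],
    τ (algebraMap F Ω (algebraMap k'[X] F p)) =
      algebraMap F Ω (algebraMap k'[X] F (p.map (s : k' →+* k')))) {x y : F} (hx : x ≠ 0)
    (hxy : τ (algebraMap F Ω x) = algebraMap F Ω y) (θ : k') :
    om5 (pl (s θ)) y = om5 (pl θ) x := by
  obtain ⟨n, d, hd, rfl⟩ := IsFractionRing.div_surjective (A := k'[X]) x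
  have hd0 : d ≠ 0 := nonZeroDivisors.ne_zero hd
  have hn0 : n ≠ 0 := by
    rintro rfl
    simp at hx
  have hinj : Function.Injective (s : k' →+* k') := s.injective
  have hy : y = algebraMap k'[X] F (n.map (s : k' →+* k')) /
      algebraMap k'[X] F (d.map (s : k' →+* k')) := by
    apply (algebraMap F Ω).injective
    rw [← hxy, map_div₀, map_div₀, hs, hs, map_div₀]
  rw [hy, om5_div_poly _ ((Polynomial.map_ne_zero_iff hinj).2 hn0)
    ((Polynomial.map_ne_zero_iff hinj).2 hd0), om5_div_poly _ hn0 hd0]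
  have e1 : rootMultiplicity (s θ) (n.map (s : k' →+* k')) = rootMultiplicity θ n :=
    (eq_rootMultiplicity_map hinj θ).symm
  have e2 : rootMultiplicity (s θ) (d.map (s : k' →+* k')) = rootMultiplicity θ d :=
    (eq_rootMultiplicity_map hinj θ).symm
  rw [e1, e2]

variable [Algebra k[X] K] [IsFractionRing k[X] K] [Algebra K F]

theorem om5_root (hKF : ∀ p : k[X], algebraMap K F (algebraMap k[X] K p) =
    algebraMap k'[X] F (p.map (algebraMap k k'))) (p : k[X]) (hp : p ≠ 0) (θ : k') :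
    om5 (pl θ) (algebraMap K F (algebraMap k[X] K p)) =
      (rootMultiplicity θ (p.map (algebraMap k k')) : ZMod 5) := by
  rw [hKF, om5_poly θ ((Polynomial.map_ne_zero_iff (algebraMap k k').injective).2 hp)]

end galois

section glob

variable {k k' F : Type} [Field k] [Field k'] [Algebra k k'] [IsSepClosure k k']
  [Field F] [Algebra k'[X] F] [IsFractionRing k'[X] F]

/-- The sum of the orders at the roots vanishes if the order at infinity does. -/
theorem sum_om5 [IsSepClosed k'] (h5 : (5 : k') ≠ 0) {a0 : F} (h0 : a0 ≠ 0) (Z : Finset k')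
    (h : ∀ v : HeightOneSpectrum k'[X], (∀ θ ∈ Z, v ≠ pl θ) → om5 v a0 = 0)
    (hi : (5 : ℤ) ∣ WithZero.log (vInf k' F a0)) : ∑ θ ∈ Z, om5 (pl θ) a0 = 0 := by
  obtain ⟨c, hc, e⟩ := rep5 h5 h0 Z h
  have hq0 : ∏ θ ∈ Z, (X - C θ) ^ (om5 (pl θ) a0).val ≠ (0 : k'[X]) :=
    prod_pow_ne_zero Z fun θ => (om5 (pl θ) a0).val
  have hdeg : (∏ θ ∈ Z, (X - C θ) ^ (om5 (pl θ) a0).val : k'[X]).natDegree =
      ∑ θ ∈ Z, (om5 (pl θ) a0).val := by
    rw [natDegree_prod _ _ fun θ _ => pow_ne_zero _ (X_sub_C_ne_zero θ)]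
    refine Finset.sum_congr rfl fun θ _ => ?_
    rw [natDegree_pow, natDegree_X_sub_C, mul_one]
  have hlog : WithZero.log (vInf k' F a0) =
      5 * WithZero.log (vInf k' F c) + ((∑ θ ∈ Z, (om5 (pl θ) a0).val : ℕ) : ℤ) := by
    have h1 : vInf k' F a0 = vInf k' F c ^ 5 * WithZero.exp
        (((∑ θ ∈ Z, (om5 (pl θ) a0).val : ℕ) : ℤ)) := by
      have h2 := congrArg (vInf k' F) e
      rw [map_mul, map_pow, vInf_poly hq0, hdeg] at h2
      exact h2
    rw [h1, WithZero.log_mul (pow_ne_zero 5 ((Valuation.ne_zero_iff _).2 hc)) (by simp),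
      WithZero.log_pow, WithZero.log_exp, nsmul_eq_mul]
    norm_num
  have h2 : (5 : ℤ) ∣ ((∑ θ ∈ Z, (om5 (pl θ) a0).val : ℕ) : ℤ) := by
    have := dvd_sub hi (Dvd.intro (WithZero.log (vInf k' F c)) rfl : (5 : ℤ) ∣ _)
    rwa [hlog, add_sub_cancel_left] at this
  have h3 : (((∑ θ ∈ Z, (om5 (pl θ) a0).val : ℕ) : ℤ) : ZMod 5) = 0 := by
    rw [ZMod.intCast_zmod_eq_zero_iff_dvd]
    exact_mod_cast h2
  rw [Int.cast_natCast, Nat.cast_sum] at h3
  rw [← h3]
  refine Finset.sum_congr rfl fun θ _ => ?_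
  rw [ZMod.natCast_val, ZMod.cast_id]

/-- The Galois group is transitive on the roots of an irreducible polynomial. -/
theorem trans_roots {π : k[X]} (hi : Irreducible π) {θ η : k'}
    (hθ : (π.map (algebraMap k k')).IsRoot θ) (hη : (π.map (algebraMap k k')).IsRoot η) :
    ∃ s : k' ≃ₐ[k] k', s θ = η := by
  haveI : IsGalois k k' := inferInstance
  have a1 : aeval θ π = 0 := by
    rw [IsRoot.def, eval_map_algebraMap] at hθ
    exact hθ
  have a2 : aeval η π = 0 := by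
    rw [IsRoot.def, eval_map_algebraMap] at hη
    exact hη
  have m1 := minpoly.eq_of_irreducible hi a1
  have m2 := minpoly.eq_of_irreducible hi a2
  have : minpoly k η = minpoly k θ := by rw [← m1, ← m2]
  rw [Normal.minpoly_eq_iff_mem_orbit] at this
  obtain ⟨s, hs⟩ := this
  exact ⟨s, hs⟩

theorem isRoot_gal (s : k' ≃ₐ[k] k') (p : k[X]) {θ : k'}
    (h : (p.map (algebraMap k k')).IsRoot θ) : (p.map (algebraMap k k')).IsRoot (s θ) := by
  rw [IsRoot.def, eval_map_algebraMap] at h ⊢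
  have h5 : aeval (s θ) p = s (aeval θ p) := Polynomial.aeval_algHom_apply s.toAlgHom θ p
  rw [h5, h, map_zero]

theorem sum_gal (s : k' ≃ₐ[k] k') (p : k[X]) (hp : p ≠ 0) (e : k' → ZMod 5) :
    ∑ θ ∈ (p.map (algebraMap k k')).roots.toFinset, e (s θ) =
      ∑ θ ∈ (p.map (algebraMap k k')).roots.toFinset, e θ := by
  have hp' : p.map (algebraMap k k') ≠ 0 :=
    (Polynomial.map_ne_zero_iff (algebraMap k k').injective).2 hp
  have hm : ∀ θ, θ ∈ (p.map (algebraMap k k')).roots.toFinset ↔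
      (p.map (algebraMap k k')).IsRoot θ := by
    intro θ
    rw [Multiset.mem_toFinset, mem_roots hp']
  refine Finset.sum_bij' (fun θ _ => s θ) (fun θ _ => s.symm θ) ?_ ?_ ?_ ?_ ?_
  · intro θ hθ
    rw [hm] at hθ ⊢
    exact isRoot_gal s p hθ
  · intro θ hθ
    rw [hm] at hθ ⊢
    exact isRoot_gal s.symm p hθ
  · intro θ _; simp
  · intro θ _; simp
  · intro θ _; rfl

theorem card_roots_sep {π : k[X]} (hi : Irreducible π) (hs : π.Separable) :
    (π.map (algebraMap k k')).roots.toFinset.card = π.natDegree := by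
  have hsplit : (π.map (algebraMap k k')).Splits := splits_of_sep hi.ne_zero (fun π' h1 h2 => by
    have : π'.Separable := hs.of_dvd h2
    exact this)
  have hnd : (π.map (algebraMap k k')).roots.Nodup := nodup_roots hs.map
  rw [Multiset.toFinset_card_of_nodup hnd, ← hsplit.natDegree_eq_card_roots, natDegree_map]

theorem glob5 (h5 : (5 : k) ≠ 0) {π₁ π₂ : k[X]} (i₁ : Irreducible π₁) (i₂ : Irreducible π₂)
    (s₁ : π₁.Separable) (s₂ : π₂.Separable) (d₁ : ¬ 5 ∣ π₁.natDegree) (d₂ : ¬ 5 ∣ π₂.natDegree)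
    (hc : IsCoprime π₁ π₂) {f g : F} (hf : f ≠ 0) (hg : g ≠ 0)
    (of : ∀ v : HeightOneSpectrum k'[X],
      (π₁ * π₂).map (algebraMap k k') ∉ v.asIdeal → om5 v f = 0)
    (og : ∀ v : HeightOneSpectrum k'[X],
      (π₁ * π₂).map (algebraMap k k') ∉ v.asIdeal → om5 v g = 0)
    (nf : (5 : ℤ) ∣ WithZero.log (vInf k' F f)) (ng : (5 : ℤ) ∣ WithZero.log (vInf k' F g))
    (gne : ∀ c : F, c ^ 5 ≠ g)
    (invg : ∀ (s : k' ≃ₐ[k] k') (θ : k'), om5 (pl (s θ)) g = om5 (pl θ) g)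
    (invf : ∀ s : k' ≃ₐ[k] k', ∃ i : ZMod 5, ∀ θ : k',
      om5 (pl (s θ)) f = om5 (pl θ) f + i * om5 (pl θ) g) :
    (∀ (s : k' ≃ₐ[k] k') (i : ZMod 5),
      (∀ θ : k', om5 (pl (s θ)) f = om5 (pl θ) f + i * om5 (pl θ) g) → i = 0) ∧
    ∃ (l : ℕ) (c : F), c ≠ 0 ∧ f = c ^ 5 * g ^ l := by
  haveI : IsSepClosed k' := IsSepClosure.sep_closed k
  haveI : Fact (Nat.Prime 5) := ⟨by norm_num⟩
  have injk := (algebraMap k k').injective
  have h5' : (5 : k') ≠ 0 := by
    rw [← map_ofNat (algebraMap k k') 5]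
    exact (_root_.map_ne_zero _).2 h5
  have n₁ : π₁ ≠ 0 := i₁.ne_zero
  have n₂ : π₂ ≠ 0 := i₂.ne_zero
  have nn : π₁ * π₂ ≠ 0 := mul_ne_zero n₁ n₂
  set P₁ := π₁.map (algebraMap k k') with hP₁
  set P₂ := π₂.map (algebraMap k k') with hP₂
  have N₁ : P₁ ≠ 0 := (Polynomial.map_ne_zero_iff injk).2 n₁
  have N₂ : P₂ ≠ 0 := (Polynomial.map_ne_zero_iff injk).2 n₂
  have sepdvd : ∀ π : k[X], Irreducible π → π ∣ π₁ * π₂ → π.Separable := by
    intro π hπ hd
    rcases hπ.prime.dvd_or_dvd hd with h | h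
    · exact s₁.of_dvd h
    · exact s₂.of_dvd h
  have hsplit : ((π₁ * π₂).map (algebraMap k k')).Splits := splits_of_sep nn sepdvd
  have hmap : (π₁ * π₂).map (algebraMap k k') = P₁ * P₂ := by rw [Polynomial.map_mul]
  rw [hmap] at hsplit of og
  set Z₁ : Finset k' := P₁.roots.toFinset with hZ₁
  set Z₂ : Finset k' := P₂.roots.toFinset with hZ₂
  have m₁ : ∀ θ, θ ∈ Z₁ ↔ P₁.IsRoot θ := fun θ => by
    rw [hZ₁, Multiset.mem_toFinset, mem_roots N₁]
  have m₂ : ∀ θ, θ ∈ Z₂ ↔ P₂.IsRoot θ := fun θ => by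
    rw [hZ₂, Multiset.mem_toFinset, mem_roots N₂]
  have hdis : Disjoint Z₁ Z₂ := by
    rw [Finset.disjoint_left]
    intro θ h1 h2
    rw [m₁, IsRoot.def] at h1
    rw [m₂, IsRoot.def] at h2
    obtain ⟨u, v, huv⟩ := hc.map (Polynomial.mapRingHom (algebraMap k k'))
    have := congrArg (Polynomial.eval θ) huv
    simp only [coe_mapRingHom, eval_add, eval_mul, ← hP₁, ← hP₂, h1, h2, mul_zero, add_zero,
      eval_one] at this
    exact zero_ne_one this
  have c₁ : Z₁.card = π₁.natDegree := card_roots_sep i₁ s₁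
  have c₂ : Z₂.card = π₂.natDegree := card_roots_sep i₂ s₂
  have D₁ : ((π₁.natDegree : ℕ) : ZMod 5) ≠ 0 := by
    rw [Ne, ZMod.natCast_eq_zero_iff]; exact d₁
  have D₂ : ((π₂.natDegree : ℕ) : ZMod 5) ≠ 0 := by
    rw [Ne, ZMod.natCast_eq_zero_iff]; exact d₂
  -- places outside the roots
  have hout : ∀ (x : F), (∀ v : HeightOneSpectrum k'[X], P₁ * P₂ ∉ v.asIdeal → om5 v x = 0) →
      ∀ v : HeightOneSpectrum k'[X], (∀ θ ∈ Z₁ ∪ Z₂, v ≠ pl θ) → om5 v x = 0 := by
    intro x hx v hv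
    apply hx
    intro hm
    obtain ⟨θ, hθ, h4⟩ := exists_root_of_mem (mul_ne_zero N₁ N₂) hsplit hm
    refine hv θ ?_ h4
    rw [roots_mul (mul_ne_zero N₁ N₂), Multiset.mem_add] at hθ
    rw [Finset.mem_union]
    rcases hθ with h | h
    · left; exact Multiset.mem_toFinset.2 h
    · right; exact Multiset.mem_toFinset.2 h
  have sumf := sum_om5 h5' hf (Z₁ ∪ Z₂) (hout f of) nf
  have sumg := sum_om5 h5' hg (Z₁ ∪ Z₂) (hout g og) ng
  rw [Finset.sum_union hdis] at sumf sumg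
  -- constant values
  have const : ∀ (x : F), (∀ (s : k' ≃ₐ[k] k') (θ : k'), om5 (pl (s θ)) x = om5 (pl θ) x) →
      ∃ p₁ p₂ : ZMod 5, (∀ θ ∈ Z₁, om5 (pl θ) x = p₁) ∧ (∀ θ ∈ Z₂, om5 (pl θ) x = p₂) := by
    intro x hx
    have key : ∀ (π : k[X]), Irreducible π → ∃ p : ZMod 5, ∀ θ : k',
        (π.map (algebraMap k k')).IsRoot θ → om5 (pl θ) x = p := by
      intro π hπ
      by_cases hex : ∃ θ₀ : k', (π.map (algebraMap k k')).IsRoot θ₀
      · obtain ⟨θ₀, h₀⟩ := hex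
        refine ⟨om5 (pl θ₀) x, fun θ hθ => ?_⟩
        obtain ⟨s, rfl⟩ := trans_roots hπ h₀ hθ
        exact hx s θ₀
      · exact ⟨0, fun θ hθ => absurd ⟨θ, hθ⟩ hex⟩
    obtain ⟨p₁, hp₁⟩ := key π₁ i₁
    obtain ⟨p₂, hp₂⟩ := key π₂ i₂
    exact ⟨p₁, p₂, fun θ hθ => hp₁ θ ((m₁ θ).1 hθ), fun θ hθ => hp₂ θ ((m₂ θ).1 hθ)⟩
  obtain ⟨p₁, p₂, hp₁, hp₂⟩ := const g invg
  rw [Finset.sum_congr rfl hp₁, Finset.sum_congr rfl hp₂, Finset.sum_const, Finset.sum_const,
    c₁, c₂, nsmul_eq_mul, nsmul_eq_mul] at sumg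
  have pne : p₁ ≠ 0 := by
    intro h1
    rw [h1, mul_zero, zero_add] at sumg
    have h2 : p₂ = 0 := (mul_eq_zero.1 sumg).resolve_left D₂
    obtain ⟨c, hc0, e⟩ := rep5 h5' hg ∅ (fun v _ => by
      by_cases hv : ∀ θ ∈ Z₁ ∪ Z₂, v ≠ pl θ
      · exact hout g og v hv
      · push Not at hv
        obtain ⟨θ, hθ, rfl⟩ := hv
        rcases Finset.mem_union.1 hθ with h | h
        · rw [hp₁ θ h, h1]
        · rw [hp₂ θ h, h2])
    rw [Finset.prod_empty, map_one, mul_one] at e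
    exact gne c e.symm
  have claim1 : ∀ (s : k' ≃ₐ[k] k') (i : ZMod 5),
      (∀ θ : k', om5 (pl (s θ)) f = om5 (pl θ) f + i * om5 (pl θ) g) → i = 0 := by
    intro s i hi
    have h1 := sum_gal s π₁ n₁ (fun θ => om5 (pl θ) f)
    rw [← hP₁, ← hZ₁] at h1
    have h2 : ∑ θ ∈ Z₁, om5 (pl (s θ)) f = ∑ θ ∈ Z₁, om5 (pl θ) f + ∑ θ ∈ Z₁, i * p₁ := by
      rw [← Finset.sum_add_distrib]
      refine Finset.sum_congr rfl fun θ hθ => ?_
      rw [hi θ, hp₁ θ hθ]
    rw [h1, left_eq_add, Finset.sum_const, c₁, nsmul_eq_mul] at h2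
    rcases mul_eq_zero.1 h2 with h | h
    · exact absurd h D₁
    · exact (mul_eq_zero.1 h).resolve_right pne
  refine ⟨claim1, ?_⟩
  obtain ⟨q₁, q₂, hq₁, hq₂⟩ := const f (fun s θ => by
    obtain ⟨i, hi⟩ := invf s
    have := claim1 s i hi
    rw [hi θ, this, zero_mul, add_zero])
  rw [Finset.sum_congr rfl hq₁, Finset.sum_congr rfl hq₂, Finset.sum_const, Finset.sum_const,
    c₁, c₂, nsmul_eq_mul, nsmul_eq_mul] at sumf
  obtain ⟨l, hl⟩ : ∃ l : ZMod 5, l = q₁ / p₁ := ⟨_, rfl⟩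
  have e1 : q₁ = l * p₁ := by rw [hl, div_mul_cancel₀ _ pne]
  have e2 : q₂ = l * p₂ := by
    apply mul_left_cancel₀ D₂
    rw [e1] at sumf
    linear_combination sumf - l * sumg
  have hgl : g ^ l.val ≠ 0 := pow_ne_zero _ hg
  have hlv : ((l.val : ℕ) : ZMod 5) = l := by rw [ZMod.natCast_val, ZMod.cast_id]
  obtain ⟨c, hc0, e⟩ := rep5 h5' (div_ne_zero hf hgl) ∅ (fun v _ => by
    rw [om5_div v hf hgl, om5_pow, hlv]
    by_cases hv : ∀ θ ∈ Z₁ ∪ Z₂, v ≠ pl θ
    · rw [hout g og v hv, hout f of v hv, mul_zero, sub_zero]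
    · push Not at hv
      obtain ⟨θ, hθ, rfl⟩ := hv
      rcases Finset.mem_union.1 hθ with h | h
      · rw [hp₁ θ h, hq₁ θ h, e1, sub_self]
      · rw [hp₂ θ h, hq₂ θ h, e2, sub_self])
  rw [Finset.prod_empty, map_one, mul_one] at e
  exact ⟨l.val, c, hc0, by rw [← e, div_mul_cancel₀ _ hgl]⟩

end glob

end Pool.Agent.Helper23K9.T5
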