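import Pool.Agent.Helper23K9.T5.Kd
import Pool.Agent.Helper23K9.T5.Glob

/-!
Fifth roots and characters: products, powers, uniqueness, Galois conjugates.
-/

set_option autoImplicit false
set_option linter.all false

open Polynomial IsDedekindDomain WeierstrassCurve WeierstrassCurve.Affine
open scoped Classical

namespace Pool.Agent.Helper23K9.T5

open Pool.Agent.TH115.GD (vInf pl Pt act incl rs ak IsCoc LocTriv Sep Comp IsTower Preserves)

section ktr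

theorem zval_add {Ω : Type} [Field Ω] {z : Ω} (hz : z ^ 5 = 1) (a b : ZMod 5) :
    z ^ (a + b).val = z ^ a.val * z ^ b.val := by
  rw [ZMod.val_add, ← pow_add, ← pow_eq_pow_mod _ hz]

theorem zval_mul {Ω : Type} [Field Ω] {z : Ω} (hz : z ^ 5 = 1) (n : ℕ) (a : ZMod 5) :
    z ^ ((n : ZMod 5) * a).val = (z ^ a.val) ^ n := by
  rw [ZMod.val_mul, ZMod.val_natCast, ← pow_eq_pow_mod _ hz, ← pow_mul, mul_comm,
    pow_eq_pow_mod _ hz, pow_eq_pow_mod (a.val * n) hz]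
  congr 1
  simp [Nat.mul_mod]

theorem zval_inj {Ω : Type} [Field Ω] {z : Ω} (h5 : (5 : Ω) ≠ 0) (hz : IsZ z) {a b : ZMod 5}
    (h : z ^ a.val = z ^ b.val) : a = b := by
  haveI : Fact (Nat.Prime 5) := ⟨by norm_num⟩
  have ho : orderOf z = 5 := by
    apply orderOf_eq_prime hz.five
    rintro rfl
    unfold IsZ at hz
    apply h5
    linear_combination hz
  have h1 := IsPrimitiveRoot.orderOf z
  rw [ho] at h1
  exact ZMod.val_injective 5 (h1.pow_inj a.val_lt b.val_lt h)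

theorem zroot {Ω : Type} [Field Ω] {z w : Ω} (hz : IsZ z) (hw : w ^ 5 = 1) :
    ∃ n : ℕ, w = z ^ n := by
  have h : (w - 1) * (w - z) * (w - z ^ 2) * (w - z ^ 3) * (w - z ^ 4) = 0 := by
    unfold IsZ at hz
    linear_combination hw + (-z^6 + z^5 - z + 1 + w*z^6 - w^2*z^5 - w^2*z^3 + w^3*z^3 + w^3*z - w^4) * hz
  rcases mul_eq_zero.1 h with h | h
  · rcases mul_eq_zero.1 h with h | h
    · rcases mul_eq_zero.1 h with h | h
      · rcases mul_eq_zero.1 h with h | h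
        · exact ⟨0, by rw [pow_zero]; exact sub_eq_zero.1 h⟩
        · exact ⟨1, by rw [pow_one]; exact sub_eq_zero.1 h⟩
      · exact ⟨2, sub_eq_zero.1 h⟩
    · exact ⟨3, sub_eq_zero.1 h⟩
  · exact ⟨4, sub_eq_zero.1 h⟩

variable {K F Ω : Type} [Field K] [Field F] [Field Ω] [Algebra K F] [Algebra F Ω] [Algebra K Ω]
  [IsScalarTower K F Ω]

variable {z : Ω} {χ ψ : (Ω ≃ₐ[F] Ω) → ZMod 5} {s t : Ω} {f g : F}

theorem KD.fne (h : KD z χ s f) : f ≠ 0 := by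
  rintro rfl
  have := h.five
  rw [map_zero] at this
  exact h.ne (pow_eq_zero_iff (by norm_num) |>.1 this)

theorem KD.mul (hz : z ^ 5 = 1) (h : KD z χ s f) (h' : KD z ψ t g) :
    KD z (fun σ => χ σ + ψ σ) (s * t) (f * g) := by
  refine ⟨mul_ne_zero h.ne h'.ne, by rw [mul_pow, h.five, h'.five, map_mul], fun σ => ?_⟩
  rw [map_mul, h.act, h'.act, zval_add hz]
  ring

theorem KD.pow (hz : z ^ 5 = 1) (h : KD z χ s f) (n : ℕ) :
    KD z (fun σ => n * χ σ) (s ^ n) (f ^ n) := by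
  refine ⟨pow_ne_zero _ h.ne, by rw [← pow_mul, mul_comm, pow_mul, h.five, map_pow], fun σ => ?_⟩
  rw [map_pow, h.act, zval_mul hz, mul_pow]

theorem KD.same [IsGalois F Ω] (h : KD z χ s f) (h' : KD z χ t g) : ∃ c : F, c ≠ 0 ∧ g = c ^ 5 * f := by
  have hfix : ∀ σ : Ω ≃ₐ[F] Ω, σ (t / s) = t / s := by
    intro σ
    have h0 : z ^ (χ σ).val ≠ 0 := by
      intro h0
      have h1 := h.act σ
      rw [h0, zero_mul] at h1
      exact h.ne ((map_eq_zero σ).1 h1)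
    rw [map_div₀, h.act, h'.act, mul_div_mul_left _ _ h0]
  obtain ⟨c, hc⟩ := (InfiniteGalois.mem_range_algebraMap_iff_fixed (k := F) (K := Ω) (t / s)).2 hfix
  refine ⟨c, ?_, ?_⟩
  · rintro rfl
    rw [map_zero] at hc
    exact div_ne_zero h'.ne h.ne hc.symm
  · apply (algebraMap F Ω).injective
    rw [map_mul, map_pow, hc, ← h.five, ← h'.five, div_pow, div_mul_cancel₀ _ (pow_ne_zero 5 h.ne)]

theorem KD.char (h5 : (5 : Ω) ≠ 0) (hz : IsZ z) (hzF : ∀ σ : Ω ≃ₐ[F] Ω, σ z = z)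
    (h : KD z χ s f) (h' : KD z ψ t g) {c : F} (e : g = c ^ 5 * f) (σ : Ω ≃ₐ[F] Ω) :
    χ σ = ψ σ := by
  have hc : c ≠ 0 := by
    rintro rfl
    apply h'.fne
    rw [e]; ring
  have hcs : algebraMap F Ω c * s ≠ 0 := mul_ne_zero (by simpa using hc) h.ne
  have hw : (t / (algebraMap F Ω c * s)) ^ 5 = 1 := by
    rw [div_pow, h'.five, mul_pow, h.five, e, map_mul, map_pow]
    apply div_self
    rw [← h.five, ← mul_pow]
    exact pow_ne_zero _ hcs
  obtain ⟨n, hn⟩ := zroot hz hw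
  have ht : t = z ^ n * (algebraMap F Ω c * s) := by
    rw [← hn, div_mul_cancel₀ _ hcs]
  have h1 : σ t = z ^ (χ σ).val * t := by
    rw [ht, map_mul, map_pow, hzF, map_mul, h.act, σ.commutes]
    ring
  have h2 := h'.act σ
  rw [h1] at h2
  exact zval_inj h5 hz (mul_right_cancel₀ h'.ne h2)

theorem KD.gal [IsGalois F Ω] (hpres : Preserves K F Ω) (h : KD z χ s f) {τ : Ω ≃ₐ[K] Ω} (hτ : τ z = z)
    {χ' : (Ω ≃ₐ[F] Ω) → ZMod 5}
    (hχ : ∀ σ σ' : Ω ≃ₐ[F] Ω, (∀ x, τ (σ' x) = σ (τ x)) → χ' σ = χ σ') :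
    ∃ y : F, τ (algebraMap F Ω f) = algebraMap F Ω y ∧ KD z χ' (τ s) y := by
  obtain ⟨y, hy⟩ := hpres τ f
  refine ⟨y, hy, ?_, ?_, fun σ => ?_⟩
  · intro h0
    exact h.ne ((map_eq_zero τ).1 h0)
  · rw [← map_pow, h.five, hy]
  · obtain ⟨σ', hσ'⟩ : ∃ σ' : Ω ≃ₐ[F] Ω, ∀ x, τ (σ' x) = σ (τ x) := by
      let e : Ω ≃+* Ω := (τ.toRingEquiv.trans σ.toRingEquiv).trans τ.symm.toRingEquiv
      refine ⟨AlgEquiv.ofRingEquiv (f := e) ?_, ?_⟩
      · intro x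
        obtain ⟨y, hy⟩ := hpres τ x
        show τ.symm (σ (τ (algebraMap F Ω x))) = algebraMap F Ω x
        rw [hy, σ.commutes, ← hy, AlgEquiv.symm_apply_apply]
      · intro x
        show τ (τ.symm (σ (τ x))) = σ (τ x)
        rw [AlgEquiv.apply_symm_apply]
    rw [← hσ', h.act, map_mul, map_pow, hτ, hχ σ σ' hσ']

variable {k k' : Type} [Field k] [Field k'] [Algebra k k'] [Algebra k'[X] F]
  [IsFractionRing k'[X] F]

theorem KD.om [IsGalois F Ω] (hpres : Preserves K F Ω) (hz : z ^ 5 = 1) (h : KD z χ s f) (h' : KD z ψ t g)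
    {τ : Ω ≃ₐ[K] Ω} (hτ : τ z = z) {s0 : k' ≃ₐ[k] k'} (hs : ∀ p : k'[X],
      τ (algebraMap F Ω (algebraMap k'[X] F p)) =
        algebraMap F Ω (algebraMap k'[X] F (p.map (s0 : k' →+* k')))) {j : ZMod 5}
    (hχ : ∀ σ σ' : Ω ≃ₐ[F] Ω, (∀ x, τ (σ' x) = σ (τ x)) → χ σ' = χ σ + j * ψ σ) (θ : k') :
    om5 (pl (s0 θ)) f + j * om5 (pl (s0 θ)) g = om5 (pl θ) f := by
  obtain ⟨y, hy, hyK⟩ := h.gal hpres hτ (χ' := fun σ => χ σ + j * ψ σ)
    (fun σ σ' e => (hχ σ σ' e).symm)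
  have hj : ((j.val : ℕ) : ZMod 5) = j := ZMod.natCast_zmod_val j
  have h2 : KD z (fun σ => χ σ + j * ψ σ) (s * t ^ j.val) (f * g ^ j.val) := by
    have := h.mul hz (h'.pow hz j.val)
    rw [hj] at this
    exact this
  obtain ⟨c, hc, e⟩ := h2.same hyK
  have h3 := om5_galois τ s0 hs h.fne hy θ
  rw [e, om5_fifth _ hc (mul_ne_zero h.fne (pow_ne_zero _ h'.fne)),
    om5_mul _ h.fne (pow_ne_zero _ h'.fne), om5_pow, hj] at h3
  exact h3

end ktr

end Pool.Agent.Helper23K9.T5
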