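import Pool.Agent.Helper23K9.T5.Pg
import Pool.Agent.Helper23K9.T5.Ktr
import Pool.Agent.Helper7K9.T3.Step

/-!
Selmer classes.
-/

set_option autoImplicit false
set_option linter.all false

open Polynomial IsDedekindDomain WeierstrassCurve WeierstrassCurve.Affine
open scoped Classical

namespace Pool.Agent.Helper23K9.T5

open Pool.Agent.TH115.GD (vInf pl Pt act incl rs ak IsCoc LocTriv Sep Comp IsTower Preserves
  LocallyTrivial lt_subT act_act cob_isCoc)
open Pool.Agent.Helper7K9.T3 (TateAt IsTateClass IsTC IsInv)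

section sel

variable {k' K F : Type} [Field k'] [Field K] [Field F] [Algebra K F] [Algebra k'[X] F]
  [IsFractionRing k'[X] F] {W : WeierstrassCurve K}

/-- Classes of order five which are everywhere locally trivial and fixed by the Galois group
of `K`. -/
structure Slm (k' : Type) [Field k'] [Algebra k'[X] F] [IsFractionRing k'[X] F]
    (W : WeierstrassCurve K) (f : (Sep F ≃ₐ[F] Sep F) → Pt W (Sep F)) : Prop where
  coc : IsCoc W f
  five : ∀ σ, 5 • f σ = 0
  loc : LocallyTrivial k' W f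
  inv : ∀ τ : Sep F ≃ₐ[K] Sep F, ∃ Q : Pt W (Sep F), (∃ N : ℕ, 5 ^ N • Q = 0) ∧
    ∀ σ σ' : Sep F ≃ₐ[F] Sep F, (∀ x, τ (σ' x) = σ (τ x)) →
      act W (ak τ) (f σ') - f σ = act W (rs K σ) Q - Q

theorem Slm.ofTate {c : ℕ → (Sep F ≃ₐ[F] Sep F) → Pt W (Sep F)} (hc : IsTateClass 5 k' W c) :
    Slm k' W (c 1) := by
  have hcc := hc.tc
  refine ⟨hcc.coc 1, fun σ => by rw [hcc.mul 0 σ, hcc.zero], hc.loc 1, fun τ => ?_⟩
  obtain ⟨N, Q, hQ, hi⟩ := hc.inv τ
  have hpow : ∀ (n : ℕ) (σ), 5 ^ n • c (n + 1) σ = c 1 σ := by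
    intro n
    induction n with
    | zero => intro σ; rw [pow_zero, one_smul]
    | succ n ih =>
      intro σ
      rw [pow_succ, mul_smul, hcc.mul, ih]
  have hQpow : ∀ (n : ℕ), 5 ^ n • Q n = 0 := by
    intro n
    induction n with
    | zero => rw [hQ.zero, smul_zero]
    | succ n ih =>
      rw [pow_succ, mul_smul, hQ.mul, ih]
  refine ⟨Q (N + 1), ⟨N + 1, hQpow _⟩, fun σ σ' hr => ?_⟩
  rw [← hi (N + 1) σ σ' hr, smul_sub, ← map_nsmul, hpow, hpow]

/-- A fifth part of a rational point is fixed up to points of order five. -/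
theorem part_five {R : Pt W (Sep F)} {Q : Pt W K} (hR : 5 • R = act W (incl K K (Sep F)) Q)
    (φ : Sep F →ₐ[K] Sep F) : 5 • (act W φ R - R) = 0 := by
  have h1 : φ.comp (incl K K (Sep F)) = incl K K (Sep F) := AlgHom.ext fun x => φ.commutes x
  rw [smul_sub, ← map_nsmul, hR, act_act, h1, sub_self]

theorem Slm.sub {f : (Sep F ≃ₐ[F] Sep F) → Pt W (Sep F)} (hf : Slm k' W f)
    {R : Pt W (Sep F)} {Q : Pt W K} (hR : 5 • R = act W (incl K K (Sep F)) Q) :
    Slm k' W (fun σ => f σ - (act W (rs K σ) R - R)) := by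
  refine ⟨hf.coc.sub _ (cob_isCoc _ _), fun σ => ?_, lt_subT hf.loc R, fun τ => ?_⟩
  · rw [smul_sub, hf.five, part_five hR, sub_zero]
  · obtain ⟨S, ⟨N, hN⟩, hrel⟩ := hf.inv τ
    refine ⟨S - (act W (ak τ) R - R), ⟨N + 1, ?_⟩, fun σ σ' h => ?_⟩
    · rw [smul_sub]
      have h5 : 5 ^ (N + 1) • S = 0 := by rw [pow_succ', mul_smul, hN, smul_zero]
      have h6 : 5 ^ (N + 1) • (act W (ak τ) R - R) = 0 := by
        rw [pow_succ, mul_smul, part_five hR, smul_zero]
      rw [h5, h6, sub_zero]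
    · have h1 := hrel σ σ' h
      have hcomp : act W (ak τ) (act W (rs K σ') R) = act W (rs K σ) (act W (ak τ) R) := by
        have h5 : (ak τ).comp (rs K σ') = (rs K σ).comp (ak τ) := AlgHom.ext fun x => h x
        rw [act_act, act_act, h5]
      show act W (ak τ) (f σ' - (act W (rs K σ') R - R)) - (f σ - (act W (rs K σ) R - R)) =
        act W (rs K σ) (S - (act W (ak τ) R - R)) - (S - (act W (ak τ) R - R))
      rw [map_sub (act W (ak τ)), map_sub (act W (ak τ)), hcomp, map_sub (act W (rs K σ)) S,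
        map_sub (act W (rs K σ))]
      have h6 : act W (ak τ) (f σ') = f σ + (act W (rs K σ) S - S) := by
        rw [← h1]; abel
      rw [h6]
      abel

theorem Slm.ofPt {f : (Sep F ≃ₐ[F] Sep F) → Pt W (Sep F)} (hf : LocallyTrivial k' W f)
    (hf0 : ∀ σ, f σ = 0) {R : Pt W (Sep F)} {Q : Pt W K}
    (hR : 5 • R = act W (incl K K (Sep F)) Q) :
    Slm k' W (fun σ : Sep F ≃ₐ[F] Sep F => act W (rs K σ) R - R) := by
  have h0 : Slm k' W f := by
    refine ⟨⟨?_, fun σ τ => by rw [hf0, hf0, hf0, map_zero, add_zero]⟩, fun σ => by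
      rw [hf0, smul_zero], hf, fun τ => ⟨0, ⟨0, by rw [smul_zero]⟩, fun σ σ' _ => by
        rw [hf0, hf0, map_zero, map_zero, sub_self]⟩⟩
    have : f = fun _ => 0 := funext hf0
    rw [this]
    exact IsLocallyConstant.const 0
  have h1 := h0.sub (R := -R) (Q := -Q) (by rw [smul_neg, hR, map_neg])
  have h2 : (fun σ => f σ - (act W (rs K σ) (-R) - -R)) =
      fun σ => act W (rs K σ) R - R := by
    funext σ
    rw [hf0, map_neg]; abel
  rwa [h2] at h1

end sel

section evc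

variable {k' F Ω : Type} [Field k'] [Field F] [Field Ω] [Algebra F Ω] [IsGalois F Ω]
  [Algebra k'[X] F] [IsFractionRing k'[X] F]

/-- The divisor modulo five of the Kummer generator of a character. -/
noncomputable def evc (z : Ω) (χ : (Ω ≃ₐ[F] Ω) → ZMod 5) (θ : k') : ZMod 5 :=
  if h : ∃ (f : F) (s : Ω), KD z χ s f then om5 (pl θ) h.choose else 0

variable {z : Ω} {χ ψ : (Ω ≃ₐ[F] Ω) → ZMod 5} {s t : Ω} {f g : F}

theorem evc_eq (h : KD z χ s f) (θ : k') : evc z χ θ = om5 (pl θ) f := by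
  have h1 : ∃ (f : F) (s : Ω), KD z χ s f := ⟨f, s, h⟩
  unfold evc
  rw [dif_pos h1]
  obtain ⟨s', hs'⟩ := h1.choose_spec
  obtain ⟨c, hc, e⟩ := h.same hs'
  rw [e, om5_fifth _ hc h.fne]

theorem evc_add (hz : z ^ 5 = 1) (h : KD z χ s f) (h' : KD z ψ t g) (θ : k') :
    evc z (fun σ => χ σ + ψ σ) θ = evc z χ θ + evc z ψ θ := by
  rw [evc_eq (h.mul hz h'), evc_eq h, evc_eq h', om5_mul _ h.fne h'.fne]

theorem evc_smul (hz : z ^ 5 = 1) (h : KD z χ s f) (c : ZMod 5) (θ : k') :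
    evc z (fun σ => c * χ σ) θ = c * evc z χ θ := by
  have h1 := h.pow hz c.val
  have h2 : ((c.val : ℕ) : ZMod 5) = c := by rw [ZMod.natCast_val, ZMod.cast_id]
  rw [h2] at h1
  rw [evc_eq h1, evc_eq h, om5_pow, h2]

end evc

end Pool.Agent.Helper23K9.T5
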