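import Pool.Agent.Helper23K9.T5.Pc

/-!
Places, in general.
-/

set_option autoImplicit false
set_option linter.all false

open Polynomial IsDedekindDomain WeierstrassCurve WeierstrassCurve.Affine
open scoped Classical

namespace Pool.Agent.Helper23K9.T5

open Pool.Agent.TH115.GD (vInf wInf wFin AtInf CompInf pl Pt act incl rs ak IsCoc LocTriv Sep Comp
  IsTower Preserves LocallyTrivial lt_subT)

section plc

variable {k : Type} [Field k] {z0 : k} {β γ : k[X]}

/-- `b ≠ 0`, ... -/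
theorem fldG {K : Type} [Field K] [Algebra k[X] K] [IsFractionRing k[X] K] (h5 : (5 : k) ≠ 0)
    (hz : IsZ z0) (hp : β ≠ 0 ∧ γ ≠ 0 ∧ β - C (ep z0) * γ ≠ 0 ∧
      β - C (ep' z0) * γ ≠ 0) {b z : K}
    (hb : b = algebraMap k[X] K β / algebraMap k[X] K γ) (hzz : z = algebraMap k[X] K (C z0)) :
    (5 : K) ≠ 0 ∧ b ≠ 0 ∧ b ^ 2 - 11 * b - 1 ≠ 0 ∧ IsZ z ∧
    AA z b = algebraMap k[X] K (C (2 * eta z0 - 1) * (β - C (ep z0) * γ)) / algebraMap k[X] K γ ∧
    BB z b = algebraMap k[X] K (C (2 * eta' z0 - 1) * (β - C (ep' z0) * γ)) / algebraMap k[X] K γ ∧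
    2 * eta z0 - 1 ≠ 0 ∧ 2 * eta' z0 - 1 ≠ 0 ∧ 5 + 3 * eta z0 ≠ 0 := by
  obtain ⟨p1, p2, p3, p4⟩ := hp
  obtain ⟨q1, q2, q3, -⟩ := isZ_ne_aux hz
  have inj := IsFractionRing.injective k[X] K
  have nz : ∀ {p : k[X]}, p ≠ 0 → algebraMap k[X] K p ≠ 0 := by
    intro p hp h
    exact hp (inj (h.trans (map_zero _).symm))
  set f : k →+* K := (algebraMap k[X] K).comp C with hf
  have hfC : ∀ c : k, algebraMap k[X] K (C c) = f c := fun c => rfl
  have hzf : z = f z0 := hzz
  have hG0 := nz p2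
  have hzK : IsZ z := by rw [hzf]; exact hz.map f
  have hAA : AA z b =
      algebraMap k[X] K (C (2 * eta z0 - 1) * (β - C (ep z0) * γ)) / algebraMap k[X] K γ := by
    unfold AA
    rw [(algebraMap k[X] K).map_mul, (algebraMap k[X] K).map_sub, (algebraMap k[X] K).map_mul,
      hfC, hfC, hb, map_ep, f.map_sub, f.map_mul, map_eta, map_one,
      map_ofNat, ← hzf]
    field_simp
  have hBB : BB z b =
      algebraMap k[X] K (C (2 * eta' z0 - 1) * (β - C (ep' z0) * γ)) / algebraMap k[X] K γ := by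
    unfold BB
    rw [(algebraMap k[X] K).map_mul, (algebraMap k[X] K).map_sub, (algebraMap k[X] K).map_mul,
      hfC, hfC, hb, map_ep', f.map_sub, f.map_mul, map_eta', map_one,
      map_ofNat, ← hzf]
    field_simp
  have hA0 : AA z b ≠ 0 := by
    rw [hAA]
    exact div_ne_zero (nz (mul_ne_zero (C_ne_zero.2 q1) p3)) hG0
  have hB0 : BB z b ≠ 0 := by
    rw [hBB]
    exact div_ne_zero (nz (mul_ne_zero (C_ne_zero.2 q2) p4)) hG0
  refine ⟨?_, ?_, ?_, hzK, hAA, hBB, q1, q2, q3⟩
  · rw [← map_ofNat f 5]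
    exact (_root_.map_ne_zero _).2 h5
  · rw [hb]
    exact div_ne_zero (nz p1) hG0
  · intro h
    have h1 := hzK.eta_mul
    have h2 := hzK.eta_add
    have h3 : AA z b * BB z b = 0 := by
      have e1 : (2 * eta z - 1) * (2 * eta' z - 1) = -1 := by linear_combination 4 * h1 - 2 * h2
      have e2 : (b - ep z) * (b - ep' z) = 0 := by
        unfold ep ep'
        linear_combination h + 25 * h1 + (40 - 5 * b) * h2
      unfold AA BB
      rw [show (2 * eta z - 1) * (b - ep z) * ((2 * eta' z - 1) * (b - ep' z)) =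
        ((2 * eta z - 1) * (2 * eta' z - 1)) * ((b - ep z) * (b - ep' z)) by ring, e2, mul_zero]
    exact mul_ne_zero hA0 hB0 h3

/-- Valuations at the places where `b` is a unit. -/
theorem val1G {K L : Type} [Field K] [Algebra k[X] K] [IsFractionRing k[X] K] [Field L]
    [Algebra K L] (h5 : (5 : k) ≠ 0)
    (hz : IsZ z0) (hp : β ≠ 0 ∧ γ ≠ 0 ∧ β - C (ep z0) * γ ≠ 0 ∧
      β - C (ep' z0) * γ ≠ 0) {b z : K}
    (hb : b = algebraMap k[X] K β / algebraMap k[X] K γ) (hzz : z = algebraMap k[X] K (C z0))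
    (w : Valuation L Zm) (hw : ∀ c : k, c ≠ 0 → w (algebraMap K L (algebraMap k[X] K (C c))) = 1)
    (h : w (algebraMap K L (algebraMap k[X] K β)) = w (algebraMap K L (algebraMap k[X] K γ))) :
    AA (algebraMap K L z) (algebraMap K L (bb (eta z) (AA z b) (BB z b))) ≠ 0 ∧
    w (AA (algebraMap K L z) (algebraMap K L (bb (eta z) (AA z b) (BB z b)))) =
      w (BB (algebraMap K L z) (algebraMap K L (bb (eta z) (AA z b) (BB z b)))) := by
  obtain ⟨f1, f2, f3, hzK, hAA, hBB, q1, q2, q3⟩ := fldG h5 hz hp hb hzz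
  obtain ⟨p1, p2, p3, p4⟩ := hp
  obtain ⟨r1, r2, r3, r4⟩ := isZ_ne_aux hz
  obtain ⟨s1, s2, -⟩ := isZ_ne_aux5 h5 hz
  have inj := IsFractionRing.injective k[X] K
  have nz : ∀ {p : k[X]}, p ≠ 0 → algebraMap k[X] K p ≠ 0 := by
    intro p hp h
    exact hp (inj (h.trans (map_zero _).symm))
  have hA0 : AA z b ≠ 0 := by
    rw [hAA]
    exact div_ne_zero (nz (mul_ne_zero (C_ne_zero.2 q1) p3)) (nz p2)
  obtain ⟨e1, e2⟩ := bb_id hzK hA0
  set g : K →+* L := algebraMap K L with hg
  have hAm : ∀ x : K, AA (g z) (g x) = g (AA z x) := by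
    intro x
    unfold AA
    rw [map_mul, map_sub, map_sub, map_mul, map_one, map_ofNat, map_ep, map_eta]
  have hBm : ∀ x : K, BB (g z) (g x) = g (BB z x) := by
    intro x
    unfold BB
    rw [map_mul, map_sub, map_sub, map_mul, map_one, map_ofNat, map_ep', map_eta']
  set f : k →+* K := (algebraMap k[X] K).comp C with hf
  have hzf : z = f z0 := hzz
  have c1 : (2 * eta z - 1) * 5 * (eta z + 2) * (2 * eta z + 1) =
      f ((2 * eta z0 - 1) * 5 * (eta z0 + 2) * (2 * eta z0 + 1)) := by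
    rw [hzf, ← map_eta]
    simp only [map_mul, map_sub, map_add, map_one, map_ofNat]
  have c2 : -((2 * eta' z - 1) * 5 * (4 * eta z - 3)) =
      f (-((2 * eta' z0 - 1) * 5 * (4 * eta z0 - 3))) := by
    rw [hzf, ← map_eta, ← map_eta']
    simp only [map_neg, map_mul, map_sub, map_add, map_one, map_ofNat]
  have n1 : (2 * eta z0 - 1) * 5 * (eta z0 + 2) * (2 * eta z0 + 1) ≠ 0 :=
    mul_ne_zero (mul_ne_zero (mul_ne_zero r1 h5) r4) s1
  have n2 : -((2 * eta' z0 - 1) * 5 * (4 * eta z0 - 3)) ≠ 0 :=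
    neg_ne_zero.2 (mul_ne_zero (mul_ne_zero r2 h5) s2)
  have hwb : w (g b) = 1 := by
    rw [hb, map_div₀, map_div₀, h, div_self]
    rw [Valuation.ne_zero_iff]
    exact (_root_.map_ne_zero g).2 (nz p2)
  have hw' : ∀ c : k, c ≠ 0 → w (g (f c)) = 1 := hw
  rw [hAm, hBm, e1, e2, c1, c2]
  constructor
  · rw [_root_.map_ne_zero]
    exact div_ne_zero ((_root_.map_ne_zero f).2 n1) hA0
  · rw [map_div₀, map_div₀, map_div₀, map_div₀, g.map_mul (f _) b, w.map_mul, hw' _ n1,
      hw' _ n2, hwb, one_mul]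

/-- Valuations at the places where `δ1`, `δ2` have the same valuation. -/
theorem val2G {K L : Type} [Field K] [Algebra k[X] K] [IsFractionRing k[X] K] [Field L]
    [Algebra K L] (h5 : (5 : k) ≠ 0)
    (hz : IsZ z0) (hp : β ≠ 0 ∧ γ ≠ 0 ∧ β - C (ep z0) * γ ≠ 0 ∧
      β - C (ep' z0) * γ ≠ 0) {b z : K}
    (hb : b = algebraMap k[X] K β / algebraMap k[X] K γ) (hzz : z = algebraMap k[X] K (C z0))
    (w : Valuation L Zm) (hw : ∀ c : k, c ≠ 0 → w (algebraMap K L (algebraMap k[X] K (C c))) = 1)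
    (h : w (algebraMap K L (algebraMap k[X] K (β - C (ep z0) * γ))) =
      w (algebraMap K L (algebraMap k[X] K (β - C (ep' z0) * γ)))) :
    w (AA (algebraMap K L z) (algebraMap K L b)) = w (BB (algebraMap K L z) (algebraMap K L b)) := by
  obtain ⟨f1, f2, f3, hzK, hAA, hBB, q1, q2, q3⟩ := fldG h5 hz hp hb hzz
  set g : K →+* L := algebraMap K L with hg
  have hAm : ∀ x : K, AA (g z) (g x) = g (AA z x) := by
    intro x
    unfold AA
    rw [map_mul, map_sub, map_sub, map_mul, map_one, map_ofNat, map_ep, map_eta]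
  have hBm : ∀ x : K, BB (g z) (g x) = g (BB z x) := by
    intro x
    unfold BB
    rw [map_mul, map_sub, map_sub, map_mul, map_one, map_ofNat, map_ep', map_eta']
  rw [hAm, hBm, hAA, hBB, map_div₀, map_div₀, map_div₀, map_div₀,
    (algebraMap k[X] K).map_mul (C (2 * eta z0 - 1)), (algebraMap k[X] K).map_mul (C (2 * eta' z0 - 1)),
    g.map_mul, g.map_mul, w.map_mul, w.map_mul, hw _ q1, hw _ q2, h]

end plc

section pc

variable {k k' K F : Type} [Field k] [Field k'] [Algebra k k'] [Field K] [Algebra k[X] K]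
  [IsFractionRing k[X] K] [Field F] [Algebra k'[X] F] [IsFractionRing k'[X] F] [Algebra K F]
  (hKF : ∀ p : k[X], algebraMap K F (algebraMap k[X] K p) =
      algebraMap k'[X] F (p.map (algebraMap k k')))
  {z0 : k} {β γ : k[X]} (h5k : (5 : k) ≠ 0) (hz0 : IsZ z0) (hp : β ≠ 0 ∧ γ ≠ 0 ∧ β - C (ep z0) * γ ≠ 0 ∧
      β - C (ep' z0) * γ ≠ 0) {b z : K}
  (eb : b = algebraMap k[X] K β / algebraMap k[X] K γ) (ez : z = algebraMap k[X] K (C z0))
  (h5 : (5 : K) ≠ 0) (hb : b ≠ 0) (hd : b ^ 2 - 11 * b - 1 ≠ 0) (hz : IsZ z)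

include hKF h5k hz0 hp eb ez hz in
theorem first_placeG {T : Pt (crv5 b) (Sep F)} {m : Sep F}
    (hT : IsT (isE5 b (Sep F) h5 hb hd) (algebraMap K (Sep F) z) m T)
    (hm : AA (algebraMap K (Sep F) z) (algebraMap K (Sep F) b) =
      (5 + 3 * eta (algebraMap K (Sep F) z)) * m ^ 5 *
        BB (algebraMap K (Sep F) z) (algebraMap K (Sep F) b))
    (hTG : ∀ σ : Sep F ≃ₐ[F] Sep F, act (crv5 b) (rs K σ) T - T ∈ HP (isE5 b (Sep F) h5 hb hd))
    {f : (Sep F ≃ₐ[F] Sep F) → Pt (crv5 b) (Sep F)} {i χ : (Sep F ≃ₐ[F] Sep F) → ZMod 5}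
    (hf : ∀ σ, f σ = cb (isE5 b (Sep F) h5 hb hd) T (i σ) (χ σ))
    (hloc : LocallyTrivial k' (crv5 b) f) {s : Sep F} {f0 : F}
    (hk : KD (algebraMap K (Sep F) z) χ s f0) :
    (∀ v : HeightOneSpectrum k'[X], β.map (algebraMap k k') ∉ v.asIdeal →
      γ.map (algebraMap k k') ∉ v.asIdeal → om5 v f0 = 0) ∧
    (β.natDegree = γ.natDegree → (5 : ℤ) ∣ WithZero.log (vInf k' F f0)) := by
  constructor
  · intro v hv1 hv2
    obtain ⟨A0, AB⟩ := val1G (L := Comp k'[X] F v) h5k hz0 hp eb ez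
      (Valued.v (R := v.adicCompletion F) (Γ₀ := WithZero (Multiplicative ℤ)))
      (fun c hc => by
        have h1 := wFin v (algebraMap K F (algebraMap k[X] K (C c)))
        rw [fin_const hKF v hc] at h1
        exact h1)
      (by
        have h1 := wFin v (algebraMap K F (algebraMap k[X] K β))
        have h2 := wFin v (algebraMap K F (algebraMap k[X] K γ))
        rw [fin_one hKF v hv1] at h1
        rw [fin_one hKF v hv2] at h2
        exact h1.trans h2.symm)
    have h3 := loc_first (F := F) (L := Comp k'[X] F v) (Ω' := Sep (Comp k'[X] F v)) h5 hb hd hz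
      (Valued.v (R := v.adicCompletion F) (Γ₀ := WithZero (Multiplicative ℤ))) hT hm hTG hf
      (hloc.1 v) hk.ne hk.five hk.act A0 AB
    apply om5_of_Fi
    have h4 := wFin v f0
    rw [← h4]
    exact h3
  · intro hdeg
    obtain ⟨A0, AB⟩ := val1G (L := CompInf k' F) h5k hz0 hp eb ez
      (Valued.v (R := (pl (0 : k')).adicCompletion (AtInf F)) (Γ₀ := WithZero (Multiplicative ℤ)))
      (fun c hc => by
        have h1 := wInf (k' := k') (algebraMap K F (algebraMap k[X] K (C c)))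
        rw [inf_const hKF hc] at h1
        exact h1)
      (by
        have h1 := wInf (k' := k') (algebraMap K F (algebraMap k[X] K β))
        have h2 := wInf (k' := k') (algebraMap K F (algebraMap k[X] K γ))
        rw [inf_deg hKF hp.1, hdeg] at h1
        rw [inf_deg hKF hp.2.1] at h2
        exact h1.trans h2.symm)
    have h3 := loc_first (F := F) (L := CompInf k' F) (Ω' := Sep (CompInf k' F)) h5 hb hd hz
      (Valued.v (R := (pl (0 : k')).adicCompletion (AtInf F)) (Γ₀ := WithZero (Multiplicative ℤ)))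
      hT hm hTG hf (hloc.2) hk.ne hk.five hk.act A0 AB
    have h4 := wInf (k' := k') f0
    have f0n : f0 ≠ 0 := hk.fne
    have h5' : Fi (vInf k' F f0) := by
      rw [← h4]
      exact h3
    exact (Fi.iff ((Valuation.ne_zero_iff _).2 f0n)).1 h5'

include hKF h5k hz0 hp eb ez hz in
theorem second_placeG {f : (Sep F ≃ₐ[F] Sep F) → Pt (crv5 b) (Sep F)}
    {χ : (Sep F ≃ₐ[F] Sep F) → ZMod 5}
    (hf : ∀ σ, f σ = (χ σ).val • pP (isE5 b (Sep F) h5 hb hd))
    (hloc : LocallyTrivial k' (crv5 b) f) {s : Sep F} {f0 : F}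
    (hk : KD (algebraMap K (Sep F) z) χ s f0) :
    (∀ v : HeightOneSpectrum k'[X], (β - C (ep z0) * γ).map (algebraMap k k') ∉ v.asIdeal →
      (β - C (ep' z0) * γ).map (algebraMap k k') ∉ v.asIdeal → om5 v f0 = 0) ∧
    ((β - C (ep z0) * γ).natDegree = (β - C (ep' z0) * γ).natDegree →
      (5 : ℤ) ∣ WithZero.log (vInf k' F f0)) := by
  constructor
  · intro v hv1 hv2
    have AB := val2G (L := Comp k'[X] F v) h5k hz0 hp eb ez
      (Valued.v (R := v.adicCompletion F) (Γ₀ := WithZero (Multiplicative ℤ)))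
      (fun c hc => by
        have h1 := wFin v (algebraMap K F (algebraMap k[X] K (C c)))
        rw [fin_const hKF v hc] at h1
        exact h1)
      (by
        have h1 := wFin v (algebraMap K F (algebraMap k[X] K (β - C (ep z0) * γ)))
        have h2 := wFin v (algebraMap K F (algebraMap k[X] K (β - C (ep' z0) * γ)))
        rw [fin_one hKF v hv1] at h1
        rw [fin_one hKF v hv2] at h2
        exact h1.trans h2.symm)
    have h3 := loc_second (F := F) (L := Comp k'[X] F v) (Ω' := Sep (Comp k'[X] F v)) h5 hb hd hz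
      (Valued.v (R := v.adicCompletion F) (Γ₀ := WithZero (Multiplicative ℤ))) hf
      (hloc.1 v) hk.ne hk.five hk.act AB
    apply om5_of_Fi
    have h4 := wFin v f0
    rw [← h4]
    exact h3
  · intro hdeg
    have AB := val2G (L := CompInf k' F) h5k hz0 hp eb ez
      (Valued.v (R := (pl (0 : k')).adicCompletion (AtInf F)) (Γ₀ := WithZero (Multiplicative ℤ)))
      (fun c hc => by
        have h1 := wInf (k' := k') (algebraMap K F (algebraMap k[X] K (C c)))
        rw [inf_const hKF hc] at h1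
        exact h1)
      (by
        have h1 := wInf (k' := k') (algebraMap K F (algebraMap k[X] K (β - C (ep z0) * γ)))
        have h2 := wInf (k' := k') (algebraMap K F (algebraMap k[X] K (β - C (ep' z0) * γ)))
        rw [inf_deg hKF hp.2.2.1, hdeg] at h1
        rw [inf_deg hKF hp.2.2.2] at h2
        exact h1.trans h2.symm)
    have h3 := loc_second (F := F) (L := CompInf k' F) (Ω' := Sep (CompInf k' F)) h5 hb hd hz
      (Valued.v (R := (pl (0 : k')).adicCompletion (AtInf F)) (Γ₀ := WithZero (Multiplicative ℤ)))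
      hf (hloc.2) hk.ne hk.five hk.act AB
    have h4 := wInf (k' := k') f0
    have f0n : f0 ≠ 0 := hk.fne
    have h5' : Fi (vInf k' F f0) := by
      rw [← h4]
      exact h3
    exact (Fi.iff ((Valuation.ne_zero_iff _).2 f0n)).1 h5'

end pc

end Pool.Agent.Helper23K9.T5
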