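import Pool.Agent.Helper23K9.T5.Tr

/-!
If the point `(0, 0)` of `y ^ 2 + (1 - b) x y - b y = x ^ 3 - b x ^ 2` is divisible by five then
`b` is a fifth power.
-/

set_option autoImplicit false
set_option linter.all false

open Polynomial IsDedekindDomain WeierstrassCurve WeierstrassCurve.Affine
open scoped Classical

namespace Pool.Agent.Helper23K9.T5

section ff

variable {F : Type*} [Field F]

/-- The function with divisor `5 (P) - 5 (O)`. -/
def ff5 (x y : F) : F := x * y + y - x ^ 2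

/-- The product of the values of a quadratic polynomial. -/
theorem prod_quad (A B C x1 x2 x3 s1 s2 s3 : F) (h1 : x1 + x2 + x3 = s1)
    (h2 : x1 * x2 + x1 * x3 + x2 * x3 = s2) (h3 : x1 * x2 * x3 = s3) :
    (A * x1 ^ 2 + B * x1 + C) * (A * x2 ^ 2 + B * x2 + C) * (A * x3 ^ 2 + B * x3 + C) =
      A ^ 3 * s3 ^ 2 + A ^ 2 * B * s2 * s3 + A ^ 2 * C * (s2 ^ 2 - 2 * s1 * s3) +
      A * B ^ 2 * s1 * s3 + A * B * C * (s1 * s2 - 3 * s3) + A * C ^ 2 * (s1 ^ 2 - 2 * s2) +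
      B ^ 3 * s3 + B ^ 2 * C * s2 + B * C ^ 2 * s1 + C ^ 3 := by
  subst h1 h2 h3
  ring

/-- The values of `ff5` at three points on a line. -/
theorem prod_line {b l m x1 x2 x3 : F} (h1 : x1 + x2 + x3 = l ^ 2 + (1 - b) * l + b)
    (h2 : x1 * x2 + x1 * x3 + x2 * x3 = -2 * l * m - (1 - b) * m + b * l)
    (h3 : x1 * x2 * x3 = m ^ 2 - b * m) :
    ff5 x1 (l * x1 + m) * ff5 x2 (l * x2 + m) * ff5 x3 (l * x3 + m) = m ^ 5 := by
  have key := prod_quad (l - 1) (l + m) m x1 x2 x3 _ _ _ h1 h2 h3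
  have e : ∀ x : F, ff5 x (l * x + m) = (l - 1) * x ^ 2 + (l + m) * x + m := by
    intro x
    unfold ff5
    ring
  rw [e, e, e, key]
  ring

/-- The cubic attached to a line. -/
theorem cub {b l m x y : F} (h : y ^ 2 + (1 - b) * x * y - b * y = x ^ 3 - b * x ^ 2)
    (hy : y = l * x + m) : x ^ 3 - (l ^ 2 + (1 - b) * l + b) * x ^ 2 +
      (-2 * l * m - (1 - b) * m + b * l) * x - (m ^ 2 - b * m) = 0 := by
  subst hy
  linear_combination -h

theorem viete_ne {x1 x2 x3 s1 s2 s3 : F} (hx : x1 ≠ x2) (h1 : x1 + x2 + x3 = s1)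
    (c1 : x1 ^ 3 - s1 * x1 ^ 2 + s2 * x1 - s3 = 0) (c2 : x2 ^ 3 - s1 * x2 ^ 2 + s2 * x2 - s3 = 0) :
    x1 * x2 + x1 * x3 + x2 * x3 = s2 ∧ x1 * x2 * x3 = s3 := by
  subst h1
  have e1 : (x1 - x2) * (x1 * x2 + x1 * x3 + x2 * x3 - s2) = 0 := by
    linear_combination -c1 + c2
  have e2 : x1 * x2 + x1 * x3 + x2 * x3 = s2 := by
    rcases mul_eq_zero.1 e1 with e | e
    · exact absurd (sub_eq_zero.1 e) hx
    · exact sub_eq_zero.1 e
  refine ⟨e2, ?_⟩
  linear_combination x1 * e2 + c1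

theorem viete_dbl {x1 x3 s1 s2 s3 : F} (h1 : x1 + x1 + x3 = s1)
    (c1 : x1 ^ 3 - s1 * x1 ^ 2 + s2 * x1 - s3 = 0) (d1 : 3 * x1 ^ 2 - 2 * s1 * x1 + s2 = 0) :
    x1 * x1 + x1 * x3 + x1 * x3 = s2 ∧ x1 * x1 * x3 = s3 := by
  subst h1
  have e2 : x1 * x1 + x1 * x3 + x1 * x3 = s2 := by linear_combination -d1
  refine ⟨e2, ?_⟩
  linear_combination x1 * e2 + c1

theorem ff5_neg {b x y y' : F} (h : y ^ 2 + (1 - b) * x * y - b * y = x ^ 3 - b * x ^ 2)
    (hy : y' = -y - (1 - b) * x + b) : ff5 x y * ff5 x y' = -x ^ 5 := by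
  subst hy
  unfold ff5
  linear_combination (-(x + 1) ^ 2) * h

theorem ff5_ne {b x y : F} (h : y ^ 2 + (1 - b) * x * y - b * y = x ^ 3 - b * x ^ 2)
    (hx : x ≠ 0) : ff5 x y ≠ 0 := by
  intro h0
  have e := ff5_neg h rfl
  rw [h0, zero_mul] at e
  exact hx (pow_eq_zero_iff (by norm_num) |>.1 (neg_eq_zero.1 e.symm))

end ff

section pts

variable {F : Type*} [Field F] {W : Affine F} {b : F} (h : IsE5 W b)

include h

theorem nt_of {x y : F} {hxy : W.Nonsingular x y} (h2 : 2 • Point.some x y hxy ≠ 0) :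
    2 * y + (1 - b) * x - b ≠ 0 := by
  intro e
  apply h2
  obtain ⟨hQ, e1⟩ := h.neg_some hxy
  have e2 : -y - (1 - b) * x + b = y := by linear_combination -e
  have e3 : -Point.some x y hxy = Point.some x y hxy := by
    rw [e1, Point.some.injEq]
    exact ⟨rfl, e2⟩
  rw [two_nsmul]
  conv_lhs => rw [← e3]
  rw [e3]
  conv_lhs => lhs; rw [← e3]
  exact neg_add_cancel _

/-- The value at the double of a point. -/
theorem ff5_dbl {x y : F} {hxy : W.Nonsingular x y} (h1 : Point.some x y hxy ∉ HP h)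
    (h2 : 2 • Point.some x y hxy ∉ HP h) : ∃ (x3 y3 c : F) (h3 : W.Nonsingular x3 y3),
    2 • Point.some x y hxy = Point.some x3 y3 h3 ∧ ff5 x3 y3 = ff5 x y ^ 2 * c ^ 5 := by
  have hn := nt_of h (fun e => h2 (by rw [e]; exact (HP h).zero_mem))
  have he := h.nonsingular.1 hxy
  obtain ⟨l, hl⟩ : ∃ l, l = (3 * x ^ 2 - 2 * b * x - (1 - b) * y) / (2 * y + (1 - b) * x - b) :=
    ⟨_, rfl⟩
  have hm : 3 * x ^ 2 - 2 * b * x - (1 - b) * y = l * (2 * y + (1 - b) * x - b) := by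
    rw [hl, div_mul_cancel₀ _ hn]
  obtain ⟨x3, hx3⟩ : ∃ x3, x3 = l ^ 2 + (1 - b) * l + b - x - x := ⟨_, rfl⟩
  obtain ⟨y3, hy3⟩ : ∃ y3, y3 = -(l * (x3 - x) + y) - (1 - b) * x3 + b := ⟨_, rfl⟩
  have e1 : x + x + x3 = l ^ 2 + (1 - b) * l + b := by rw [hx3]; ring
  obtain ⟨h3, e3⟩ := h.dbl_line hxy hn hm e1 hy3
  obtain ⟨m, hmm⟩ : ∃ m, m = y - l * x := ⟨_, rfl⟩
  have hym : y = l * x + m := by rw [hmm]; ring
  have c1 := cub he hym
  have d1 : 3 * x ^ 2 - 2 * (l ^ 2 + (1 - b) * l + b) * x +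
      (-2 * l * m - (1 - b) * m + b * l) = 0 := by
    rw [hym] at hm
    linear_combination hm
  obtain ⟨v2, v3⟩ := viete_dbl e1 c1 d1
  have key := prod_line e1 v2 v3
  rw [← hym] at key
  have h4 := (not_mem_HP h).1 h1
  rw [two_nsmul, e3] at h2
  have h5 := (not_mem_HP h).1 h2
  have he3 := h.nonsingular.1 h3
  have hneg : ff5 x3 y3 * ff5 x3 (l * x3 + m) = -x3 ^ 5 :=
    ff5_neg he3 (by rw [hy3, hmm]; ring)
  have hf1 := ff5_ne he h4.1
  have hf3 := ff5_ne he3 h5.1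
  have hg : ff5 x3 (l * x3 + m) ≠ 0 := by
    intro h0
    rw [h0, mul_zero] at hneg
    exact h5.1 (pow_eq_zero_iff (by norm_num) |>.1 (neg_eq_zero.1 hneg.symm))
  have hm0 : m ≠ 0 := by
    intro h0
    rw [h0] at key
    rw [h0] at hg
    have : ff5 x y * ff5 x y * ff5 x3 (l * x3 + 0) ≠ 0 := mul_ne_zero (mul_ne_zero hf1 hf1) hg
    exact this (by rw [key]; ring)
  refine ⟨x3, y3, -x3 / m, h3, ?_, ?_⟩
  · rw [two_nsmul]; exact e3
  · have e : ff5 x3 y3 * (m ^ 5 * ff5 x3 (l * x3 + m)) =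
        ff5 x y ^ 2 * (-x3) ^ 5 * ff5 x3 (l * x3 + m) := by
      linear_combination m ^ 5 * hneg - (-x3 ^ 5) * key
    have e' : ff5 x3 y3 * m ^ 5 = ff5 x y ^ 2 * (-x3) ^ 5 := by
      apply mul_right_cancel₀ hg
      linear_combination e
    rw [div_pow, ← mul_div_assoc, eq_div_iff (pow_ne_zero 5 hm0), e']

theorem fifth_of_div {R : W.Point} (hR : 5 • R = pP h) : ∃ c : F, b = c ^ 5 := by
  have hkill : ∀ Q ∈ HP h, 5 • Q = 0 := by
    intro Q hQ
    obtain ⟨n, hn⟩ := AddSubgroup.mem_zmultiples_iff.1 hQ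
    rw [← hn, smul_comm, five_pP, smul_zero]
  have hk : ∀ k : ℕ, k • pP h ≠ 0 → k • R ∉ HP h := by
    intro k hk hm
    apply hk
    have := hkill _ hm
    rw [smul_comm, hR] at this
    exact this
  have p1 : pP h ≠ 0 := pP_ne h
  have p2 : 2 • pP h ≠ 0 := by
    obtain ⟨h2, e2⟩ := two_pP h
    rw [e2]; exact Point.some_ne_zero _
  have p3 : 3 • pP h ≠ 0 := by
    obtain ⟨h2, e2⟩ := three_pP h
    rw [e2]; exact Point.some_ne_zero _
  have p4 : 4 • pP h ≠ 0 := by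
    obtain ⟨h2, e2⟩ := four_pP h
    rw [e2]; exact Point.some_ne_zero _
  have k1 : R ∉ HP h := by
    have := hk 1 (by rwa [one_smul])
    rwa [one_smul] at this
  have k2 := hk 2 p2
  have k3 := hk 3 p3
  have k4 := hk 4 p4
  cases R with
  | zero => exact absurd (HP h).zero_mem k1
  | some x y hxy =>
    have he := h.nonsingular.1 hxy
    obtain ⟨x2, y2, c2, h2, e2, f2⟩ := ff5_dbl h k1 k2
    have e4' : 4 • Point.some x y hxy = 2 • Point.some x2 y2 h2 := by
      rw [← e2, ← mul_smul]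
      rfl
    rw [e4'] at k4
    have k2' := k2
    rw [e2] at k2'
    obtain ⟨x4, y4, c4, h4, e4, f4⟩ := ff5_dbl h k2' k4
    rw [e4] at e4'
    have he4 := h.nonsingular.1 h4
    have e5 : Point.some x y hxy + Point.some x4 y4 h4 = pP h := by
      rw [← e4', ← hR]
      rw [show 5 • Point.some x y hxy = (1 + 4) • Point.some x y hxy from rfl, add_smul, one_smul]
    have hx : x ≠ x4 := by
      intro hx
      have e6 : (y - y4) * (y + y4 + (1 - b) * x - b) = 0 := by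
        rw [← hx] at he4
        linear_combination he - he4
      rcases mul_eq_zero.1 e6 with e7 | e7
      · have e8 : Point.some x4 y4 h4 = Point.some x y hxy := by
          rw [Point.some.injEq]
          exact ⟨hx.symm, (sub_eq_zero.1 e7).symm⟩
        apply k3
        have e9 : 3 • Point.some x y hxy = 0 := by
          have : (3 + 1) • Point.some x y hxy = Point.some x y hxy := by
            rw [show (3 + 1 : ℕ) = 4 from rfl, e4', e8]
          rw [add_smul, one_smul] at this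
          exact left_eq_add.1 (by rw [add_comm]; exact this.symm)
        rw [e9]
        exact (HP h).zero_mem
      · obtain ⟨hQ, e8⟩ := h.neg_some hxy
        have e9 : Point.some x4 y4 h4 = -Point.some x y hxy := by
          rw [e8, Point.some.injEq]
          exact ⟨hx.symm, by linear_combination e7⟩
        rw [e9, add_neg_cancel] at e5
        exact p1 e5.symm
    obtain ⟨l, hl⟩ : ∃ l, l = (y - y4) / (x - x4) := ⟨_, rfl⟩
    have hm : y - y4 = l * (x - x4) := by rw [hl, div_mul_cancel₀ _ (sub_ne_zero.2 hx)]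
    obtain ⟨x3, hx3⟩ : ∃ x3, x3 = l ^ 2 + (1 - b) * l + b - x - x4 := ⟨_, rfl⟩
    obtain ⟨y3, hy3⟩ : ∃ y3, y3 = -(l * (x3 - x) + y) - (1 - b) * x3 + b := ⟨_, rfl⟩
    have e1 : x + x4 + x3 = l ^ 2 + (1 - b) * l + b := by rw [hx3]; ring
    obtain ⟨h3, e3⟩ := h.add_line hxy h4 hx hm e1 hy3
    rw [e5, pP, Point.some.injEq] at e3
    obtain ⟨x30, y30⟩ := e3
    rw [← x30] at e1 hy3
    rw [← y30] at hy3
    have hyb : y = l * x + b := by linear_combination hy3
    have hyb4 : y4 = l * x4 + b := by linear_combination hyb - hm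
    obtain ⟨v2, v3⟩ := viete_ne hx e1 (cub he hyb) (cub he4 hyb4)
    have key := prod_line e1 v2 v3
    rw [← hyb, ← hyb4] at key
    have f0 : ff5 0 (l * 0 + b) = b := by unfold ff5; ring
    rw [f0] at key
    have hf := ff5_ne he ((not_mem_HP h).1 k1).1
    have nb := h.nb
    have key' : (ff5 x y * c2 ^ 2 * c4) ^ 5 = b ^ 4 := by
      apply mul_right_cancel₀ nb
      rw [f4, f2] at key
      linear_combination key
    refine ⟨b / (ff5 x y * c2 ^ 2 * c4), ?_⟩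
    rw [div_pow, key', eq_div_iff (pow_ne_zero 4 nb)]
    ring

end pts

end Pool.Agent.Helper23K9.T5
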