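import Mathlib
import Pool.Agent.Helper23K9.T5.Tr

/-!
The points of order five on `y ^ 2 + (1 - b) x y - b y = x ^ 3 - b x ^ 2`.
-/

set_option autoImplicit false
set_option linter.all false

open Polynomial WeierstrassCurve WeierstrassCurve.Affine
open scoped Classical

namespace Pool.Agent.Helper23K9.T5

/-- The value at `x = -1` of the polynomial whose roots are the abscissas of the points of order
dividing five or three. -/
def bpol {F : Type*} [Field F] (b : F) : F :=
  let h := b^3+b^2+b+1; let g := -4*b-3; let b2 := b^2-6*b+1; let b4 := b^2-b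
  let b6 := b^2; let b8 := -b^3
  (h^4-b4*h^2*g^2-2*b6*h*g^3-b8*g^4)+g*(4*h^3+b2*h^2*g+2*b4*h*g^2+b6*g^3)

theorem bpol_ne {F : Type*} [Field F] (v : Valuation F (WithZero (Multiplicative ℤ))) {b : F}
    (hb : 1 < v b) : bpol b ≠ 0 := by
  intro h0
  have hint : IsIntegral ℤ b := by
    refine ⟨X ^ 12 + (4 * X ^ 11 - 6 * X ^ 10 - 120 * X ^ 9 - 365 * X ^ 8 - 277 * X ^ 7 +
      507 * X ^ 6 + 1267 * X ^ 5 + 1180 * X ^ 4 + 560 * X ^ 3 + 122 * X ^ 2 + 3 * X - 2), ?_, ?_⟩
    · apply monic_X_pow_add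
      have : (4 * X ^ 11 - 6 * X ^ 10 - 120 * X ^ 9 - 365 * X ^ 8 - 277 * X ^ 7 +
        507 * X ^ 6 + 1267 * X ^ 5 + 1180 * X ^ 4 + 560 * X ^ 3 + 122 * X ^ 2 + 3 * X - 2
          : ℤ[X]).natDegree ≤ 11 := by
        compute_degree
      exact lt_of_le_of_lt (degree_le_of_natDegree_le this)
        (by exact_mod_cast (by norm_num : (11 : ℕ) < 12))
    · rw [← h0]
      simp only [eval₂_add, eval₂_sub, eval₂_mul, eval₂_pow, eval₂_X, eval₂_ofNat]
      unfold bpol
      ring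
  have h1 : b ∈ v.integer := by
    have hv : v.Integers v.integer := Valuation.integer.integers v
    have h2 : IsIntegral v.integer b := hint.tower_top
    exact hv.mem_of_integral h2
  exact absurd h1 (not_le.2 hb)

/-- The polynomial whose roots are the abscissas of the points of order dividing five or
three. -/
noncomputable def ppol {F : Type*} [Field F] (b : F) : F[X] :=
  let h : F[X] := X ^ 4 - C (b ^ 2 - b) * X ^ 2 - 2 * C (b ^ 2) * X + C (b ^ 3)
  let g : F[X] := 4 * X ^ 3 + C (b ^ 2 - 6 * b + 1) * X ^ 2 + 2 * C (b ^ 2 - b) * X + C (b ^ 2)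
  (h ^ 4 - C (b ^ 2 - b) * (h ^ 2 * g ^ 2) - 2 * C (b ^ 2) * (h * g ^ 3) + C (b ^ 3) * g ^ 4) -
    X * (g * (4 * h ^ 3 + C (b ^ 2 - 6 * b + 1) * (h ^ 2 * g) + 2 * C (b ^ 2 - b) * (h * g ^ 2) +
      C (b ^ 2) * g ^ 3))

theorem ppol_eval {F : Type*} [Field F] (b : F) : (ppol b).eval (-1) = bpol b := by
  unfold ppol bpol
  simp only [eval_add, eval_sub, eval_mul, eval_pow, eval_X, eval_C, eval_ofNat]
  ring

theorem ppol_natDegree {F : Type*} [Field F] (b : F) : (ppol b).natDegree ≤ 16 := by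
  unfold ppol
  have hh : (X ^ 4 - C (b ^ 2 - b) * X ^ 2 - 2 * C (b ^ 2) * X + C (b ^ 3) : F[X]).natDegree ≤ 4 := by
    compute_degree
  have hg : (4 * X ^ 3 + C (b ^ 2 - 6 * b + 1) * X ^ 2 + 2 * C (b ^ 2 - b) * X + C (b ^ 2) :
      F[X]).natDegree ≤ 3 := by
    compute_degree
  generalize (X ^ 4 - C (b ^ 2 - b) * X ^ 2 - 2 * C (b ^ 2) * X + C (b ^ 3) : F[X]) = h at *
  generalize (4 * X ^ 3 + C (b ^ 2 - 6 * b + 1) * X ^ 2 + 2 * C (b ^ 2 - b) * X + C (b ^ 2) :
      F[X]) = g at *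
  have ph : ∀ n, (h ^ n).natDegree ≤ n * 4 := fun n =>
    (natDegree_pow_le).trans (Nat.mul_le_mul_left n hh)
  have pg : ∀ n, (g ^ n).natDegree ≤ n * 3 := fun n =>
    (natDegree_pow_le).trans (Nat.mul_le_mul_left n hg)
  have hm : ∀ {p q : F[X]} {m n k : ℕ}, p.natDegree ≤ m → q.natDegree ≤ n → m + n ≤ k →
      (p * q).natDegree ≤ k := fun hp hq hk => (natDegree_mul_le_of_le hp hq).trans hk
  have hC : ∀ {c : F} {q : F[X]} {n : ℕ}, q.natDegree ≤ n → (C c * q).natDegree ≤ n :=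
    fun hq => (natDegree_C_mul_le _ _).trans hq
  have h2C : ∀ {c : F} {q : F[X]} {n : ℕ}, q.natDegree ≤ n → (2 * C c * q).natDegree ≤ n := by
    intro c q n hq
    have : (2 * C c : F[X]) = C (2 * c) := by rw [C_mul, map_ofNat]
    rw [this]
    exact hC hq
  have h4 : ∀ {q : F[X]} {n : ℕ}, q.natDegree ≤ n → (4 * q).natDegree ≤ n := by
    intro q n hq
    have : (4 : F[X]) = C 4 := by rw [map_ofNat]
    rw [this]
    exact hC hq
  have hadd : ∀ {p q : F[X]} {n : ℕ}, p.natDegree ≤ n → q.natDegree ≤ n →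
      (p + q).natDegree ≤ n := fun hp hq => natDegree_add_le_of_degree_le hp hq
  have hsub : ∀ {p q : F[X]} {n : ℕ}, p.natDegree ≤ n → q.natDegree ≤ n →
      (p - q).natDegree ≤ n := fun hp hq => by simpa using natDegree_sub_le_of_le hp hq
  have hX : (X : F[X]).natDegree ≤ 1 := natDegree_X_le
  refine hsub (hadd (hsub (hsub ?_ ?_) ?_) ?_) ?_
  · exact (ph 4).trans (by norm_num)
  · exact hC (hm (ph 2) (pg 2) (by norm_num))
  · exact h2C (hm hh (pg 3) (by norm_num))
  · exact hC ((pg 4).trans (by norm_num))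
  · refine hm hX (hm hg (n := 12) (hadd (hadd (hadd ?_ ?_) ?_) ?_) le_rfl) (by norm_num)
    · exact h4 ((ph 3).trans (by norm_num))
    · exact hC (hm (ph 2) hg (by norm_num))
    · exact h2C (hm hh (pg 2) (by norm_num))
    · exact hC ((pg 3).trans (by norm_num))

section crv

variable {F : Type*} [Field F] {W : Affine F} {b : F} (h : IsE5 W b)

include h

/-- The abscissa of the double. -/
theorem dbl_X {x y : F} (hxy : W.Nonsingular x y)
    (h2 : Point.some x y hxy + Point.some x y hxy ≠ 0) :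
    4 * x ^ 3 + (b ^ 2 - 6 * b + 1) * x ^ 2 + 2 * (b ^ 2 - b) * x + b ^ 2 ≠ 0 ∧
    ∃ x3 y3 h3, Point.some x y hxy + Point.some x y hxy = Point.some x3 y3 h3 ∧
      x3 * (4 * x ^ 3 + (b ^ 2 - 6 * b + 1) * x ^ 2 + 2 * (b ^ 2 - b) * x + b ^ 2) =
        x ^ 4 - (b ^ 2 - b) * x ^ 2 - 2 * b ^ 2 * x + b ^ 3 := by
  have e := h.nonsingular.1 hxy
  have hn : 2 * y + (1 - b) * x - b ≠ 0 := by
    intro hn
    apply h2
    obtain ⟨hQ, eQ⟩ := h.neg_some hxy
    have hyy : -y - (1 - b) * x + b = y := by linear_combination -hn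
    rw [add_eq_zero_iff_eq_neg, eQ, Point.some.injEq]
    exact ⟨rfl, hyy.symm⟩
  have hg : (2 * y + (1 - b) * x - b) ^ 2 =
      4 * x ^ 3 + (b ^ 2 - 6 * b + 1) * x ^ 2 + 2 * (b ^ 2 - b) * x + b ^ 2 := by
    linear_combination 4 * e
  refine ⟨by rw [← hg]; exact pow_ne_zero 2 hn, ?_⟩
  obtain ⟨m, hm⟩ : ∃ m, 3 * x ^ 2 - 2 * b * x - (1 - b) * y = m * (2 * y + (1 - b) * x - b) :=
    ⟨_, (div_mul_cancel₀ _ hn).symm⟩
  obtain ⟨h3, e3⟩ := h.dbl_line (x3 := m ^ 2 + (1 - b) * m + b - x - x)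
    (y3 := -(m * ((m ^ 2 + (1 - b) * m + b - x - x) - x) + y) -
      (1 - b) * (m ^ 2 + (1 - b) * m + b - x - x) + b) (m := m) hxy hn hm (by ring) rfl
  refine ⟨_, _, h3, e3, ?_⟩
  rw [← hg]
  linear_combination (-(m * (2 * y + (1 - b) * x - b) + (3 * x ^ 2 - 2 * b * x - (1 - b) * y)) -
    (1 - b) * (2 * y + (1 - b) * x - b)) * hm + (-(1 - b) ^ 2 + 4 * b - 8 * x) * e

theorem root_of_five_tor {x y : F} (hxy : W.Nonsingular x y) (h5 : 5 • Point.some x y hxy = 0) :
    (ppol b).eval x = 0 := by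
  have hne : Point.some x y hxy ≠ 0 := Point.some_ne_zero _
  have e4 : (Point.some x y hxy + Point.some x y hxy) + (Point.some x y hxy + Point.some x y hxy)
      = -(Point.some x y hxy) := by
    rw [eq_neg_iff_add_eq_zero, ← h5]
    abel
  have h2 : Point.some x y hxy + Point.some x y hxy ≠ 0 := by
    intro h0
    rw [h0, add_zero, eq_comm, neg_eq_zero] at e4
    exact hne e4
  obtain ⟨g0, x2, y2, hxy2, e2, d2⟩ := dbl_X h hxy h2
  rw [e2] at e4
  have h4 : Point.some x2 y2 hxy2 + Point.some x2 y2 hxy2 ≠ 0 := by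
    rw [e4]
    exact neg_ne_zero.2 hne
  obtain ⟨g1, x4, y4, hxy4, e4', d4⟩ := dbl_X h hxy2 h4
  obtain ⟨hn, en⟩ := h.neg_some hxy
  rw [e4', en, Point.some.injEq] at e4
  rw [e4.1] at d4
  unfold ppol
  simp only [eval_add, eval_sub, eval_mul, eval_pow, eval_X, eval_C, eval_ofNat]
  generalize 4 * x ^ 3 + (b ^ 2 - 6 * b + 1) * x ^ 2 + 2 * (b ^ 2 - b) * x + b ^ 2 = g at *
  rw [← d2]
  linear_combination -g ^ 4 * d4

/-- Points with the same abscissa. -/
theorem eq_or_neg {x y y' : F} (hxy : W.Nonsingular x y) (hxy' : W.Nonsingular x y') :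
    Point.some x y hxy = Point.some x y' hxy' ∨ Point.some x y hxy = -Point.some x y' hxy' := by
  obtain ⟨hn, en⟩ := h.neg_some hxy'
  have g1 := h.nonsingular.1 hxy
  have g2 := h.nonsingular.1 hxy'
  have : (y - y') * (y + y' + (1 - b) * x - b) = 0 := by
    linear_combination g1 - g2
  rcases mul_eq_zero.1 this with h4 | h4
  · left
    rw [Point.some.injEq]
    exact ⟨rfl, sub_eq_zero.1 h4⟩
  · right
    rw [en, Point.some.injEq]
    exact ⟨rfl, by linear_combination h4⟩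

/-- At most thirty-two points other than zero are killed by five. -/
theorem card_five (hb : bpol b ≠ 0) (s : Finset W.Point) (hs : ∀ Q ∈ s, Q ≠ 0 ∧ 5 • Q = 0) :
    s.card ≤ 32 := by
  let X : W.Point → F := fun Q => match Q with
    | 0 => 0
    | Point.some x y _ => x
  have hp : ppol b ≠ 0 := by
    intro h0
    apply hb
    rw [← ppol_eval, h0, eval_zero]
  have h1 : s.image X ⊆ (ppol b).roots.toFinset := by
    intro x hx
    obtain ⟨Q, hQ, rfl⟩ := Finset.mem_image.1 hx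
    obtain ⟨hQ0, hQ5⟩ := hs Q hQ
    rw [Multiset.mem_toFinset, mem_roots hp]
    rcases Q with _ | ⟨x, y, hxy⟩
    · exact absurd rfl hQ0
    · exact root_of_five_tor h hxy hQ5
  have h2 : (s.image X).card ≤ 16 :=
    (Finset.card_le_card h1).trans ((Multiset.toFinset_card_le _).trans
      ((card_roots' _).trans (ppol_natDegree b)))
  have h3 : s.card ≤ 2 * (s.image X).card := by
    apply Finset.card_le_mul_card_image
    intro a ha
    obtain ⟨Q, hQ, rfl⟩ := Finset.mem_image.1 ha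
    have : ({x ∈ s | X x = X Q} : Finset W.Point) ⊆ {Q, -Q} := by
      intro R hR
      obtain ⟨hRs, hRX⟩ := Finset.mem_filter.1 hR
      obtain ⟨hQ0, hQ5⟩ := hs Q hQ
      obtain ⟨hR0, hR5⟩ := hs R hRs
      rcases Q with _ | ⟨x, y, hxy⟩
      · exact absurd rfl hQ0
      rcases R with _ | ⟨x', y', hxy'⟩
      · exact absurd rfl hR0
      have hxx : x' = x := hRX
      subst hxx
      rw [Finset.mem_insert, Finset.mem_singleton]
      exact eq_or_neg h hxy' hxy
    exact (Finset.card_le_card this).trans Finset.card_le_two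
  omega

theorem five_torsion (hb : bpol b ≠ 0) {T : W.Point} (hT : 5 • T = 0) (hTn : T ∉ HP h)
    {S : W.Point} (hS : 5 • S = 0) : ∃ i j : ℕ, S = i • pP h + j • T := by
  by_contra hcon
  push Not at hcon
  haveI : Fact (Nat.Prime 5) := ⟨by norm_num⟩
  -- the homomorphisms
  have hom : ∀ Q : W.Point, 5 • Q = 0 → ∃ f : ZMod 5 →+ W.Point, ∀ n : ℕ, f (n : ZMod 5) = n • Q := by
    intro Q hQ
    have h0 : (zmultiplesHom W.Point Q) ((5 : ℕ) : ℤ) = 0 := by
      rw [zmultiplesHom_apply, natCast_zsmul]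
      exact hQ
    refine ⟨ZMod.lift 5 ⟨zmultiplesHom _ Q, h0⟩, fun n => ?_⟩
    have h1 := ZMod.lift_coe 5 ⟨zmultiplesHom W.Point Q, h0⟩ (n : ℤ)
    rw [Int.cast_natCast] at h1
    rw [h1]
    show (zmultiplesHom W.Point Q) (n : ℤ) = n • Q
    rw [zmultiplesHom_apply, natCast_zsmul]
  obtain ⟨f, hf⟩ := hom (pP h) (five_pP h)
  obtain ⟨g, hg⟩ := hom T hT
  obtain ⟨k, hk⟩ := hom S hS
  have hf' : ∀ i : ZMod 5, f i = i.val • pP h := fun i => by
    rw [← hf, ZMod.natCast_zmod_val]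
  have hg' : ∀ i : ZMod 5, g i = i.val • T := fun i => by
    rw [← hg, ZMod.natCast_zmod_val]
  have hk' : ∀ i : ZMod 5, k i = i.val • S := fun i => by
    rw [← hk, ZMod.natCast_zmod_val]
  have scal : ∀ (φ : ZMod 5 →+ W.Point) (c i : ZMod 5), φ (c * i) = c.val • φ i := by
    intro φ c i
    rw [← map_nsmul]
    congr 1
    rw [nsmul_eq_mul, ZMod.natCast_zmod_val]
  -- independence
  have ind : ∀ i j l : ZMod 5, f i + g j + k l = 0 → i = 0 ∧ j = 0 ∧ l = 0 := by
    intro i j l h0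
    have hl : l = 0 := by
      by_contra hl
      have h1 : f (l⁻¹ * i) + g (l⁻¹ * j) + k (l⁻¹ * l) = 0 := by
        rw [scal, scal, scal, ← smul_add, ← smul_add, h0, smul_zero]
      rw [inv_mul_cancel₀ hl] at h1
      have h2 : k 1 = S := by
        have := hk 1
        simpa using this
      rw [h2] at h1
      apply hcon (-(l⁻¹ * i)).val (-(l⁻¹ * j)).val
      rw [← hf', ← hg', map_neg, map_neg]
      rw [← sub_eq_zero, ← h1]
      abel
    subst hl
    rw [map_zero, add_zero] at h0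
    have hj : j = 0 := by
      by_contra hj
      have h1 : f (j⁻¹ * i) + g (j⁻¹ * j) = 0 := by
        rw [scal, scal, ← smul_add, h0, smul_zero]
      rw [inv_mul_cancel₀ hj] at h1
      have h2 : g 1 = T := by
        have := hg 1
        simpa using this
      rw [h2] at h1
      apply hTn
      have h3 : T = (-(j⁻¹ * i)).val • pP h := by
        rw [← hf', map_neg, eq_neg_iff_add_eq_zero, ← h1]
        abel
      rw [h3]
      exact (HP h).nsmul_mem (pP_mem h) _
    subst hj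
    rw [map_zero, add_zero] at h0
    refine ⟨?_, rfl, rfl⟩
    by_contra hi
    have h1 : f (i⁻¹ * i) = 0 := by
      rw [scal, h0, smul_zero]
    rw [inv_mul_cancel₀ hi] at h1
    have h2 : f 1 = pP h := by
      have := hf 1
      simpa using this
    rw [h2] at h1
    exact pP_ne h h1
  -- counting
  let φ : ZMod 5 × ZMod 5 × ZMod 5 → W.Point := fun v => f v.1 + g v.2.1 + k v.2.2
  have inj : Function.Injective φ := by
    intro v w hvw
    have h0 : f (v.1 - w.1) + g (v.2.1 - w.2.1) + k (v.2.2 - w.2.2) = 0 := by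
      rw [map_sub, map_sub, map_sub]
      have : φ v - φ w = 0 := sub_eq_zero.2 hvw
      rw [← this]
      show _ = f v.1 + g v.2.1 + k v.2.2 - (f w.1 + g w.2.1 + k w.2.2)
      abel
    obtain ⟨h1, h2, h3⟩ := ind _ _ _ h0
    exact Prod.ext (sub_eq_zero.1 h1) (Prod.ext (sub_eq_zero.1 h2) (sub_eq_zero.1 h3))
  have h1 := card_five h hb ((Finset.univ.erase 0).image φ) (by
    intro Q hQ
    obtain ⟨v, hv, rfl⟩ := Finset.mem_image.1 hQ
    refine ⟨?_, ?_⟩
    · intro h0
      apply (Finset.mem_erase.1 hv).1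
      apply inj
      rw [h0]
      show 0 = f 0 + g 0 + k 0
      simp
    · show 5 • (f v.1 + g v.2.1 + k v.2.2) = 0
      rw [smul_add, smul_add, hf', hg', hk', smul_comm, five_pP h, smul_zero, smul_comm, hT,
        smul_zero, smul_comm, hS, smul_zero]
      simp)
  rw [Finset.card_image_of_injective _ inj, Finset.card_erase_of_mem (Finset.mem_univ _),
    Finset.card_univ] at h1
  simp only [Fintype.card_prod, ZMod.card] at h1
  omega

end crv

end Pool.Agent.Helper23K9.T5
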