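import Pool.Agent.Helper23K9.T5.Dva
import Pool.Agent.Helper23K9.T5.Tor
import Pool.Agent.Helper23K9.T5.Ff

/-!
Multiplication by five is surjective over separably closed fields.
-/

set_option autoImplicit false
set_option linter.all false

open Polynomial WeierstrassCurve WeierstrassCurve.Affine
open scoped Classical

namespace Pool.Agent.Helper23K9.T5

section ids

variable {F : Type*} [Field F] (b x : F)

theorem id_p3 : x2 b x = x * z2 b x - p3 b x := by
  unfold x2 z2 p3; ring

theorem id_x3 : 2 * x2 b x ^ 2 * x + 2 * x2 b x * z2 b x * x ^ 2 +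
    (b ^ 2 - 6 * b + 1) * x2 b x * z2 b x * x +
    (b ^ 2 - b) * (x2 b x * z2 b x + x * z2 b x ^ 2) + b ^ 2 * z2 b x ^ 2 =
    x3 b x + x * p3 b x ^ 2 := by
  unfold x3 p4 x2 z2 p3; ring

theorem id_p4 : 4 * x2 b x ^ 3 + (b ^ 2 - 6 * b + 1) * x2 b x ^ 2 * z2 b x +
    2 * (b ^ 2 - b) * x2 b x * z2 b x ^ 2 + b ^ 2 * z2 b x ^ 3 = p4 b x ^ 2 := by
  unfold p4 x2 z2; ring

theorem id_res : (12 * x ^ 3 - (b ^ 2 - 6 * b + 1) * x ^ 2 - 10 * (b ^ 2 - b) * x +
    (b ^ 2 - 6 * b + 1) * (b ^ 2 - b) - 27 * b ^ 2) * z2 b x +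
    (-48 * x ^ 2 - 8 * (b ^ 2 - 6 * b + 1) * x + (b ^ 2 - 6 * b + 1) ^ 2 - 32 * (b ^ 2 - b)) *
      x2 b x = b ^ 5 * (b ^ 2 - 11 * b - 1) := by
  unfold x2 z2; ring

end ids

section crv

variable {F : Type*} [Field F] {W : Affine F} {b : F} (h : IsE5 W b)

include h

/-- The abscissas of the sum and of the difference. -/
theorem sum_X {x1 y1 x2 y2 : F} (h1 : W.Nonsingular x1 y1) (h2 : W.Nonsingular x2 y2)
    (hx : x1 ≠ x2) : ∃ s y3 h3 t y4 h4,
      Point.some x1 y1 h1 + Point.some x2 y2 h2 = Point.some s y3 h3 ∧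
      Point.some x1 y1 h1 - Point.some x2 y2 h2 = Point.some t y4 h4 ∧
      (s + t) * (x1 - x2) ^ 2 = 2 * x1 ^ 2 * x2 + 2 * x1 * x2 ^ 2 +
        (b ^ 2 - 6 * b + 1) * x1 * x2 + (b ^ 2 - b) * (x1 + x2) + b ^ 2 := by
  have e1 := h.nonsingular.1 h1
  have e2 := h.nonsingular.1 h2
  have hd : x1 - x2 ≠ 0 := sub_ne_zero.2 hx
  obtain ⟨m, hm⟩ : ∃ m, y1 - y2 = m * (x1 - x2) := ⟨_, (div_mul_cancel₀ _ hd).symm⟩
  obtain ⟨hn, en⟩ := h.neg_some h2
  obtain ⟨m', hm'⟩ : ∃ m', y1 - (-y2 - (1 - b) * x2 + b) = m' * (x1 - x2) :=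
    ⟨_, (div_mul_cancel₀ _ hd).symm⟩
  obtain ⟨h3, e3⟩ := h.add_line (x3 := m ^ 2 + (1 - b) * m + b - x1 - x2)
    (y3 := -(m * ((m ^ 2 + (1 - b) * m + b - x1 - x2) - x1) + y1) -
      (1 - b) * (m ^ 2 + (1 - b) * m + b - x1 - x2) + b) (m := m) h1 h2 hx hm (by ring) rfl
  obtain ⟨h4, e4⟩ := h.add_line (x3 := m' ^ 2 + (1 - b) * m' + b - x1 - x2)
    (y3 := -(m' * ((m' ^ 2 + (1 - b) * m' + b - x1 - x2) - x1) + y1) -
      (1 - b) * (m' ^ 2 + (1 - b) * m' + b - x1 - x2) + b) (m := m') h1 hn hx hm' (by ring) rfl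
  refine ⟨_, _, h3, _, _, h4, e3, ?_, ?_⟩
  · rw [sub_eq_add_neg, en, e4]
  · linear_combination 2 * e1 + 2 * e2 - ((y1 - y2) + m * (x1 - x2) + (1 - b) * (x1 - x2)) * hm -
      ((y1 - (-y2 - (1 - b) * x2 + b)) + m' * (x1 - x2) + (1 - b) * (x1 - x2)) * hm'

theorem Zsq {x y : F} (e : y ^ 2 + (1 - b) * x * y - b * y = x ^ 3 - b * x ^ 2) :
    (2 * y + (1 - b) * x - b) ^ 2 = z2 b x := by
  unfold z2; linear_combination 4 * e

/-- A point with `z2 = 0` has order two. -/
theorem add_self_of_z2 {x y : F} (hxy : W.Nonsingular x y) (hz : z2 b x = 0) :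
    Point.some x y hxy + Point.some x y hxy = 0 := by
  have e := h.nonsingular.1 hxy
  have h1 : (2 * y + (1 - b) * x - b) ^ 2 = 0 := by rw [Zsq h e, hz]
  have h2 : 2 * y + (1 - b) * x - b = 0 := pow_eq_zero_iff (by norm_num) |>.1 h1
  obtain ⟨hQ, eQ⟩ := h.neg_some hxy
  have h3 : y = -y - (1 - b) * x + b := by linear_combination h2
  rw [add_eq_zero_iff_eq_neg, eQ, Point.some.injEq]
  exact ⟨rfl, h3⟩

theorem z2_of_add_self {x y : F} (hxy : W.Nonsingular x y)
    (h0 : Point.some x y hxy + Point.some x y hxy = 0) : z2 b x = 0 := by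
  have e := h.nonsingular.1 hxy
  obtain ⟨hQ, eQ⟩ := h.neg_some hxy
  rw [add_eq_zero_iff_eq_neg, eQ, Point.some.injEq] at h0
  have h2 : 2 * y + (1 - b) * x - b = 0 := by linear_combination h0.2
  rw [← Zsq h e, h2]
  ring

/-- Multiplication by five is surjective. -/
theorem five_div [IsSepClosed F] (X : W.Point) : ∃ Y : W.Point, 5 • Y = X := by
  rcases X with _ | ⟨x0, y0, hX⟩
  · exact ⟨0, smul_zero _⟩
  obtain ⟨x, hx⟩ := exists_abs h.five b x0
  have hΔ : b ^ 5 * (b ^ 2 - 11 * b - 1) ≠ 0 := mul_ne_zero (pow_ne_zero 5 h.nb) h.nd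
  have i1 := id_p3 b x
  have i2 := id_x3 b x
  have i3 := id_p4 b x
  have i4 := id_res b x
  by_cases hz : z2 b x = 0
  · -- the point has order two
    have hx2 : x2 b x ≠ 0 := by
      intro h0
      apply hΔ
      rw [← i4, hz, h0]; ring
    have hp3 : p3 b x ≠ 0 := by
      intro h0
      apply hx2
      rw [i1, hz, h0]; ring
    have hxx : x = x0 := by
      have h1 : x2 b x ^ 2 * p3 b x ^ 4 * (x - x0) = 0 := by
        unfold F5 f5 x3 at hx
        rw [hz] at hx
        linear_combination hx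
      rcases mul_eq_zero.1 h1 with h2 | h2
      · exact absurd h2 (mul_ne_zero (pow_ne_zero _ hx2) (pow_ne_zero _ hp3))
      · exact sub_eq_zero.1 h2
    subst hxx
    have h2 := add_self_of_z2 h hX hz
    refine ⟨Point.some x y0 hX, ?_⟩
    calc 5 • Point.some x y0 hX = 2 • (Point.some x y0 hX + Point.some x y0 hX) +
          Point.some x y0 hX := by abel
      _ = Point.some x y0 hX := by rw [h2, smul_zero, zero_add]
  · obtain ⟨y, hy⟩ := exists_quad ((1 - b) * x - b) (x ^ 3 - b * x ^ 2) (by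
      by_contra hcon
      push Not at hcon
      apply hz
      unfold z2
      linear_combination (2 * x ^ 3 - 2 * b * x ^ 2) * hcon.1 + ((1 - b) * x - b) * hcon.2)
    have hxy : W.Nonsingular x y := h.nonsingular.2 (by linear_combination hy)
    have hY2 : Point.some x y hxy + Point.some x y hxy ≠ 0 := fun h0 => hz (z2_of_add_self h hxy h0)
    obtain ⟨-, u, w, huw, e2, d2⟩ := dbl_X h hxy hY2
    have d2' : u * z2 b x = x2 b x := by
      unfold z2 x2; exact d2
    by_cases hp : p3 b x = 0
    · -- the point has order three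
      have hux : u = x := by
        have : (u - x) * z2 b x = 0 := by
          linear_combination d2' + i1 - hp
        rcases mul_eq_zero.1 this with h2 | h2
        · exact sub_eq_zero.1 h2
        · exact absurd h2 hz
      subst hux
      have h3 : 3 • Point.some u y hxy = 0 := by
        rcases eq_or_neg h huw hxy with h4 | h4
        · rw [h4] at e2
          exact absurd (by simpa using e2) (Point.some_ne_zero (h := hxy))
        · rw [succ_nsmul, two_nsmul, e2, h4, neg_add_cancel]
      have hq : p4 b u ^ 2 = z2 b u ^ 4 := by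
        rw [← i3, ← d2']
        have : z2 b u = 4 * u ^ 3 + (b ^ 2 - 6 * b + 1) * u ^ 2 + 2 * (b ^ 2 - b) * u + b ^ 2 := rfl
        linear_combination -z2 b u ^ 3 * this
      have hq0 : p4 b u ≠ 0 := by
        intro h0
        rw [h0] at hq
        exact pow_ne_zero 4 hz (by rw [← hq]; ring)
      have hxx : u = x0 := by
        have h1 : z2 b u ^ 4 * p4 b u ^ 2 * (u - x0) = 0 := by
          unfold F5 f5 x3 at hx
          rw [hp, ← d2'] at hx
          linear_combination hx
        rcases mul_eq_zero.1 h1 with h2 | h2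
        · exact absurd h2 (mul_ne_zero (pow_ne_zero _ hz) (pow_ne_zero _ hq0))
        · exact sub_eq_zero.1 h2
      subst hxx
      have h6 : 3 • Point.some u y0 hX = 0 := by
        rcases eq_or_neg h hX hxy with h4 | h4
        · rw [h4, h3]
        · rw [h4, smul_neg, h3, neg_zero]
      refine ⟨-Point.some u y0 hX, ?_⟩
      have h7 : 6 • Point.some u y0 hX = 0 := by
        rw [show (6 : ℕ) = 2 * 3 from rfl, mul_smul, h6, smul_zero]
      calc 5 • (-Point.some u y0 hX) = -(6 • Point.some u y0 hX) + Point.some u y0 hX := by abel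
        _ = Point.some u y0 hX := by rw [h7, neg_zero, zero_add]
    · have hux : u ≠ x := by
        rintro rfl
        apply hp
        linear_combination d2' + i1
      obtain ⟨s, ys, hs, t, yt, ht, es, et, est⟩ := sum_X h huw hxy hux
      have htx : t = x := by
        have h2 : Point.some u w huw - Point.some x y hxy = Point.some x y hxy := by
          rw [← e2]; abel
        rw [h2, Point.some.injEq] at et
        exact et.1.symm
      rw [htx] at est
      have hP : (u - x) * z2 b x = -p3 b x := by linear_combination d2' + i1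
      have hsP : s * p3 b x ^ 2 = x3 b x := by
        have h2 : (s + x) * p3 b x ^ 2 = x3 b x + x * p3 b x ^ 2 := by
          rw [← i2, ← d2']
          linear_combination z2 b x ^ 2 * est + (s + x) * (p3 b x - (u - x) * z2 b x) * hP
        linear_combination h2
      have e3 : 3 • Point.some x y hxy = Point.some s ys hs := by
        rw [succ_nsmul, two_nsmul, e2, es]
      by_cases hsu : s = u
      · exfalso
        subst hsu
        have h2 : p3 b x ^ 4 * z2 b x ^ 2 * (4 * s ^ 3 + (b ^ 2 - 6 * b + 1) * s ^ 2 +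
            2 * (b ^ 2 - b) * s + b ^ 2) = 0 := by
          unfold F5 f5 at hx
          rw [← hsP, ← d2'] at hx
          linear_combination hx
        have h3 : 4 * s ^ 3 + (b ^ 2 - 6 * b + 1) * s ^ 2 + 2 * (b ^ 2 - b) * s + b ^ 2 = 0 := by
          rcases mul_eq_zero.1 h2 with h4 | h4
          · exact absurd h4 (mul_ne_zero (pow_ne_zero _ hp) (pow_ne_zero _ hz))
          · exact h4
        have h4 : p4 b x = 0 := by
          have : p4 b x ^ 2 = 0 := by
            rw [← i3, ← d2']
            linear_combination z2 b x ^ 3 * h3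
          exact pow_eq_zero_iff (by norm_num) |>.1 this
        apply hux
        have h5 : (s - x) * p3 b x ^ 2 = 0 := by
          unfold x3 at hsP
          rw [h4] at hsP
          linear_combination hsP
        rcases mul_eq_zero.1 h5 with h6 | h6
        · exact sub_eq_zero.1 h6
        · exact absurd h6 (pow_ne_zero _ hp)
      · obtain ⟨r, yr, hr, t', yt', ht', er, et', ert⟩ := sum_X h hs huw hsu
        have htx' : t' = x := by
          have h2 : Point.some s ys hs - Point.some u w huw = Point.some x y hxy := by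
            rw [← e3, ← e2]; abel
          rw [h2, Point.some.injEq] at et'
          exact et'.1.symm
        rw [htx'] at ert
        have hr0 : r = x0 := by
          have h2 : p3 b x ^ 4 * z2 b x ^ 2 * (s - u) ^ 2 * (r - x0) = 0 := by
            unfold F5 f5 at hx
            rw [← hsP, ← d2'] at hx
            linear_combination hx + p3 b x ^ 4 * z2 b x ^ 2 * ert
          rcases mul_eq_zero.1 h2 with h4 | h4
          · exact absurd h4 (mul_ne_zero (mul_ne_zero (pow_ne_zero _ hp) (pow_ne_zero _ hz))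
              (pow_ne_zero _ (sub_ne_zero.2 hsu)))
          · exact sub_eq_zero.1 h4
        subst hr0
        have e5 : 5 • Point.some x y hxy = Point.some r yr hr := by
          rw [← er, ← e3, ← e2]; abel
        rcases eq_or_neg h hX hr with h4 | h4
        · exact ⟨Point.some x y hxy, by rw [e5, h4]⟩
        · exact ⟨-Point.some x y hxy, by rw [smul_neg, e5, h4]⟩

end crv

end Pool.Agent.Helper23K9.T5
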