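import Mathlib
import Pool.Agent.Helper23K9.T5.Tr

/-!
Kummer theory for characters of order five.
-/

set_option autoImplicit false
set_option linter.all false

open Polynomial IsDedekindDomain WeierstrassCurve WeierstrassCurve.Affine
open scoped Classical

namespace Pool.Agent.Helper23K9.T5

universe u

section zz

variable {Ω : Type u} [Field Ω]

/-- `z ^ i` for `i` modulo five. -/
def Zp (z : Ω) (i : ZMod 5) : Ω := z ^ i.val

theorem Zp_zero (z : Ω) : Zp z 0 = 1 := by simp [Zp]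

theorem Zp_add {z : Ω} (hz : IsZ z) (i j : ZMod 5) : Zp z (i + j) = Zp z i * Zp z j := by
  have h5 : z ^ 5 = 1 := hz.five
  unfold Zp
  rw [← pow_add, ZMod.val_add]
  conv_rhs => rw [← Nat.mod_add_div (i.val + j.val) 5, pow_add, pow_mul, h5, one_pow, mul_one]

theorem Zp_pow {z : Ω} (hz : IsZ z) (i : ZMod 5) (n : ℕ) : Zp z i ^ n = Zp z ((n : ZMod 5) * i) := by
  induction n with
  | zero => simp [Zp_zero]
  | succ n ih => rw [pow_succ, ih, Nat.cast_succ, add_mul, one_mul, Zp_add hz]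

theorem Zp_pow5 {z : Ω} (hz : IsZ z) (i : ZMod 5) : Zp z i ^ 5 = 1 := by
  rw [Zp_pow hz]
  have : ((5 : ℕ) : ZMod 5) = 0 := by decide
  rw [this, zero_mul, Zp_zero]

theorem Zp_sum {z : Ω} (hz : IsZ z) (m : ZMod 5) :
    ∑ k : ZMod 5, Zp z (k * m) = if m = 0 then 5 else 0 := by
  haveI : Fact (Nat.Prime 5) := ⟨by norm_num⟩
  by_cases hm : m = 0
  · subst hm
    simp only [mul_zero, Zp_zero, if_true, Finset.sum_const, Finset.card_univ, ZMod.card]
    simp
  · rw [if_neg hm]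
    have h1 : ∑ k : ZMod 5, Zp z (k * m) = ∑ k : ZMod 5, Zp z k :=
      Fintype.sum_equiv (Equiv.mulRight₀ m hm) _ _ (fun k => rfl)
    rw [h1]
    have h2 : ∑ k : ZMod 5, Zp z k = z ^ 0 + z ^ 1 + z ^ 2 + z ^ 3 + z ^ 4 := by
      exact Fin.sum_univ_five (fun k : Fin 5 => z ^ (k : ℕ))
    rw [h2]
    unfold IsZ at hz
    linear_combination hz

end zz

/-- A locally constant character with values in `ℤ / 5` comes from a fifth root. -/
theorem exists_root5 {K Ω : Type u} [Field K] [Field Ω] [Algebra K Ω] [IsGalois K Ω]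
    {z : Ω} (h5 : (5 : Ω) ≠ 0) (hz : IsZ z) (hzK : ∀ σ : Ω ≃ₐ[K] Ω, σ z = z)
    (χ : (Ω ≃ₐ[K] Ω) → ZMod 5) (hmul : ∀ σ τ, χ (σ * τ) = χ σ + χ τ) (hc : IsLocallyConstant χ) :
    ∃ (s : Ω) (a : K), s ≠ 0 ∧ s ^ 5 = algebraMap K Ω a ∧ ∀ σ, σ s = z ^ (χ σ).val * s := by
  have hσZ : ∀ (σ : Ω ≃ₐ[K] Ω) (i : ZMod 5), σ (Zp z i) = Zp z i := by
    intro σ i
    unfold Zp
    rw [map_pow, hzK]
  have hfix : ∀ s : Ω, (∀ σ, σ s = Zp z (χ σ) * s) → ∃ a : K, s ^ 5 = algebraMap K Ω a := by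
    intro s hs
    have : s ^ 5 ∈ Set.range (algebraMap K Ω) := by
      rw [InfiniteGalois.mem_range_algebraMap_iff_fixed]
      intro σ
      rw [map_pow, hs, mul_pow, Zp_pow5 hz, one_mul]
    obtain ⟨a, ha⟩ := this
    exact ⟨a, ha.symm⟩
  have hone : χ 1 = 0 := by
    have h1 := hmul 1 1
    rw [mul_one] at h1
    exact left_eq_add.1 h1
  suffices hmain : ∃ s : Ω, s ≠ 0 ∧ ∀ σ, σ s = Zp z (χ σ) * s by
    obtain ⟨s, hs0, hs⟩ := hmain
    obtain ⟨a, ha⟩ := hfix s hs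
    exact ⟨s, a, hs0, ha, hs⟩
  by_cases htriv : ∀ σ, χ σ = 0
  · exact ⟨1, one_ne_zero, fun σ => by rw [htriv σ, map_one, mul_one, Zp_zero]⟩
  · push Not at htriv
    obtain ⟨τ, hτ⟩ := htriv
    let H : Subgroup (Ω ≃ₐ[K] Ω) :=
      { carrier := {σ | χ σ = 0}
        mul_mem' := by
          intro a b ha hb
          show χ (a * b) = 0
          rw [hmul, show χ a = 0 from ha, show χ b = 0 from hb, add_zero]
        one_mem' := hone
        inv_mem' := by
          intro a ha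
          show χ a⁻¹ = 0
          have := hmul a⁻¹ a
          rw [inv_mul_cancel, hone, show χ a = 0 from ha, add_zero] at this
          exact this.symm }
    have hHo : IsOpen (H : Set (Ω ≃ₐ[K] Ω)) := hc.isOpen_fiber 0
    let Hc : ClosedSubgroup (Ω ≃ₐ[K] Ω) := ⟨H, H.isClosed_of_isOpen hHo⟩
    have hfx := InfiniteGalois.fixingSubgroup_fixedField Hc
    have hτn : τ ∉ (IntermediateField.fixedField (Hc : Subgroup (Ω ≃ₐ[K] Ω))).fixingSubgroup := by
      rw [hfx]
      intro h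
      exact hτ h
    rw [IntermediateField.mem_fixingSubgroup_iff] at hτn
    push Not at hτn
    obtain ⟨x, hx, hx'⟩ := hτn
    have hxH : ∀ σ, χ σ = 0 → σ x = x := by
      intro σ hσ
      exact hx ⟨σ, hσ⟩
    have hsame : ∀ σ σ' : Ω ≃ₐ[K] Ω, χ σ = χ σ' → σ x = σ' x := by
      intro σ σ' h
      have h1 : χ (σ'⁻¹ * σ) = 0 := by
        rw [hmul, h, ← hmul, inv_mul_cancel, hone]
      have h2 := hxH _ h1
      rw [AlgEquiv.mul_apply] at h2
      have h4 := congrArg σ' h2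
      rw [← AlgEquiv.mul_apply σ' σ'⁻¹, mul_inv_cancel, AlgEquiv.one_apply] at h4
      exact h4
    have hpow : ∀ n : ℕ, χ (τ ^ n) = n * χ τ := by
      intro n
      induction n with
      | zero => simp [hone]
      | succ n ih => rw [pow_succ, hmul, ih, Nat.cast_succ, add_mul, one_mul]
    -- a representative of each class
    have hsurj : ∀ i : ZMod 5, ∃ σ, χ σ = i := by
      intro i
      refine ⟨τ ^ (i * (χ τ)⁻¹).val, ?_⟩
      haveI : Fact (Nat.Prime 5) := ⟨by norm_num⟩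
      rw [hpow, ZMod.natCast_val, ZMod.cast_id, mul_assoc, inv_mul_cancel₀ hτ, mul_one]
    choose ρ hρ using hsurj
    let y : ZMod 5 → Ω := fun i => (ρ i) x
    have hy : ∀ (σ : Ω ≃ₐ[K] Ω) (i : ZMod 5), σ (y i) = y (χ σ + i) := by
      intro σ i
      show σ ((ρ i) x) = (ρ (χ σ + i)) x
      rw [← AlgEquiv.mul_apply]
      exact hsame _ _ (by rw [hmul, hρ, hρ])
    let e : ZMod 5 → Ω := fun k => ∑ i, Zp z (-(k * i)) * y i
    have he : ∀ (σ : Ω ≃ₐ[K] Ω) (k : ZMod 5), σ (e k) = Zp z (k * χ σ) * e k := by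
      intro σ k
      show σ (∑ i, Zp z (-(k * i)) * y i) = Zp z (k * χ σ) * ∑ i, Zp z (-(k * i)) * y i
      rw [map_sum, Finset.mul_sum]
      refine Fintype.sum_equiv (Equiv.addLeft (χ σ)) _ _ (fun i => ?_)
      rw [map_mul, hσZ, hy, Equiv.coe_addLeft, ← mul_assoc, ← Zp_add hz]
      congr 2
      ring
    have hsum : ∀ j : ZMod 5, ∑ k, Zp z (k * j) * e k = 5 * y j := by
      intro j
      show ∑ k, Zp z (k * j) * ∑ i, Zp z (-(k * i)) * y i = 5 * y j
      simp_rw [Finset.mul_sum]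
      rw [Finset.sum_comm]
      have h1 : ∀ i : ZMod 5, ∑ k, Zp z (k * j) * (Zp z (-(k * i)) * y i) =
          (if j - i = 0 then 5 else 0) * y i := by
        intro i
        rw [← Zp_sum hz (j - i), Finset.sum_mul]
        refine Finset.sum_congr rfl (fun k _ => ?_)
        rw [← mul_assoc, ← Zp_add hz]
        congr 2
        ring
      simp_rw [h1, ite_mul, zero_mul, sub_eq_zero]
      rw [Finset.sum_ite_eq Finset.univ j (fun i => 5 * y i), if_pos (Finset.mem_univ _)]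
    obtain ⟨k, hk0, hk⟩ : ∃ k : ZMod 5, k ≠ 0 ∧ e k ≠ 0 := by
      by_contra hcon
      push Not at hcon
      have h1 : ∀ j : ZMod 5, 5 * y j = e 0 := by
        intro j
        rw [← hsum j, Finset.sum_eq_single 0]
        · rw [zero_mul, Zp_zero, one_mul]
        · intro k _ hk
          rw [hcon k hk, mul_zero]
        · intro h
          exact absurd (Finset.mem_univ _) h
      have h2 : y (χ τ) = y 0 := mul_left_cancel₀ h5 ((h1 _).trans (h1 _).symm)
      apply hx'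
      have h3 : τ x = y (χ τ) := hsame _ _ (hρ _).symm
      have h4 : (1 : Ω ≃ₐ[K] Ω) x = y 0 := hsame _ _ (by rw [hone, hρ])
      have h6 : τ x = (1 : Ω ≃ₐ[K] Ω) x := by rw [h3, h2, h4]
      exact h6
    haveI : Fact (Nat.Prime 5) := ⟨by norm_num⟩
    refine ⟨e k ^ (k⁻¹).val, pow_ne_zero _ hk, fun σ => ?_⟩
    rw [map_pow, he, mul_pow, Zp_pow hz, ZMod.natCast_val, ZMod.cast_id, ← mul_assoc,
      inv_mul_cancel₀ hk0, one_mul]

end Pool.Agent.Helper23K9.T5
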