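import Pool.Agent.Helper23K9.T5.Kd
import Pool.Agent.Helper23K9.T5.Ff
import Pool.Agent.Helper23K9.T5.Kum

/-!
If the Kummer class of the point `(0, 0)` is a multiple of the class of `f` in the group generated by
`(0, 0)`, then `b` is a fifth power times a power of `f`.
-/

set_option autoImplicit false
set_option linter.all false

open Polynomial IsDedekindDomain WeierstrassCurve WeierstrassCurve.Affine
open scoped Classical

namespace Pool.Agent.Helper23K9.T5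

open Pool.Agent.TH115.GD (Pt act incl rs act_inj fixed_point)

section np

theorem Zp_eq_one {Ω : Type} [Field Ω] {ζ : Ω} (hζ : IsZ ζ) (h5 : (5 : Ω) ≠ 0) {i : ZMod 5}
    (h : Zp ζ i = 1) : i = 0 := by
  haveI : Fact (Nat.Prime 5) := ⟨by norm_num⟩
  by_contra hi
  have h1 : Zp ζ 1 = 1 := by
    have h2 := Zp_pow hζ i (i⁻¹).val
    rw [h, one_pow, ZMod.natCast_val, ZMod.cast_id, inv_mul_cancel₀ hi] at h2
    exact h2.symm
  have h3 : ζ = 1 := by
    have : Zp ζ 1 = ζ ^ 1 := rfl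
    rw [this, pow_one] at h1
    exact h1
  apply h5
  unfold IsZ at hζ
  rw [h3] at hζ
  linear_combination hζ

theorem exists_Zp {Ω : Type} [Field Ω] {ζ : Ω} (hζ : IsZ ζ) {c d : Ω} (hc : c ≠ 0)
    (h : d ^ 5 = c ^ 5) : ∃ e : ZMod 5, d = Zp ζ e * c := by
  have h1 : (d / c) ^ 5 = 1 := by rw [div_pow, h, div_self (pow_ne_zero 5 hc)]
  obtain ⟨x, hx⟩ : ∃ x, x = d / c := ⟨_, rfl⟩
  rw [← hx] at h1
  have h2 : (x - 1) * (x - ζ) * (x - ζ ^ 2) * (x - ζ ^ 3) * (x - ζ ^ 4) = 0 := by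
    unfold IsZ at hζ
    linear_combination h1 + (1 - x ^ 4 - ζ + ζ * x ^ 3 - ζ ^ 3 * x ^ 2 + ζ ^ 3 * x ^ 3 + ζ ^ 5 -
      ζ ^ 5 * x ^ 2 - ζ ^ 6 + ζ ^ 6 * x) * hζ
  have hd : d = x * c := by rw [hx]; field_simp
  simp only [mul_eq_zero] at h2
  rcases h2 with (((h2 | h2) | h2) | h2) | h2
  · exact ⟨0, by rw [hd, sub_eq_zero.1 h2, Zp_zero]⟩
  · refine ⟨1, ?_⟩
    rw [hd, sub_eq_zero.1 h2]
    show ζ * c = ζ ^ 1 * c
    rw [pow_one]
  · exact ⟨2, by rw [hd, sub_eq_zero.1 h2]; rfl⟩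
  · exact ⟨3, by rw [hd, sub_eq_zero.1 h2]; rfl⟩
  · exact ⟨4, by rw [hd, sub_eq_zero.1 h2]; rfl⟩

/-- A fixed fifth part of the point gives a fifth root of `b`. -/
theorem fifth_of_fixed {K L Ω : Type} [Field K] [Field L] [Field Ω] [Algebra K L] [Algebra L Ω]
    [Algebra K Ω] [IsScalarTower K L Ω] [IsGalois L Ω] {b : K} (h5 : (5 : K) ≠ 0) (hb : b ≠ 0)
    (hd : b ^ 2 - 11 * b - 1 ≠ 0) {R : Pt (crv5 b) Ω} (hR : 5 • R = pP (isE5 b Ω h5 hb hd))
    (hfix : ∀ τ : Ω ≃ₐ[L] Ω, act (crv5 b) (rs K τ) R = R) : ∃ c : L, algebraMap K L b = c ^ 5 := by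
  obtain ⟨R0, hR0⟩ := fixed_point (K := K) (F := L) (crv5 b) R hfix
  refine fifth_of_div (isE5 b L h5 hb hd) (R := R0) ?_
  apply act_inj (W := crv5 b) (incl K L Ω)
  rw [map_nsmul, hR0, hR, pP_act]

variable {K F Ω : Type} [Field K] [Field F] [Field Ω] [Algebra K F] [Algebra F Ω] [Algebra K Ω]
  [IsScalarTower K F Ω] [IsGalois F Ω] {b z : K} (h5 : (5 : K) ≠ 0) (hb : b ≠ 0)
  (hd : b ^ 2 - 11 * b - 1 ≠ 0)

theorem fifth_of_kappa (hz : IsZ z) {R : Pt (crv5 b) Ω} (hR : 5 • R = pP (isE5 b Ω h5 hb hd))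
    {i : (Ω ≃ₐ[F] Ω) → ZMod 5}
    (hi : ∀ σ : Ω ≃ₐ[F] Ω, act (crv5 b) (rs K σ) R - R = (i σ).val • pP (isE5 b Ω h5 hb hd))
    {s : Ω} {f : F} (h : KD (algebraMap K Ω z) i s f) :
    ∃ (j : ℕ) (d : F), algebraMap K F b = d ^ 5 * f ^ j := by
  haveI : Fact (Nat.Prime 5) := ⟨by norm_num⟩
  set ζ : Ω := algebraMap K Ω z with hζdef
  have hζ : IsZ ζ := hz.map (algebraMap K Ω)
  have h5Ω : (5 : Ω) ≠ 0 := (isE5 b Ω h5 hb hd).five
  have hact : ∀ σ : Ω ≃ₐ[F] Ω, σ s = Zp ζ (i σ) * s := h.act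
  have hσζ : ∀ σ : Ω ≃ₐ[F] Ω, σ ζ = ζ := by
    intro σ
    rw [hζdef, IsScalarTower.algebraMap_apply K F Ω, σ.commutes]
  have hσZ : ∀ (σ : Ω ≃ₐ[F] Ω) (k : ZMod 5), σ (Zp ζ k) = Zp ζ k := by
    intro σ k
    unfold Zp
    rw [map_pow, hσζ]
  set L : IntermediateField F Ω := IntermediateField.adjoin F {s} with hL
  haveI htower : IsScalarTower K L Ω := IsScalarTower.of_algebraMap_eq fun x => rfl
  have hsL : s ∈ L := IntermediateField.mem_adjoin_simple_self F s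
  -- automorphisms which agree at `s` agree on `L`
  have hagree : ∀ σ σ' : Ω ≃ₐ[F] Ω, σ s = σ' s → ∀ x ∈ L, σ x = σ' x := by
    intro σ σ' hs x hx
    refine IntermediateField.adjoin_induction F (p := fun x _ => σ x = σ' x) ?_ ?_ ?_ ?_ ?_ hx
    · intro x hx
      rw [Set.mem_singleton_iff] at hx
      rw [hx, hs]
    · intro x
      rw [σ.commutes, σ'.commutes]
    · intro x y _ _ h1 h2
      rw [map_add, map_add, h1, h2]
    · intro x _ h1
      rw [map_inv₀, map_inv₀, h1]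
    · intro x y _ _ h1 h2
      rw [map_mul, map_mul, h1, h2]
  -- the point is defined over `L`
  obtain ⟨c, hc⟩ : ∃ c : L, algebraMap K L b = c ^ 5 := by
    have hfix : ∀ τ : Ω ≃ₐ[L] Ω, act (crv5 b) (rs K τ) R = R := by
      intro τ
      set σ : Ω ≃ₐ[F] Ω := τ.restrictScalars F with hσ
      have h1 : σ s = s := τ.commutes ⟨s, hsL⟩
      have h2 : i σ = 0 := by
        refine Zp_eq_one hζ h5Ω (mul_right_cancel₀ h.ne ?_)
        rw [← hact σ, h1, one_mul]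
      have h3 := hi σ
      rw [h2, ZMod.val_zero, zero_smul, sub_eq_zero] at h3
      exact h3
    exact fifth_of_fixed h5 hb hd hR hfix
  have hcΩ : (c : Ω) ^ 5 = algebraMap K Ω b := by
    have h1 := congrArg (algebraMap L Ω) hc
    rw [← IsScalarTower.algebraMap_apply, map_pow] at h1
    exact h1.symm
  have hc0 : (c : Ω) ≠ 0 := by
    intro h1
    rw [h1, zero_pow (by norm_num)] at hcΩ
    exact (isE5 b Ω h5 hb hd).nb hcΩ.symm
  have hσc : ∀ σ : Ω ≃ₐ[F] Ω, σ (c : Ω) ^ 5 = (c : Ω) ^ 5 := by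
    intro σ
    rw [← map_pow, hcΩ, IsScalarTower.algebraMap_apply K F Ω, σ.commutes]
  -- the exponent
  obtain ⟨j, hj⟩ : ∃ j : ZMod 5, ∀ σ : Ω ≃ₐ[F] Ω, σ (c : Ω) = Zp ζ (j * i σ) * c := by
    by_cases htriv : ∀ σ, i σ = 0
    · refine ⟨0, fun σ => ?_⟩
      rw [zero_mul, Zp_zero, one_mul]
      have h1 := hagree σ 1 (by rw [hact, htriv, Zp_zero, one_mul]; rfl) c c.2
      exact h1
    · push Not at htriv
      obtain ⟨τ, hτ⟩ := htriv
      obtain ⟨e, he⟩ := exists_Zp hζ hc0 (hσc τ)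
      have hpow : ∀ (x : Ω) (k : ZMod 5), τ x = Zp ζ k * x → ∀ n : ℕ,
          (τ ^ n) x = Zp ζ (n * k) * x := by
        intro x k hx n
        induction n with
        | zero => rw [pow_zero, Nat.cast_zero, zero_mul, Zp_zero, one_mul]; rfl
        | succ n ih =>
          rw [pow_succ', AlgEquiv.mul_apply, ih, map_mul, hσZ, hx, Nat.cast_succ, add_mul,
            one_mul, Zp_add hζ]
          ring
      refine ⟨e * (i τ)⁻¹, fun σ => ?_⟩
      set n : ℕ := (i σ * (i τ)⁻¹).val with hn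
      have hnc : (n : ZMod 5) = i σ * (i τ)⁻¹ := by
        rw [hn, ZMod.natCast_val, ZMod.cast_id]
      have h1 : σ s = (τ ^ n) s := by
        rw [hact, hpow s (i τ) (hact τ) n, hnc, mul_assoc, inv_mul_cancel₀ hτ, mul_one]
      rw [hagree σ (τ ^ n) h1 c c.2, hpow c e he n, hnc]
      congr 2
      ring
  -- the quotient is fixed
  have hsne := h.ne
  have hfix : ∀ σ : Ω ≃ₐ[F] Ω, σ ((c : Ω) / s ^ j.val) = (c : Ω) / s ^ j.val := by
    intro σ
    rw [map_div₀, map_pow, hj, hact, mul_pow, Zp_pow hζ, ZMod.natCast_val, ZMod.cast_id]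
    have : Zp ζ (j * i σ) ≠ 0 := by
      intro h1
      have := hj σ
      rw [h1, zero_mul] at this
      exact hc0 ((_root_.map_eq_zero σ).1 this)
    field_simp
  have hran : (c : Ω) / s ^ j.val ∈ Set.range (algebraMap F Ω) := by
    rw [InfiniteGalois.mem_range_algebraMap_iff_fixed]
    exact hfix
  obtain ⟨d, hd'⟩ := hran
  refine ⟨j.val, d, (algebraMap F Ω).injective ?_⟩
  rw [← IsScalarTower.algebraMap_apply, ← hcΩ, map_mul, map_pow, map_pow, ← h.five, hd', div_pow]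
  have : s ^ j.val ≠ 0 := pow_ne_zero _ hsne
  rw [← pow_mul, ← pow_mul, mul_comm 5 j.val, div_mul_cancel₀ _ (pow_ne_zero _ hsne)]

end np

end Pool.Agent.Helper23K9.T5
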