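import Pool.Agent.Helper23K9.T5.Pc
import Pool.Agent.Helper23K9.T5.Np
import Pool.Agent.Helper23K9.T5.Div
import Pool.Agent.Helper23K9.T5.Kum

/-!
The Tate conjecture at 5 for elliptic surfaces with a section of order five.
-/

set_option autoImplicit false
set_option linter.all false

open Polynomial IsDedekindDomain WeierstrassCurve WeierstrassCurve.Affine
open scoped Classical

namespace Pool.Agent.Helper23K9.T5

open Pool.Agent.TH115.GD (vInf wInf wFin AtInf CompInf pl Pt act incl rs ak IsCoc LocTriv Sep Comp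
  IsTower Preserves LocallyTrivial lt_subT act_act act_inj cob_isCoc preserves sepKΩ lift
  exists_conj)
open Pool.Agent.Helper7K9.T3 (TateAt IsTateClass tate_of_part)

section aux

theorem om_unit {R F : Type} [CommRing R] [IsDedekindDomain R] [Field F] [Algebra R F]
    [IsFractionRing R F] (v : HeightOneSpectrum R) {x : F} (h : v.valuation F x = 1) :
    om5 v x = 0 := om5_of_Fi v (by rw [h]; exact Fi.one)

variable {k k' : Type} [Field k] [Field k'] [Algebra k k']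

theorem not_mem_mul {v : HeightOneSpectrum k'[X]} {p q : k[X]}
    (h : (p * q).map (algebraMap k k') ∉ v.asIdeal) :
    p.map (algebraMap k k') ∉ v.asIdeal ∧ q.map (algebraMap k k') ∉ v.asIdeal := by
  rw [Polynomial.map_mul] at h
  exact ⟨fun h1 => h (v.asIdeal.mul_mem_right _ h1), fun h1 => h (v.asIdeal.mul_mem_left _ h1)⟩

theorem not_mem_pow {v : HeightOneSpectrum k'[X]} {p q : k[X]} {c : k} {n : ℕ} (hc : c ≠ 0)
    (e : p = C c * q ^ n) (h : q.map (algebraMap k k') ∉ v.asIdeal) :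
    p.map (algebraMap k k') ∉ v.asIdeal := by
  rw [e, Polynomial.map_mul, Polynomial.map_pow, map_C]
  intro h1
  rcases v.isPrime.mem_or_mem h1 with h2 | h2
  · apply v.isPrime.ne_top
    rw [Ideal.eq_top_iff_one]
    have : (1 : k'[X]) = C (algebraMap k k' c)⁻¹ * C (algebraMap k k' c) := by
      rw [← C_mul, inv_mul_cancel₀ ((_root_.map_ne_zero _).2 hc), C_1]
    rw [this]
    exact v.asIdeal.mul_mem_left _ h2
  · exact h (v.isPrime.mem_of_pow_mem _ h2)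

theorem dvd_of_pow {p q : k[X]} {c : k} {n : ℕ} (hn : ¬ 5 ∣ n) (e : p = C c * q ^ n) : q ∣ p := by
  rw [e]
  refine (dvd_pow_self q ?_).mul_left _
  rintro rfl
  exact hn (dvd_zero 5)

theorem cop_sub {β γ : k[X]} (h : IsCoprime β γ) {e : k} (he : e ≠ 0) :
    IsCoprime β (β - C e * γ) := by
  obtain ⟨u, w, huw⟩ := h
  refine ⟨u + w * C e⁻¹, -(w * C e⁻¹), ?_⟩
  have h1 : (C e⁻¹ : k[X]) * C e = 1 := by rw [← C_mul, inv_mul_cancel₀ he, C_1]
  linear_combination huw + w * γ * h1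

theorem quot_eq {K : Type} [Field K] [Algebra k[X] K] [IsFractionRing k[X] K] {z0 : k}
    {δ δ' γ : k[X]} {z A B : K} {c1 c2 : k} (hγ : γ ≠ 0) (ez : z = algebraMap k[X] K (C z0))
    (eA : A = algebraMap k[X] K (C c1 * δ) / algebraMap k[X] K γ)
    (eB : B = algebraMap k[X] K (C c2 * δ') / algebraMap k[X] K γ) :
    (5 + 3 * eta z) * B / A = algebraMap k[X] K (C ((5 + 3 * eta z0) * c2) * δ') /
      algebraMap k[X] K (C c1 * δ) := by
  have n1 : algebraMap k[X] K γ ≠ 0 := by simpa using hγ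
  have ez' : eta z = algebraMap k[X] K (C (eta z0)) := by
    rw [ez, ← RingHom.comp_apply, ← RingHom.comp_apply, eta_map]
  have e5 : algebraMap k[X] K (C (5 + 3 * eta z0)) = 5 + 3 * algebraMap k[X] K (C (eta z0)) := by
    rw [C_add, C_mul, map_add, map_mul]
    have q5 : algebraMap k[X] K (C 5) = 5 := map_ofNat ((algebraMap k[X] K).comp C) 5
    have q3 : algebraMap k[X] K (C 3) = 3 := map_ofNat ((algebraMap k[X] K).comp C) 3
    rw [q5, q3]
  rw [eA, eB, ez', ← e5, mul_div_assoc, div_div_div_cancel_right₀ n1, ← mul_div_assoc, C_mul,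
    mul_assoc (C (5 + 3 * eta z0)), map_mul (algebraMap k[X] K) (C (5 + 3 * eta z0))]

end aux

section main

variable {k k' K F : Type} [Field k] [Field k'] [Algebra k k'] [Field K] [Algebra k[X] K]
    [Field F] [Algebra k'[X] F] [IsFractionRing k'[X] F] [Algebra K F]

/-- **The criterion for elliptic surfaces with a section of order five.** -/
theorem main5 (hT : IsTower k k' K F) (h5k : (5 : k) ≠ 0) {z0 : k} (hz0 : IsZ z0) {β γ : k[X]}
    (hG : Gen5 z0 β γ) :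
    TateAt (F := F) 5 k' (crv5 (algebraMap k[X] K β / algebraMap k[X] K γ)) := by
  haveI := hT.sep
  haveI := hT.fracK
  haveI : IsSepClosed k' := IsSepClosure.sep_closed k
  haveI : IsGalois k k' := inferInstance
  have hKF := hT.map
  obtain ⟨b, eb⟩ : ∃ b : K, b = algebraMap k[X] K β / algebraMap k[X] K γ := ⟨_, rfl⟩
  obtain ⟨z, ez⟩ : ∃ z : K, z = algebraMap k[X] K (C z0) := ⟨_, rfl⟩
  rw [← eb]
  obtain ⟨h5, hb, hd, hz, eA, eB, c1n, c2n, c3n⟩ := hG.fld h5k hz0 eb ez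
  haveI : IsSepClosure K (Sep F) := sepKΩ hKF
  haveI : Algebra.IsSeparable K (Sep F) := IsSepClosure.separable
  haveI : IsGalois K (Sep F) := inferInstance
  have h := isE5 b (Sep F) h5 hb hd
  have hpres : Preserves K F (Sep F) := preserves hKF
  obtain ⟨pos1, pos2, pos3, pos4⟩ := hG.pos
  -- the root of unity
  set ζ : Sep F := algebraMap K (Sep F) z with hζ
  have hzΩ : IsZ ζ := hz.map _
  have hzF : ∀ σ : Sep F ≃ₐ[F] Sep F, σ ζ = ζ := fun σ => by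
    rw [hζ, IsScalarTower.algebraMap_apply K F (Sep F)]
    exact σ.commutes _
  have hzK : ∀ τ : Sep F ≃ₐ[K] Sep F, τ ζ = ζ := fun τ => τ.commutes _
  have hz5 : ζ ^ 5 = 1 := hzΩ.five
  have h5Ω : (5 : Sep F) ≠ 0 := h.five
  -- the point T
  have hA0 := AA_ne h hzΩ
  have hB0 := BB_ne h hzΩ
  have c3Ω : 5 + 3 * eta ζ ≠ 0 := by
    intro h0
    have h1 := hzΩ.eta_sq
    have h2 : (5 + 3 * eta ζ) * (1 - eta ζ) ^ 2 = 1 := by
      linear_combination (3 * eta ζ - 4) * h1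
    rw [h0, zero_mul] at h2
    exact zero_ne_one h2
  obtain ⟨m, hm5⟩ : ∃ m : Sep F, m ^ 5 = AA ζ (algebraMap K (Sep F) b) /
      ((5 + 3 * eta ζ) * BB ζ (algebraMap K (Sep F) b)) := by
    haveI : NeZero ((5 : ℕ) : Sep F) := ⟨by exact_mod_cast h5Ω⟩
    exact IsSepClosed.exists_pow_nat_eq _ 5
  have hm : AA ζ (algebraMap K (Sep F) b) = (5 + 3 * eta ζ) * m ^ 5 *
      BB ζ (algebraMap K (Sep F) b) := by
    rw [hm5]; field_simp
  obtain ⟨T, hTT⟩ := exists_T h hzΩ hm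
  have hT5 := hTT.five h hzΩ hm
  have hTn := hTT.nm
  have m0 := m_ne h hzΩ hm
  have hbp : bpol (algebraMap K (Sep F) b) ≠ 0 := by
    obtain ⟨v, hv⟩ := hG.pole hKF
    rw [← eb] at hv
    have h1 := bpol_ne (v.valuation F) hv
    have h2 : bpol (algebraMap K (Sep F) b) = algebraMap F (Sep F) (bpol (algebraMap K F b)) := by
      rw [IsScalarTower.algebraMap_apply K F (Sep F)]
      simp only [bpol, map_add, map_sub, map_mul, map_pow, map_ofNat, map_one, map_neg]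
    rw [h2]
    exact (_root_.map_ne_zero _).2 h1
  have hsurj : ∀ S : Pt (crv5 b) (Sep F), 5 • S = 0 → ∃ i a, S = cb h T i a :=
    fun S hS => cb_surj h hT5 hTn hbp hS
  obtain ⟨ξ, hξ⟩ : ∃ ξ : (Sep F →ₐ[K] Sep F) → ZMod 5, ∀ φ,
      act (crv5 b) φ T = cb h T (ξ φ) 1 ∧ φ m⁻¹ = ζ ^ (ξ φ).val * m⁻¹ :=
    ⟨fun φ => (T_gal h5 hb hd hz hTT hm φ).choose, fun φ =>
      (T_gal h5 hb hd hz hTT hm φ).choose_spec⟩
  have hξT := fun φ => (hξ φ).1
  -- the Kummer generator of the character of T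
  obtain ⟨g2, hg2⟩ : ∃ g2 : F, g2 = algebraMap K F ((5 + 3 * eta z) * BB z b / AA z b) := ⟨_, rfl⟩
  have kT : KD ζ (fun σ => ξ (rs K σ)) m⁻¹ g2 := by
    refine ⟨inv_ne_zero m0, ?_, fun σ => (hξ (rs K σ)).2⟩
    rw [inv_pow, hm5, hg2, ← IsScalarTower.algebraMap_apply K F (Sep F), map_div₀, map_mul,
      AA_map, BB_map, map_add, map_mul, eta_map, inv_div, map_ofNat, map_ofNat]
  -- a fifth part of P
  obtain ⟨R, hR⟩ := five_div h (pP h)
  have hκ5 : ∀ φ : Sep F →ₐ[K] Sep F, 5 • (act (crv5 b) φ R - R) = 0 := by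
    intro φ
    rw [smul_sub, ← map_nsmul, hR, pP_act h h φ, sub_self]
  choose iκ aP hκ using fun σ : Sep F ≃ₐ[F] Sep F => hsurj _ (hκ5 (rs K σ))
  have hκc : IsCoc (crv5 b) (fun σ : Sep F ≃ₐ[F] Sep F => act (crv5 b) (rs K σ) R - R) :=
    cob_isCoc _ R
  obtain ⟨iκlc, aPlc⟩ := coords_lc h5 hb hd hT5 hTn hκc.lc hκ
  have hκm := coords_mul h5 hb hd hT5 hTn hξT hκc hκ
  obtain ⟨sP, gP, sP0, sP5, sPk⟩ := exists_root5 h5Ω hzΩ hzF aP (fun σ τ => (hκm σ τ).1) aPlc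
  have kP : KD ζ aP sP gP := ⟨sP0, sP5, sPk⟩
  -- the character of T is not trivial
  have epn : ep z0 ≠ 0 ∧ ep' z0 ≠ 0 := by
    have h1 : ep z0 * ep' z0 = -1 := by
      unfold ep ep'
      linear_combination 25 * hz0.eta_mul + 40 * hz0.eta_add
    constructor
    · intro h0
      rw [h0, zero_mul] at h1
      exact one_ne_zero (neg_eq_zero.1 h1.symm)
    · intro h0
      rw [h0, mul_zero] at h1
      exact one_ne_zero (neg_eq_zero.1 h1.symm)
  have nF : ∀ p : k[X], p ≠ 0 → algebraMap K F (algebraMap k[X] K p) ≠ 0 := by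
    intro p hp
    simpa using hp
  have omC : ∀ (v : HeightOneSpectrum k'[X]) (c : k) (p : k[X]), c ≠ 0 → p ≠ 0 →
      om5 v (algebraMap K F (algebraMap k[X] K (C c * p))) =
        om5 v (algebraMap K F (algebraMap k[X] K p)) := by
    intro v c p hc hp
    rw [map_mul, map_mul, om5_mul v (nF _ (C_ne_zero.2 hc)) (nF _ hp),
      om_unit v (fin_const hKF v hc), zero_add]
  have e_g2 : g2 = algebraMap K F (algebraMap k[X] K (C ((5 + 3 * eta z0) * (2 * eta' z0 - 1)) *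
        (β - C (ep' z0) * γ))) / algebraMap K F (algebraMap k[X] K (C (2 * eta z0 - 1) *
          (β - C (ep z0) * γ))) := by
    rw [hg2, quot_eq pos2 ez eA eB, map_div₀]
  have hgT : ∀ c : F, c ^ 5 ≠ g2 := by
    intro c hc
    obtain ⟨v, v1, v2, -⟩ := PP5.place (K := K) (F := F) hG.b4 pos4
      (hG.cop2 h5k hz0).symm hKF
    have h1 : om5 v g2 = om5 v (algebraMap K F (algebraMap k[X] K (β - C (ep' z0) * γ))) := by
      rw [e_g2, om5_div v (nF _ (mul_ne_zero (C_ne_zero.2 (mul_ne_zero c3n c2n)) pos4))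
        (nF _ (mul_ne_zero (C_ne_zero.2 c1n) pos3)), omC v _ _ (mul_ne_zero c3n c2n) pos4,
        omC v _ _ c1n pos3, om_unit v (fin_one hKF v v2), sub_zero]
    apply v1
    rw [← h1, ← hc, om5_pow]
    have : ((5 : ℕ) : ZMod 5) = 0 := by decide
    rw [this, zero_mul]
  have hx0 : ∃ σ : Sep F ≃ₐ[F] Sep F, ξ (rs K σ) ≠ 0 := by
    by_contra hcon
    push Not at hcon
    have k1 : KD ζ (fun σ : Sep F ≃ₐ[F] Sep F => ξ (rs K σ)) (1 : Sep F) (1 : F) :=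
      ⟨one_ne_zero, by rw [one_pow, map_one], fun σ => by
        rw [hcon, ZMod.val_zero, pow_zero, one_mul, map_one]⟩
    obtain ⟨c, -, hc⟩ := k1.same kT
    exact hgT c (by rw [hc, mul_one])
  refine tate_of_part (fun X => five_div h X) fun c hc => ?_
  have hκl : LocallyTrivial k' (crv5 b)
      (fun σ : Sep F ≃ₐ[F] Sep F => act (crv5 b) (rs K σ) R - R) := by
    have h1 := lt_subT (hc.loc 0) (-R)
    have h2 : (fun σ => c 0 σ - (act (crv5 b) (rs K σ) (-R) - -R)) =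
        fun σ => act (crv5 b) (rs K σ) R - R := by
      funext σ
      rw [hc.tc.zero, map_neg]; abel
    rwa [h2] at h1
  have hP0 : ∃ σ, aP σ ≠ 0 := by
    by_contra hcon
    push Not at hcon
    have him : ∀ σ τ, iκ (σ * τ) = iκ σ + iκ τ := fun σ τ => by
      rw [(hκm σ τ).2, hcon, zero_mul, add_zero]
    obtain ⟨s, f, s0, s5, sk⟩ := exists_root5 h5Ω hzΩ hzF iκ him iκlc
    have ks : KD ζ iκ s f := ⟨s0, s5, sk⟩
    have hf : ∀ σ : Sep F ≃ₐ[F] Sep F, act (crv5 b) (rs K σ) R - R = (iκ σ).val • pP h :=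
      fun σ => by rw [hκ, hcon, cb_i]
    obtain ⟨j, d, e⟩ := fifth_of_kappa h5 hb hd hz hR hf ks
    obtain ⟨hs, -⟩ := second_place hKF h5k hz0 hG eb ez h5 hb hd hz hf hκl ks
    obtain ⟨v, v1, v2, v3⟩ := PP5.place (K := K) (F := F) hG.b1 pos1
      (q := γ * ((β - C (ep z0) * γ) * (β - C (ep' z0) * γ)))
      (hG.cop.mul_right ((cop_sub hG.cop epn.1).mul_right (cop_sub hG.cop epn.2))) hKF
    obtain ⟨v4, v5⟩ := not_mem_mul v2
    obtain ⟨v6, v7⟩ := not_mem_mul v5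
    have h1 : om5 v (algebraMap K F b) = om5 v (algebraMap K F (algebraMap k[X] K β)) := by
      rw [eb, map_div₀, om5_div v (nF _ pos1) (nF _ pos2), om_unit v (fin_one hKF v v4), sub_zero]
    have f0 : f ≠ 0 := ks.fne
    have d0 : d ≠ 0 := by
      rintro rfl
      rw [zero_pow (by norm_num), zero_mul] at e
      exact hb ((_root_.map_eq_zero _).1 e)
    apply v1
    rw [← h1, e, om5_fifth v d0 (pow_ne_zero j f0), om5_pow, hs v v6 v7, mul_zero]
  -- conjugation and the class of the fifth part of P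
  have hxc : ∀ (τ : Sep F ≃ₐ[K] Sep F) (σ σ' : Sep F ≃ₐ[F] Sep F), (∀ x, τ (σ' x) = σ (τ x)) →
      ξ (rs K σ') = ξ (rs K σ) := fun τ σ σ' hr => xi_conj h5 hb hd hT5 hTn hξT hr
  have hkc : ∀ τ : Sep F ≃ₐ[K] Sep F, ∃ a' : ZMod 5, ∀ σ σ' : Sep F ≃ₐ[F] Sep F,
      (∀ x, τ (σ' x) = σ (τ x)) → aP σ' = aP σ ∧
        iκ σ' + aP σ' * ξ (ak τ) = iκ σ + a' * ξ (rs K σ) := by
    intro τ
    obtain ⟨i', a', e'⟩ := hsurj _ (hκ5 (ak τ))
    refine ⟨a', fun σ σ' hr => ?_⟩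
    have h1 : (ak τ).comp (rs K σ') = (rs K σ).comp (ak τ) := AlgHom.ext fun x => hr x
    have h2 : act (crv5 b) (ak τ) (act (crv5 b) (rs K σ') R - R) -
        (act (crv5 b) (rs K σ) R - R) = act (crv5 b) (rs K σ) (act (crv5 b) (ak τ) R - R) -
          (act (crv5 b) (ak τ) R - R) := by
      rw [map_sub (act (crv5 b) (ak τ)), act_act, h1, map_sub (act (crv5 b) (rs K σ)), act_act]
      abel
    rw [hκ, hκ, e', cb_cob h5 hb hd hT5 hξT, act_cb h5 hb hd hT5 (hξT _), cb_sub h hT5] at h2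
    obtain ⟨h3, h4⟩ := cb_inj h hT5 hTn h2
    exact ⟨sub_eq_zero.1 h4, by rw [← h3]; ring⟩
  -- the class c 1
  have hcc := hc.tc
  have hf5 : ∀ σ, 5 • c 1 σ = 0 := fun σ => by rw [hcc.mul 0 σ, hcc.zero]
  choose i1 a1 e1 using fun σ : Sep F ≃ₐ[F] Sep F => hsurj _ (hf5 σ)
  obtain ⟨i1lc, a1lc⟩ := coords_lc h5 hb hd hT5 hTn (hcc.coc 1).lc e1
  have h1m := coords_mul h5 hb hd hT5 hTn hξT (hcc.coc 1) e1
  obtain ⟨s1, f1, s10, s15, s1k⟩ := exists_root5 h5Ω hzΩ hzF a1 (fun σ τ => (h1m σ τ).1) a1lc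
  have k1 : KD ζ a1 s1 f1 := ⟨s10, s15, s1k⟩
  have hinv : ∀ τ : Sep F ≃ₐ[K] Sep F, ∃ j a : ZMod 5, ∀ σ σ' : Sep F ≃ₐ[F] Sep F,
      (∀ x, τ (σ' x) = σ (τ x)) → a1 σ' = a1 σ + j * aP σ ∧
        i1 σ' + a1 σ' * ξ (ak τ) = i1 σ + (j * iκ σ + a * ξ (rs K σ)) := by
    intro τ
    obtain ⟨N, Q, hQ, hi⟩ := hc.inv τ
    have hpow : ∀ (n : ℕ) (σ), 5 ^ n • c (n + 1) σ = c 1 σ := by
      intro n
      induction n with
      | zero => intro σ; rw [pow_zero, one_smul]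
      | succ n ih =>
        intro σ
        rw [pow_succ, mul_smul, hcc.mul, ih]
    have hQpow : ∀ (n : ℕ), 5 ^ n • Q n = 0 := by
      intro n
      induction n with
      | zero => rw [hQ.zero, smul_zero]
      | succ n ih =>
        rw [pow_succ, mul_smul, hQ.mul, ih]
    have hrel : ∀ σ σ' : Sep F ≃ₐ[F] Sep F, (∀ x, τ (σ' x) = σ (τ x)) →
        act (crv5 b) (ak τ) (c 1 σ') - c 1 σ = act (crv5 b) (rs K σ) (Q (N + 1)) - Q (N + 1) := by
      intro σ σ' hr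
      rw [← hi (N + 1) σ σ' hr, smul_sub, ← map_nsmul, hpow, hpow]
    obtain ⟨j, a, hja⟩ := fix_mod h5 hb hd hT5 hTn hsurj hξT hR hκ hx0 hP0 (hQpow (N + 1))
      (fun σ => by
        obtain ⟨σ', hσ'⟩ := exists_conj hpres τ σ
        rw [← hrel σ σ' hσ', smul_sub, ← map_nsmul, hf5, hf5, map_zero, sub_zero])
    refine ⟨j, a, fun σ σ' hr => ?_⟩
    have h2 := hrel σ σ' hr
    rw [hja, e1, e1, act_cb h5 hb hd hT5 (hξT _), cb_sub h hT5] at h2
    obtain ⟨h3, h4⟩ := cb_inj h hT5 hTn h2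
    exact ⟨by rw [← h4]; ring, by rw [← h3]; ring⟩
  have hTG : ∀ σ : Sep F ≃ₐ[F] Sep F, act (crv5 b) (rs K σ) T - T ∈ HP h := by
    intro σ
    have h1 := cb_cob h5 hb hd hT5 hξT σ 0 1
    rw [cb_T] at h1
    rw [h1, cb_i]
    exact (HP h).nsmul_mem (pP_mem h) _
  -- the first step
  obtain ⟨cβ, πβ, mβ, cβ0, iβ, sβ, dβ, mβ5, eβ⟩ := hG.b1
  obtain ⟨cγ, πγ, mγ, cγ0, iγ, sγ, dγ, mγ5, eγ⟩ := hG.b2
  obtain ⟨cδ, πδ, mδ, cδ0, iδ, sδ, dδ, mδ5, eδ⟩ := hG.b3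
  obtain ⟨cε, πε, mε, cε0, iε, sε, dε, mε5, eε⟩ := hG.b4
  have cop1 : IsCoprime πβ πγ :=
    (hG.cop.of_isCoprime_of_dvd_left (dvd_of_pow mβ5 eβ)).of_isCoprime_of_dvd_right
      (dvd_of_pow mγ5 eγ)
  have cop2 : IsCoprime πδ πε :=
    ((hG.cop2 h5k hz0).of_isCoprime_of_dvd_left (dvd_of_pow mδ5 eδ)).of_isCoprime_of_dvd_right
      (dvd_of_pow mε5 eε)
  obtain ⟨of1, nf1⟩ := first_place hKF h5k hz0 hG eb ez h5 hb hd hz hTT hm hTG e1 (hc.loc 1) k1
  obtain ⟨ofP, nfP⟩ := first_place hKF h5k hz0 hG eb ez h5 hb hd hz hTT hm hTG hκ hκl kP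
  have gPn : ∀ c : F, c ^ 5 ≠ gP := by
    intro c0 hc0
    obtain ⟨σ, hσ⟩ := hP0
    have k2 : KD ζ (fun _ : Sep F ≃ₐ[F] Sep F => (0 : ZMod 5)) (1 : Sep F) (1 : F) :=
      ⟨one_ne_zero, by rw [one_pow, map_one], fun σ => by
        rw [ZMod.val_zero, pow_zero, one_mul, map_one]⟩
    exact hσ (KD.char h5Ω hzΩ hzF k2 kP (c := c0) (by rw [hc0, mul_one]) σ).symm
  have invP : ∀ (s : k' ≃ₐ[k] k') (θ : k'), om5 (pl (s θ)) gP = om5 (pl θ) gP := by
    intro s θ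
    obtain ⟨τ, hτ⟩ := lift (Ω := Sep F) hKF s
    have h1 := KD.om hpres hz5 kP kP (hzK τ) hτ (j := 0) (fun σ σ' hr => by
      obtain ⟨a', ha'⟩ := hkc τ
      rw [(ha' σ σ' hr).1, zero_mul, add_zero]) θ
    rwa [zero_mul, add_zero] at h1
  obtain ⟨-, l, c2, c20, el⟩ := glob5 h5k iβ iγ sβ sγ dβ dγ cop1 k1.fne kP.fne
    (fun v hv => of1 v (not_mem_pow cβ0 eβ (not_mem_mul hv).1) (not_mem_pow cγ0 eγ (not_mem_mul hv).2))
    (fun v hv => ofP v (not_mem_pow cβ0 eβ (not_mem_mul hv).1) (not_mem_pow cγ0 eγ (not_mem_mul hv).2))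
    nf1 nfP gPn invP (fun s => by
      obtain ⟨τ, hτ⟩ := lift (Ω := Sep F) hKF s
      obtain ⟨j, a, hja⟩ := hinv τ
      refine ⟨-j, fun θ => ?_⟩
      have h1 := KD.om hpres hz5 k1 kP (hzK τ) hτ (j := j) (fun σ σ' hr => (hja σ σ' hr).1) θ
      rw [invP] at h1
      rw [← h1]; ring)
  have ha1 : ∀ σ, a1 σ = l * aP σ := by
    intro σ
    have k2 := kP.pow hz5 l
    have h1 := KD.char h5Ω hzΩ hzF k2 k1 (c := c2) el σ
    exact h1.symm
  -- the second step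
  obtain ⟨χ, hχ⟩ : ∃ χ : (Sep F ≃ₐ[F] Sep F) → ZMod 5, ∀ σ, χ σ = i1 σ - l * iκ σ :=
    ⟨_, fun _ => rfl⟩
  have hc' : ∀ σ, c 1 σ - (act (crv5 b) (rs K σ) (l • R) - l • R) = (χ σ).val • pP h := by
    intro σ
    rw [map_nsmul, ← smul_sub, hκ, e1, cb_nsmul h hT5, cb_sub h hT5, ha1, sub_self, cb_i, hχ]
  have hc'c : IsCoc (crv5 b)
      (fun σ : Sep F ≃ₐ[F] Sep F => c 1 σ - (act (crv5 b) (rs K σ) (l • R) - l • R)) :=
    (hcc.coc 1).sub _ (cob_isCoc _ _)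
  have hc'l : LocallyTrivial k' (crv5 b)
      (fun σ : Sep F ≃ₐ[F] Sep F => c 1 σ - (act (crv5 b) (rs K σ) (l • R) - l • R)) :=
    lt_subT (hc.loc 1) (l • R)
  have hc'e : ∀ σ : Sep F ≃ₐ[F] Sep F, c 1 σ - (act (crv5 b) (rs K σ) (l • R) - l • R) =
      cb h T (χ σ) 0 := fun σ => by rw [hc', cb_i]
  obtain ⟨χlc, -⟩ := coords_lc h5 hb hd hT5 hTn hc'c.lc hc'e
  have hχm : ∀ σ τ, χ (σ * τ) = χ σ + χ τ := fun σ τ => by
    have := (coords_mul h5 hb hd hT5 hTn hξT hc'c hc'e σ τ).2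
    rw [zero_mul, add_zero] at this
    exact this
  obtain ⟨s2, f2, s20, s25, s2k⟩ := exists_root5 h5Ω hzΩ hzF χ hχm χlc
  have k2 : KD ζ χ s2 f2 := ⟨s20, s25, s2k⟩
  obtain ⟨of2, nf2⟩ := second_place hKF h5k hz0 hG eb ez h5 hb hd hz hc' hc'l k2
  have kT' : KD ζ (fun σ => ξ (rs K σ)) m⁻¹ g2 := kT
  have eg2 := e_g2
  have ofT : ∀ v : HeightOneSpectrum k'[X], (β - C (ep z0) * γ).map (algebraMap k k') ∉ v.asIdeal →
      (β - C (ep' z0) * γ).map (algebraMap k k') ∉ v.asIdeal → om5 v g2 = 0 := by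
    intro v v1 v2
    rw [eg2, om5_div v (nF _ (mul_ne_zero (C_ne_zero.2 (mul_ne_zero c3n c2n)) pos4))
        (nF _ (mul_ne_zero (C_ne_zero.2 c1n) pos3)), omC v _ _ (mul_ne_zero c3n c2n) pos4,
        omC v _ _ c1n pos3, om_unit v (fin_one hKF v v1), om_unit v (fin_one hKF v v2), sub_zero]
  have nfT : (5 : ℤ) ∣ WithZero.log (vInf k' F g2) := by
    have h1 : vInf k' F g2 = 1 := by
      rw [eg2, map_div₀, inf_deg hKF (mul_ne_zero (C_ne_zero.2 (mul_ne_zero c3n c2n)) pos4),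
        inf_deg hKF (mul_ne_zero (C_ne_zero.2 c1n) pos3),
        natDegree_C_mul (mul_ne_zero c3n c2n), natDegree_C_mul c1n, hG.d3, hG.d4]
      exact div_self WithZero.exp_ne_zero
    rw [h1, WithZero.log_one]
    exact dvd_zero 5
  have invT : ∀ (s : k' ≃ₐ[k] k') (θ : k'), om5 (pl (s θ)) g2 = om5 (pl θ) g2 := by
    intro s θ
    obtain ⟨τ, hτ⟩ := lift (Ω := Sep F) hKF s
    have h1 := KD.om hpres hz5 kT kT (hzK τ) hτ (j := 0) (fun σ σ' hr => by
      rw [hxc τ σ σ' hr, zero_mul, add_zero]) θ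
    rwa [zero_mul, add_zero] at h1
  obtain ⟨-, l', c3, c30, el'⟩ := glob5 h5k iδ iε sδ sε dδ dε cop2 k2.fne kT.fne
    (fun v hv => of2 v (not_mem_pow cδ0 eδ (not_mem_mul hv).1) (not_mem_pow cε0 eε (not_mem_mul hv).2))
    (fun v hv => ofT v (not_mem_pow cδ0 eδ (not_mem_mul hv).1) (not_mem_pow cε0 eε (not_mem_mul hv).2))
    nf2 nfT hgT invT (fun s => by
      obtain ⟨τ, hτ⟩ := lift (Ω := Sep F) hKF s
      obtain ⟨j, a, hja⟩ := hinv τ
      obtain ⟨a', ha'⟩ := hkc τ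
      have hj0 : j = 0 := by
        obtain ⟨σ, hσ⟩ := hP0
        obtain ⟨σ', hσ'⟩ := exists_conj hpres τ σ
        have h1 := (hja σ σ' hσ').1
        rw [ha1, ha1, (ha' σ σ' hσ').1] at h1
        exact mul5 _ _ (left_eq_add.1 h1) hσ
      refine ⟨-(a - l * a'), fun θ => ?_⟩
      have h1 := KD.om hpres hz5 k2 kT (hzK τ) hτ (j := a - l * a') (fun σ σ' hr => by
        obtain ⟨h2, h3⟩ := hja σ σ' hr
        obtain ⟨h4, h5'⟩ := ha' σ σ' hr
        rw [hj0, zero_mul, zero_add, ha1] at h3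
        rw [hχ, hχ]
        linear_combination h3 - l * h5') θ
      rw [invT] at h1
      rw [← h1]; ring)
  have hχ2 : ∀ σ, χ σ = l' * ξ (rs K σ) := by
    intro σ
    exact (KD.char h5Ω hzΩ hzF (kT.pow hz5 l') k2 (c := c3) el' σ).symm
  -- the point
  have hK := isE5 b K h5 hb hd
  refine ⟨l • pP hK, l • R + cb h T 0 l', ?_, fun σ => ?_⟩
  · rw [smul_add, cb_five h hT5, add_zero, map_nsmul, pP_act hK h (incl K K (Sep F)), smul_smul,
      mul_comm, mul_smul, hR]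
  · have h1 := hc' σ
    rw [sub_eq_iff_eq_add] at h1
    have h2 := cb_cob h5 hb hd hT5 hξT σ 0 (l' : ZMod 5)
    rw [cb_i, ← hχ2] at h2
    rw [h1, map_add, ← h2]
    abel

end main

end Pool.Agent.Helper23K9.T5
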