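import Pool.Agent.TH115.GD.Defs

set_option autoImplicit false
set_option linter.all false

open Polynomial
open scoped Classical

namespace Pool.Agent.Helper23K9.T5

open Pool.Agent.TH115.GD (IsTower)

/-- The field `k1(t)` between `K = k(t)` and `F = k'(t)`. -/
theorem exists_mid {k k1 k' K F : Type} [Field k] [Field k1] [Field k'] [Algebra k k1]
    [Algebra k1 k'] [Algebra k k'] [IsScalarTower k k1 k'] [Field K] [Algebra k[X] K]
    [Field F] [Algebra k'[X] F] [IsFractionRing k'[X] F] [Algebra K F] (hT : IsTower k k' K F) :
    ∃ (K1 : Type) (_ : Field K1) (_ : Algebra k1[X] K1) (_ : Algebra K K1) (_ : Algebra K1 F),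
      IsScalarTower K K1 F ∧ IsTower k1 k' K1 F ∧
      ∀ p : k[X], algebraMap K K1 (algebraMap k[X] K p) =
        algebraMap k1[X] K1 (p.map (algebraMap k k1)) := by
  haveI := hT.fracK
  -- the map `k[X] → k1(X)`
  let a : k[X] →+* FractionRing k1[X] :=
    (algebraMap k1[X] (FractionRing k1[X])).comp (mapRingHom (algebraMap k k1))
  have ha : Function.Injective a := by
    refine (IsFractionRing.injective k1[X] (FractionRing k1[X])).comp ?_
    exact Polynomial.map_injective _ (algebraMap k k1).injective
  let b : k1[X] →+* F := (algebraMap k'[X] F).comp (mapRingHom (algebraMap k1 k'))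
  have hb : Function.Injective b := by
    refine (IsFractionRing.injective k'[X] F).comp ?_
    exact Polynomial.map_injective _ (algebraMap k1 k').injective
  let A : K →+* FractionRing k1[X] := IsFractionRing.lift ha
  let B : FractionRing k1[X] →+* F := IsFractionRing.lift hb
  have hA : ∀ p : k[X], A (algebraMap k[X] K p) =
      algebraMap k1[X] (FractionRing k1[X]) (p.map (algebraMap k k1)) := fun p =>
    IsFractionRing.lift_algebraMap ha p
  have hB : ∀ p : k1[X], B (algebraMap k1[X] (FractionRing k1[X]) p) =
      algebraMap k'[X] F (p.map (algebraMap k1 k')) := fun p =>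
    IsFractionRing.lift_algebraMap hb p
  refine ⟨FractionRing k1[X], inferInstance, inferInstance, A.toAlgebra, B.toAlgebra, ?_, ?_, hA⟩
  · letI := A.toAlgebra
    letI := B.toAlgebra
    refine IsScalarTower.of_algebraMap_eq' ?_
    refine IsLocalization.ringHom_ext (nonZeroDivisors k[X]) ?_
    refine RingHom.ext fun p => ?_
    show algebraMap K F (algebraMap k[X] K p) = B (A (algebraMap k[X] K p))
    rw [hT.map, hA, hB, Polynomial.map_map, ← IsScalarTower.algebraMap_eq]
  · haveI := hT.sep
    letI := B.toAlgebra
    refine ⟨⟨?_, ?_⟩, inferInstance, hB⟩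
    · exact IsSepClosure.sep_closed k
    · haveI : Algebra.IsSeparable k k' := IsSepClosure.separable
      exact Algebra.isSeparable_tower_top_of_isSeparable k k1 k'

end Pool.Agent.Helper23K9.T5
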