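import Pool.Agent.Helper7K9.T3.Step

/-!
Change of the base field of the curve: Tate classes of `W` over `K` are Tate classes of `W` over `K1`.
-/

set_option autoImplicit false
set_option linter.all false

open Polynomial IsDedekindDomain WeierstrassCurve WeierstrassCurve.Affine
open scoped Classical

namespace Pool.Agent.Helper23K9.T5

open Pool.Agent.TH115.GD (Pt act incl rs ak IsCoc LocTriv Sep Comp CompInf
  LocallyTrivial act_some act_zero)
open Pool.Agent.Helper7K9.T3 (TateAt IsTateClass IsTC IsInv IsTM)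

section trf

variable {K K1 : Type} [Field K] [Field K1] [Algebra K K1]

/-- The points of equal curves. -/
noncomputable def eqPt {L : Type} [Field L] {E E' : WeierstrassCurve L} (e : E = E') :
    E.toAffine.Point ≃+ E'.toAffine.Point := by
  subst e
  exact AddEquiv.refl _

theorem eqPt_some {L : Type} [Field L] {E E' : WeierstrassCurve L} (e : E = E') {x y : L}
    (h : E.toAffine.Nonsingular x y) : ∃ h', eqPt e (Point.some x y h) = Point.some x y h' := by
  subst e
  exact ⟨h, rfl⟩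

theorem bc_eq {W : WeierstrassCurve K} {W1 : WeierstrassCurve K1}
    (hW : W1 = W.map (algebraMap K K1)) (L : Type) [Field L] [Algebra K L] [Algebra K1 L]
    [IsScalarTower K K1 L] : W.baseChange L = W1.baseChange L := by
  subst hW
  show W.map (algebraMap K L) = (W.map (algebraMap K K1)).map (algebraMap K1 L)
  rw [WeierstrassCurve.map_map, ← IsScalarTower.algebraMap_eq]

/-- The points of `W` and of `W` over `K1` over an extension `L` of `K1`. -/
noncomputable def chg {W : WeierstrassCurve K} {W1 : WeierstrassCurve K1}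
    (hW : W1 = W.map (algebraMap K K1)) (L : Type) [Field L] [Algebra K L] [Algebra K1 L] [IsScalarTower K K1 L] :
    Pt W L ≃+ Pt W1 L :=
  eqPt (bc_eq hW L)

variable {W : WeierstrassCurve K} {W1 : WeierstrassCurve K1} (hW : W1 = W.map (algebraMap K K1))

theorem chg_some (L : Type) [Field L] [Algebra K L] [Algebra K1 L] [IsScalarTower K K1 L] {x y : L}
    (h : (W.baseChange L).toAffine.Nonsingular x y) : ∃ h',
      chg hW L (Point.some x y h) = Point.some x y h' :=
  eqPt_some (bc_eq hW L) h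

theorem chg_act {L L' : Type} [Field L] [Algebra K L] [Algebra K1 L] [IsScalarTower K K1 L]
    [Field L'] [Algebra K L'] [Algebra K1 L'] [IsScalarTower K K1 L'] (φ : L →ₐ[K1] L')
    (Q : Pt W L) : chg hW L' (act W (φ.restrictScalars K) Q) = act W1 φ (chg hW L Q) := by
  rcases Q with _ | ⟨x, y, h⟩
  · have h1 : (Point.zero : Pt W L) = 0 := rfl
    rw [h1, map_zero, map_zero, map_zero, map_zero]
  · obtain ⟨h1, e1⟩ := act_some (W := W) (φ.restrictScalars K) h
    obtain ⟨h2, e2⟩ := chg_some hW L h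
    obtain ⟨h3, e3⟩ := act_some (W := W1) φ h2
    obtain ⟨h4, e4⟩ := chg_some hW L' h1
    rw [e1, e2, e3, e4]
    rfl

theorem chg_act' {L L' : Type} [Field L] [Algebra K L] [Algebra K1 L] [IsScalarTower K K1 L]
    [Field L'] [Algebra K L'] [Algebra K1 L'] [IsScalarTower K K1 L'] (φ : L →ₐ[K1] L')
    (ψ : L →ₐ[K] L') (h : ∀ x, ψ x = φ x)
    (Q : Pt W L) : chg hW L' (act W ψ Q) = act W1 φ (chg hW L Q) := by
  have : ψ = φ.restrictScalars K := AlgHom.ext h
  rw [this, chg_act]

theorem chg_loc {F Ω L Ω' : Type} [Field F] [Field Ω] [Field L] [Field Ω'] [Algebra K F]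
    [Algebra K1 F] [IsScalarTower K K1 F] [Algebra F Ω] [Algebra K Ω] [Algebra K1 Ω]
    [IsScalarTower K F Ω] [IsScalarTower K1 F Ω] [IsScalarTower K K1 Ω]
    [Algebra K L] [Algebra K1 L] [Algebra L Ω'] [Algebra K Ω'] [Algebra K1 Ω'] [Algebra F Ω']
    [IsScalarTower K L Ω'] [IsScalarTower K1 L Ω'] [IsScalarTower K F Ω'] [IsScalarTower K1 F Ω']
    [IsScalarTower K K1 Ω'] {f : (Ω ≃ₐ[F] Ω) → Pt W Ω} (hf : LocTriv W L Ω' f) :
    LocTriv W1 L Ω' (fun σ => chg hW Ω (f σ)) := by
  obtain ⟨ι, P, h⟩ := hf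
  refine ⟨ι, chg hW Ω' P, fun τ σ hτ => ?_⟩
  have h1 := congrArg (chg hW Ω') (h τ σ hτ)
  rw [map_sub, chg_act' hW (ι.restrictScalars K1) (ι.restrictScalars K) (fun _ => rfl),
    chg_act' hW (rs K1 τ) (rs K τ) (fun _ => rfl)] at h1
  exact h1

theorem chg_class {k' F : Type} [Field k'] [Field F] [Algebra K1 F] [Algebra K F]
    [IsScalarTower K K1 F] [Algebra k'[X] F] [IsFractionRing k'[X] F] {ℓ : ℕ}
    {c : ℕ → (Sep F ≃ₐ[F] Sep F) → Pt W (Sep F)} (hc : IsTateClass ℓ k' W c) :
    IsTateClass ℓ k' W1 (fun n σ => chg hW (Sep F) (c n σ)) := by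
  refine ⟨⟨fun n => ⟨?_, fun σ τ => ?_⟩, fun σ => ?_, fun n σ => ?_⟩, fun n => ⟨fun v => ?_, ?_⟩,
    fun τ => ?_⟩
  · exact ((hc.tc.coc n).lc).comp (chg hW (Sep F))
  · have h1 := congrArg (chg hW (Sep F)) ((hc.tc.coc n).mul σ τ)
    rw [map_add, chg_act' hW (rs K1 σ) (rs K σ) (fun _ => rfl)] at h1
    exact h1
  · show chg hW (Sep F) (c 0 σ) = 0
    rw [hc.tc.zero σ, map_zero]
  · show ℓ • chg hW (Sep F) (c (n + 1) σ) = chg hW (Sep F) (c n σ)
    rw [← map_nsmul, hc.tc.mul n σ]
  · have : IsScalarTower K K1 (Comp k'[X] F v) := by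
      refine IsScalarTower.of_algebraMap_eq fun x => ?_
      rw [IsScalarTower.algebraMap_apply K F (Comp k'[X] F v),
        IsScalarTower.algebraMap_apply K1 F (Comp k'[X] F v), IsScalarTower.algebraMap_apply K K1 F]
    exact chg_loc hW ((hc.loc n).1 v)
  · have : IsScalarTower K K1 (CompInf k' F) := by
      refine IsScalarTower.of_algebraMap_eq fun x => ?_
      rw [IsScalarTower.algebraMap_apply K F (CompInf k' F),
        IsScalarTower.algebraMap_apply K1 F (CompInf k' F), IsScalarTower.algebraMap_apply K K1 F]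
    exact chg_loc hW (hc.loc n).2
  · obtain ⟨m, Q, hQ, h⟩ := hc.inv (τ.restrictScalars K)
    refine ⟨m, fun n => chg hW (Sep F) (Q n), ⟨?_, fun n => ?_⟩, fun n σ σ' hσ => ?_⟩
    · show chg hW (Sep F) (Q 0) = 0
      rw [hQ.zero, map_zero]
    · show ℓ • chg hW (Sep F) (Q (n + 1)) = chg hW (Sep F) (Q n)
      rw [← map_nsmul, hQ.mul n]
    · have h1 := congrArg (chg hW (Sep F)) (h n σ σ' hσ)
      rw [map_nsmul, map_sub, map_sub, chg_act' hW (ak τ) (ak (τ.restrictScalars K)) (fun _ => rfl),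
        chg_act' hW (rs K1 σ) (rs K σ) (fun _ => rfl)] at h1
      exact h1

end trf

end Pool.Agent.Helper23K9.T5
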