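import Pool.Agent.Helper23K9.T5.Crit
import Pool.Agent.Helper23K9.T5.Trf
import Pool.Agent.Helper23K9.T5.Tow

/-!
The criterion over a field which need not contain the fifth roots of unity.
-/

set_option autoImplicit false
set_option linter.all false

open Polynomial IsDedekindDomain WeierstrassCurve WeierstrassCurve.Affine
open scoped Classical

namespace Pool.Agent.Helper23K9.T5

open Pool.Agent.TH115.GD (vInf pl Pt act incl rs ak IsCoc LocTriv Sep Comp IsTower Preserves
  LocallyTrivial act_act)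
open Pool.Agent.Helper7K9.T3 (TateAt IsTateClass IsTC IsInv tate_of_part)

/-! ### The criterion over `k` -/

section tran

variable {k k1 k' K F : Type} [Field k] [Field k1] [Field k'] [Algebra k k1]
    [Algebra k1 k'] [Algebra k k'] [IsScalarTower k k1 k'] [Field K] [Algebra k[X] K]
    [Field F] [Algebra k'[X] F] [IsFractionRing k'[X] F] [Algebra K F]

theorem crv5_map {K K1 : Type} [Field K] [Field K1] [Algebra K K1] (b : K) :
    crv5 (algebraMap K K1 b) = (crv5 b).map (algebraMap K K1) := by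
  unfold crv5 WeierstrassCurve.map
  simp

theorem rs_restrict {K K1 F Ω : Type} [Field K] [Field K1] [Field F] [Field Ω] [Algebra K K1]
    [Algebra K F] [Algebra K1 F] [Algebra F Ω] [Algebra K Ω] [Algebra K1 Ω] [IsScalarTower K F Ω]
    [IsScalarTower K1 F Ω] [IsScalarTower K K1 Ω] (σ : Ω ≃ₐ[F] Ω) :
    (rs K1 σ).restrictScalars K = rs K σ := AlgHom.ext fun _ => rfl

/-- **The criterion**: `Q` is a finite list of points which are independent modulo five over
`k'(t)`, and there are enough of them. -/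
theorem tate_crit [Fact (Nat.Prime 5)] (hT : IsTower k k' K F) (h5k : (5 : k) ≠ 0) {z0 : k1}
    (hz0 : IsZ z0) {β γ : k[X]}
    (hC : Crit5 z0 (β.map (algebraMap k k1)) (γ.map (algebraMap k k1))) {b : K}
    (eb : b = algebraMap k[X] K β / algebraMap k[X] K γ) {N : ℕ} (Q : Fin N → Pt (crv5 b) K)
    (hQ : ∀ (l : Fin N → ℕ) (R : Pt (crv5 b) F),
      5 • R = ∑ j, l j • act (crv5 b) (incl K K F) (Q j) → ∀ j, 5 ∣ l j)
    (hN : nPl (β.map (algebraMap k k1)) (γ.map (algebraMap k k1)) +
      nPl (β.map (algebraMap k k1) - C (ep z0) * γ.map (algebraMap k k1))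
        (β.map (algebraMap k k1) - C (ep' z0) * γ.map (algebraMap k k1)) ≤ N + 3) :
    TateAt (F := F) 5 k' (crv5 b) := by
  obtain ⟨K1, iK1, iX1, iKK1, iK1F, tow, hT1, hpol⟩ := exists_mid (k1 := k1) hT
  haveI := hT1.fracK
  haveI := hT1.sep
  haveI : IsFractionRing k[X] K := hT.fracK
  have h51 : (5 : k1) ≠ 0 := by
    have h1 : (5 : k1) = algebraMap k k1 5 := (map_ofNat _ _).symm
    rw [h1]
    exact (_root_.map_ne_zero _).2 h5k
  have eb1 : algebraMap K K1 b = algebraMap k1[X] K1 (β.map (algebraMap k k1)) /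
      algebraMap k1[X] K1 (γ.map (algebraMap k k1)) := by
    rw [eb, map_div₀, hpol, hpol]
  have hW : crv5 (algebraMap K K1 b) = (crv5 b).map (algebraMap K K1) := crv5_map b
  have hp := And.intro hC.one.pne (And.intro hC.one.qne (And.intro hC.two.pne hC.two.qne))
  obtain ⟨h5K1, hb1, hd1, hz1, -⟩ := fldG h51 hz0 hp eb1 rfl
  -- the points over the larger field
  obtain ⟨Q1, hQ1⟩ : ∃ Q1 : Fin N → Pt (crv5 (algebraMap K K1 b)) K1, ∀ j,
      Q1 j = chg hW K1 (act (crv5 b) (incl K K K1) (Q j)) := ⟨_, fun _ => rfl⟩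
  have hQ2 : ∀ (L : Type) [Field L] [Algebra K L] [Algebra K1 L] [IsScalarTower K K1 L] (j : Fin N),
      act (crv5 (algebraMap K K1 b)) (incl K1 K1 L) (Q1 j) =
        chg hW L (act (crv5 b) (incl K K L) (Q j)) := by
    intro L _ _ _ _ j
    have h1 : ((incl K1 K1 L).restrictScalars K).comp (incl K K K1) = incl K K L :=
      AlgHom.ext fun x => (IsScalarTower.algebraMap_apply K K1 L x).symm
    rw [hQ1, ← chg_act, act_act, h1]
  have hind : ∀ (l : Fin N → ℕ) (R : Pt (crv5 (algebraMap K K1 b)) F),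
      5 • R = ∑ j, l j • act (crv5 (algebraMap K K1 b)) (incl K1 K1 F) (Q1 j) → ∀ j, 5 ∣ l j := by
    intro l R hR
    apply hQ l ((chg hW F).symm R)
    apply (chg hW F).injective
    rw [map_nsmul, AddEquiv.apply_symm_apply, hR, map_sum]
    refine Finset.sum_congr rfl fun j _ => ?_
    rw [map_nsmul, hQ2]
  have h := isE5 (algebraMap K K1 b) (Sep F) h5K1 hb1 hd1
  -- division by five
  have hdiv : ∀ X : Pt (crv5 b) (Sep F), ∃ Y : Pt (crv5 b) (Sep F), 5 • Y = X := by
    intro X
    obtain ⟨Y, hY⟩ := five_div h (chg hW (Sep F) X)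
    refine ⟨(chg hW (Sep F)).symm Y, ?_⟩
    apply (chg hW (Sep F)).injective
    rw [map_nsmul, AddEquiv.apply_symm_apply, hY]
  refine tate_of_part hdiv fun c hc => ?_
  obtain ⟨l, H, hH, hcH⟩ := crit_key hT1 h51 hz0 hC eb1 Q1 hind hN (chg_class hW hc)
  refine ⟨∑ j, l j • Q j, (chg hW (Sep F)).symm H, ?_, fun σ => ?_⟩
  · apply (chg hW (Sep F)).injective
    rw [map_nsmul, AddEquiv.apply_symm_apply, hH, map_sum, map_sum]
    refine Finset.sum_congr rfl fun j _ => ?_
    rw [map_nsmul, map_nsmul, hQ2]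
  · apply (chg hW (Sep F)).injective
    have h1 := hcH σ
    have h2 := chg_act hW (L := Sep F) (L' := Sep F) (rs K1 σ) ((chg hW (Sep F)).symm H)
    rw [rs_restrict, AddEquiv.apply_symm_apply] at h2
    rw [h1, map_sub, AddEquiv.apply_symm_apply, h2]

end tran

end Pool.Agent.Helper23K9.T5
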