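import Pool.Agent.Helper23K9.T5.Zer
import Pool.Agent.Helper7K9.T3.Defs
import Pool.Agent.TH115.GD.Des

/-!
The action of automorphisms on the functions of a point.
-/

set_option autoImplicit false
set_option linter.all false

open WeierstrassCurve WeierstrassCurve.Affine
open scoped Classical

namespace Pool.Agent.Helper23K9.T5

open Pool.Agent.TH115.GD (Pt act incl rs ak IsCoc LocTriv act_zero act_some act_inj act_act
  exists_restrict)

universe u

section act

variable {K Ω Ω' : Type u} [Field K] [Field Ω] [Field Ω'] [Algebra K Ω] [Algebra K Ω'] {b : K}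

theorem isE5 (b : K) (Ω : Type u) [Field Ω] [Algebra K Ω] (h5 : (5 : K) ≠ 0) (hb : b ≠ 0)
    (hd : b ^ 2 - 11 * b - 1 ≠ 0) :
    IsE5 ((crv5 b).baseChange Ω).toAffine (algebraMap K Ω b) := by
  have inj := (algebraMap K Ω).injective
  refine ⟨?_, ?_, ?_, map_zero _, map_zero _, ?_, ?_, ?_⟩
  · show algebraMap K Ω (1 - b) = 1 - algebraMap K Ω b
    rw [map_sub, map_one]
  · show algebraMap K Ω (-b) = _
    rw [map_neg]
  · show algebraMap K Ω (-b) = _
    rw [map_neg]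
  · rw [← map_ofNat (algebraMap K Ω) 5]
    exact (_root_.map_ne_zero _).2 h5
  · exact (_root_.map_ne_zero _).2 hb
  · have : algebraMap K Ω b ^ 2 - 11 * algebraMap K Ω b - 1 = algebraMap K Ω (b ^ 2 - 11 * b - 1) := by
      simp only [map_sub, map_pow, map_mul, map_ofNat, map_one]
    rw [this]
    exact (_root_.map_ne_zero _).2 hd

theorem UU_act (W : WeierstrassCurve K) (φ : Ω →ₐ[K] Ω') (Q : Pt W Ω) :
    UU (act W φ Q) = φ (UU Q) := by
  rcases Q with _ | ⟨x, y, hxy⟩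
  · rw [act_zero]
    show 0 = φ 0
    rw [map_zero]
  · obtain ⟨h, hh⟩ := act_some W φ hxy
    rw [hh]
    show φ y / φ x = φ (y / x)
    rw [map_div₀]

variable (h : IsE5 ((crv5 b).baseChange Ω).toAffine (algebraMap K Ω b))
  (h' : IsE5 ((crv5 b).baseChange Ω').toAffine (algebraMap K Ω' b)) (φ : Ω →ₐ[K] Ω')

theorem pP_act : act (crv5 b) φ (pP h) = pP h' := by
  unfold pP
  obtain ⟨h1, h2⟩ := act_some (crv5 b) φ (h.nonsingular.2 (by ring) :
    ((crv5 b).baseChange Ω).toAffine.Nonsingular 0 0)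
  rw [h2, Point.some.injEq]
  exact ⟨map_zero φ, map_zero φ⟩

theorem HP_act (Q : Pt (crv5 b) Ω) : act (crv5 b) φ Q ∈ HP h' ↔ Q ∈ HP h := by
  have e : ∀ n : ℕ, act (crv5 b) φ (n • pP h) = n • pP h' := fun n => by
    rw [map_nsmul, pP_act h h']
  have inj := act_inj (W := crv5 b) φ
  rw [mem_HP, mem_HP]
  have c0 : act (crv5 b) φ Q = 0 ↔ Q = 0 := by
    rw [← map_zero (act (crv5 b) φ)]
    exact inj.eq_iff
  rw [c0, ← pP_act h h' φ, ← map_nsmul, ← map_nsmul, ← map_nsmul, inj.eq_iff, inj.eq_iff,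
    inj.eq_iff, inj.eq_iff]

theorem uu_act (Q : Pt (crv5 b) Ω) (k : ZMod 5) : uu h' (act (crv5 b) φ Q) k = φ (uu h Q k) := by
  unfold uu
  rw [← UU_act, map_add, map_nsmul, pP_act h h']

theorem tq_act (z : Ω) (Q : Pt (crv5 b) Ω) (j : ℕ) :
    tq h' (φ z) (act (crv5 b) φ Q) j = φ (tq h z Q j) := by
  unfold tq
  match j with
  | 0 => simp [tt, uu_act h h']
  | 1 => simp [tt, uu_act h h']
  | 2 => simp [tt, uu_act h h']
  | 3 => simp [tt, uu_act h h']
  | (n + 4) => simp [tt, uu_act h h']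

theorem IsT_act {z m : Ω} {T : Pt (crv5 b) Ω} (hT : IsT h z m T) :
    IsT h' (φ z) (φ m) (act (crv5 b) φ T) := by
  have eb : φ (algebraMap K Ω b) = algebraMap K Ω' b := φ.commutes b
  have eB : φ (BB z (algebraMap K Ω b)) = BB (φ z) (algebraMap K Ω' b) := by
    rw [← eb]; exact BB_map (φ : Ω →+* Ω') z _
  have ee : φ (eta z) = eta (φ z) := eta_map (φ : Ω →+* Ω') z
  refine ⟨fun hh => hT.nm ((HP_act h h' φ T).1 hh), ?_, ?_, ?_, ?_⟩
  · rw [tq_act h h', hT.t1, map_zero]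
  · rw [tq_act h h', hT.t2, map_mul, map_mul, map_pow, eB, map_neg, map_add, ee, map_ofNat]
  · rw [tq_act h h', hT.t3, map_mul, map_mul, map_mul, map_pow, eB, map_neg, map_sub, map_neg,
      map_one, map_add, ee, map_ofNat]
  · rw [tq_act h h', hT.t4, map_mul, map_mul, map_mul, map_pow, eB, map_sub, map_neg,
      map_one, map_add, ee, map_ofNat]

theorem wq_act (z : K) (Q : Pt (crv5 b) Ω) (k : ZMod 5) :
    wq h' (algebraMap K Ω' z) (act (crv5 b) φ Q) k = φ (wq h (algebraMap K Ω z) Q k) := by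
  have ez : φ (algebraMap K Ω z) = algebraMap K Ω' z := φ.commutes z
  have eb : φ (algebraMap K Ω b) = algebraMap K Ω' b := φ.commutes b
  have eA : φ (AA (algebraMap K Ω z) (algebraMap K Ω b)) =
      AA (algebraMap K Ω' z) (algebraMap K Ω' b) := by
    rw [← eb, ← ez]; exact AA_map (φ : Ω →+* Ω') _ _
  have eB : φ (BB (algebraMap K Ω z) (algebraMap K Ω b)) =
      BB (algebraMap K Ω' z) (algebraMap K Ω' b) := by
    rw [← eb, ← ez]; exact BB_map (φ : Ω →+* Ω') _ _
  have ee : φ (eta (algebraMap K Ω z)) = eta (algebraMap K Ω' z) := by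
    rw [← ez]; exact eta_map (φ : Ω →+* Ω') _
  have et : ∀ j, tq h' (algebraMap K Ω' z) (act (crv5 b) φ Q) j =
      φ (tq h (algebraMap K Ω z) Q j) := by
    intro j
    rw [← ez]
    exact tq_act h h' φ _ Q j
  unfold wq
  rw [et, et, et, et]
  obtain ⟨v0, v1, v2, v3, v4⟩ := vt_vals (e := eta (algebraMap K Ω z))
    (A := AA (algebraMap K Ω z) (algebraMap K Ω b)) (B := BB (algebraMap K Ω z) (algebraMap K Ω b))
    (t1 := tq h (algebraMap K Ω z) Q 1) (t2 := tq h (algebraMap K Ω z) Q 2)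
    (t3 := tq h (algebraMap K Ω z) Q 3) (t4 := tq h (algebraMap K Ω z) Q 4)
  obtain ⟨w0, w1, w2, w3, w4⟩ := vt_vals (e := eta (algebraMap K Ω' z))
    (A := AA (algebraMap K Ω' z) (algebraMap K Ω' b)) (B := BB (algebraMap K Ω' z) (algebraMap K Ω' b))
    (t1 := φ (tq h (algebraMap K Ω z) Q 1)) (t2 := φ (tq h (algebraMap K Ω z) Q 2))
    (t3 := φ (tq h (algebraMap K Ω z) Q 3)) (t4 := φ (tq h (algebraMap K Ω z) Q 4))
  have key : ∀ i : ZMod 5, i = 0 ∨ i = 1 ∨ i = 2 ∨ i = 3 ∨ i = 4 := by decide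
  rcases key k with rfl | rfl | rfl | rfl | rfl
  · rw [v0, w0, ← eA, ← ee]
    simp only [map_mul, map_neg, map_div₀]
  · rw [v1, w1, ← eB, ← ee]
    simp only [map_mul, map_neg, map_div₀]
  · rw [v2, w2, ← eA, ← eB, ← ee]
    simp only [map_mul, map_neg, map_div₀, map_sub, map_one]
  · rw [v3, w3, ← eB, ← ee]
    simp only [map_mul, map_neg, map_div₀]
  · rw [v4, w4, ← eA, ← ee]
    simp only [map_mul, map_neg, map_div₀]

end act

section loc

variable {K F Ω L Ω' : Type u} [Field K] [Field F] [Field Ω] [Field L] [Field Ω']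
  [Algebra K F] [Algebra F Ω] [Algebra K Ω] [IsScalarTower K F Ω] [IsGalois F Ω]
  [Algebra K L] [Algebra F L] [IsScalarTower K F L]
  [Algebra L Ω'] [Algebra K Ω'] [Algebra F Ω'] [IsScalarTower K L Ω'] [IsScalarTower F L Ω']
  [IsScalarTower K F Ω'] [IsGalois L Ω'] {b z : K}
  (h5 : (5 : K) ≠ 0) (hb : b ≠ 0) (hd : b ^ 2 - 11 * b - 1 ≠ 0) (hz : IsZ z)
  (w : Valuation L Zm)

/-- If the character is trivial on the local Galois group, then its Kummer generator is a local fifth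
power. -/
theorem loc_triv {χ : (Ω ≃ₐ[F] Ω) → ZMod 5} {s : Ω} {a0 : F} (hs5 : s ^ 5 = algebraMap F Ω a0)
    (hk : ∀ σ : Ω ≃ₐ[F] Ω, σ s = (algebraMap K Ω z) ^ (χ σ).val * s) (ι : Ω →ₐ[F] Ω')
    {res : (Ω' ≃ₐ[L] Ω') → (Ω ≃ₐ[F] Ω)} (hres : ∀ τ x, τ (ι x) = ι (res τ x))
    (h0 : ∀ τ, χ (res τ) = 0) : Fi (w (algebraMap F L a0)) := by
  have : ι s ∈ Set.range (algebraMap L Ω') := by
    rw [InfiniteGalois.mem_range_algebraMap_iff_fixed]
    intro τ
    rw [hres, hk, h0, ZMod.val_zero, pow_zero, one_mul]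
  obtain ⟨c, hc⟩ := this
  have e : algebraMap F L a0 = c ^ 5 := by
    apply (algebraMap L Ω').injective
    rw [← IsScalarTower.algebraMap_apply F L Ω', map_pow, hc, ← map_pow, hs5, ι.commutes]
  rw [e, map_pow]
  exact Fi.pow _

include h5 hb hd hz

/-- The local condition for classes with values in the group generated by `(0, 0)`. -/
theorem loc_second {χ : (Ω ≃ₐ[F] Ω) → ZMod 5} {f : (Ω ≃ₐ[F] Ω) → Pt (crv5 b) Ω}
    (hf : ∀ σ, f σ = (χ σ).val • pP (isE5 b Ω h5 hb hd)) (hloc : LocTriv (crv5 b) L Ω' f)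
    {s : Ω} {a0 : F} (hs : s ≠ 0) (hs5 : s ^ 5 = algebraMap F Ω a0)
    (hk : ∀ σ : Ω ≃ₐ[F] Ω, σ s = (algebraMap K Ω z) ^ (χ σ).val * s)
    (hAB : w (AA (algebraMap K L z) (algebraMap K L b)) =
      w (BB (algebraMap K L z) (algebraMap K L b))) : Fi (w (algebraMap F L a0)) := by
  obtain ⟨ι, S, hS⟩ := hloc
  choose res hres using exists_restrict (F := F) (Ω := Ω) (L := L) (Ω' := Ω') ι
  set ι' : Ω →ₐ[K] Ω' := ι.restrictScalars K with hι'
  have h := isE5 b Ω h5 hb hd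
  have h' := isE5 b Ω' h5 hb hd
  have hL := isE5 b L h5 hb hd
  have hzL : IsZ (algebraMap K L z) := hz.map (algebraMap K L)
  have hT : ∀ τ : Ω' ≃ₐ[L] Ω', act (crv5 b) (rs K τ) S = S + (χ (res τ)).val • pP h' := by
    intro τ
    have h1 := hS τ (res τ) (hres τ)
    rw [hf, map_nsmul] at h1
    have h2 : act (crv5 b) ι' (pP (isE5 b Ω h5 hb hd)) = pP h' := pP_act _ _ ι'
    rw [h2] at h1
    rw [h1]; abel
  by_cases hSH : S ∈ HP h'
  · refine loc_triv w hs5 hk ι hres (fun τ => ?_)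
    have h1 : act (crv5 b) (rs K τ) S = S := by
      obtain ⟨n, hn⟩ := AddSubgroup.mem_zmultiples_iff.1 hSH
      rw [← hn, map_zsmul, pP_act h' h']
    rw [hT, add_eq_left] at h1
    have h2 : (χ (res τ)).val • pP h' = (0 : ZMod 5).val • pP h' := by
      rw [h1, ZMod.val_zero, zero_smul]
    exact val_inj h' h2
  · refine loc_shift w hzL (uu h' S) (b := algebraMap K L b) ?_ (fun τ => χ (res τ)) ?_
      (s := ι s) ((_root_.map_ne_zero ι).2 hs) ?_ ?_ (AA_ne hL hzL) hAB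
    · rw [← IsScalarTower.algebraMap_apply K L Ω']
      exact uu_cyc h' hSH
    · intro τ k
      have h1 := uu_act h' h' (rs K τ) S k
      rw [hT, uu_add_pP] at h1
      have h2 : (((χ (res τ)).val : ℕ) : ZMod 5) = χ (res τ) := by
        rw [ZMod.natCast_val, ZMod.cast_id]
      rw [h2] at h1
      exact h1.symm
    · rw [← map_pow, hs5, ι.commutes, ← IsScalarTower.algebraMap_apply F L Ω']
    · intro τ
      rw [hres, hk, map_mul, map_pow, ← IsScalarTower.algebraMap_apply K L Ω']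
      congr 2
      exact ι'.commutes z

/-- The local condition for the first component of a class. -/
theorem loc_first {i χ : (Ω ≃ₐ[F] Ω) → ZMod 5} {f : (Ω ≃ₐ[F] Ω) → Pt (crv5 b) Ω}
    {T : Pt (crv5 b) Ω} {m : Ω} (hT : IsT (isE5 b Ω h5 hb hd) (algebraMap K Ω z) m T)
    (hm : AA (algebraMap K Ω z) (algebraMap K Ω b) = (5 + 3 * eta (algebraMap K Ω z)) * m ^ 5 *
      BB (algebraMap K Ω z) (algebraMap K Ω b))
    (hTG : ∀ σ : Ω ≃ₐ[F] Ω, act (crv5 b) (rs K σ) T - T ∈ HP (isE5 b Ω h5 hb hd))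
    (hf : ∀ σ, f σ = (i σ).val • pP (isE5 b Ω h5 hb hd) + (χ σ).val • T)
    (hloc : LocTriv (crv5 b) L Ω' f)
    {s : Ω} {a0 : F} (hs : s ≠ 0) (hs5 : s ^ 5 = algebraMap F Ω a0)
    (hk : ∀ σ : Ω ≃ₐ[F] Ω, σ s = (algebraMap K Ω z) ^ (χ σ).val * s)
    (hA0 : AA (algebraMap K L z) (algebraMap K L (bb (eta z) (AA z b) (BB z b))) ≠ 0)
    (hAB : w (AA (algebraMap K L z) (algebraMap K L (bb (eta z) (AA z b) (BB z b)))) =
      w (BB (algebraMap K L z) (algebraMap K L (bb (eta z) (AA z b) (BB z b))))) :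
    Fi (w (algebraMap F L a0)) := by
  obtain ⟨ι, S, hS⟩ := hloc
  choose res hres using exists_restrict (F := F) (Ω := Ω) (L := L) (Ω' := Ω') ι
  set ι' : Ω →ₐ[K] Ω' := ι.restrictScalars K with hι'
  have h := isE5 b Ω h5 hb hd
  have h' := isE5 b Ω' h5 hb hd
  have hzL : IsZ (algebraMap K L z) := hz.map (algebraMap K L)
  have hz' : IsZ (algebraMap K Ω' z) := hz.map (algebraMap K Ω')
  have ez : ι' (algebraMap K Ω z) = algebraMap K Ω' z := ι'.commutes z
  have eb : ι' (algebraMap K Ω b) = algebraMap K Ω' b := ι'.commutes b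
  set T' := act (crv5 b) ι' T with hT'def
  have hT' : IsT h' (algebraMap K Ω' z) (ι' m) T' := by
    rw [← ez]; exact IsT_act _ h' ι' hT
  have hm' : AA (algebraMap K Ω' z) (algebraMap K Ω' b) = (5 + 3 * eta (algebraMap K Ω' z)) *
      (ι' m) ^ 5 * BB (algebraMap K Ω' z) (algebraMap K Ω' b) := by
    have h1 := congrArg ι' hm
    have e1 : ι' (AA (algebraMap K Ω z) (algebraMap K Ω b)) = AA (algebraMap K Ω' z) (algebraMap K Ω' b) := by
      rw [← ez, ← eb]; exact AA_map (ι' : Ω →+* Ω') _ _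
    have e2 : ι' (BB (algebraMap K Ω z) (algebraMap K Ω b)) = BB (algebraMap K Ω' z) (algebraMap K Ω' b) := by
      rw [← ez, ← eb]; exact BB_map (ι' : Ω →+* Ω') _ _
    have e3 : ι' (eta (algebraMap K Ω z)) = eta (algebraMap K Ω' z) := by
      rw [← ez]; exact eta_map (ι' : Ω →+* Ω') _
    rw [map_mul, map_mul, map_pow, map_add, map_mul, e1, e2, e3, map_ofNat, map_ofNat] at h1
    exact h1
  have hTT : ∀ τ : Ω' ≃ₐ[L] Ω', act (crv5 b) (rs K τ) S = S + (i (res τ)).val • pP h' +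
      (χ (res τ)).val • T' := by
    intro τ
    have h1 := hS τ (res τ) (hres τ)
    rw [hf, map_add, map_nsmul, map_nsmul] at h1
    have h2 : act (crv5 b) ι' (pP (isE5 b Ω h5 hb hd)) = pP h' := pP_act _ _ ι'
    rw [h2] at h1
    rw [add_assoc, h1]; abel
  -- the action on `T'`
  have hTG' : ∀ τ : Ω' ≃ₐ[L] Ω', act (crv5 b) (rs K τ) T' - T' ∈ HP h' := by
    intro τ
    have h5 : (rs K τ).comp ι' = ι'.comp (rs K (res τ)) := AlgHom.ext fun x => hres τ x
    have h6 : act (crv5 b) (rs K τ) T' = act (crv5 b) ι' (act (crv5 b) (rs K (res τ)) T) := by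
      rw [hT'def, act_act, act_act, h5]
    rw [h6, hT'def, ← map_sub]
    exact (HP_act _ h' ι' _).2 (hTG (res τ))
  have h5T : 5 • T' = 0 := hT'.five h' hz' hm'
  by_cases hSH : S ∈ VT h' T'
  · refine loc_triv w hs5 hk ι hres (fun τ => ?_)
    obtain ⟨n, k, hnk⟩ := (mem_VT h' h5T).1 hSH
    have h1 : act (crv5 b) (rs K τ) S - S ∈ HP h' := by
      rw [hnk, map_add, map_nsmul, map_nsmul, pP_act h' h']
      have : n • pP h' + k • act (crv5 b) (rs K τ) T' - (n • pP h' + k • T') =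
        k • (act (crv5 b) (rs K τ) T' - T') := by rw [smul_sub]; abel
      rw [this]
      exact (HP h').nsmul_mem (hTG' τ) k
    rw [hTT] at h1
    have h2 : (χ (res τ)).val • T' ∈ HP h' := by
      have : (χ (res τ)).val • T' = S + (i (res τ)).val • pP h' + (χ (res τ)).val • T' - S -
        (i (res τ)).val • pP h' := by abel
      rw [this]
      exact (HP h').sub_mem h1 ((HP h').nsmul_mem (pP_mem h') _)
    by_contra hne
    apply hT'.nm
    -- multiply by the inverse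
    have h3 : ((χ (res τ))⁻¹).val • ((χ (res τ)).val • T') ∈ HP h' := (HP h').nsmul_mem h2 _
    haveI : Fact (Nat.Prime 5) := ⟨by norm_num⟩
    have h4 : ((χ (res τ))⁻¹).val * (χ (res τ)).val % 5 = 1 := by
      have : (χ (res τ))⁻¹ * χ (res τ) = 1 := inv_mul_cancel₀ hne
      have h6 := congrArg ZMod.val this
      rw [ZMod.val_mul] at h6
      exact h6
    rw [← mul_smul] at h3
    have h7 : (((χ (res τ))⁻¹).val * (χ (res τ)).val) • T' = T' := by
      rw [← Nat.div_add_mod (((χ (res τ))⁻¹).val * (χ (res τ)).val) 5, h4, add_smul, mul_comm,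
        mul_smul, h5T, smul_zero, zero_add, one_smul]
    rw [h7] at h3
    exact h3
  · have ebb : algebraMap K Ω' (bb (eta z) (AA z b) (BB z b)) = bb (eta (algebraMap K Ω' z))
        (AA (algebraMap K Ω' z) (algebraMap K Ω' b)) (BB (algebraMap K Ω' z) (algebraMap K Ω' b)) := by
      rw [← AA_map, ← BB_map, ← eta_map]
      unfold bb
      rw [map_div₀, map_neg, map_mul]
    refine loc_shift w hzL (wq h' (algebraMap K Ω' z) S)
      (b := algebraMap K L (bb (eta z) (AA z b) (BB z b))) ?_ (fun τ => χ (res τ)) ?_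
      (s := ι s) ((_root_.map_ne_zero ι).2 hs) ?_ ?_ hA0 hAB
    · rw [← IsScalarTower.algebraMap_apply K L Ω', ebb]
      exact wq_cyc h' hz' hm' hT' hSH
    · intro τ k
      have h1 := wq_act h' h' (rs K τ) z S k
      rw [hTT, wq_add h' hz' hm' hT' hSH] at h1
      have h2 : (((χ (res τ)).val : ℕ) : ZMod 5) = χ (res τ) := by
        rw [ZMod.natCast_val, ZMod.cast_id]
      rw [h2] at h1
      exact h1.symm
    · rw [← map_pow, hs5, ι.commutes, ← IsScalarTower.algebraMap_apply F L Ω']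
    · intro τ
      rw [hres, hk, map_mul, map_pow, ← IsScalarTower.algebraMap_apply K L Ω']
      congr 2

end loc

end Pool.Agent.Helper23K9.T5
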