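import Mathlib

/-!
Cyclic quintuples attached to the curves `y ^ 2 + (1 - b) x y - b y = x ^ 3 - b x ^ 2`.
-/

set_option autoImplicit false
set_option linter.all false

open scoped Classical

namespace Pool.Agent.Helper23K9.T5

/-- The curve `y ^ 2 + (1 - b) x y - b y = x ^ 3 - b x ^ 2`, with the point `(0, 0)` of order
five. -/
def crv5 {K : Type*} [Field K] (b : K) : WeierstrassCurve K := ⟨1 - b, -b, -b, 0, 0⟩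

variable {F : Type*} [Field F]

/-- `z` is a primitive fifth root of unity (in characteristic different from five). -/
def IsZ (z : F) : Prop := z ^ 4 + z ^ 3 + z ^ 2 + z + 1 = 0

/-- `ζ + ζ ^ 4`. -/
def eta (z : F) : F := z + z ^ 4

/-- `ζ ^ 2 + ζ ^ 3`. -/
def eta' (z : F) : F := z ^ 2 + z ^ 3

/-- The two roots of `X ^ 2 - 11 X - 1`. -/
def ep (z : F) : F := 8 + 5 * eta z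

/-- The two roots of `X ^ 2 - 11 X - 1`. -/
def ep' (z : F) : F := 8 + 5 * eta' z

/-- A multiple of `b - ε`. -/
def AA (z b : F) : F := (2 * eta z - 1) * (b - ep z)

/-- A multiple of `b - ε'`. -/
def BB (z b : F) : F := (2 * eta' z - 1) * (b - ep' z)

/-- The relations between the functions `y / x` at the five translates of a point. -/
structure Cyc (b : F) (u : ZMod 5 → F) : Prop where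
  sum : u 0 + u 1 + u 2 + u 3 + u 4 = 2 * b - 1
  sum2 : u 0 * u 2 + u 1 * u 3 + u 2 * u 4 + u 3 * u 0 + u 4 * u 1 = b ^ 2 - 3 * b
  rel : ∀ i, u i * (u (i + 2) + u (i - 2)) = b * u i - b

/-- The eigenfunctions. -/
def tt (z : F) (u : ZMod 5 → F) : ℕ → F
  | 0 => u 0 + u 1 + u 2 + u 3 + u 4
  | 1 => u 0 + z * u 1 + z ^ 2 * u 2 + z ^ 3 * u 3 + z ^ 4 * u 4
  | 2 => u 0 + z ^ 2 * u 1 + z ^ 4 * u 2 + z * u 3 + z ^ 3 * u 4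
  | 3 => u 0 + z ^ 3 * u 1 + z * u 2 + z ^ 4 * u 3 + z ^ 2 * u 4
  | _ => u 0 + z ^ 4 * u 1 + z ^ 3 * u 2 + z ^ 2 * u 3 + z * u 4

/-- The quadratic relations between the eigenfunctions. -/
structure Q5 (z A B t1 t2 t3 t4 : F) : Prop where
  q0 : eta' z * (t1 * t4) + eta z * (t2 * t3) = -(A * B)
  q1 : t2 * t4 - eta z * t3 ^ 2 = B * t1
  q2 : t3 * t4 - eta' z * t1 ^ 2 = A * t2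
  q3 : t1 * t2 - eta' z * t4 ^ 2 = A * t3
  q4 : t3 * t1 - eta z * t2 ^ 2 = B * t4

theorem IsZ.five {z : F} (hz : IsZ z) : z ^ 5 = 1 := by
  unfold IsZ at hz
  linear_combination (z - 1) * hz

theorem Cyc.rels {b : F} {u : ZMod 5 → F} (h : Cyc b u) :
    u 0 * (u 2 + u 3) = b * u 0 - b ∧ u 1 * (u 3 + u 4) = b * u 1 - b ∧
    u 2 * (u 4 + u 0) = b * u 2 - b ∧ u 3 * (u 0 + u 1) = b * u 3 - b ∧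
    u 4 * (u 1 + u 2) = b * u 4 - b :=
  ⟨h.rel 0, h.rel 1, h.rel 2, h.rel 3, h.rel 4⟩

theorem Cyc.q5 {b z : F} {u : ZMod 5 → F} (h : Cyc b u) (hz : IsZ z) :
    Q5 z (AA z b) (BB z b) (tt z u 1) (tt z u 2) (tt z u 3) (tt z u 4) := by
  obtain ⟨r0, r1, r2, r3, r4⟩ := h.rels
  have hs := h.sum
  have hs2 := h.sum2
  unfold IsZ at hz
  simp only [tt, AA, BB, ep, ep', eta, eta']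
  generalize u 0 = u0 at *
  generalize u 1 = u1 at *
  generalize u 2 = u2 at *
  generalize u 3 = u3 at *
  generalize u 4 = u4 at *
  refine ⟨?_, ?_, ?_, ?_, ?_⟩ <;> simp only [eta, eta']
  · linear_combination 5*hs2 - (u0+u1+u2+u3+u4+(2*b-1))*hs + (100*z^10 +100*z^9 +z^8*u2*u3 -100*z^8 -20*z^7*b +z^7*u1*u2 +z^7*u1*u4 -z^7*u2*u3 +z^7*u3*u4 +210*z^7 -20*z^6*b -z^6*u1*u2 +2*z^6*u1*u3 +z^6*u1*u4 +2*z^6*u2*u4 -z^6*u3*u4 +310*z^6 +z^5*u1^2 +z^5*u1*u2 -z^5*u1*u3 -2*z^5*u1*u4 +z^5*u2^2 +2*z^5*u2*u3 -z^5*u2*u4 +z^5*u3^2 +z^5*u3*u4 +z^5*u4^2 -100*z^5 -10*z^4*b +z^4*u0*u2 +z^4*u0*u3 +z^4*u1*u2 +z^4*u1*u4 -z^4*u2*u3 +z^4*u3*u4 +30*z^4 +4*z^3*b^2 -54*z^3*b +2*z^3*u0*u1 -z^3*u0*u2 -z^3*u0*u3 +2*z^3*u0*u4 +z^3*u2*u3 +201*z^3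 +10*z^2*b +z^2*u0*u2 +z^2*u0*u3 -80*z^2 -4*z*b^2 +54*z*b -2*z*u0*u1 +3*z*u0*u2 +3*z*u0*u3 -2*z*u0*u4 -z*u1^2 -2*z*u1*u2 +3*z*u1*u3 +3*z*u1*u4 -z*u2^2 -2*z*u2*u3 +3*z*u2*u4 -z*u3^2 -2*z*u3*u4 -z*u4^2 -151*z +2*b^2 -27*b +u0^2 +2*u0*u1 -3*u0*u2 -3*u0*u3 +2*u0*u4 +u1^2 +2*u1*u2 -3*u1*u3 -3*u1*u4 +u2^2 +2*u2*u3 -3*u2*u4 +u3^2 +2*u3*u4 +u4^2 +63)*hz
  · linear_combination (-5)*(z^0*r0 + z^1*r1 + z^2*r2 + z^3*r3 + z^4*r4) + (2+z^2+z^3)*(u0 + z * u1 + z ^ 2 * u2 + z ^ 3 * u3 + z ^ 4 * u4)*hs + (-z^8*u3^2 -2*z^7*u1*u3 +z^7*u3^2 -z^6*u1^2 +2*z^6*u1*u3 -2*z^6*u3*u4 +10*z^6*u4 +z^5*u1^2 -2*z^5*u1*u4 -2*z^5*u2*u3 -z^5*u3^2 +2*z^5*u3*u4 +10*z^5*u3 +10*z^5*u4 -2*z^4*u0*u3 -z^4*u1*u2 -2*z^4*u1*u3 +2*z^4*u1*u4 +2*z^4*u2*u3 +10*z^4*u2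 +z^4*u3^2 +10*z^4*u3 -z^4*u4^2 -10*z^4*u4 -2*z^3*u0*u1 +2*z^3*u0*u3 -z^3*u0*u4 -z^3*u1^2 +z^3*u1*u2 +2*z^3*u1*u3 +10*z^3*u1 +z^3*u2^2 -3*z^3*u2*u4 +10*z^3*u2 -z^3*u3^2 -3*z^3*u3*u4 -10*z^3*u3 +2*z^2*u0*u1 -z^2*u0*u3 -2*z^2*u0*u4 +10*z^2*u0 +2*z^2*u1^2 -3*z^2*u1*u3 -3*z^2*u1*u4 +10*z^2*u1 -2*z^2*u2^2 -2*z^2*u2*u3 +3*z^2*u2*u4 -10*z^2*u2 +z^2*u3*u4 -3*z*u0*u2 -2*z*u0*u3 +3*z*u0*u4 +10*z*u0 -2*z*u1^2 -2*z*u1*u2 +3*z*u1*u3 +3*z*u1*u4 -10*z*u1 +5*b -u0^2 -2*u0*u1 +3*u0*u2 +3*u0*u3 -2*u0*u4 -10*u0)*hz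
  · linear_combination (-5)*(z^0*r0 + z^2*r1 + z^4*r2 + z^1*r3 + z^3*r4) + (2+z+z^4)*(u0 + z ^ 2 * u1 + z ^ 4 * u2 + z * u3 + z ^ 3 * u4)*hs + (10*z^8*u2 -10*z^7*u2 -z^7*u4^2 +10*z^7*u4 +10*z^6*u1 -2*z^6*u3*u4 -10*z^6*u4 -10*z^5*u1 -2*z^5*u2*u4 +20*z^5*u2 -z^5*u3^2 +10*z^5*u3 +z^5*u4^2 -z^4*u0*u2 +10*z^4*u0 -z^4*u1*u2 +z^4*u1*u3 -2*z^4*u1*u4 -z^4*u2^2 -3*z^4*u2*u3 -z^4*u2*u4 -10*z^4*u2 +2*z^4*u3*u4 -10*z^4*u3 +20*z^4*u4 +z^3*u0*u2 -3*z^3*u0*u4 -10*z^3*u0 +z^3*u1^2 +z^3*u1*u2 -3*z^3*u1*u3 -z^3*u1*u4 +20*z^3*u1 +2*z^3*u2*u3 +2*z^3*u2*u4 +z^3*u3^2 -z^3*u3*u4 -z^3*u4^2 -10*z^3*u4 -z^2*u0*u1 -2*z^2*u0*u3 +z^2*u0*u4 -2*z^2*u1^2 -2*z^2*u1*u2 -z^2*u1*u3 +3*z^2*u1*u4 -10*z^2*u1 +z^2*u2*u3 +z^2*u2*u4 +z^2*u3^2 +z^2*u3*u4 +20*z^2*u3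 +z*u0*u1 -3*z*u0*u2 -z*u0*u3 +2*z*u0*u4 +20*z*u0 +3*z*u1*u3 -2*z*u2*u3 -2*z*u3^2 -2*z*u3*u4 -10*z*u3 +5*b -u0^2 -2*u0*u1 +3*u0*u2 +3*u0*u3 -2*u0*u4 -10*u0)*hz
  · linear_combination (-5)*(z^0*r0 + z^3*r1 + z^1*r2 + z^4*r3 + z^2*r4) + (2+z+z^4)*(u0 + z ^ 3 * u1 + z * u2 + z ^ 4 * u3 + z ^ 2 * u4)*hs + (10*z^8*u3 -z^7*u1^2 +10*z^7*u1 -10*z^7*u3 -2*z^6*u1*u2 -10*z^6*u1 +10*z^6*u4 +z^5*u1^2 -2*z^5*u1*u3 -z^5*u2^2 +10*z^5*u2 +20*z^5*u3 -10*z^5*u4 -z^4*u0*u3 +10*z^4*u0 +2*z^4*u1*u2 -z^4*u1*u3 -2*z^4*u1*u4 +20*z^4*u1 -3*z^4*u2*u3 +z^4*u2*u4 -10*z^4*u2 -z^4*u3^2 -z^4*u3*u4 -10*z^4*u3 -3*z^3*u0*u1 +z^3*u0*u3 -10*z^3*u0 -z^3*u1^2 -z^3*u1*u2 +2*z^3*u1*u3 -z^3*u1*u4 -10*z^3*u1 +z^3*u2^2 +2*z^3*u2*u3 -3*z^3*u2*u4 +z^3*u3*u4 +z^3*u4^2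 +20*z^3*u4 +z^2*u0*u1 -2*z^2*u0*u2 -z^2*u0*u4 +z^2*u1*u2 +z^2*u1*u3 +3*z^2*u1*u4 +z^2*u2^2 +z^2*u2*u3 -z^2*u2*u4 +20*z^2*u2 -2*z^2*u3*u4 -2*z^2*u4^2 -10*z^2*u4 +2*z*u0*u1 -z*u0*u2 -3*z*u0*u3 +z*u0*u4 +20*z*u0 -2*z*u1*u2 -2*z*u2^2 -2*z*u2*u3 +3*z*u2*u4 -10*z*u2 +5*b -u0^2 -2*u0*u1 +3*u0*u2 +3*u0*u3 -2*u0*u4 -10*u0)*hz
  · linear_combination (-5)*(z^0*r0 + z^4*r1 + z^3*r2 + z^2*r3 + z^1*r4) + (2+z^2+z^3)*(u0 + z ^ 4 * u1 + z ^ 3 * u2 + z ^ 2 * u3 + z * u4)*hs + (-z^8*u2^2 +z^7*u2^2 -2*z^7*u2*u4 -2*z^6*u1*u2 +10*z^6*u1 +2*z^6*u2*u4 -z^6*u4^2 +2*z^5*u1*u2 -2*z^5*u1*u4 +10*z^5*u1 -z^5*u2^2 -2*z^5*u2*u3 +10*z^5*u2 +z^5*u4^2 -2*z^4*u0*u2 -z^4*u1^2 +2*z^4*u1*u4 -10*z^4*u1 +z^4*u2^2 +2*z^4*u2*u3 -2*z^4*u2*u4 +10*z^4*u2 -z^4*u3*u4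 +10*z^4*u3 -z^3*u0*u1 +2*z^3*u0*u2 -2*z^3*u0*u4 -3*z^3*u1*u2 -3*z^3*u1*u3 -z^3*u2^2 +2*z^3*u2*u4 -10*z^3*u2 +z^3*u3^2 +z^3*u3*u4 +10*z^3*u3 -z^3*u4^2 +10*z^3*u4 -2*z^2*u0*u1 -z^2*u0*u2 +2*z^2*u0*u4 +10*z^2*u0 +z^2*u1*u2 +3*z^2*u1*u3 -3*z^2*u1*u4 -2*z^2*u2*u3 -3*z^2*u2*u4 -2*z^2*u3^2 -10*z^2*u3 +2*z^2*u4^2 +10*z^2*u4 +3*z*u0*u1 -2*z*u0*u2 -3*z*u0*u3 +10*z*u0 +3*z*u1*u4 +3*z*u2*u4 -2*z*u3*u4 -2*z*u4^2 -10*z*u4 +5*b -u0^2 -2*u0*u1 +3*u0*u2 +3*u0*u3 -2*u0*u4 -10*u0)*hz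

end Pool.Agent.Helper23K9.T5
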