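import Pool.Agent.Helper23K9.T5.Kd
import Pool.Agent.Helper23K9.T5.Tor

/-!
Coordinates on the points of order five.
-/

set_option autoImplicit false
set_option linter.all false

open Polynomial IsDedekindDomain WeierstrassCurve WeierstrassCurve.Affine
open scoped Classical

namespace Pool.Agent.Helper23K9.T5

open Pool.Agent.TH115.GD (Pt act incl rs ak act_act)

section sm

variable {A : Type*} [AddCommGroup A] {Q : A}

theorem mod_smul (hQ : 5 • Q = 0) (n : ℕ) : (n % 5) • Q = n • Q := by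
  conv_rhs => rw [← Nat.mod_add_div n 5, add_smul, mul_comm, mul_smul, hQ, smul_zero, add_zero]

theorem cast_smul (hQ : 5 • Q = 0) (n : ℕ) : ((n : ZMod 5)).val • Q = n • Q := by
  rw [ZMod.val_natCast, mod_smul hQ]

theorem val_add_smul (hQ : 5 • Q = 0) (i j : ZMod 5) :
    (i + j).val • Q = i.val • Q + j.val • Q := by
  rw [ZMod.val_add, mod_smul hQ, add_smul]

theorem val_mul_smul (hQ : 5 • Q = 0) (i j : ZMod 5) :
    (i * j).val • Q = i.val • (j.val • Q) := by
  rw [ZMod.val_mul, mod_smul hQ, mul_smul]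

theorem val_neg_smul (hQ : 5 • Q = 0) (i : ZMod 5) : (-i).val • Q = -(i.val • Q) := by
  have h := val_add_smul hQ (-i) i
  rw [neg_add_cancel, ZMod.val_zero, zero_smul] at h
  exact (neg_eq_of_add_eq_zero_left h.symm).symm

theorem val_sub_smul (hQ : 5 • Q = 0) (i j : ZMod 5) :
    (i - j).val • Q = i.val • Q - j.val • Q := by
  rw [sub_eq_add_neg, val_add_smul hQ, val_neg_smul hQ, sub_eq_add_neg]

end sm

theorem mul5 : ∀ a x : ZMod 5, a * x = 0 → x ≠ 0 → a = 0 := by decide

theorem inv5 : ∀ a : ZMod 5, a ≠ 0 → ∃ c : ZMod 5, c * a = 1 := by decide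

section cb

variable {F : Type*} [Field F] {W : Affine F} {b : F} (h : IsE5 W b)

/-- Linear combinations of `P` and `T`. -/
noncomputable def cb (T : W.Point) (i a : ZMod 5) : W.Point := i.val • pP h + a.val • T

variable {T : W.Point} (hT5 : 5 • T = 0) (hTn : T ∉ HP h)

include hT5 in
theorem cb_add (i a j c : ZMod 5) : cb h T i a + cb h T j c = cb h T (i + j) (a + c) := by
  unfold cb
  rw [val_add_smul (five_pP h), val_add_smul hT5]
  abel

include hT5 in
theorem cb_sub (i a j c : ZMod 5) : cb h T i a - cb h T j c = cb h T (i - j) (a - c) := by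
  unfold cb
  rw [val_sub_smul (five_pP h), val_sub_smul hT5]
  abel

theorem cb_zero : cb h T 0 0 = 0 := by
  unfold cb
  rw [ZMod.val_zero, zero_smul, zero_smul, add_zero]

include hT5 in
theorem cb_nsmul (n : ℕ) (i a : ZMod 5) : n • cb h T i a = cb h T (n * i) (n * a) := by
  unfold cb
  rw [val_mul_smul (five_pP h), val_mul_smul hT5, cast_smul, cast_smul, smul_add]
  · rw [smul_smul, mul_comm, mul_smul, hT5, smul_zero]
  · rw [smul_smul, mul_comm, mul_smul, five_pP, smul_zero]

include hT5 in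
theorem cb_five (i a : ZMod 5) : 5 • cb h T i a = 0 := by
  rw [cb_nsmul h hT5]
  have : ((5 : ℕ) : ZMod 5) = 0 := by decide
  rw [this, zero_mul, zero_mul, cb_zero]

theorem cb_P : cb h T 1 0 = pP h := by
  unfold cb
  have : (1 : ZMod 5).val = 1 := by decide
  rw [this, ZMod.val_zero, zero_smul, one_smul, add_zero]

theorem cb_T : cb h T 0 1 = T := by
  unfold cb
  have : (1 : ZMod 5).val = 1 := by decide
  rw [this, ZMod.val_zero, zero_smul, one_smul, zero_add]

theorem cb_i (i : ZMod 5) : cb h T i 0 = i.val • pP h := by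
  unfold cb
  rw [ZMod.val_zero, zero_smul, add_zero]

include hT5 hTn in
theorem cb_eq_zero {i a : ZMod 5} (e : cb h T i a = 0) : i = 0 ∧ a = 0 := by
  have ha : a = 0 := by
    by_contra ha
    apply hTn
    obtain ⟨c, hc⟩ : ∃ c : ZMod 5, c * a = 1 := inv5 a ha
    have h1 : c.val • cb h T i a = 0 := by rw [e, smul_zero]
    rw [cb_nsmul h hT5] at h1
    have h2 : ((c.val : ℕ) : ZMod 5) = c := by rw [ZMod.natCast_val, ZMod.cast_id]
    rw [h2, hc] at h1
    unfold cb at h1
    have h3 : (1 : ZMod 5).val = 1 := by decide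
    rw [h3, one_smul] at h1
    have h4 : T = -((c * i).val • pP h) := by rw [← neg_eq_of_add_eq_zero_right h1]
    rw [h4]
    exact (HP h).neg_mem ((HP h).nsmul_mem (pP_mem h) _)
  subst ha
  refine ⟨?_, rfl⟩
  rw [cb_i] at e
  have := val_inj h (i := i) (j := 0) (by rw [e, ZMod.val_zero, zero_smul])
  exact this

include hT5 hTn in
theorem cb_inj {i a j c : ZMod 5} (e : cb h T i a = cb h T j c) : i = j ∧ a = c := by
  have h1 : cb h T (i - j) (a - c) = 0 := by rw [← cb_sub h hT5, e, sub_self]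
  obtain ⟨h2, h3⟩ := cb_eq_zero h hT5 hTn h1
  exact ⟨sub_eq_zero.1 h2, sub_eq_zero.1 h3⟩

include hT5 hTn in
theorem cb_surj (hb : bpol b ≠ 0) {S : W.Point} (hS : 5 • S = 0) : ∃ i a, S = cb h T i a := by
  obtain ⟨i, j, e⟩ := five_torsion h hb hT5 hTn hS
  refine ⟨i, j, ?_⟩
  unfold cb
  rw [cast_smul (five_pP h), cast_smul hT5, e]

end cb

end Pool.Agent.Helper23K9.T5
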