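import Pool.Agent.Helper23K9.T5.Uu

/-!
Negation and collinear points.
-/

set_option autoImplicit false
set_option linter.all false

open WeierstrassCurve WeierstrassCurve.Affine
open scoped Classical

namespace Pool.Agent.Helper23K9.T5

section crv

variable {F : Type*} [Field F] {W : Affine F} {b : F} (h : IsE5 W b)

include h

theorem xy_of {Q : W.Point} (hQ : Q ∉ HP h) : ∃ x hxy, Q = Point.some x (uu h Q 0 * x) hxy ∧
    x ≠ 0 ∧ x * (uu h Q 4 + uu h Q 0 + 1 - b) = b := by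
  obtain ⟨X, hX, hxy, e⟩ := seq_of h hQ
  exact ⟨X 0, hxy, e, hX.nx 0, hX.rc 4⟩

theorem neg_not_mem {Q : W.Point} (hQ : Q ∉ HP h) : -Q ∉ HP h := fun hh =>
  hQ (by simpa using (HP h).neg_mem hh)

theorem UU_neg {Q : W.Point} (hQ : Q ∉ HP h) : UU (-Q) = uu h Q 4 := by
  obtain ⟨x, hxy, e, hx, hc⟩ := xy_of h hQ
  obtain ⟨hn, en⟩ := h.neg_some hxy
  obtain ⟨w, hw⟩ : ∃ w, w = uu h Q 4 := ⟨_, rfl⟩
  obtain ⟨w0, hw0⟩ : ∃ w, w = uu h Q 0 := ⟨_, rfl⟩
  rw [← hw]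
  rw [← hw, ← hw0] at hc
  have e' : -Q = Point.some x (-(uu h Q 0 * x) - (1 - b) * x + b) hn := by
    rw [← en, ← e]
  rw [e']
  show (-(uu h Q 0 * x) - (1 - b) * x + b) / x = w
  rw [← hw0, div_eq_iff hx]
  linear_combination -hc

theorem uu_neg {Q : W.Point} (hQ : Q ∉ HP h) (k : ZMod 5) : uu h (-Q) k = uu h Q (-1 - k) := by
  -- `-Q + k P = -(Q + (5 - k) P)`
  have h1 : -Q + k.val • pP h = -(Q + (-k).val • pP h) := by
    rw [neg_add, add_right_inj, eq_neg_iff_add_eq_zero, ← add_smul, nsmul_mod]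
    have : (k.val + (-k).val) % 5 = 0 := by
      rw [← ZMod.val_add, add_neg_cancel]; rfl
    rw [this, zero_smul]
  have h2 : Q + (-k).val • pP h ∉ HP h := add_not_mem h hQ ((HP h).nsmul_mem (pP_mem h) _)
  show UU (-Q + k.val • pP h) = _
  rw [h1, UU_neg h h2, uu_add_pP]
  show uu h Q (4 + ((-k).val : ZMod 5)) = _
  congr 1
  rw [ZMod.natCast_val, ZMod.cast_id]
  have : (4 : ZMod 5) = -1 := by decide
  rw [this]; ring

/-- Three collinear points. -/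
theorem coll {Q1 Q2 Q3 : W.Point} (h1 : Q1 ∉ HP h) (h2 : Q2 ∉ HP h) (h3 : Q3 ∉ HP h)
    (h12 : Q1 ≠ Q2) (h12' : Q1 ≠ -Q2) (h31 : Q3 ≠ Q1) (h32 : Q3 ≠ Q2)
    (det : (uu h Q2 0 - uu h Q1 0) * (uu h Q3 4 - uu h Q1 4) -
      (uu h Q3 0 - uu h Q1 0) * (uu h Q2 4 - uu h Q1 4) = 0) : Q1 + Q2 + Q3 = 0 := by
  obtain ⟨x1, hxy1, e1, hx1, c1⟩ := xy_of h h1
  obtain ⟨x2, hxy2, e2, hx2, c2⟩ := xy_of h h2
  obtain ⟨x3, hxy3, e3, hx3, c3⟩ := xy_of h h3
  have g1 := h.nonsingular.1 hxy1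
  have g2 := h.nonsingular.1 hxy2
  have g3 := h.nonsingular.1 hxy3
  generalize uu h Q1 4 = v1 at *
  generalize uu h Q2 4 = v2 at *
  generalize uu h Q3 4 = v3 at *
  generalize uu h Q1 0 = w1 at *
  generalize uu h Q2 0 = w2 at *
  generalize uu h Q3 0 = w3 at *
  have hb := h.nb
  -- the points are on a line
  have line : (x2 - x1) * (w3 * x3 - w1 * x1) = (x3 - x1) * (w2 * x2 - w1 * x1) := by
    have key : b * ((x2 - x1) * (w3 * x3 - w1 * x1) - (x3 - x1) * (w2 * x2 - w1 * x1)) = 0 := by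
      have hv1 : x1 * v1 = b - x1 * w1 - (1 - b) * x1 := by linear_combination c1
      have hv2 : x2 * v2 = b - x2 * w2 - (1 - b) * x2 := by linear_combination c2
      have hv3 : x3 * v3 = b - x3 * w3 - (1 - b) * x3 := by linear_combination c3
      have d : x1 * x2 * x3 * ((w2 - w1) * (v3 - v1) - (w3 - w1) * (v2 - v1)) = 0 := by
        rw [det, mul_zero]
      linear_combination d - (w2 - w1) * (x1 * x2) * hv3 + (w2 - w1) * (x2 * x3) * hv1 +
        (w3 - w1) * (x1 * x3) * hv2 - (w3 - w1) * (x2 * x3) * hv1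
    exact sub_eq_zero.1 ((mul_eq_zero.1 key).resolve_left hb)
  have hx12 : x1 ≠ x2 := by
    rintro rfl
    have : (w1 * x1 - w2 * x1) * (w1 * x1 + w2 * x1 + (1 - b) * x1 - b) = 0 := by
      linear_combination g1 - g2
    rcases mul_eq_zero.1 this with h4 | h4
    · apply h12
      rw [e1, e2, Point.some.injEq]
      exact ⟨rfl, sub_eq_zero.1 h4⟩
    · apply h12'
      obtain ⟨hn, en⟩ := h.neg_some hxy2
      rw [e2, en, e1, Point.some.injEq]
      exact ⟨rfl, by linear_combination h4⟩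
  have hd : x1 - x2 ≠ 0 := sub_ne_zero.2 hx12
  obtain ⟨m, hm⟩ : ∃ m, w1 * x1 - w2 * x2 = m * (x1 - x2) :=
    ⟨(w1 * x1 - w2 * x2) / (x1 - x2), (div_mul_cancel₀ _ hd).symm⟩
  have hy3 : w3 * x3 = m * (x3 - x1) + w1 * x1 := by
    apply mul_left_cancel₀ hd
    linear_combination -line + (x3 - x1) * hm
  obtain ⟨y1, hy1⟩ : ∃ y, y = w1 * x1 := ⟨_, rfl⟩
  obtain ⟨e, he⟩ : ∃ e, e = m ^ 2 + (1 - b) * m + b - x1 - x2 := ⟨_, rfl⟩
  have hy2 : w2 * x2 = m * (x2 - x1) + y1 := by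
    rw [hy1]; linear_combination -hm
  rw [hy3, ← hy1] at g3
  rw [← hy1] at g1
  rw [hy2] at g2
  have key : (x1 - x2) * ((x3 - x1) * (x3 - x2) * (x3 - e)) = 0 := by
    rw [he]
    linear_combination -(x1 - x2) * g3 + (x3 - x2) * g1 - (x3 - x1) * g2
  have key2 := (mul_eq_zero.1 key).resolve_left hd
  have hx31 : x3 - x1 ≠ 0 := by
    intro h4
    have h5 : x3 = x1 := sub_eq_zero.1 h4
    apply h31
    rw [e3, e1, Point.some.injEq]
    refine ⟨h5, ?_⟩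
    rw [hy3, h4]; ring
  have hx32 : x3 - x2 ≠ 0 := by
    intro h4
    have h5 : x3 = x2 := sub_eq_zero.1 h4
    apply h32
    rw [e3, e2, Point.some.injEq]
    refine ⟨h5, ?_⟩
    rw [hy3, hy2, h5, hy1]
  have hx3e : x3 = e := by
    rcases mul_eq_zero.1 key2 with h4 | h4
    · exact absurd h4 (mul_ne_zero hx31 hx32)
    · exact sub_eq_zero.1 h4
  obtain ⟨hn, en⟩ := h.neg_some hxy3
  obtain ⟨h5, e5⟩ := h.add_line (x3 := x3) (y3 := -(w3 * x3) - (1 - b) * x3 + b) (m := m)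
    hxy1 hxy2 hx12 hm (by rw [hx3e, he]; ring) (by rw [hy3])
  have : Q1 + Q2 = -Q3 := by
    rw [e1, e2, e5, e3, en]
  rw [this, neg_add_cancel]

end crv

end Pool.Agent.Helper23K9.T5
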