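import Mathlib

/-!
# [GRP] Homomorphisms to the group with five elements
-/

set_option autoImplicit false
set_option linter.all false

namespace Pool.Agent.Helper23K9.T5

section grp

/-- Homomorphisms with a smaller kernel. -/
theorem span5 {G : Type*} [Group G] {e a : G → ZMod 5} (he : ∀ σ τ, e (σ * τ) = e σ + e τ)
    (ha : ∀ σ τ, a (σ * τ) = a σ + a τ) (h0 : ∀ σ, a σ = 0 → e σ = 0) :
    ∃ u, ∀ σ, e σ = u * a σ := by
  have h5 : Fact (Nat.Prime 5) := ⟨by norm_num⟩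
  have one : ∀ f : G → ZMod 5, (∀ σ τ, f (σ * τ) = f σ + f τ) → f 1 = 0 := by
    intro f hf
    have h := hf 1 1
    rw [mul_one] at h
    exact left_eq_add.mp h
  have inv : ∀ f : G → ZMod 5, (∀ σ τ, f (σ * τ) = f σ + f τ) → ∀ σ, f σ⁻¹ = -f σ := by
    intro f hf σ
    have h := hf σ σ⁻¹
    rw [mul_inv_cancel, one f hf] at h
    exact eq_neg_of_add_eq_zero_right h.symm
  have pow : ∀ f : G → ZMod 5, (∀ σ τ, f (σ * τ) = f σ + f τ) → ∀ σ (n : ℕ), f (σ ^ n) = n * f σ := by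
    intro f hf σ n
    induction n with
    | zero => rw [pow_zero, one f hf, Nat.cast_zero, zero_mul]
    | succ n ih => rw [pow_succ, hf, ih, Nat.cast_succ, add_mul, one_mul]
  by_cases hall : ∀ τ, a τ = 0
  · exact ⟨0, fun σ => by rw [h0 σ (hall σ), zero_mul]⟩
  push Not at hall
  obtain ⟨τ, hτ⟩ := hall
  refine ⟨e τ / a τ, fun σ => ?_⟩
  set n : ZMod 5 := a σ / a τ with hn
  have h1 : a (σ * (τ ^ n.val)⁻¹) = 0 := by
    rw [ha, inv a ha, pow a ha, ZMod.natCast_val, ZMod.cast_id, hn, div_mul_cancel₀ _ hτ,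
      add_neg_cancel]
  have h2 := h0 _ h1
  rw [he, inv e he, pow e he, ZMod.natCast_val, ZMod.cast_id] at h2
  have h3 : e σ = n * e τ := by linear_combination h2
  rw [h3, hn]
  field_simp

theorem grp5 {G : Type*} [Group G] {e a i ξ : G → ZMod 5} (he : ∀ σ τ, e (σ * τ) = e σ + e τ)
    (ha : ∀ σ τ, a (σ * τ) = a σ + a τ) (hξ : ∀ σ τ, ξ (σ * τ) = ξ σ + ξ τ)
    (hi : ∀ σ τ, i (σ * τ) = i σ + (i τ + a τ * ξ σ)) (h0 : ∀ σ, i σ = 0 → a σ = 0 → e σ = 0)
    (hx : ∃ σ, a σ = 0 ∧ ξ σ ≠ 0) (ha0 : ∃ σ, a σ ≠ 0) : ∃ u, ∀ σ, e σ = u * a σ := by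
  have h5 : Fact (Nat.Prime 5) := ⟨by norm_num⟩
  have one : ∀ f : G → ZMod 5, (∀ σ τ, f (σ * τ) = f σ + f τ) → f 1 = 0 := by
    intro f hf
    have h := hf 1 1
    rw [mul_one] at h
    exact left_eq_add.mp h
  have inv : ∀ f : G → ZMod 5, (∀ σ τ, f (σ * τ) = f σ + f τ) → ∀ σ, f σ⁻¹ = -f σ := by
    intro f hf σ
    have h := hf σ σ⁻¹
    rw [mul_inv_cancel, one f hf] at h
    exact eq_neg_of_add_eq_zero_right h.symm
  have hi1 : i 1 = 0 := by
    have h := hi 1 1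
    rw [mul_one, one a ha, zero_mul, add_zero] at h
    exact left_eq_add.mp h
  let N : Subgroup G :=
    { carrier := {σ | a σ = 0}
      one_mem' := one a ha
      mul_mem' := fun {x y} hx hy => by
        change a (x * y) = 0
        rw [ha, show a x = 0 from hx, show a y = 0 from hy, add_zero]
      inv_mem' := fun {x} hx => by
        change a x⁻¹ = 0
        rw [inv a ha, show a x = 0 from hx, neg_zero] }
  obtain ⟨c, hc⟩ := span5 (G := N) (e := fun σ => e σ) (a := fun σ => i σ)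
    (fun σ τ => he _ _)
    (fun σ τ => by
      have := hi (σ : G) (τ : G)
      have hτ : a (τ : G) = 0 := τ.2
      rw [hτ, zero_mul, add_zero] at this
      exact this)
    (fun σ hσ => h0 _ hσ σ.2)
  obtain ⟨ρ, hρ, hξρ⟩ := hx
  obtain ⟨τ, hτ⟩ := ha0
  have hinv : i τ + i τ⁻¹ = a τ * ξ τ := by
    have h := hi τ τ⁻¹
    rw [mul_inv_cancel, hi1, inv a ha] at h
    linear_combination -h
  have hconj : i (τ * ρ * τ⁻¹) = i ρ - a τ * ξ ρ := by
    rw [hi, hi, inv a ha, hξ, hρ]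
    linear_combination hinv
  have hmem : a (τ * ρ * τ⁻¹) = 0 := by
    rw [ha, ha, inv a ha, hρ]
    ring
  have e1 : e ρ = c * i ρ := hc ⟨ρ, hρ⟩
  have e2 : e (τ * ρ * τ⁻¹) = c * i (τ * ρ * τ⁻¹) := hc ⟨_, hmem⟩
  rw [hconj, he, he, inv e he] at e2
  have e3 : c * (a τ * ξ ρ) = 0 := by linear_combination e2 - e1
  have hc0 : c = 0 := (mul_eq_zero.mp e3).resolve_right (mul_ne_zero hτ hξρ)
  refine span5 he ha fun σ hσ => ?_
  have := hc ⟨σ, hσ⟩
  rw [hc0, zero_mul] at this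
  exact this

end grp

end Pool.Agent.Helper23K9.T5
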