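import Mathlib

/-!
# [LIN] Linear algebra over the field with five elements
-/

set_option autoImplicit false
set_option linter.all false

namespace Pool.Agent.Helper23K9.T5

section lin

theorem lin_fill [Fact (Nat.Prime 5)] {N : ℕ} {V1 V2 : Type*} [AddCommGroup V1]
    [Module (ZMod 5) V1] [FiniteDimensional (ZMod 5) V1] [AddCommGroup V2] [Module (ZMod 5) V2]
    [FiniteDimensional (ZMod 5) V2] (φ : (Fin N → ZMod 5) →ₗ[ZMod 5] V1)
    (ψ : (LinearMap.ker φ × ZMod 5) →ₗ[ZMod 5] V2) (hψ : Function.Injective ψ)
    (h : Module.finrank (ZMod 5) V1 + Module.finrank (ZMod 5) V2 ≤ N + 1) :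
    Function.Surjective φ ∧ Function.Surjective ψ := by
  have h1 := φ.finrank_range_add_finrank_ker
  rw [Module.finrank_fintype_fun_eq_card, Fintype.card_fin] at h1
  have h2 : Module.finrank (ZMod 5) (LinearMap.ker φ × ZMod 5) =
      Module.finrank (ZMod 5) (LinearMap.ker φ) + 1 := by
    rw [Module.finrank_prod, Module.finrank_self]
  have h3 := LinearMap.finrank_le_finrank_of_injective hψ
  have h4 := Submodule.finrank_le (LinearMap.range φ)
  have h5 : Module.finrank (ZMod 5) (LinearMap.range φ) = Module.finrank (ZMod 5) V1 := by omega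
  have h6 : Module.finrank (ZMod 5) (LinearMap.ker φ × ZMod 5) = Module.finrank (ZMod 5) V2 := by
    omega
  refine ⟨?_, ?_⟩
  · rw [← LinearMap.range_eq_top]
    exact Submodule.eq_top_of_finrank_eq h5
  · exact (LinearMap.injective_iff_surjective_of_finrank_eq_finrank h6).1 hψ

/-- The hyperplane with the equation `∑ d i x i = 0`. -/
def hyper {ι : Type*} [Fintype ι] (d : ι → ZMod 5) : Submodule (ZMod 5) (ι → ZMod 5) where
  carrier := {x | ∑ i, d i * x i = 0}
  add_mem' := by
    intro a b ha hb
    change ∑ i, d i * (a i + b i) = 0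
    simp only [mul_add, Finset.sum_add_distrib]
    rw [show ∑ i, d i * a i = 0 from ha, show ∑ i, d i * b i = 0 from hb, add_zero]
  zero_mem' := by
    change ∑ i, d i * (0 : ι → ZMod 5) i = 0
    simp
  smul_mem' := by
    intro c a ha
    change ∑ i, d i * (c * a i) = 0
    have : ∀ i, d i * (c * a i) = c * (d i * a i) := fun i => by ring
    simp only [this, ← Finset.mul_sum]
    rw [show ∑ i, d i * a i = 0 from ha, mul_zero]

theorem finrank_hyper [Fact (Nat.Prime 5)] {ι : Type*} [Fintype ι] (d : ι → ZMod 5) {i : ι}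
    (hi : d i ≠ 0) : Module.finrank (ZMod 5) (hyper d) + 1 = Fintype.card ι := by
  classical
  let f : (ι → ZMod 5) →ₗ[ZMod 5] ZMod 5 :=
    { toFun := fun x => ∑ i, d i * x i
      map_add' := fun x y => by simp only [Pi.add_apply, mul_add, Finset.sum_add_distrib]
      map_smul' := fun c x => by
        simp only [Pi.smul_apply, smul_eq_mul, RingHom.id_apply, Finset.mul_sum]
        exact Finset.sum_congr rfl fun j _ => by ring }
  have hk : LinearMap.ker f = hyper d := by
    ext x
    rfl
  have hs : Function.Surjective f := by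
    intro c
    refine ⟨Pi.single i (c / d i), ?_⟩
    change ∑ j, d j * (Pi.single i (c / d i) : ι → ZMod 5) j = c
    rw [Finset.sum_eq_single i]
    · rw [Pi.single_eq_same, mul_div_cancel₀ _ hi]
    · intro j _ hj
      rw [Pi.single_eq_of_ne hj, mul_zero]
    · intro h; exact absurd (Finset.mem_univ i) h
  have h1 := f.finrank_range_add_finrank_ker
  rw [LinearMap.range_eq_top.2 hs, finrank_top, Module.finrank_self,
    Module.finrank_fintype_fun_eq_card, hk] at h1
  omega

end lin

end Pool.Agent.Helper23K9.T5
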