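import Pool.Agent.Helper23K9.T5.Pdef

/-!
Divisors modulo five.
-/

set_option autoImplicit false
set_option linter.all false

open Polynomial IsDedekindDomain UniqueFactorizationMonoid
open scoped Classical

namespace Pool.Agent.Helper23K9.T5

open Pool.Agent.TH115.GD (vInf pl splits_of_sep exists_root_of_mem)

section pair

variable {k : Type} [Field k]

theorem mem_irr {p π : k[X]} (hp : p ≠ 0) : π ∈ irr p ↔ Irreducible π ∧ π.Monic ∧ π ∣ p := by
  unfold irr
  rw [Multiset.mem_toFinset]
  constructor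
  · intro h
    refine ⟨irreducible_of_normalized_factor π h, ?_, dvd_of_mem_normalizedFactors h⟩
    have h1 := normalize_normalized_factor π h
    rw [← h1]
    exact monic_normalize (irreducible_of_normalized_factor π h).ne_zero
  · rintro ⟨h1, h2, h3⟩
    obtain ⟨q, hq, ha⟩ := exists_mem_normalizedFactors_of_dvd hp h1 h3
    have hq1 := irreducible_of_normalized_factor q hq
    have hq2 : q.Monic := by
      rw [← normalize_normalized_factor q hq]
      exact monic_normalize hq1.ne_zero
    rwa [eq_of_monic_of_associated h2 hq2 ha]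

variable {k' F : Type} [Field k'] [Algebra k k'] [Field F] [Algebra k'[X] F]
  [IsFractionRing k'[X] F]

theorem rt_root [IsSepClosed k'] {π : k[X]} (hi : Irreducible π) (hs : π.Separable) :
    (π.map (algebraMap k k')).IsRoot (rt k k' π) := by
  obtain ⟨θ, hθ, -⟩ := sep_root (k' := k') hi hs
  have h : ∃ θ : k', (π.map (algebraMap k k')).IsRoot θ := ⟨θ, hθ⟩
  unfold rt
  rw [dif_pos h]
  exact h.choose_spec

section two

variable [IsSepClosure k k'] {p q : k[X]} (h : PairOK p q)

include h in
/-- The roots of `p q` are the roots of the irreducible factors. -/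
theorem root_irr {θ : k'} (hθ : ((p * q).map (algebraMap k k')).IsRoot θ) :
    ∃ π ∈ irr (p * q), (π.map (algebraMap k k')).IsRoot θ := by
  have hpq : p * q ≠ 0 := mul_ne_zero h.pne h.qne
  have h1 : aeval θ (p * q) = 0 := by
    rw [IsRoot.def, eval_map_algebraMap] at hθ
    exact hθ
  have halg : IsIntegral k θ := ⟨_, monic_normalize hpq, by
    have h2 : normalize (p * q) = (p * q) * C ((p * q).leadingCoeff)⁻¹ := by
      rw [normalize_apply, coe_normUnit_of_ne_zero hpq]
    rw [h2, eval₂_mul, ← aeval_def, h1, zero_mul]⟩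
  refine ⟨minpoly k θ, ?_, ?_⟩
  · rw [mem_irr hpq]
    exact ⟨minpoly.irreducible halg, minpoly.monic halg, minpoly.dvd k θ h1⟩
  · rw [IsRoot.def, eval_map_algebraMap]
    exact minpoly.aeval k θ

include h in
theorem splits_pq : ((p * q).map (algebraMap k k')).Splits := by
  haveI : IsSepClosed k' := IsSepClosure.sep_closed k
  exact splits_of_sep (mul_ne_zero h.pne h.qne) h.sep

include h in
theorem out_pq {f : F} (hf : Supp k' p q f) (v : HeightOneSpectrum k'[X])
    (hv : ∀ θ ∈ ((p * q).map (algebraMap k k')).roots.toFinset, v ≠ pl θ) : om5 v f = 0 := by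
  have hpq : p * q ≠ 0 := mul_ne_zero h.pne h.qne
  have hpq' : (p * q).map (algebraMap k k') ≠ 0 :=
    (Polynomial.map_ne_zero_iff (algebraMap k k').injective).2 hpq
  have hn : (p * q).map (algebraMap k k') ∉ v.asIdeal := fun hm => by
    obtain ⟨θ, hθ, h4⟩ := exists_root_of_mem hpq' (splits_pq h) hm
    exact hv θ (Multiset.mem_toFinset.2 hθ) h4
  rw [Polynomial.map_mul] at hn
  exact hf.out v (fun h1 => hn (v.asIdeal.mul_mem_right _ h1))
    (fun h1 => hn (v.asIdeal.mul_mem_left _ h1))

theorem const_root {f : F} (hf : Supp k' p q f) {π : k[X]} (hi : Irreducible π) {θ η : k'}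
    (hθ : (π.map (algebraMap k k')).IsRoot θ) (hη : (π.map (algebraMap k k')).IsRoot η) :
    om5 (pl θ) f = om5 (pl η) f := by
  obtain ⟨s, rfl⟩ := trans_roots hi hη hθ
  exact hf.inv s η

include h in
theorem pair_zero (h5 : (5 : k) ≠ 0) {f : F} (hf : Supp k' p q f)
    (h0 : ∀ π ∈ irr (p * q), om5 (pl (rt k k' π)) f = 0) :
    ∃ c : F, c ≠ 0 ∧ f = c ^ 5 := by
  haveI : IsSepClosed k' := IsSepClosure.sep_closed k
  have hpq : p * q ≠ 0 := mul_ne_zero h.pne h.qne
  have h5' : (5 : k') ≠ 0 := by
    rw [← map_ofNat (algebraMap k k') 5]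
    exact (_root_.map_ne_zero _).2 h5
  obtain ⟨c, hc0, e⟩ := rep5 h5' hf.ne ∅ (fun v _ => by
    by_cases hv : ∀ θ ∈ ((p * q).map (algebraMap k k')).roots.toFinset, v ≠ pl θ
    · exact out_pq h hf v hv
    · push Not at hv
      obtain ⟨θ, hθ, rfl⟩ := hv
      obtain ⟨π, hπ, hr⟩ := root_irr h (k' := k') (isRoot_of_mem_roots (Multiset.mem_toFinset.1 hθ))
      obtain ⟨hi, -, hd⟩ := (mem_irr hpq).1 hπ
      rw [const_root hf hi hr (rt_root hi (h.sep π hi hd))]
      exact h0 π hπ)
  rw [Finset.prod_empty, map_one, mul_one] at e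
  exact ⟨c, hc0, e⟩

include h in
theorem pair_hyper (h5 : (5 : k) ≠ 0) {f : F}
    (hf : Supp k' p q f) (hd : p.natDegree = q.natDegree) :
    ∑ π ∈ irr (p * q), (π.natDegree : ZMod 5) * om5 (pl (rt k k' π)) f = 0 := by
  haveI : IsSepClosed k' := IsSepClosure.sep_closed k
  have hpq : p * q ≠ 0 := mul_ne_zero h.pne h.qne
  have hpq' : (p * q).map (algebraMap k k') ≠ 0 :=
    (Polynomial.map_ne_zero_iff (algebraMap k k').injective).2 hpq
  have h5' : (5 : k') ≠ 0 := by
    rw [← map_ofNat (algebraMap k k') 5]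
    exact (_root_.map_ne_zero _).2 h5
  have h1 := sum_om5 h5' hf.ne _ (out_pq h hf) (hf.inf hd)
  have hU : ((p * q).map (algebraMap k k')).roots.toFinset =
      (irr (p * q)).biUnion fun π => (π.map (algebraMap k k')).roots.toFinset := by
    ext θ
    rw [Multiset.mem_toFinset, mem_roots hpq', Finset.mem_biUnion]
    constructor
    · intro hθ
      obtain ⟨π, hπ, hr⟩ := root_irr h (k' := k') hθ
      refine ⟨π, hπ, ?_⟩
      rw [Multiset.mem_toFinset, mem_roots ((Polynomial.map_ne_zero_iff
        (algebraMap k k').injective).2 ((mem_irr hpq).1 hπ).1.ne_zero)]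
      exact hr
    · rintro ⟨π, hπ, hr⟩
      rw [Multiset.mem_toFinset, mem_roots ((Polynomial.map_ne_zero_iff
        (algebraMap k k').injective).2 ((mem_irr hpq).1 hπ).1.ne_zero)] at hr
      obtain ⟨δ, hδ⟩ := ((mem_irr hpq).1 hπ).2.2
      rw [hδ, Polynomial.map_mul, IsRoot.def, eval_mul, IsRoot.def.1 hr, zero_mul]
  rw [hU, Finset.sum_biUnion] at h1
  · rw [← h1]
    refine Finset.sum_congr rfl fun π hπ => ?_
    obtain ⟨hi, -, hdv⟩ := (mem_irr hpq).1 hπ
    have hs := h.sep π hi hdv
    have h2 : ∑ θ ∈ (π.map (algebraMap k k')).roots.toFinset, om5 (pl θ) f =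
        ∑ θ ∈ (π.map (algebraMap k k')).roots.toFinset, om5 (pl (rt k k' π)) f := by
      refine Finset.sum_congr rfl fun θ hθ => ?_
      exact const_root hf hi (isRoot_of_mem_roots (Multiset.mem_toFinset.1 hθ)) (rt_root hi hs)
    rw [h2, Finset.sum_const, card_roots_sep hi hs, nsmul_eq_mul]
  · intro π hπ π' hπ' hne
    rw [Function.onFun, Finset.disjoint_left]
    intro θ h2 h3
    apply hne
    obtain ⟨hi, hm, -⟩ := (mem_irr hpq).1 hπ
    obtain ⟨hi', hm', -⟩ := (mem_irr hpq).1 hπ'
    have a1 : aeval θ π = 0 := by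
      have := isRoot_of_mem_roots (Multiset.mem_toFinset.1 h2)
      rw [IsRoot.def, eval_map_algebraMap] at this
      exact this
    have a2 : aeval θ π' = 0 := by
      have := isRoot_of_mem_roots (Multiset.mem_toFinset.1 h3)
      rw [IsRoot.def, eval_map_algebraMap] at this
      exact this
    rw [minpoly.eq_of_irreducible_of_monic hi a1 hm, minpoly.eq_of_irreducible_of_monic hi' a2 hm']

/-- The twist is trivial. -/
theorem pair_inv {π : k[X]} (hi : Irreducible π) (hs : π.Separable)
    (hd : ¬ 5 ∣ π.natDegree) {f g : F} (invg : ∀ (s : k' ≃ₐ[k] k') (θ : k'),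
      om5 (pl (s θ)) g = om5 (pl θ) g)
    (hg : ∀ θ : k', (π.map (algebraMap k k')).IsRoot θ → om5 (pl θ) g ≠ 0)
    {s : k' ≃ₐ[k] k'} {j : ZMod 5}
    (hj : ∀ θ : k', om5 (pl (s θ)) f + j * om5 (pl (s θ)) g = om5 (pl θ) f) : j = 0 := by
  haveI : IsSepClosed k' := IsSepClosure.sep_closed k
  haveI : Fact (Nat.Prime 5) := ⟨by norm_num⟩
  have h1 := sum_gal s π hi.ne_zero (fun θ => om5 (pl θ) f)
  have h2 : ∑ θ ∈ (π.map (algebraMap k k')).roots.toFinset, om5 (pl θ) f =
      ∑ θ ∈ (π.map (algebraMap k k')).roots.toFinset, om5 (pl (s θ)) f +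
      ∑ θ ∈ (π.map (algebraMap k k')).roots.toFinset, j * om5 (pl (rt k k' π)) g := by
    rw [← Finset.sum_add_distrib]
    refine Finset.sum_congr rfl fun θ hθ => ?_
    have hr := isRoot_of_mem_roots (Multiset.mem_toFinset.1 hθ)
    obtain ⟨s', hs'⟩ := trans_roots hi (rt_root hi hs) hr
    rw [← hj θ, invg, ← hs', invg]
  rw [h1, left_eq_add, Finset.sum_const, card_roots_sep hi hs, nsmul_eq_mul] at h2
  rcases mul_eq_zero.1 h2 with h | h
  · rw [ZMod.natCast_eq_zero_iff] at h
    exact absurd h hd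
  · exact (mul_eq_zero.1 h).resolve_right (hg _ (rt_root hi hs))

include h in
/-- A place of degree and order prime to five. -/
theorem pair_ord {K : Type} [Field K] [Algebra k[X] K] [IsFractionRing k[X] K]
    [Algebra K F] (hKF : ∀ p : k[X], algebraMap K F (algebraMap k[X] K p) =
      algebraMap k'[X] F (p.map (algebraMap k k'))) :
    ∃ π ∈ irr (p * q), ¬ 5 ∣ π.natDegree ∧ ∀ θ : k', (π.map (algebraMap k k')).IsRoot θ →
      om5 (pl θ) (algebraMap K F (algebraMap k[X] K p)) -
        om5 (pl θ) (algebraMap K F (algebraMap k[X] K q)) ≠ 0 := by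
  haveI : IsSepClosed k' := IsSepClosure.sep_closed k
  have injk := (algebraMap k k').injective
  have hpq : p * q ≠ 0 := mul_ne_zero h.pne h.qne
  obtain ⟨π, m, hi, hd5, hm5, hdvd, hnd⟩ := h.f5
  have hm0 : m ≠ 0 := by
    rintro rfl
    exact hm5 (dvd_zero 5)
  have hass := normalize_associated π
  have hi' := hass.symm.irreducible hi
  have hmo : (normalize π).Monic := monic_normalize hi.ne_zero
  have hdv : normalize π ∣ p * q := (normalize_dvd_iff).2 ((dvd_pow_self π hm0).trans hdvd)
  refine ⟨normalize π, (mem_irr hpq).2 ⟨hi', hmo, hdv⟩, ?_, ?_⟩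
  · rwa [natDegree_eq_of_degree_eq (degree_normalize)]
  · intro θ hθ
    have hs := h.sep _ hi' hdv
    have h1 : (normalize π) ^ m ∣ p * q := (hass.pow_pow.dvd_iff_dvd_left).2 hdvd
    have h2 : ¬ (normalize π) ^ (m + 1) ∣ p * q := fun hh =>
      hnd ((hass.pow_pow.dvd_iff_dvd_left).1 hh)
    set ρ := normalize π with hρ
    obtain ⟨r, hr⟩ := h1
    have hρr : ¬ ρ ∣ r := by
      rintro ⟨r', rfl⟩
      exact h2 ⟨r', by rw [hr]; ring⟩
    have a1 : aeval θ ρ = 0 := by
      rw [IsRoot.def, eval_map_algebraMap] at hθ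
      exact hθ
    have hmin := minpoly.eq_of_irreducible_of_monic hi' a1 hmo
    have hrr : ¬ (r.map (algebraMap k k')).IsRoot θ := by
      intro hh
      apply hρr
      rw [hmin]
      apply minpoly.dvd
      rw [IsRoot.def, eval_map_algebraMap] at hh
      exact hh
    have hsm : (ρ.map (algebraMap k k')).Separable := hs.map
    have h0 : ρ.map (algebraMap k k') ≠ 0 := (Polynomial.map_ne_zero_iff injk).2 hi'.ne_zero
    have hmu : rootMultiplicity θ (ρ.map (algebraMap k k')) = 1 :=
      le_antisymm (rootMultiplicity_le_one_of_separable hsm θ) ((rootMultiplicity_pos h0).2 hθ)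
    have hpq' : (p * q).map (algebraMap k k') ≠ 0 := (Polynomial.map_ne_zero_iff injk).2 hpq
    have hmult : rootMultiplicity θ ((p * q).map (algebraMap k k')) = m := by
      rw [hr, Polynomial.map_mul, Polynomial.map_pow] at hpq' ⊢
      rw [rootMultiplicity_mul hpq', rootMultiplicity_eq_zero hrr, add_zero, ← count_roots,
        roots_pow, Multiset.count_nsmul, count_roots, hmu, mul_one]
    rw [om5_root hKF p h.pne, om5_root hKF q h.qne]
    rw [Polynomial.map_mul] at hmult hpq'
    rw [rootMultiplicity_mul hpq'] at hmult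
    have h5m : ((m : ℕ) : ZMod 5) ≠ 0 := by
      rw [Ne, ZMod.natCast_eq_zero_iff]
      exact hm5
    by_cases hq : (q.map (algebraMap k k')).IsRoot θ
    · have hp : ¬ (p.map (algebraMap k k')).IsRoot θ := by
        intro hp
        obtain ⟨u, v, huv⟩ := h.cop.map (Polynomial.mapRingHom (algebraMap k k'))
        have := congrArg (Polynomial.eval θ) huv
        rw [IsRoot.def] at hp hq
        simp only [coe_mapRingHom, eval_add, eval_mul, hp, hq, mul_zero, add_zero,
          eval_one] at this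
        exact zero_ne_one this
      rw [rootMultiplicity_eq_zero hp, zero_add] at hmult
      rw [rootMultiplicity_eq_zero hp, hmult, Nat.cast_zero, zero_sub]
      exact neg_ne_zero.2 h5m
    · rw [rootMultiplicity_eq_zero hq, add_zero] at hmult
      rw [rootMultiplicity_eq_zero hq, hmult, Nat.cast_zero, sub_zero]
      exact h5m

end two

end pair

end Pool.Agent.Helper23K9.T5
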