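import Pool.Agent.Helper23K9.T5.Pdef
import Pool.Agent.Helper23K9.T5.Alg

/-!
The conditions in the statements.
-/

set_option autoImplicit false
set_option linter.all false

open Polynomial
open scoped Classical

namespace Pool.Agent.Helper23K9.T5

section conditions

variable {k : Type} [Field k]

/-- The conditions on `β / γ`. -/
structure Crit5 (z : k) (β γ : k[X]) : Prop where
  one : PairOK β γ
  two : PairOK (β - C (ep z) * γ) (β - C (ep' z) * γ)

/-- The number of zeros and poles on the projective line of `β / γ`, plus the same for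
`(β - ε γ) / (β - ε' γ)`. -/
noncomputable def nn5 (z : k) (β γ : k[X]) : ℕ :=
  nPl β γ + nPl (β - C (ep z) * γ) (β - C (ep' z) * γ)

/-- `p` has an irreducible factor whose multiplicity is prime to five. -/
def HasM5 (p : k[X]) : Prop :=
  ∃ (π : k[X]) (m : ℕ), Irreducible π ∧ ¬ 5 ∣ m ∧ π ^ m ∣ p ∧ ¬ π ^ (m + 1) ∣ p

/-- The numerator of `b` for the surface through the point `(x, y)`. -/
noncomputable def bxy (x y : k[X]) : k[X] := y ^ 2 + x * y - x ^ 3

/-- The denominator of `b` for the surface through the point `(x, y)`. -/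
noncomputable def gxy (x y : k[X]) : k[X] := (x + 1) * y - x ^ 2

end conditions

/-- `κ(u)` -/
abbrev Ku (κ : Type) [Field κ] : Type := FractionRing κ[X]

/-- `κ(u)(s)` -/
abbrev Kus (κ : Type) [Field κ] : Type := FractionRing (Ku κ)[X]

/-- The constants of `κ(u)` in `κ(u)(s)`. -/
noncomputable def cu (κ : Type) [Field κ] (c : Ku κ) : Kus κ := algebraMap (Ku κ)[X] (Kus κ) (C c)

/-- `x = u` -/
noncomputable def xr (κ : Type) [Field κ] : (Kus κ)[X] := C (cu κ (algebraMap κ[X] (Ku κ) X))

/-- `y = t ^ n - s` -/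
noncomputable def yr (κ : Type) [Field κ] (n : ℕ) : (Kus κ)[X] :=
  X ^ n - C (algebraMap (Ku κ)[X] (Kus κ) X)

end Pool.Agent.Helper23K9.T5
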