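import Pool.Agent.Helper23K9.T5.Ee
import Pool.Agent.Helper23K9.T5.Sdef
import Pool.Agent.Helper23K9.T5.Pair
import Pool.Agent.Helper23K9.T5.Lin
import Pool.Agent.Helper23K9.T5.Grp5
import Pool.Agent.Helper23K9.T5.Main
import Pool.Agent.Helper23K9.T5.Slm

/-!
The criterion.
-/

set_option autoImplicit false
set_option linter.all false

open Polynomial IsDedekindDomain WeierstrassCurve WeierstrassCurve.Affine
open scoped Classical

namespace Pool.Agent.Helper23K9.T5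

open Pool.Agent.TH115.GD (vInf wInf wFin AtInf CompInf pl Pt act incl rs ak IsCoc LocTriv Sep Comp
  IsTower Preserves LocallyTrivial lt_subT act_act act_inj cob_isCoc preserves sepKΩ lift
  exists_conj fixed_point val_poly)
open Pool.Agent.Helper7K9.T3 (TateAt IsTateClass tate_of_part)

section vec

variable {k k' : Type} [Field k] [Field k'] [Algebra k k'] [IsSepClosure k k']

/-- The coefficients of the condition at infinity. -/
noncomputable def dco (p q : k[X]) (π : irr (p * q)) : ZMod 5 :=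
  if p.natDegree = q.natDegree then ((π : k[X]).natDegree : ZMod 5) else 0

/-- The divisor classes modulo five. -/
noncomputable abbrev VV (p q : k[X]) : Submodule (ZMod 5) (irr (p * q) → ZMod 5) := hyper (dco p q)

theorem finrank_VV [Fact (Nat.Prime 5)] {p q : k[X]} (h : PairOK p q) :
    Module.finrank (ZMod 5) (VV p q) + 1 ≤ nPl p q := by
  unfold nPl
  by_cases hd : p.natDegree = q.natDegree
  · rw [if_pos hd, add_zero]
    obtain ⟨π, m, hi, h5, hm5, hdvd, hnd⟩ := h.f5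
    have hm0 : m ≠ 0 := by
      rintro rfl
      exact hm5 (dvd_zero 5)
    have hpq : p * q ≠ 0 := mul_ne_zero h.pne h.qne
    have hπ : π ∣ p * q := (dvd_pow_self π hm0).trans hdvd
    have hn : normalize π ∈ irr (p * q) := by
      rw [mem_irr hpq]
      refine ⟨(normalize_associated π).symm.irreducible hi, ?_, (normalize_dvd_iff).2 hπ⟩
      exact monic_normalize hi.ne_zero
    have h1 := finrank_hyper (dco p q) (i := ⟨normalize π, hn⟩) (by
      unfold dco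
      rw [if_pos hd, Ne, ZMod.natCast_eq_zero_iff]
      show ¬ 5 ∣ (normalize π).natDegree
      rwa [natDegree_eq_of_degree_eq (degree_normalize)])
    rw [h1, Fintype.card_coe]
  · rw [if_neg hd]
    have h1 := Submodule.finrank_le (VV p q)
    rw [Module.finrank_fintype_fun_eq_card, Fintype.card_coe] at h1
    omega

variable {F : Type} [Field F] [Algebra k'[X] F] [IsFractionRing k'[X] F]

theorem vec_mem (h5 : (5 : k) ≠ 0) {p q : k[X]} (h : PairOK p q) {f : F} (hf : Supp k' p q f) :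
    (fun π : irr (p * q) => om5 (pl (rt k k' (π : k[X]))) f) ∈ VV p q := by
  show ∑ π, dco p q π * om5 (pl (rt k k' (π : k[X]))) f = 0
  by_cases hd : p.natDegree = q.natDegree
  · have h1 := pair_hyper h h5 hf hd
    rw [← Finset.sum_coe_sort] at h1
    rw [← h1]
    refine Finset.sum_congr rfl fun π _ => ?_
    unfold dco
    rw [if_pos hd]
  · refine Finset.sum_eq_zero fun π _ => ?_
    unfold dco
    rw [if_neg hd, zero_mul]

theorem char_zero (h5k : (5 : k) ≠ 0) {Ω : Type} [Field Ω] [Algebra F Ω] [IsGalois F Ω] {z : Ω} (h5 : (5 : Ω) ≠ 0)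
    (hz : IsZ z) (hzF : ∀ σ : Ω ≃ₐ[F] Ω, σ z = z) {p q : k[X]} (h : PairOK p q)
    {χ : (Ω ≃ₐ[F] Ω) → ZMod 5} {s : Ω} {f : F} (hk : KD z χ s f) (hf : Supp k' p q f)
    (h0 : ∀ π : irr (p * q), evc z χ (rt k k' (π : k[X])) = 0) (σ : Ω ≃ₐ[F] Ω) : χ σ = 0 := by
  obtain ⟨c, hc, e⟩ := pair_zero h h5k hf (fun π hπ => by
    rw [← evc_eq hk]
    exact h0 ⟨π, hπ⟩)
  have k2 : KD z (fun _ : Ω ≃ₐ[F] Ω => (0 : ZMod 5)) (1 : Ω) (1 : F) :=
    ⟨one_ne_zero, by rw [one_pow, map_one], fun σ => by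
      rw [ZMod.val_zero, pow_zero, one_mul, map_one]⟩
  exact (KD.char h5 hz hzF k2 hk (c := c) (by rw [e, mul_one]) σ).symm

end vec

section cbs

variable {F : Type*} [Field F] {W : Affine F} {b : F} (h : IsE5 W b) {T : W.Point}
  (hT5 : 5 • T = 0)

include hT5 in
theorem cb_sum {ι : Type*} (S : Finset ι) (x y : ι → ZMod 5) :
    ∑ j ∈ S, cb h T (x j) (y j) = cb h T (∑ j ∈ S, x j) (∑ j ∈ S, y j) := by
  induction S using Finset.induction_on with
  | empty => rw [Finset.sum_empty, Finset.sum_empty, Finset.sum_empty, cb_zero]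
  | insert a S ha ih =>
    rw [Finset.sum_insert ha, Finset.sum_insert ha, Finset.sum_insert ha, ih, cb_add h hT5]

end cbs

section main

variable {k k' K F : Type} [Field k] [Field k'] [Algebra k k'] [Field K] [Algebra k[X] K]
    [Field F] [Algebra k'[X] F] [IsFractionRing k'[X] F] [Algebra K F]

theorem pole5 [IsSepClosure k k'] [IsFractionRing k[X] K] (hKF : ∀ p : k[X],
      algebraMap K F (algebraMap k[X] K p) = algebraMap k'[X] F (p.map (algebraMap k k')))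
    {β γ : k[X]} (h : PairOK β γ) : ∃ v : Valuation F Zm,
      1 < v (algebraMap K F (algebraMap k[X] K β / algebraMap k[X] K γ)) := by
  haveI : IsSepClosed k' := IsSepClosure.sep_closed k
  have injk := (algebraMap k k').injective
  by_cases hd : γ.natDegree < β.natDegree
  · refine ⟨vInf k' F, ?_⟩
    rw [map_div₀, map_div₀, inf_deg hKF h.pne, inf_deg hKF h.qne, ← WithZero.exp_sub,
      ← WithZero.exp_zero, WithZero.exp_lt_exp]
    omega
  · by_cases hg : γ.natDegree = 0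
    · exfalso
      obtain ⟨π, m, hi, -, hm5, hdvd, -⟩ := h.f5
      have hm0 : m ≠ 0 := by
        rintro rfl
        exact hm5 (dvd_zero 5)
      have h1 := natDegree_le_of_dvd ((dvd_pow_self π hm0).trans hdvd) (mul_ne_zero h.pne h.qne)
      rw [natDegree_mul h.pne h.qne, hg] at h1
      have := hi.natDegree_pos
      omega
    · have hu : ¬ IsUnit γ := fun hu => hg (natDegree_eq_zero_of_isUnit hu)
      obtain ⟨π, hi, hπ⟩ := WfDvdMonoid.exists_irreducible_factor hu h.qne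
      have hs := h.sep π hi (hπ.mul_left _)
      obtain ⟨θ, hθ, hmu⟩ := sep_root (k' := k') hi hs
      refine ⟨(pl θ).valuation F, ?_⟩
      have hβ : β.map (algebraMap k k') ∉ (pl θ).asIdeal :=
        cop_root (h.cop.symm.of_isCoprime_of_dvd_left hπ) hθ
      have hγ0 : γ.map (algebraMap k k') ≠ 0 := (Polynomial.map_ne_zero_iff injk).2 h.qne
      have hγr : (γ.map (algebraMap k k')).IsRoot θ := by
        obtain ⟨δ, rfl⟩ := hπ
        rw [Polynomial.map_mul, IsRoot.def, eval_mul, IsRoot.def.1 hθ, zero_mul]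
      have hmm := (rootMultiplicity_pos hγ0).2 hγr
      rw [map_div₀, map_div₀, fin_one hKF _ hβ, hKF, val_poly θ hγ0, one_div, ← WithZero.exp_neg,
        neg_neg, ← WithZero.exp_zero, WithZero.exp_lt_exp]
      exact_mod_cast hmm

theorem crit_key [Fact (Nat.Prime 5)] (hT : IsTower k k' K F) (h5k : (5 : k) ≠ 0) {z0 : k}
    (hz0 : IsZ z0) {β γ : k[X]} (hC : Crit5 z0 β γ) {b : K}
    (eb : b = algebraMap k[X] K β / algebraMap k[X] K γ) {N : ℕ} (Q : Fin N → Pt (crv5 b) K)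
    (hQ : ∀ (l : Fin N → ℕ) (R : Pt (crv5 b) F),
      5 • R = ∑ j, l j • act (crv5 b) (incl K K F) (Q j) → ∀ j, 5 ∣ l j)
    (hN : nPl β γ + nPl (β - C (ep z0) * γ) (β - C (ep' z0) * γ) ≤ N + 3)
    {c : ℕ → (Sep F ≃ₐ[F] Sep F) → Pt (crv5 b) (Sep F)} (hc : IsTateClass 5 k' (crv5 b) c) :
    ∃ (l : Fin N → ℕ) (H : Pt (crv5 b) (Sep F)),
      5 • H = ∑ j, l j • act (crv5 b) (incl K K (Sep F)) (Q j) ∧
        ∀ σ, c 1 σ = act (crv5 b) (rs K σ) H - H := by
  haveI := hT.sep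
  haveI := hT.fracK
  haveI : IsSepClosed k' := IsSepClosure.sep_closed k
  haveI : IsGalois k k' := inferInstance
  have hKF := hT.map
  obtain ⟨z, ez⟩ : ∃ z : K, z = algebraMap k[X] K (C z0) := ⟨_, rfl⟩
  have hp := And.intro hC.one.pne (And.intro hC.one.qne (And.intro hC.two.pne hC.two.qne))
  obtain ⟨h5, hb, hd, hz, eA, eB, c1n, c2n, c3n⟩ := fldG h5k hz0 hp eb ez
  haveI : IsSepClosure K (Sep F) := sepKΩ hKF
  haveI : Algebra.IsSeparable K (Sep F) := IsSepClosure.separable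
  haveI : IsGalois K (Sep F) := inferInstance
  have h := isE5 b (Sep F) h5 hb hd
  have hpres : Preserves K F (Sep F) := preserves hKF
  obtain ⟨pos1, pos2, pos3, pos4⟩ := hp
  -- the root of unity
  set ζ : Sep F := algebraMap K (Sep F) z with hζ
  have hzΩ : IsZ ζ := hz.map _
  have hzF : ∀ σ : Sep F ≃ₐ[F] Sep F, σ ζ = ζ := fun σ => by
    rw [hζ, IsScalarTower.algebraMap_apply K F (Sep F)]
    exact σ.commutes _
  have hzK : ∀ τ : Sep F ≃ₐ[K] Sep F, τ ζ = ζ := fun τ => τ.commutes _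
  have hz5 : ζ ^ 5 = 1 := hzΩ.five
  have h5Ω : (5 : Sep F) ≠ 0 := h.five
  -- the point T
  have hA0 := AA_ne h hzΩ
  have hB0 := BB_ne h hzΩ
  have c3Ω : 5 + 3 * eta ζ ≠ 0 := by
    intro h0
    have h1 := hzΩ.eta_sq
    have h2 : (5 + 3 * eta ζ) * (1 - eta ζ) ^ 2 = 1 := by
      linear_combination (3 * eta ζ - 4) * h1
    rw [h0, zero_mul] at h2
    exact zero_ne_one h2
  obtain ⟨m, hm5⟩ : ∃ m : Sep F, m ^ 5 = AA ζ (algebraMap K (Sep F) b) /
      ((5 + 3 * eta ζ) * BB ζ (algebraMap K (Sep F) b)) := by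
    haveI : NeZero ((5 : ℕ) : Sep F) := ⟨by exact_mod_cast h5Ω⟩
    exact IsSepClosed.exists_pow_nat_eq _ 5
  have hm : AA ζ (algebraMap K (Sep F) b) = (5 + 3 * eta ζ) * m ^ 5 *
      BB ζ (algebraMap K (Sep F) b) := by
    rw [hm5]; field_simp
  obtain ⟨T, hTT⟩ := exists_T h hzΩ hm
  have hT5 := hTT.five h hzΩ hm
  have hTn := hTT.nm
  have m0 := m_ne h hzΩ hm
  have hbp : bpol (algebraMap K (Sep F) b) ≠ 0 := by
    obtain ⟨v, hv⟩ := pole5 (k' := k') (F := F) hKF hC.one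
    rw [← eb] at hv
    have h1 := bpol_ne v hv
    have h2 : bpol (algebraMap K (Sep F) b) = algebraMap F (Sep F) (bpol (algebraMap K F b)) := by
      rw [IsScalarTower.algebraMap_apply K F (Sep F)]
      simp only [bpol, map_add, map_sub, map_mul, map_pow, map_ofNat, map_one, map_neg]
    rw [h2]
    exact (_root_.map_ne_zero _).2 h1
  have hsurj : ∀ S : Pt (crv5 b) (Sep F), 5 • S = 0 → ∃ i a, S = cb h T i a :=
    fun S hS => cb_surj h hT5 hTn hbp hS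
  obtain ⟨ξ, hξ⟩ : ∃ ξ : (Sep F →ₐ[K] Sep F) → ZMod 5, ∀ φ,
      act (crv5 b) φ T = cb h T (ξ φ) 1 ∧ φ m⁻¹ = ζ ^ (ξ φ).val * m⁻¹ :=
    ⟨fun φ => (T_gal h5 hb hd hz hTT hm φ).choose, fun φ =>
      (T_gal h5 hb hd hz hTT hm φ).choose_spec⟩
  have hξT := fun φ => (hξ φ).1
  -- the Kummer generator of the character of T
  obtain ⟨g2, hg2⟩ : ∃ g2 : F, g2 = algebraMap K F ((5 + 3 * eta z) * BB z b / AA z b) := ⟨_, rfl⟩
  have kT : KD ζ (fun σ => ξ (rs K σ)) m⁻¹ g2 := by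
    refine ⟨inv_ne_zero m0, ?_, fun σ => (hξ (rs K σ)).2⟩
    rw [inv_pow, hm5, hg2, ← IsScalarTower.algebraMap_apply K F (Sep F), map_div₀, map_mul,
      AA_map, BB_map, map_add, map_mul, eta_map, inv_div, map_ofNat, map_ofNat]
  have hξm : ∀ σ τ : Sep F ≃ₐ[F] Sep F, ξ (rs K (σ * τ)) = ξ (rs K σ) + ξ (rs K τ) :=
    fun σ τ => xi_comp h5 hb hd hT5 hTn hξT (rs K σ) (rs K τ)
  have hTG : ∀ σ : Sep F ≃ₐ[F] Sep F, act (crv5 b) (rs K σ) T - T ∈ HP h := by
    intro σ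
    have h1 := cb_cob h5 hb hd hT5 hξT σ 0 1
    rw [cb_T] at h1
    rw [h1, cb_i]
    exact (HP h).nsmul_mem (pP_mem h) _
  -- constants and coprimality
  have epn : ep z0 ≠ 0 ∧ ep' z0 ≠ 0 := by
    have h1 : ep z0 * ep' z0 = -1 := by
      unfold ep ep'
      linear_combination 25 * hz0.eta_mul + 40 * hz0.eta_add
    constructor
    · intro h0
      rw [h0, zero_mul] at h1
      exact one_ne_zero (neg_eq_zero.1 h1.symm)
    · intro h0
      rw [h0, mul_zero] at h1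
      exact one_ne_zero (neg_eq_zero.1 h1.symm)
  have nF : ∀ p : k[X], p ≠ 0 → algebraMap K F (algebraMap k[X] K p) ≠ 0 := by
    intro p hp
    simpa using hp
  have omC : ∀ (v : HeightOneSpectrum k'[X]) (c : k) (p : k[X]), c ≠ 0 → p ≠ 0 →
      om5 v (algebraMap K F (algebraMap k[X] K (C c * p))) =
        om5 v (algebraMap K F (algebraMap k[X] K p)) := by
    intro v c p hc hp
    rw [map_mul, map_mul, om5_mul v (nF _ (C_ne_zero.2 hc)) (nF _ hp),
      om_unit v (fin_const hKF v hc), zero_add]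
  have cop : IsCoprime (β * γ) ((β - C (ep z0) * γ) * (β - C (ep' z0) * γ)) := by
    have g1 : ∀ e : k, IsCoprime γ (β - C e * γ) := by
      intro e
      obtain ⟨u, w, huw⟩ := hC.one.cop
      refine ⟨w + u * C e, u, ?_⟩
      linear_combination huw
    exact ((cop_sub hC.one.cop epn.1).mul_right (cop_sub hC.one.cop epn.2)).mul_left
      ((g1 _).mul_right (g1 _))
  have e_g2 : g2 = algebraMap K F (algebraMap k[X] K (C ((5 + 3 * eta z0) * (2 * eta' z0 - 1)) *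
        (β - C (ep' z0) * γ))) / algebraMap K F (algebraMap k[X] K (C (2 * eta z0 - 1) *
          (β - C (ep z0) * γ))) := by
    rw [hg2, quot_eq pos2 ez eA eB, map_div₀]
  have om_g2 : ∀ v : HeightOneSpectrum k'[X], om5 v g2 =
      om5 v (algebraMap K F (algebraMap k[X] K (β - C (ep' z0) * γ))) -
        om5 v (algebraMap K F (algebraMap k[X] K (β - C (ep z0) * γ))) := by
    intro v
    rw [e_g2, om5_div v (nF _ (mul_ne_zero (C_ne_zero.2 (mul_ne_zero c3n c2n)) pos4))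
        (nF _ (mul_ne_zero (C_ne_zero.2 c1n) pos3)), omC v _ _ (mul_ne_zero c3n c2n) pos4,
        omC v _ _ c1n pos3]
  have om_b : ∀ v : HeightOneSpectrum k'[X], om5 v (algebraMap K F b) =
      om5 v (algebraMap K F (algebraMap k[X] K β)) -
        om5 v (algebraMap K F (algebraMap k[X] K γ)) := by
    intro v
    rw [eb, map_div₀, om5_div v (nF _ pos1) (nF _ pos2)]
  have bF : algebraMap K F b ≠ 0 := (_root_.map_ne_zero _).2 hb
  -- the good places
  obtain ⟨π1, m1, d1, o1⟩ := pair_ord (k' := k') (F := F) hC.one hKF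
  obtain ⟨π2, m2, d2, o2⟩ := pair_ord (k' := k') (F := F) hC.two hKF
  obtain ⟨i1', mo1, dv1⟩ := (mem_irr (mul_ne_zero pos1 pos2)).1 m1
  obtain ⟨i2', mo2, dv2⟩ := (mem_irr (mul_ne_zero pos3 pos4)).1 m2
  have s1' := hC.one.sep π1 i1' dv1
  have s2' := hC.two.sep π2 i2' dv2
  have r1 := rt_root (k' := k') i1' s1'
  have r2 := rt_root (k' := k') i2' s2'
  have og2 : ∀ θ : k', (π2.map (algebraMap k k')).IsRoot θ → om5 (pl θ) g2 ≠ 0 := by
    intro θ hθ
    rw [om_g2]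
    intro h0
    exact o2 θ hθ (by rw [← neg_eq_zero, neg_sub]; exact h0)
  have out1 : (β * γ).map (algebraMap k k') ∉ (pl (rt k k' π2)).asIdeal :=
    cop_root (cop.symm.of_isCoprime_of_dvd_left dv2) r2
  have out2 : ((β - C (ep z0) * γ) * (β - C (ep' z0) * γ)).map (algebraMap k k') ∉
      (pl (rt k k' π1)).asIdeal :=
    cop_root (cop.of_isCoprime_of_dvd_left dv1) r1
  have hx0 : ∃ σ : Sep F ≃ₐ[F] Sep F, ξ (rs K σ) ≠ 0 := by
    by_contra hcon
    push Not at hcon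
    have k1 : KD ζ (fun σ : Sep F ≃ₐ[F] Sep F => ξ (rs K σ)) (1 : Sep F) (1 : F) :=
      ⟨one_ne_zero, by rw [one_pow, map_one], fun σ => by
        rw [hcon, ZMod.val_zero, pow_zero, one_mul, map_one]⟩
    obtain ⟨c, hc0, hc⟩ := k1.same kT
    apply og2 _ r2
    rw [hc, om5_fifth _ hc0 one_ne_zero, om5_one]
  -- a fifth part of P
  obtain ⟨R, hR⟩ := five_div h (pP h)
  have hκ5 : ∀ φ : Sep F →ₐ[K] Sep F, 5 • (act (crv5 b) φ R - R) = 0 := by
    intro φ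
    rw [smul_sub, ← map_nsmul, hR, pP_act h h φ, sub_self]
  choose iκ aP hκ using fun σ : Sep F ≃ₐ[F] Sep F => hsurj _ (hκ5 (rs K σ))
  have hκc : IsCoc (crv5 b) (fun σ : Sep F ≃ₐ[F] Sep F => act (crv5 b) (rs K σ) R - R) :=
    cob_isCoc _ R
  obtain ⟨iκlc, aPlc⟩ := coords_lc h5 hb hd hT5 hTn hκc.lc hκ
  have hκm := coords_mul h5 hb hd hT5 hTn hξT hκc hκ
  obtain ⟨sP, gP, sP0, sP5, sPk⟩ := exists_root5 h5Ω hzΩ hzF aP (fun σ τ => (hκm σ τ).1) aPlc
  have kP : KD ζ aP sP gP := ⟨sP0, sP5, sPk⟩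
  have hP5 := isE5 b K h5 hb hd
  have hRK : 5 • R = act (crv5 b) (incl K K (Sep F)) (pP hP5) := by
    rw [pP_act hP5 h (incl K K (Sep F)), hR]
  have hκS : Slm k' (crv5 b) (fun σ : Sep F ≃ₐ[F] Sep F => act (crv5 b) (rs K σ) R - R) :=
    Slm.ofPt (hc.loc 0) hc.tc.zero hRK
  have hP0 : ∃ σ, aP σ ≠ 0 := by
    by_contra hcon
    push Not at hcon
    have him : ∀ σ τ, iκ (σ * τ) = iκ σ + iκ τ := fun σ τ => by
      rw [(hκm σ τ).2, hcon, zero_mul, add_zero]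
    obtain ⟨s, f, s0, s5, sk⟩ := exists_root5 h5Ω hzΩ hzF iκ him iκlc
    have ks : KD ζ iκ s f := ⟨s0, s5, sk⟩
    have hf : ∀ σ : Sep F ≃ₐ[F] Sep F, act (crv5 b) (rs K σ) R - R = (iκ σ).val • pP h :=
      fun σ => by rw [hκ, hcon, cb_i]
    obtain ⟨j, d, e⟩ := fifth_of_kappa h5 hb hd hz hR hf ks
    obtain ⟨hs, -⟩ := second_placeG hKF h5k hz0 ⟨pos1, pos2, pos3, pos4⟩ eb ez h5 hb hd hz hf
      hκS.loc ks
    obtain ⟨v6, v7⟩ := not_mem_mul out2
    have f0 : f ≠ 0 := ks.fne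
    have d0 : d ≠ 0 := by
      rintro rfl
      rw [zero_pow (by norm_num), zero_mul] at e
      exact bF e
    apply o1 _ r1
    rw [← om_b, e, om5_fifth _ d0 (pow_ne_zero j f0), om5_pow, hs _ v6 v7, mul_zero]
  obtain ⟨ofP, nfP⟩ := first_placeG hKF h5k hz0 ⟨pos1, pos2, pos3, pos4⟩ eb ez h5 hb hd hz hTT hm
    hTG hκ hκS.loc kP
  have hξcon : ∃ σ : Sep F ≃ₐ[F] Sep F, aP σ = 0 ∧ ξ (rs K σ) ≠ 0 := by
    by_contra hcon
    push Not at hcon
    obtain ⟨u, hu⟩ := span5 hξm (fun σ τ => (hκm σ τ).1) hcon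
    have hz' : (fun σ : Sep F ≃ₐ[F] Sep F => ξ (rs K σ)) = fun σ => u * aP σ := funext hu
    apply og2 _ r2
    rw [← evc_eq kT, hz', evc_smul hz5 kP, evc_eq kP, ofP _ (not_mem_mul out1).1
      (not_mem_mul out1).2, mul_zero]
  -- the Kummer generator of the class of P
  obtain ⟨e, ce, ke, hem, he0⟩ := exists_e h5 hb hd hz (Q := pP (isE5 b F h5 hb hd)) (R := R)
    (by rw [pP_act (isE5 b F h5 hb hd) h (incl K F (Sep F)), hR])
  rw [dd_P] at ke
  obtain ⟨u, hu⟩ := grp5 hem (fun σ τ => (hκm σ τ).1) hξm (fun σ τ => (hκm σ τ).2)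
    (fun σ hi ha => he0 σ (by
      have h1 := hκ σ
      rw [hi, ha, cb_zero] at h1
      exact sub_eq_zero.1 h1)) hξcon hP0
  have ogP' : ∀ θ : k', u * om5 (pl θ) gP = - om5 (pl θ) (algebraMap K F b) := by
    intro θ
    have hz' : e = fun σ => u * aP σ := funext hu
    rw [← evc_eq kP, ← evc_smul hz5 kP, ← hz', evc_eq ke]
    have h1 := om5_div (pl θ) (one_ne_zero (α := F)) bF
    rw [one_div, om5_one, zero_sub] at h1
    exact h1
  have ogP : ∀ θ : k', (π1.map (algebraMap k k')).IsRoot θ → om5 (pl θ) gP ≠ 0 := by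
    intro θ hθ h0
    have h1 := ogP' θ
    rw [h0, mul_zero, om_b] at h1
    exact o1 θ hθ (neg_eq_zero.1 h1.symm)
  -- conjugation and the class of the fifth part of P
  have hxc : ∀ (τ : Sep F ≃ₐ[K] Sep F) (σ σ' : Sep F ≃ₐ[F] Sep F), (∀ x, τ (σ' x) = σ (τ x)) →
      ξ (rs K σ') = ξ (rs K σ) := fun τ σ σ' hr => xi_conj h5 hb hd hT5 hTn hξT hr
  have invP : ∀ (s : k' ≃ₐ[k] k') (θ : k'), om5 (pl (s θ)) gP = om5 (pl θ) gP := by
    intro s θ
    obtain ⟨τ, hτ⟩ := lift (Ω := Sep F) hKF s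
    have h1 := KD.om hpres hz5 kP kP (hzK τ) hτ (j := 0) (fun σ σ' hr => by
      obtain ⟨i', a', e'⟩ := hsurj _ (hκ5 (ak τ))
      have h1 : (ak τ).comp (rs K σ') = (rs K σ).comp (ak τ) := AlgHom.ext fun x => hr x
      have h2 : act (crv5 b) (ak τ) (act (crv5 b) (rs K σ') R - R) -
          (act (crv5 b) (rs K σ) R - R) = act (crv5 b) (rs K σ) (act (crv5 b) (ak τ) R - R) -
            (act (crv5 b) (ak τ) R - R) := by
        rw [map_sub (act (crv5 b) (ak τ)), act_act, h1, map_sub (act (crv5 b) (rs K σ)), act_act]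
        abel
      rw [hκ, hκ, e', cb_cob h5 hb hd hT5 hξT, act_cb h5 hb hd hT5 (hξT _), cb_sub h hT5] at h2
      obtain ⟨h3, h4⟩ := cb_inj h hT5 hTn h2
      rw [sub_eq_zero.1 h4, zero_mul, add_zero]) θ
    rwa [zero_mul, add_zero] at h1
  have invT : ∀ (s : k' ≃ₐ[k] k') (θ : k'), om5 (pl (s θ)) g2 = om5 (pl θ) g2 := by
    intro s θ
    obtain ⟨τ, hτ⟩ := lift (Ω := Sep F) hKF s
    have h1 := KD.om hpres hz5 kT kT (hzK τ) hτ (j := 0) (fun σ σ' hr => by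
      rw [hxc τ σ σ' hr, zero_mul, add_zero]) θ
    rwa [zero_mul, add_zero] at h1
  -- Selmer classes
  have selInv : ∀ (f : (Sep F ≃ₐ[F] Sep F) → Pt (crv5 b) (Sep F)) (hf : Slm k' (crv5 b) f)
      (i a : (Sep F ≃ₐ[F] Sep F) → ZMod 5) (ef : ∀ σ, f σ = cb h T (i σ) (a σ))
      (τ : Sep F ≃ₐ[K] Sep F), ∃ j a' : ZMod 5, ∀ σ σ' : Sep F ≃ₐ[F] Sep F,
      (∀ x, τ (σ' x) = σ (τ x)) → a σ' = a σ + j * aP σ ∧
        i σ' + a σ' * ξ (ak τ) = i σ + (j * iκ σ + a' * ξ (rs K σ)) := by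
    intro f hf i a ef τ
    obtain ⟨Q', ⟨N', hN'⟩, hrel⟩ := hf.inv τ
    obtain ⟨j, a', hja⟩ := fix_mod h5 hb hd hT5 hTn hsurj hξT hR hκ hx0 hP0 hN'
      (fun σ => by
        obtain ⟨σ', hσ'⟩ := exists_conj hpres τ σ
        rw [← hrel σ σ' hσ', smul_sub, ← map_nsmul, hf.five, hf.five, map_zero, sub_zero])
    refine ⟨j, a', fun σ σ' hr => ?_⟩
    have h2 := hrel σ σ' hr
    rw [hja, ef, ef, act_cb h5 hb hd hT5 (hξT _), cb_sub h hT5] at h2
    obtain ⟨h3, h4⟩ := cb_inj h hT5 hTn h2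
    exact ⟨by rw [← h4]; ring, by rw [← h3]; ring⟩
  have selOne : ∀ (f : (Sep F ≃ₐ[F] Sep F) → Pt (crv5 b) (Sep F)) (hf : Slm k' (crv5 b) f)
      (i a : (Sep F ≃ₐ[F] Sep F) → ZMod 5) (ef : ∀ σ, f σ = cb h T (i σ) (a σ)),
      ∃ (s : Sep F) (f0 : F), KD ζ a s f0 ∧ Supp k' β γ f0 := by
    intro f hf i a ef
    obtain ⟨ilc, alc⟩ := coords_lc h5 hb hd hT5 hTn hf.coc.lc ef
    have hfm := coords_mul h5 hb hd hT5 hTn hξT hf.coc ef
    obtain ⟨s, f0, s0, s5, sk⟩ := exists_root5 h5Ω hzΩ hzF a (fun σ τ => (hfm σ τ).1) alc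
    have ks : KD ζ a s f0 := ⟨s0, s5, sk⟩
    obtain ⟨o, nf⟩ := first_placeG hKF h5k hz0 ⟨pos1, pos2, pos3, pos4⟩ eb ez h5 hb hd hz hTT hm
      hTG ef hf.loc ks
    refine ⟨s, f0, ks, ks.fne, o, fun s1 θ => ?_, nf⟩
    obtain ⟨τ, hτ⟩ := lift (Ω := Sep F) hKF s1
    obtain ⟨j, a', hja⟩ := selInv f hf i a ef τ
    have hom := fun θ => KD.om hpres hz5 ks kP (hzK τ) hτ (j := j)
      (fun σ σ' hr => (hja σ σ' hr).1) θ
    have hj0 : j = 0 := pair_inv i1' s1' d1 invP ogP hom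
    have h1 := hom θ
    rwa [hj0, zero_mul, add_zero] at h1
  have selTwo : ∀ (f : (Sep F ≃ₐ[F] Sep F) → Pt (crv5 b) (Sep F)) (hf : Slm k' (crv5 b) f)
      (χ : (Sep F ≃ₐ[F] Sep F) → ZMod 5) (ef : ∀ σ, f σ = cb h T (χ σ) 0),
      ∃ (s : Sep F) (f0 : F), KD ζ χ s f0 ∧ Supp k' (β - C (ep z0) * γ) (β - C (ep' z0) * γ) f0 := by
    intro f hf χ ef
    have ef' : ∀ σ, f σ = cb h T (χ σ) ((fun _ => 0 : (Sep F ≃ₐ[F] Sep F) → ZMod 5) σ) := ef
    obtain ⟨ilc, -⟩ := coords_lc h5 hb hd hT5 hTn hf.coc.lc ef'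
    have hfm := coords_mul h5 hb hd hT5 hTn hξT hf.coc ef'
    obtain ⟨s, f0, s0, s5, sk⟩ := exists_root5 h5Ω hzΩ hzF χ (fun σ τ => by
      have := (hfm σ τ).2
      rw [zero_mul, add_zero] at this
      exact this) ilc
    have ks : KD ζ χ s f0 := ⟨s0, s5, sk⟩
    obtain ⟨o, nf⟩ := second_placeG hKF h5k hz0 ⟨pos1, pos2, pos3, pos4⟩ eb ez h5 hb hd hz
      (fun σ => by rw [ef, cb_i]) hf.loc ks
    refine ⟨s, f0, ks, ks.fne, o, fun s1 θ => ?_, nf⟩
    obtain ⟨τ, hτ⟩ := lift (Ω := Sep F) hKF s1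
    obtain ⟨j, a', hja⟩ := selInv f hf χ _ ef' τ
    have hj0 : j = 0 := by
      obtain ⟨σ, hσ⟩ := hP0
      obtain ⟨σ', hσ'⟩ := exists_conj hpres τ σ
      have h1 := (hja σ σ' hσ').1
      exact mul5 _ _ (by rw [zero_add] at h1; exact h1.symm) hσ
    have hom := fun θ => KD.om hpres hz5 ks kT (hzK τ) hτ (j := a') (fun σ σ' hr => by
      have h2 := (hja σ σ' hr).2
      rw [hj0, zero_mul, zero_mul, zero_add, add_zero] at h2
      exact h2) θ
    have ha0 : a' = 0 := pair_inv i2' s2' d2 invT og2 hom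
    have h1 := hom θ
    rwa [ha0, zero_mul, add_zero] at h1
  -- the points
  choose Rj hRj using fun j : Fin N => five_div h (act (crv5 b) (incl K K (Sep F)) (Q j))
  choose ij aj hij using fun (j : Fin N) (σ : Sep F ≃ₐ[F] Sep F) =>
    hsurj _ (part_five (hRj j) (rs K σ))
  choose sj gj kj sgj using fun j : Fin N => selOne _ (Slm.ofPt (hc.loc 0) hc.tc.zero (hRj j))
    (ij j) (aj j) (hij j)
  obtain ⟨Rx, hRx⟩ : ∃ Rx : (Fin N → ZMod 5) × ZMod 5 → Pt (crv5 b) (Sep F), ∀ x,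
      Rx x = ∑ j, (x.1 j).val • Rj j + x.2.val • T := ⟨_, fun _ => rfl⟩
  have hRx5 : ∀ x, 5 • Rx x = act (crv5 b) (incl K K (Sep F)) (∑ j, (x.1 j).val • Q j) := by
    intro x
    rw [hRx, smul_add, smul_smul, mul_comm 5, mul_smul, hT5, smul_zero, add_zero, Finset.smul_sum,
      map_sum]
    refine Finset.sum_congr rfl fun j _ => ?_
    rw [smul_smul, mul_comm, mul_smul, hRj, map_nsmul]
  have hRxc : ∀ x (σ : Sep F ≃ₐ[F] Sep F), act (crv5 b) (rs K σ) (Rx x) - Rx x =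
      cb h T (∑ j, x.1 j * ij j σ + x.2 * ξ (rs K σ)) (∑ j, x.1 j * aj j σ) := by
    intro x σ
    have h1 : act (crv5 b) (rs K σ) (Rx x) - Rx x =
        ∑ j, (x.1 j).val • (act (crv5 b) (rs K σ) (Rj j) - Rj j) +
          x.2.val • (act (crv5 b) (rs K σ) T - T) := by
      rw [hRx, map_add, map_sum, map_nsmul]
      simp only [map_nsmul, smul_sub, Finset.sum_sub_distrib]
      abel
    have h2 := cb_cob h5 hb hd hT5 hξT σ 0 1
    rw [cb_T, one_mul] at h2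
    rw [h1, h2]
    have h3 : ∀ j, (x.1 j).val • (act (crv5 b) (rs K σ) (Rj j) - Rj j) =
        cb h T (x.1 j * ij j σ) (x.1 j * aj j σ) := by
      intro j
      rw [hij, cb_nsmul h hT5, ZMod.natCast_val, ZMod.cast_id]
    rw [Finset.sum_congr rfl fun j _ => h3 j, cb_sum h hT5, cb_nsmul h hT5, cb_add h hT5,
      ZMod.natCast_val, ZMod.cast_id, mul_zero, add_zero]
  have slx : ∀ x, Slm k' (crv5 b) (fun σ : Sep F ≃ₐ[F] Sep F =>
      act (crv5 b) (rs K σ) (Rx x) - Rx x) := fun x => Slm.ofPt (hc.loc 0) hc.tc.zero (hRx5 x)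
  obtain ⟨Ax, hAx⟩ : ∃ Ax : (Fin N → ZMod 5) → (Sep F ≃ₐ[F] Sep F) → ZMod 5, ∀ l σ,
      Ax l σ = ∑ j, l j * aj j σ := ⟨_, fun _ _ => rfl⟩
  obtain ⟨Ix, hIx⟩ : ∃ Ix : (Fin N → ZMod 5) × ZMod 5 → (Sep F ≃ₐ[F] Sep F) → ZMod 5, ∀ x σ,
      Ix x σ = ∑ j, x.1 j * ij j σ + x.2 * ξ (rs K σ) := ⟨_, fun _ _ => rfl⟩
  have hco : ∀ x σ, act (crv5 b) (rs K σ) (Rx x) - Rx x = cb h T (Ix x σ) (Ax x.1 σ) := by
    intro x σ
    rw [hRxc, hAx, hIx]
  have kA : ∀ l, ∃ (s : Sep F) (f0 : F), KD ζ (Ax l) s f0 ∧ Supp k' β γ f0 := fun l =>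
    selOne _ (slx (l, 0)) (Ix (l, 0)) (Ax l) (hco (l, 0))
  -- the first map
  have evA : ∀ l (θ : k'), evc ζ (Ax l) θ = ∑ j, l j * evc ζ (aj j) θ := by
    intro l θ
    have h1 : ∀ S : Finset (Fin N), ∃ (s : Sep F) (f0 : F),
        KD ζ (fun σ => ∑ j ∈ S, l j * aj j σ) s f0 ∧
          om5 (pl θ) f0 = ∑ j ∈ S, l j * evc ζ (aj j) θ := by
      intro S
      induction S using Finset.induction_on with
      | empty =>
        refine ⟨1, 1, ⟨one_ne_zero, by rw [one_pow, map_one], fun σ => ?_⟩, ?_⟩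
        · rw [Finset.sum_empty, ZMod.val_zero, pow_zero, one_mul, map_one]
        · rw [Finset.sum_empty, om5_one]
      | insert j S hj ih =>
        obtain ⟨s, f0, k0, e0⟩ := ih
        have k1 := (kj j).pow hz5 (l j).val
        rw [ZMod.natCast_val, ZMod.cast_id] at k1
        have k2 := k1.mul hz5 k0
        refine ⟨sj j ^ (l j).val * s, gj j ^ (l j).val * f0, ?_, ?_⟩
        · have h2 : (fun σ => ∑ i ∈ insert j S, l i * aj i σ) =
              fun σ => l j * aj j σ + ∑ i ∈ S, l i * aj i σ := by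
            funext σ
            rw [Finset.sum_insert hj]
          rw [h2]
          exact k2
        · rw [Finset.sum_insert hj, om5_mul _ k1.fne k0.fne, e0, om5_pow, evc_eq (kj j),
            ZMod.natCast_val, ZMod.cast_id]
    obtain ⟨s, f0, k0, e0⟩ := h1 Finset.univ
    have h2 : Ax l = fun σ => ∑ j, l j * aj j σ := funext (hAx l)
    rw [h2, evc_eq k0, e0]
  obtain ⟨φ, hφ⟩ : ∃ φ : (Fin N → ZMod 5) →ₗ[ZMod 5] VV β γ, ∀ l (π : irr (β * γ)),
      (φ l : irr (β * γ) → ZMod 5) π = evc ζ (Ax l) (rt k k' (π : k[X])) := by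
    refine ⟨⟨⟨fun l => ⟨fun π => evc ζ (Ax l) (rt k k' (π : k[X])), ?_⟩, ?_⟩, ?_⟩, fun l π => rfl⟩
    · obtain ⟨s, f0, k0, s0⟩ := kA l
      have := vec_mem h5k hC.one s0
      simp only [evc_eq k0]
      exact this
    · intro l l'
      apply Subtype.ext
      funext π
      show evc ζ (Ax (l + l')) _ = evc ζ (Ax l) _ + evc ζ (Ax l') _
      rw [evA, evA, evA, ← Finset.sum_add_distrib]
      refine Finset.sum_congr rfl fun j _ => ?_
      rw [Pi.add_apply, add_mul]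
    · intro r l
      apply Subtype.ext
      funext π
      show evc ζ (Ax (r • l)) _ = r • evc ζ (Ax l) _
      rw [evA, evA, smul_eq_mul, Finset.mul_sum]
      refine Finset.sum_congr rfl fun j _ => ?_
      rw [Pi.smul_apply, smul_eq_mul, mul_assoc]
  have kerA : ∀ l, φ l = 0 → ∀ σ, Ax l σ = 0 := by
    intro l hl
    obtain ⟨s, f0, k0, s0⟩ := kA l
    refine char_zero h5k h5Ω hzΩ hzF hC.one k0 s0 fun π => ?_
    rw [← hφ, hl]
    rfl
  -- the second map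
  have kI : ∀ x : (Fin N → ZMod 5) × ZMod 5, φ x.1 = 0 → ∃ (s : Sep F) (f0 : F),
      KD ζ (Ix x) s f0 ∧ Supp k' (β - C (ep z0) * γ) (β - C (ep' z0) * γ) f0 := fun x hx =>
    selTwo _ (slx x) (Ix x) (fun σ => by rw [hco, kerA x.1 hx])
  obtain ⟨ψ, hψ⟩ : ∃ ψ : (LinearMap.ker φ × ZMod 5) →ₗ[ZMod 5]
      VV (β - C (ep z0) * γ) (β - C (ep' z0) * γ),
      ∀ x (π : irr ((β - C (ep z0) * γ) * (β - C (ep' z0) * γ))),
        (ψ x : irr ((β - C (ep z0) * γ) * (β - C (ep' z0) * γ)) → ZMod 5) π =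
          evc ζ (Ix ((x.1 : Fin N → ZMod 5), x.2)) (rt k k' (π : k[X])) := by
    refine ⟨⟨⟨fun x => ⟨fun π => evc ζ (Ix ((x.1 : Fin N → ZMod 5), x.2))
      (rt k k' (π : k[X])), ?_⟩, ?_⟩, ?_⟩, fun x π => rfl⟩
    · obtain ⟨s, f0, k0, s0⟩ := kI ((x.1 : Fin N → ZMod 5), x.2) x.1.2
      have := vec_mem h5k hC.two s0
      simp only [evc_eq k0]
      exact this
    · intro x y
      apply Subtype.ext
      funext π
      show evc ζ (Ix (((x + y).1 : Fin N → ZMod 5), (x + y).2)) _ =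
        evc ζ (Ix ((x.1 : Fin N → ZMod 5), x.2)) _ + evc ζ (Ix ((y.1 : Fin N → ZMod 5), y.2)) _
      obtain ⟨s, f0, k0, s0⟩ := kI ((x.1 : Fin N → ZMod 5), x.2) x.1.2
      obtain ⟨s', f0', k0', s0'⟩ := kI ((y.1 : Fin N → ZMod 5), y.2) y.1.2
      rw [← evc_add hz5 k0 k0']
      congr 1
      funext σ
      rw [hIx, hIx, hIx]
      show ∑ j, ((x.1 : Fin N → ZMod 5) j + (y.1 : Fin N → ZMod 5) j) * ij j σ +
        (x.2 + y.2) * ξ (rs K σ) = _
      simp only [add_mul, Finset.sum_add_distrib]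
      ring
    · intro r x
      apply Subtype.ext
      funext π
      show evc ζ (Ix (((r • x).1 : Fin N → ZMod 5), (r • x).2)) _ =
        r • evc ζ (Ix ((x.1 : Fin N → ZMod 5), x.2)) _
      obtain ⟨s, f0, k0, s0⟩ := kI ((x.1 : Fin N → ZMod 5), x.2) x.1.2
      rw [smul_eq_mul, ← evc_smul hz5 k0]
      congr 1
      funext σ
      rw [hIx, hIx]
      show ∑ j, (r * (x.1 : Fin N → ZMod 5) j) * ij j σ + (r * x.2) * ξ (rs K σ) = _
      simp only [mul_assoc, ← Finset.mul_sum]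
      ring
  have hψi : Function.Injective ψ := by
    rw [injective_iff_map_eq_zero]
    intro x hx
    obtain ⟨s, f0, k0, s0⟩ := kI ((x.1 : Fin N → ZMod 5), x.2) x.1.2
    have h1 := char_zero h5k h5Ω hzΩ hzF hC.two k0 s0 fun π => by
      rw [← hψ, hx]
      rfl
    have h2 : ∀ σ : Sep F ≃ₐ[F] Sep F, act (crv5 b) (rs K σ) (Rx ((x.1 : Fin N → ZMod 5), x.2)) =
        Rx ((x.1 : Fin N → ZMod 5), x.2) := by
      intro σ
      rw [← sub_eq_zero, hco, h1, kerA _ x.1.2, cb_zero]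
    obtain ⟨Q0, hQ0⟩ := fixed_point (K := K) (F := F) (crv5 b) _ h2
    have h3 := hQ (fun j => ((x.1 : Fin N → ZMod 5) j).val) Q0 (by
      apply act_inj (crv5 b) (incl K F (Sep F))
      rw [map_nsmul, hQ0, hRx5, map_sum, map_sum]
      refine Finset.sum_congr rfl fun j _ => ?_
      rw [map_nsmul, map_nsmul, act_act]
      congr 1
      )
    have h4 : (x.1 : Fin N → ZMod 5) = 0 := by
      funext j
      have h5' := h3 j
      rw [← ZMod.natCast_eq_zero_iff, ZMod.natCast_val, ZMod.cast_id] at h5'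
      exact h5'
    have h5' : x.2 = 0 := by
      obtain ⟨σ, hσ⟩ := hx0
      have h6 := h1 σ
      rw [hIx] at h6
      simp only [h4, Pi.zero_apply, zero_mul, Finset.sum_const_zero, zero_add] at h6
      exact mul5 _ _ h6 hσ
    exact Prod.ext (Subtype.ext h4) h5'
  obtain ⟨sφ, sψ⟩ := lin_fill φ ψ hψi (by
    have h1 := finrank_VV hC.one
    have h2 := finrank_VV hC.two
    omega)
  -- the class
  have slc := Slm.ofTate hc
  choose i1 a1 e1 using fun σ : Sep F ≃ₐ[F] Sep F => hsurj _ (slc.five σ)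
  obtain ⟨s1, f1, k1, sup1⟩ := selOne _ slc i1 a1 e1
  obtain ⟨l, hl⟩ := sφ ⟨_, vec_mem h5k hC.one sup1⟩
  have sl1 := slc.sub (hRx5 (l, 0))
  have e2 : ∀ σ, c 1 σ - (act (crv5 b) (rs K σ) (Rx (l, 0)) - Rx (l, 0)) =
      cb h T (i1 σ - Ix (l, 0) σ) (a1 σ - Ax l σ) := by
    intro σ
    rw [hco, e1, cb_sub h hT5]
  obtain ⟨s2, f2, k2, sup2⟩ := selOne _ sl1 _ _ e2
  obtain ⟨s3, f3, k3, sup3⟩ := kA l
  have z2' := char_zero h5k h5Ω hzΩ hzF hC.one k2 sup2 fun π => by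
    have h1 := evc_add hz5 k2 k3 (rt k k' (π : k[X]))
    have h2 : (fun σ => a1 σ - Ax l σ + Ax l σ) = a1 := by
      funext σ
      ring
    rw [h2] at h1
    have h3 := congrArg (fun v : VV β γ => (v : irr (β * γ) → ZMod 5) π) hl
    simp only [hφ] at h3
    have h4 : evc ζ a1 (rt k k' (π : k[X])) = om5 (pl (rt k k' (π : k[X]))) f1 := evc_eq k1 _
    rw [h4, ← h3] at h1
    linear_combination -h1
  have e3 : ∀ σ, c 1 σ - (act (crv5 b) (rs K σ) (Rx (l, 0)) - Rx (l, 0)) =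
      cb h T (i1 σ - Ix (l, 0) σ) 0 := by
    intro σ
    rw [e2, z2']
  obtain ⟨s4, f4, k4, sup4⟩ := selTwo _ sl1 _ e3
  obtain ⟨x, hx⟩ := sψ ⟨_, vec_mem h5k hC.two sup4⟩
  have sl2 := sl1.sub (hRx5 ((x.1 : Fin N → ZMod 5), x.2))
  have e4 : ∀ σ, c 1 σ - (act (crv5 b) (rs K σ) (Rx (l, 0)) - Rx (l, 0)) -
      (act (crv5 b) (rs K σ) (Rx ((x.1 : Fin N → ZMod 5), x.2)) -
        Rx ((x.1 : Fin N → ZMod 5), x.2)) =
      cb h T (i1 σ - Ix (l, 0) σ - Ix ((x.1 : Fin N → ZMod 5), x.2) σ) 0 := by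
    intro σ
    rw [e3, hco, kerA _ x.1.2, cb_sub h hT5, sub_zero]
  obtain ⟨s5, f5, k5, sup5⟩ := selTwo _ sl2 _ e4
  obtain ⟨s6, f6, k6, sup6⟩ := kI ((x.1 : Fin N → ZMod 5), x.2) x.1.2
  have z3 := char_zero h5k h5Ω hzΩ hzF hC.two k5 sup5 fun π => by
    have h1 := evc_add hz5 k5 k6 (rt k k' (π : k[X]))
    have h2 : (fun σ => i1 σ - Ix (l, 0) σ - Ix ((x.1 : Fin N → ZMod 5), x.2) σ +
        Ix ((x.1 : Fin N → ZMod 5), x.2) σ) = fun σ => i1 σ - Ix (l, 0) σ := by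
      funext σ
      ring
    rw [h2] at h1
    have h3 := congrArg (fun v : VV (β - C (ep z0) * γ) (β - C (ep' z0) * γ) =>
      (v : irr ((β - C (ep z0) * γ) * (β - C (ep' z0) * γ)) → ZMod 5) π) hx
    simp only [hψ] at h3
    rw [evc_eq k4, ← h3] at h1
    linear_combination -h1
  refine ⟨fun j => (l j).val + ((x.1 : Fin N → ZMod 5) j).val,
    Rx (l, 0) + Rx ((x.1 : Fin N → ZMod 5), x.2), ?_, fun σ => ?_⟩
  · rw [smul_add, hRx5, hRx5, map_sum, map_sum, ← Finset.sum_add_distrib]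
    refine Finset.sum_congr rfl fun j _ => ?_
    rw [map_nsmul, map_nsmul, ← add_smul]
  · have h1 := e4 σ
    rw [z3, cb_zero, sub_eq_zero, sub_eq_iff_eq_add] at h1
    rw [h1, map_add]
    abel

end main

end Pool.Agent.Helper23K9.T5
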