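import Pool.Agent.Helper23K9.T5.Ff
import Pool.Agent.Helper23K9.T5.Act
import Pool.Agent.Helper23K9.T5.Tor

/-!
# [DD] The function with divisor `5 (P) - 5 (O)` modulo fifth powers is a homomorphism
-/

set_option autoImplicit false
set_option linter.all false

open Polynomial IsDedekindDomain WeierstrassCurve WeierstrassCurve.Affine
open scoped Classical

namespace Pool.Agent.Helper23K9.T5

open Pool.Agent.TH115.GD (Pt act act_zero act_some)

section dd

variable {F : Type*} [Field F] {W : Affine F}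

/-- The function `x y + y - x ^ 2` with divisor `5 (P) - 5 (O)` modulo fifth powers. -/
noncomputable def dd (b : F) : W.Point → F
  | .zero => 1
  | .some x y _ => if x = 0 ∧ y = 0 then b⁻¹ else ff5 x y

/-- The value at affine points. -/
noncomputable def vl5 (b x y : F) : F := if x = 0 ∧ y = 0 then b⁻¹ else ff5 x y

theorem dd_some (b : F) {x y : F} (hxy : W.Nonsingular x y) :
    dd b (Point.some x y hxy) = vl5 b x y := rfl

theorem vl5_zero (b : F) : vl5 b 0 0 = b⁻¹ := if_pos ⟨rfl, rfl⟩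

theorem vl5_of_ne (b : F) {x y : F} (hx : x ≠ 0) : vl5 b x y = ff5 x y :=
  if_neg fun e => hx e.1

theorem vl5_of_ne' (b : F) {x y : F} (hy : y ≠ 0) : vl5 b x y = ff5 x y :=
  if_neg fun e => hy e.2

/-- Lines through `P`. -/
theorem line0 {b l x2 x3 : F} (hb : b ≠ 0) (e1 : x2 + x3 = l ^ 2 + (1 - b) * l + b)
    (v2 : x2 * x3 = b * l) :
    ∃ c : F, c ≠ 0 ∧ b⁻¹ * vl5 b x2 (l * x2) * vl5 b x3 (l * x3) = c ^ 5 := by
  by_cases h2 : x2 = 0
  · have hl : l = 0 := by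
      rw [h2, zero_mul] at v2
      exact (mul_eq_zero.1 v2.symm).resolve_left hb
    have h3 : x3 = b := by
      rw [h2, hl] at e1
      linear_combination e1
    refine ⟨-1, by simp, ?_⟩
    rw [h2, h3, hl, mul_zero, zero_mul, vl5_zero, vl5_of_ne b hb, ff5]
    field_simp
    ring
  · by_cases h3 : x3 = 0
    · have hl : l = 0 := by
        rw [h3, mul_zero] at v2
        exact (mul_eq_zero.1 v2.symm).resolve_left hb
      have h4 : x2 = b := by
        rw [h3, hl] at e1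
        linear_combination e1
      refine ⟨-1, by simp, ?_⟩
      rw [h3, h4, hl, mul_zero, zero_mul, vl5_zero, vl5_of_ne b hb, ff5]
      field_simp
      ring
    · have hl : l ≠ 0 := by
        intro e
        rw [e, mul_zero] at v2
        exact mul_ne_zero h2 h3 v2
      refine ⟨l, hl, ?_⟩
      rw [vl5_of_ne b h2, vl5_of_ne b h3]
      have key : ff5 x2 (l * x2) * ff5 x3 (l * x3) = b * l ^ 5 := by
        have e : ff5 x2 (l * x2) * ff5 x3 (l * x3) =
            (x2 * x3) * ((l - 1) ^ 2 * (x2 * x3) + l * (l - 1) * (x2 + x3) + l ^ 2) := by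
          unfold ff5; ring
        rw [e, v2, e1]
        ring
      rw [mul_assoc, key, ← mul_assoc, inv_mul_cancel₀ hb, one_mul]

/-- The values at three points on a line. -/
theorem vl5_line {b l m x1 x2 x3 : F} (hb : b ≠ 0)
    (h1 : x1 + x2 + x3 = l ^ 2 + (1 - b) * l + b)
    (h2 : x1 * x2 + x1 * x3 + x2 * x3 = -2 * l * m - (1 - b) * m + b * l)
    (h3 : x1 * x2 * x3 = m ^ 2 - b * m) :
    ∃ c : F, c ≠ 0 ∧ vl5 b x1 (l * x1 + m) * vl5 b x2 (l * x2 + m) * vl5 b x3 (l * x3 + m)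
      = c ^ 5 := by
  by_cases hm : m = 0
  · subst hm
    simp only [add_zero]
    have h3' : x1 * x2 * x3 = 0 := by rw [h3]; ring
    rcases mul_eq_zero.1 h3' with h4 | h4
    · rcases mul_eq_zero.1 h4 with h5 | h5
      · subst h5
        obtain ⟨c, hc, e⟩ := line0 (b := b) (l := l) (x2 := x2) (x3 := x3) hb
          (by linear_combination h1) (by linear_combination h2)
        refine ⟨c, hc, ?_⟩
        rw [mul_zero, vl5_zero]; exact e
      · subst h5
        obtain ⟨c, hc, e⟩ := line0 (b := b) (l := l) (x2 := x1) (x3 := x3) hb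
          (by linear_combination h1) (by linear_combination h2)
        refine ⟨c, hc, ?_⟩
        rw [mul_zero, vl5_zero, ← e]; ring
    · subst h4
      obtain ⟨c, hc, e⟩ := line0 (b := b) (l := l) (x2 := x1) (x3 := x2) hb
        (by linear_combination h1) (by linear_combination h2)
      refine ⟨c, hc, ?_⟩
      rw [mul_zero, vl5_zero, ← e]; ring
  · have hne : ∀ x : F, vl5 b x (l * x + m) = ff5 x (l * x + m) := by
      intro x
      refine if_neg ?_
      rintro ⟨rfl, h5⟩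
      apply hm
      rwa [mul_zero, zero_add] at h5
    refine ⟨m, hm, ?_⟩
    rw [hne, hne, hne]
    exact prod_line h1 h2 h3

theorem vl5_neg {b x y y' : F} (hb : b ≠ 0)
    (h : y ^ 2 + (1 - b) * x * y - b * y = x ^ 3 - b * x ^ 2)
    (hy : y' = -y - (1 - b) * x + b) : ∃ c : F, c ≠ 0 ∧ vl5 b x y * vl5 b x y' = c ^ 5 := by
  by_cases hx : x = 0
  · subst hx
    have h1 : y * (y - b) = 0 := by linear_combination h
    refine ⟨1, one_ne_zero, ?_⟩
    rcases mul_eq_zero.1 h1 with h2 | h2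
    · subst h2
      have : y' = b := by rw [hy]; ring
      rw [this, vl5_zero, vl5_of_ne' b hb, ff5]
      field_simp
      ring
    · have h3 : y = b := sub_eq_zero.1 h2
      have : y' = 0 := by rw [hy, h3]; ring
      rw [this, h3, vl5_zero, vl5_of_ne' b hb, ff5]
      field_simp
      ring
  · refine ⟨-x, neg_ne_zero.2 hx, ?_⟩
    rw [vl5_of_ne b hx, vl5_of_ne b hx, ff5_neg h hy]
    ring

theorem vl5_ne {b x y : F} (hb : b ≠ 0)
    (h : y ^ 2 + (1 - b) * x * y - b * y = x ^ 3 - b * x ^ 2) : vl5 b x y ≠ 0 := by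
  obtain ⟨c, hc, e⟩ := vl5_neg hb h rfl
  intro h0
  rw [h0, zero_mul] at e
  exact pow_ne_zero 5 hc e.symm

variable {b : F} (h : IsE5 W b)

include h

theorem dd_ne (Q : W.Point) : dd b Q ≠ 0 := by
  rcases Q with _ | ⟨x, y, hxy⟩
  · exact one_ne_zero
  · exact vl5_ne h.nb (h.nonsingular.1 hxy)

theorem dd_P : dd b (pP h) = b⁻¹ := vl5_zero b

theorem dd_neg (Q : W.Point) : ∃ c : F, c ≠ 0 ∧ dd b Q * dd b (-Q) = c ^ 5 := by
  rcases Q with _ | ⟨x, y, hxy⟩
  · refine ⟨1, one_ne_zero, ?_⟩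
    have e : -(Point.zero : W.Point) = 0 := neg_zero
    rw [e]
    show (1 : F) * 1 = _
    ring
  · obtain ⟨hn, en⟩ := h.neg_some hxy
    rw [en, dd_some, dd_some]
    exact vl5_neg h.nb (h.nonsingular.1 hxy) rfl

/-- conclusion from the three values -/
theorem conc {x1 y1 x2 y2 x3 y3 l m : F} (g3 : y3 ^ 2 + (1 - b) * x3 * y3 - b * y3 = x3 ^ 3 - b * x3 ^ 2)
    (q1 : y1 = l * x1 + m) (q2 : y2 = l * x2 + m)
    (e2 : y3 = -(l * x3 + m) - (1 - b) * x3 + b)
    (h1 : x1 + x2 + x3 = l ^ 2 + (1 - b) * l + b)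
    (h2 : x1 * x2 + x1 * x3 + x2 * x3 = -2 * l * m - (1 - b) * m + b * l)
    (h3 : x1 * x2 * x3 = m ^ 2 - b * m) :
    ∃ c : F, c ≠ 0 ∧ vl5 b x3 y3 = c ^ 5 * (vl5 b x1 y1 * vl5 b x2 y2) := by
  obtain ⟨c, hc, e⟩ := vl5_line h.nb h1 h2 h3
  obtain ⟨c', hc', e'⟩ := vl5_neg (y' := l * x3 + m) h.nb g3 (by rw [e2]; ring)
  refine ⟨c' / c, div_ne_zero hc' hc, ?_⟩
  have hz : vl5 b x3 (l * x3 + m) ≠ 0 := by
    intro h0
    rw [h0, mul_zero] at e'
    exact pow_ne_zero 5 hc' e'.symm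
  rw [← q1, ← q2] at e
  rw [div_pow, div_mul_eq_mul_div, eq_div_iff (pow_ne_zero 5 hc)]
  apply mul_right_cancel₀ hz
  linear_combination c ^ 5 * e' - c' ^ 5 * e

theorem dd_add (Q R : W.Point) : ∃ c : F, c ≠ 0 ∧ dd b (Q + R) = c ^ 5 * (dd b Q * dd b R) := by
  rcases Q with _ | ⟨x1, y1, hQ⟩
  · refine ⟨1, one_ne_zero, ?_⟩
    have e : (Point.zero : W.Point) + R = R := zero_add R
    rw [e]
    show dd b R = 1 ^ 5 * (1 * dd b R)
    ring
  rcases R with _ | ⟨x2, y2, hR⟩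
  · refine ⟨1, one_ne_zero, ?_⟩
    have e : Point.some x1 y1 hQ + (Point.zero : W.Point) = Point.some x1 y1 hQ := add_zero _
    rw [e]
    show dd b _ = 1 ^ 5 * (dd b _ * 1)
    ring
  have g1 := h.nonsingular.1 hQ
  have g2 := h.nonsingular.1 hR
  by_cases hx : x1 = x2
  · subst hx
    have hopp : Point.some x1 y1 hQ = -Point.some x1 y2 hR →
        ∃ c : F, c ≠ 0 ∧ dd b (Point.some x1 y1 hQ + Point.some x1 y2 hR) =
          c ^ 5 * (dd b (Point.some x1 y1 hQ) * dd b (Point.some x1 y2 hR)) := by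
      intro e
      obtain ⟨c, hc, ec⟩ := dd_neg h (Point.some x1 y2 hR)
      refine ⟨c⁻¹, inv_ne_zero hc, ?_⟩
      rw [e, neg_add_cancel, mul_comm (dd b _), ec, inv_pow,
        inv_mul_cancel₀ (pow_ne_zero 5 hc)]
      rfl
    rcases eq_or_neg h hQ hR with e | e
    · by_cases hn : 2 * y1 + (1 - b) * x1 - b = 0
      · apply hopp
        obtain ⟨hm, em⟩ := h.neg_some hR
        rw [em, Point.some.injEq]
        rw [Point.some.injEq] at e
        refine ⟨rfl, ?_⟩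
        rw [← e.2]
        linear_combination hn
      · rw [Point.some.injEq] at e
        have ey : y1 = y2 := e.2
        subst ey
        obtain ⟨l, hl⟩ : ∃ l, l = (3 * x1 ^ 2 - 2 * b * x1 - (1 - b) * y1) /
          (2 * y1 + (1 - b) * x1 - b) := ⟨_, rfl⟩
        have hm : 3 * x1 ^ 2 - 2 * b * x1 - (1 - b) * y1 = l * (2 * y1 + (1 - b) * x1 - b) := by
          rw [hl, div_mul_cancel₀ _ hn]
        obtain ⟨x3, hx3⟩ : ∃ x3, x3 = l ^ 2 + (1 - b) * l + b - x1 - x1 := ⟨_, rfl⟩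
        obtain ⟨y3, hy3⟩ : ∃ y3, y3 = -(l * (x3 - x1) + y1) - (1 - b) * x3 + b := ⟨_, rfl⟩
        have e1 : x1 + x1 + x3 = l ^ 2 + (1 - b) * l + b := by rw [hx3]; ring
        obtain ⟨h3, e3⟩ := h.dbl_line hQ hn hm e1 hy3
        obtain ⟨m, hmm⟩ : ∃ m, m = y1 - l * x1 := ⟨_, rfl⟩
        have hym : y1 = l * x1 + m := by rw [hmm]; ring
        have c1 := cub g1 hym
        have d1 : 3 * x1 ^ 2 - 2 * (l ^ 2 + (1 - b) * l + b) * x1 +
            (-2 * l * m - (1 - b) * m + b * l) = 0 := by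
          rw [hym] at hm
          linear_combination hm
        obtain ⟨v2, v3⟩ := viete_dbl e1 c1 d1
        rw [e3, dd_some, dd_some]
        exact conc h (h.nonsingular.1 h3) hym hym (by rw [hy3, hmm]; ring) e1 v2 v3
    · exact hopp e
  · obtain ⟨l, hl⟩ : ∃ l, l = (y1 - y2) / (x1 - x2) := ⟨_, rfl⟩
    have hm : y1 - y2 = l * (x1 - x2) := by
      rw [hl, div_mul_cancel₀ _ (sub_ne_zero.2 hx)]
    obtain ⟨x3, hx3⟩ : ∃ x3, x3 = l ^ 2 + (1 - b) * l + b - x1 - x2 := ⟨_, rfl⟩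
    obtain ⟨y3, hy3⟩ : ∃ y3, y3 = -(l * (x3 - x1) + y1) - (1 - b) * x3 + b := ⟨_, rfl⟩
    have e1 : x1 + x2 + x3 = l ^ 2 + (1 - b) * l + b := by rw [hx3]; ring
    obtain ⟨h3, e3⟩ := h.add_line hQ hR hx hm e1 hy3
    obtain ⟨m, hmm⟩ : ∃ m, m = y1 - l * x1 := ⟨_, rfl⟩
    have hym : y1 = l * x1 + m := by rw [hmm]; ring
    have hym2 : y2 = l * x2 + m := by rw [hmm]; linear_combination -hm
    obtain ⟨v2, v3⟩ := viete_ne hx e1 (cub g1 hym) (cub g2 hym2)
    rw [e3, dd_some, dd_some, dd_some]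
    exact conc h (h.nonsingular.1 h3) hym hym2 (by rw [hy3, hmm]; ring) e1 v2 v3

theorem dd_nsmul (n : ℕ) (Q : W.Point) : ∃ c : F, c ≠ 0 ∧ dd b (n • Q) = c ^ 5 * dd b Q ^ n := by
  induction n with
  | zero =>
    refine ⟨1, one_ne_zero, ?_⟩
    rw [zero_smul, pow_zero, one_pow, one_mul]
    rfl
  | succ n ih =>
    obtain ⟨c, hc, e⟩ := ih
    obtain ⟨c', hc', e'⟩ := dd_add h (n • Q) Q
    refine ⟨c' * c, mul_ne_zero hc' hc, ?_⟩
    rw [succ_nsmul, e', e]
    ring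

theorem dd_sum {ι : Type*} (s : Finset ι) (l : ι → ℕ) (Q : ι → W.Point) :
    ∃ c : F, c ≠ 0 ∧ dd b (∑ i ∈ s, l i • Q i) = c ^ 5 * ∏ i ∈ s, dd b (Q i) ^ l i := by
  induction s using Finset.induction_on with
  | empty =>
    refine ⟨1, one_ne_zero, ?_⟩
    rw [Finset.sum_empty, Finset.prod_empty, one_pow, one_mul]
    rfl
  | insert a s ha ih =>
    obtain ⟨c, hc, e⟩ := ih
    obtain ⟨c1, hc1, e1⟩ := dd_nsmul h (l a) (Q a)
    obtain ⟨c', hc', e'⟩ := dd_add h (l a • Q a) (∑ i ∈ s, l i • Q i)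
    refine ⟨c' * c1 * c, mul_ne_zero (mul_ne_zero hc' hc1) hc, ?_⟩
    rw [Finset.sum_insert ha, Finset.prod_insert ha, e', e, e1]
    ring

omit h in
theorem dd_act {K Ω Ω' : Type} [Field K] [Field Ω] [Field Ω'] [Algebra K Ω] [Algebra K Ω'] {b : K}
    (φ : Ω →ₐ[K] Ω') (Q : Pt (crv5 b) Ω) :
    dd (algebraMap K Ω' b) (act (crv5 b) φ Q) = φ (dd (algebraMap K Ω b) Q) := by
  rcases Q with _ | ⟨x, y, hxy⟩
  · rw [act_zero]
    show (1 : Ω') = φ 1
    rw [map_one]
  · obtain ⟨h1, hh⟩ := act_some (crv5 b) φ hxy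
    rw [hh, dd_some]
    show vl5 _ _ _ = φ (vl5 _ _ _)
    unfold vl5
    have hx : ∀ a : Ω, φ a = 0 ↔ a = 0 := fun a => map_eq_zero_iff φ φ.toRingHom.injective
    simp only [hx]
    split_ifs with h2
    · rw [map_inv₀, AlgHom.commutes]
    · simp only [ff5, map_sub, map_add, map_mul, map_pow]

end dd

end Pool.Agent.Helper23K9.T5
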