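import Mathlib

/-!
Multiplication by five on abscissas, over separably closed fields.
-/

set_option autoImplicit false
set_option linter.all false

open Polynomial
open scoped Classical

namespace Pool.Agent.Helper23K9.T5

/-- The square of the second division polynomial. -/
def z2 {F : Type*} [Field F] (b x : F) : F :=
  4 * x ^ 3 + (b ^ 2 - 6 * b + 1) * x ^ 2 + 2 * (b ^ 2 - b) * x + b ^ 2

/-- The numerator of the abscissa of the double. -/
def x2 {F : Type*} [Field F] (b x : F) : F :=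
  x ^ 4 - (b ^ 2 - b) * x ^ 2 - 2 * b ^ 2 * x + b ^ 3

/-- The third division polynomial. -/
def p3 {F : Type*} [Field F] (b x : F) : F :=
  3 * x ^ 4 + (b ^ 2 - 6 * b + 1) * x ^ 3 + 3 * (b ^ 2 - b) * x ^ 2 + 3 * b ^ 2 * x - b ^ 3

/-- The fourth division polynomial, divided by the second one. -/
def p4 {F : Type*} [Field F] (b x : F) : F :=
  2 * x ^ 6 + (b ^ 2 - 6 * b + 1) * x ^ 5 + 5 * (b ^ 2 - b) * x ^ 4 + 10 * b ^ 2 * x ^ 3 +
    10 * (-b ^ 3) * x ^ 2 + ((b ^ 2 - 6 * b + 1) * (-b ^ 3) - (b ^ 2 - b) * b ^ 2) * x +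
    ((b ^ 2 - b) * (-b ^ 3) - (b ^ 2) ^ 2)

/-- The numerator of the abscissa of the triple. -/
def x3 {F : Type*} [Field F] (b x : F) : F := x * (p3 b x) ^ 2 - z2 b x * p4 b x

/-- The fifth division polynomial, up to the sign. -/
def f5 {F : Type*} [Field F] (b x : F) : F := x3 b x * z2 b x - x2 b x * (p3 b x) ^ 2

/-- The numerator of `x(5 Y) + x(Y)`. -/
def F5 {F : Type*} [Field F] (b x : F) : F :=
  2 * (x3 b x) ^ 2 * x2 b x * z2 b x + 2 * x3 b x * (p3 b x) ^ 2 * (x2 b x) ^ 2 +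
    (b ^ 2 - 6 * b + 1) * x3 b x * (p3 b x) ^ 2 * x2 b x * z2 b x +
    (b ^ 2 - b) * (x3 b x * (p3 b x) ^ 2 * (z2 b x) ^ 2 + x2 b x * z2 b x * (p3 b x) ^ 4) +
    b ^ 2 * (p3 b x) ^ 4 * (z2 b x) ^ 2

theorem root_of_der {F : Type*} [Field F] [IsSepClosed F] {f : F[X]} (hf : derivative f ≠ 0) :
    ∃ x, f.IsRoot x := by
  by_contra hcon
  push Not at hcon
  apply hf
  clear hf
  revert hcon
  refine UniqueFactorizationMonoid.induction_on_prime
    (P := fun f : F[X] => (∀ x, ¬ f.IsRoot x) → derivative f = 0) f ?_ ?_ ?_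
  · intro _
    exact derivative_zero
  · intro u hu _
    obtain ⟨c, -, rfl⟩ := Polynomial.isUnit_iff.1 hu
    exact derivative_C
  · intro a p ha hp ih hr
    have h1 : derivative a = 0 := ih fun x hx => hr x (by
      rw [IsRoot.def, eval_mul, hx.eq_zero, mul_zero])
    have h2 : derivative p = 0 := by
      by_contra h3
      have hirr := hp.irreducible
      have hsep : p.Separable := (separable_iff_derivative_ne_zero hirr).2 h3
      obtain ⟨x, hx⟩ := IsSepClosed.exists_root p (Polynomial.degree_pos_of_irreducible hirr).ne'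
        hsep
      exact hr x (by rw [IsRoot.def, eval_mul, hx.eq_zero, zero_mul])
    rw [derivative_mul, h1, h2, zero_mul, mul_zero, add_zero]

/-- `p` has degree at most `n`, and the coefficient of `X ^ n` is `c`. -/
def Top {F : Type*} [Field F] (p : F[X]) (n : ℕ) (c : F) : Prop := p.natDegree ≤ n ∧ p.coeff n = c

section top

variable {F : Type*} [Field F] {p q : F[X]} {m n : ℕ} {c d : F}

theorem Top.mul (hp : Top p m c) (hq : Top q n d) : Top (p * q) (m + n) (c * d) :=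
  ⟨natDegree_mul_le_of_le hp.1 hq.1, by
    rw [coeff_mul_add_eq_of_natDegree_le hp.1 hq.1, hp.2, hq.2]⟩

theorem Top.pow (hp : Top p m c) (k : ℕ) : Top (p ^ k) (k * m) (c ^ k) :=
  ⟨natDegree_pow_le_of_le k hp.1, by rw [coeff_pow_of_natDegree_le hp.1, hp.2]⟩

theorem Top.add (hp : Top p n c) (hq : Top q n d) : Top (p + q) n (c + d) :=
  ⟨natDegree_add_le_of_degree_le hp.1 hq.1, by rw [coeff_add, hp.2, hq.2]⟩

theorem Top.sub (hp : Top p n c) (hq : Top q n d) : Top (p - q) n (c - d) :=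
  ⟨by simpa using natDegree_sub_le_of_le hp.1 hq.1, by rw [coeff_sub, hp.2, hq.2]⟩

theorem Top.smul (a : F) (hp : Top p n c) : Top (C a * p) n (a * c) :=
  ⟨(natDegree_C_mul_le _ _).trans hp.1, by rw [coeff_C_mul, hp.2]⟩

theorem Top.lt (hp : Top p m c) (h : m < n) : Top p n 0 :=
  ⟨hp.1.trans h.le, coeff_eq_zero_of_natDegree_lt (hp.1.trans_lt h)⟩

theorem Top.C (a : F) : Top (Polynomial.C a) 0 a := ⟨by rw [natDegree_C], coeff_C_zero⟩

theorem Top.X : Top (Polynomial.X : F[X]) 1 1 := ⟨natDegree_X_le, coeff_X_one⟩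

theorem Top.cast (hp : Top p m c) (h : m = n) (h' : c = d) : Top p n d := by
  subst h; subst h'; exact hp

theorem Top.Xpow (k : ℕ) : Top (Polynomial.X ^ k : F[X]) k 1 :=
  ⟨natDegree_X_pow_le k, by rw [coeff_X_pow_self]⟩

end top

theorem exists_abs {F : Type*} [Field F] [IsSepClosed F] (h5 : (5 : F) ≠ 0) (b x0 : F) :
    ∃ x : F, F5 b x = (x + x0) * f5 b x ^ 2 := by
  obtain ⟨pz, hpz⟩ : ∃ p : F[X], p = C 4 * X ^ 3 + C (b ^ 2 - 6 * b + 1) * X ^ 2 +
    C (2 * (b ^ 2 - b)) * X + C (b ^ 2) := ⟨_, rfl⟩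
  obtain ⟨px, hpx⟩ : ∃ p : F[X], p = X ^ 4 - C (b ^ 2 - b) * X ^ 2 - C (2 * b ^ 2) * X +
    C (b ^ 3) := ⟨_, rfl⟩
  obtain ⟨pp, hpp⟩ : ∃ p : F[X], p = C 3 * X ^ 4 + C (b ^ 2 - 6 * b + 1) * X ^ 3 +
    C (3 * (b ^ 2 - b)) * X ^ 2 + C (3 * b ^ 2) * X - C (b ^ 3) := ⟨_, rfl⟩
  obtain ⟨pq, hpq⟩ : ∃ p : F[X], p = C 2 * X ^ 6 + C (b ^ 2 - 6 * b + 1) * X ^ 5 +
    C (5 * (b ^ 2 - b)) * X ^ 4 + C (10 * b ^ 2) * X ^ 3 +
    C (10 * (-b ^ 3)) * X ^ 2 + C ((b ^ 2 - 6 * b + 1) * (-b ^ 3) - (b ^ 2 - b) * b ^ 2) * X +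
    C ((b ^ 2 - b) * (-b ^ 3) - (b ^ 2) ^ 2) := ⟨_, rfl⟩
  have tz : Top pz 3 4 := by
    rw [hpz]
    refine ((((Top.smul 4 (Top.Xpow 3)).add ((Top.smul _ (Top.Xpow 2)).lt (by norm_num))).add
      ((Top.smul _ Top.X).lt (by norm_num))).add ((Top.C _).lt (by norm_num))).cast rfl ?_
    ring
  have tx : Top px 4 1 := by
    rw [hpx]
    refine ((((Top.Xpow 4).sub ((Top.smul _ (Top.Xpow 2)).lt (by norm_num))).sub
      ((Top.smul _ Top.X).lt (by norm_num))).add ((Top.C _).lt (by norm_num))).cast rfl ?_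
    ring
  have tp : Top pp 4 3 := by
    rw [hpp]
    refine (((((Top.smul 3 (Top.Xpow 4)).add ((Top.smul _ (Top.Xpow 3)).lt (by norm_num))).add
      ((Top.smul _ (Top.Xpow 2)).lt (by norm_num))).add
      ((Top.smul _ Top.X).lt (by norm_num))).sub ((Top.C _).lt (by norm_num))).cast rfl ?_
    ring
  have tq : Top pq 6 2 := by
    rw [hpq]
    refine (((((((Top.smul 2 (Top.Xpow 6)).add ((Top.smul _ (Top.Xpow 5)).lt (by norm_num))).add
      ((Top.smul _ (Top.Xpow 4)).lt (by norm_num))).add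
      ((Top.smul _ (Top.Xpow 3)).lt (by norm_num))).add
      ((Top.smul _ (Top.Xpow 2)).lt (by norm_num))).add
      ((Top.smul _ Top.X).lt (by norm_num))).add ((Top.C _).lt (by norm_num))).cast rfl ?_
    ring
  obtain ⟨p3', hp3'⟩ : ∃ p : F[X], p = X * pp ^ 2 - pz * pq := ⟨_, rfl⟩
  have t3 : Top p3' 9 1 := by
    rw [hp3']
    refine ((((Top.X).mul (tp.pow 2)).cast (n := 9) (d := 9) (by norm_num) (by norm_num)).sub
      ((tz.mul tq).cast (n := 9) (d := 8) (by norm_num) (by norm_num))).cast rfl (by norm_num)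
  obtain ⟨pf, hpf⟩ : ∃ p : F[X], p = p3' * pz - px * pp ^ 2 := ⟨_, rfl⟩
  have tf : Top pf 12 (-5) := by
    rw [hpf]
    refine (((t3.mul tz).cast (n := 12) (d := 4) (by norm_num) (by norm_num)).sub
      ((tx.mul (tp.pow 2)).cast (n := 12) (d := 9) (by norm_num) (by norm_num))).cast rfl
      (by norm_num)
  obtain ⟨pF, hpF⟩ : ∃ p : F[X], p = C 2 * (p3' ^ 2 * px * pz) + C 2 * (p3' * pp ^ 2 * px ^ 2) +
    C (b ^ 2 - 6 * b + 1) * (p3' * pp ^ 2 * px * pz) +
    C (b ^ 2 - b) * (p3' * pp ^ 2 * pz ^ 2 + px * pz * pp ^ 4) +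
    C (b ^ 2) * (pp ^ 4 * pz ^ 2) := ⟨_, rfl⟩
  have tF : Top pF 25 26 := by
    rw [hpF]
    have a1 : Top (C 2 * (p3' ^ 2 * px * pz)) 25 8 :=
      (Top.smul 2 (((t3.pow 2).mul tx).mul tz)).cast (by norm_num) (by norm_num)
    have a2 : Top (C 2 * (p3' * pp ^ 2 * px ^ 2)) 25 18 :=
      (Top.smul 2 ((t3.mul (tp.pow 2)).mul (tx.pow 2))).cast (by norm_num) (by norm_num)
    have a3 : Top (C (b ^ 2 - 6 * b + 1) * (p3' * pp ^ 2 * px * pz)) 25 0 :=
      (Top.smul _ (((t3.mul (tp.pow 2)).mul tx).mul tz)).lt (by norm_num)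
    have a4 : Top (C (b ^ 2 - b) * (p3' * pp ^ 2 * pz ^ 2 + px * pz * pp ^ 4)) 25 0 :=
      (Top.smul _ ((((t3.mul (tp.pow 2)).mul (tz.pow 2)).cast (n := 23) (by norm_num) rfl).add
        (((tx.mul tz).mul (tp.pow 4)).cast (n := 23) (by norm_num) rfl))).lt (by norm_num)
    have a5 : Top (C (b ^ 2) * (pp ^ 4 * pz ^ 2)) 25 0 :=
      (Top.smul _ ((tp.pow 4).mul (tz.pow 2))).lt (by norm_num)
    exact ((((a1.add a2).add a3).add a4).add a5).cast rfl (by norm_num)
  have tall : Top (pF - (X + C x0) * pf ^ 2) 25 1 := by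
    have b1 : Top (X + C x0 : F[X]) 1 1 :=
      ((Top.X).add ((Top.C x0).lt (by norm_num))).cast rfl (by norm_num)
    exact (tF.sub ((b1.mul (tf.pow 2)).cast (n := 25) (d := 25) (by norm_num) (by norm_num))).cast
      rfl (by norm_num)
  have hder : derivative (pF - (X + C x0) * pf ^ 2) ≠ 0 := by
    intro h0
    have h1 := congrArg (fun p => coeff p 24) h0
    simp only [coeff_derivative, coeff_zero] at h1
    rw [show (24 : ℕ) + 1 = 25 from rfl, tall.2] at h1
    apply h5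
    have h2 : (5 : F) * 5 = 0 := by
      rw [← h1]; norm_num
    exact mul_self_eq_zero.1 h2
  obtain ⟨x, hx⟩ := root_of_der hder
  refine ⟨x, ?_⟩
  have ez : pz.eval x = z2 b x := by
    rw [hpz]; simp only [eval_add, eval_mul, eval_pow, eval_X, eval_C, z2]
  have ex : px.eval x = x2 b x := by
    rw [hpx]; simp only [eval_add, eval_sub, eval_mul, eval_pow, eval_X, eval_C, x2]
  have ep' : pp.eval x = p3 b x := by
    rw [hpp]; simp only [eval_add, eval_sub, eval_mul, eval_pow, eval_X, eval_C, p3]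
  have eq : pq.eval x = p4 b x := by
    rw [hpq]; simp only [eval_add, eval_mul, eval_pow, eval_X, eval_C, p4]
  have e3 : p3'.eval x = x3 b x := by
    rw [hp3']; simp only [eval_sub, eval_mul, eval_pow, eval_X, ez, ep', eq, x3]
  have ef : pf.eval x = f5 b x := by
    rw [hpf]; simp only [eval_sub, eval_mul, eval_pow, ez, ex, ep', e3, f5]
  have eF : pF.eval x = F5 b x := by
    rw [hpF]; simp only [eval_add, eval_mul, eval_pow, eval_C, ez, ex, ep', e3, F5]
    ring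
  have h2 := hx.eq_zero
  rw [eval_sub, eval_mul, eval_add, eval_X, eval_C, eval_pow, ef, eF] at h2
  exact sub_eq_zero.1 h2

theorem exists_quad {F : Type*} [Field F] [IsSepClosed F] (c d : F) (h : (2 : F) ≠ 0 ∨ c ≠ 0) :
    ∃ y, y ^ 2 + c * y = d := by
  have hder : derivative (X ^ 2 + C c * X - C d : F[X]) ≠ 0 := by
    have e : derivative (X ^ 2 + C c * X - C d : F[X]) = C 2 * X + C c := by
      simp [derivative_pow]
    rw [e]
    intro h0
    rcases h with h | h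
    · apply h
      have := congrArg (fun p => coeff p 1) h0
      simpa using this
    · apply h
      have := congrArg (fun p => coeff p 0) h0
      simpa using this
  obtain ⟨y, hy⟩ := root_of_der hder
  refine ⟨y, ?_⟩
  have := hy.eq_zero
  simp only [eval_sub, eval_add, eval_pow, eval_X, eval_mul, eval_C] at this
  exact sub_eq_zero.1 this

end Pool.Agent.Helper23K9.T5
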