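import Pool.Agent.Helper23K9.T5.Np
import Pool.Agent.Helper23K9.T5.Dd

/-!
# [EE] The character attached to a fifth part of a point
-/

set_option autoImplicit false
set_option linter.all false

open Polynomial IsDedekindDomain WeierstrassCurve WeierstrassCurve.Affine
open scoped Classical

namespace Pool.Agent.Helper23K9.T5

open Pool.Agent.TH115.GD (Pt act incl rs act_inj act_act fixed_point act_zero act_some)

section ee

variable {K F Ω : Type} [Field K] [Field F] [Field Ω] [Algebra K F] [Algebra F Ω] [Algebra K Ω]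
  [IsScalarTower K F Ω] [IsGalois F Ω] {b z : K} (h5 : (5 : K) ≠ 0) (hb : b ≠ 0)
  (hd : b ^ 2 - 11 * b - 1 ≠ 0)

/-- The coordinates of a point. -/
def crd {W : Affine Ω} : W.Point → Set Ω
  | .zero => ∅
  | .some x y _ => {x, y}

/-- A point is fixed if and only if its coordinates are. -/
theorem act_eq_iff (R : Pt (crv5 b) Ω) (φ : Ω →ₐ[K] Ω) :
    act (crv5 b) φ R = R ↔ ∀ x ∈ crd R, φ x = x := by
  rcases R with _ | ⟨x, y, hxy⟩
  · constructor
    · intro _ x hx
      exact absurd hx (Set.notMem_empty x)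
    · intro _
      rfl
  · obtain ⟨h1, hh⟩ := act_some (crv5 b) φ hxy
    rw [hh, Point.some.injEq]
    constructor
    · rintro ⟨e1, e2⟩ u hu
      rcases hu with hu | hu
      · rw [hu, e1]
      · rw [Set.mem_singleton_iff] at hu
        rw [hu, e2]
    · intro h2
      exact ⟨h2 x (Set.mem_insert _ _), h2 y (Set.mem_insert_of_mem _ rfl)⟩

include h5 hb hd in
/-- The value at a point which is divisible by five over `L` is a fifth power in `L`. -/
theorem dd_div {L : Type} [Field L] [Algebra K L] [Algebra F L] [Algebra L Ω]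
    [IsScalarTower K L Ω] [IsScalarTower K F L] [IsScalarTower F L Ω] [IsGalois L Ω]
    {R : Pt (crv5 b) Ω} {Q : Pt (crv5 b) F} (hR : 5 • R = act (crv5 b) (incl K F Ω) Q)
    (hfix : ∀ τ : Ω ≃ₐ[L] Ω, act (crv5 b) (rs K τ) R = R) :
    ∃ c : L, c ≠ 0 ∧ algebraMap F L (dd (algebraMap K F b) Q) = c ^ 5 := by
  obtain ⟨R0, hR0⟩ := fixed_point (K := K) (F := L) (crv5 b) R hfix
  have hE := isE5 b L h5 hb hd
  have h1 : 5 • R0 = act (crv5 b) (incl K F L) Q := by
    apply act_inj (W := crv5 b) (incl K L Ω)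
    have e : (incl K L Ω).comp (incl K F L) = incl K F Ω := by
      refine AlgHom.ext fun x => ?_
      show algebraMap L Ω (algebraMap F L x) = algebraMap F Ω x
      rw [← IsScalarTower.algebraMap_apply]
    rw [map_nsmul, hR0, hR, act_act, e]
  obtain ⟨c, hc, e⟩ := dd_nsmul hE 5 R0
  have h2 : dd (algebraMap K L b) (act (crv5 b) (incl K F L) Q) =
      algebraMap F L (dd (algebraMap K F b) Q) := dd_act (incl K F L) Q
  refine ⟨c * dd (algebraMap K L b) R0, mul_ne_zero hc (dd_ne hE R0), ?_⟩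
  rw [← h2, ← h1, e]
  ring

include h5 hb hd in
/-- The character attached to a fifth part of a point. -/
theorem exists_e (hz : IsZ z) {R : Pt (crv5 b) Ω} {Q : Pt (crv5 b) F}
    (hR : 5 • R = act (crv5 b) (incl K F Ω) Q) : ∃ (e : (Ω ≃ₐ[F] Ω) → ZMod 5) (c : Ω),
      KD (algebraMap K Ω z) e c (dd (algebraMap K F b) Q) ∧
      (∀ σ τ, e (σ * τ) = e σ + e τ) ∧
      ∀ σ : Ω ≃ₐ[F] Ω, act (crv5 b) (rs K σ) R = R → e σ = 0 := by
  haveI : Fact (Nat.Prime 5) := ⟨by norm_num⟩
  set ζ : Ω := algebraMap K Ω z with hζdef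
  have hζ : IsZ ζ := hz.map (algebraMap K Ω)
  have h5Ω : (5 : Ω) ≠ 0 := (isE5 b Ω h5 hb hd).five
  have hσζ : ∀ σ : Ω ≃ₐ[F] Ω, σ ζ = ζ := by
    intro σ
    rw [hζdef, IsScalarTower.algebraMap_apply K F Ω, σ.commutes]
  have hσZ : ∀ (σ : Ω ≃ₐ[F] Ω) (k : ZMod 5), σ (Zp ζ k) = Zp ζ k := by
    intro σ k
    unfold Zp
    rw [map_pow, hσζ]
  set L : IntermediateField F Ω := IntermediateField.adjoin F (crd R) with hL
  haveI htower : IsScalarTower K L Ω := IsScalarTower.of_algebraMap_eq fun x => rfl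
  haveI htower2 : IsScalarTower K F L := IsScalarTower.of_algebraMap_eq fun x => by
    apply Subtype.ext
    show algebraMap K Ω x = algebraMap F Ω (algebraMap K F x)
    rw [← IsScalarTower.algebraMap_apply]
  have hsub : ∀ x ∈ crd R, x ∈ L := fun x hx => IntermediateField.subset_adjoin F _ hx
  have hfixL : ∀ σ : Ω ≃ₐ[F] Ω, (∀ x ∈ crd R, σ x = x) → ∀ x ∈ L, σ x = x := by
    intro σ hs x hx
    refine IntermediateField.adjoin_induction F (p := fun x _ => σ x = x) ?_ ?_ ?_ ?_ ?_ hx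
    · exact hs
    · intro x
      rw [σ.commutes]
    · intro x y _ _ h1 h2
      rw [map_add, h1, h2]
    · intro x _ h1
      rw [map_inv₀, h1]
    · intro x y _ _ h1 h2
      rw [map_mul, h1, h2]
  obtain ⟨c, hc, ec⟩ : ∃ c : L, c ≠ 0 ∧ algebraMap F L (dd (algebraMap K F b) Q) = c ^ 5 := by
    refine dd_div h5 hb hd hR fun τ => ?_
    rw [act_eq_iff]
    intro x hx
    exact τ.commutes ⟨x, hsub x hx⟩
  have hcΩ : (c : Ω) ^ 5 = algebraMap F Ω (dd (algebraMap K F b) Q) := by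
    have h1 := congrArg (algebraMap L Ω) ec
    rw [← IsScalarTower.algebraMap_apply, map_pow] at h1
    exact h1.symm
  have hc0 : (c : Ω) ≠ 0 := fun h => hc (Subtype.ext h)
  have hσc : ∀ σ : Ω ≃ₐ[F] Ω, ∃ e : ZMod 5, σ (c : Ω) = Zp ζ e * c := by
    intro σ
    refine exists_Zp hζ hc0 ?_
    rw [← map_pow, hcΩ, σ.commutes]
  choose e he using hσc
  have huniq : ∀ i j : ZMod 5, Zp ζ i * (c : Ω) = Zp ζ j * c → i = j := by
    intro i j hij
    have h1 : Zp ζ i = Zp ζ j := mul_right_cancel₀ hc0 hij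
    have h2 : Zp ζ (i - j) * Zp ζ j = Zp ζ j := by
      rw [← Zp_add hζ, sub_add_cancel, h1]
    have h3 : Zp ζ j ≠ 0 := by
      intro h0
      have := Zp_pow5 hζ j
      rw [h0, zero_pow (by norm_num)] at this
      exact zero_ne_one this
    have h4 : Zp ζ (i - j) = 1 := mul_right_cancel₀ h3 (by rw [h2, one_mul])
    exact sub_eq_zero.1 (Zp_eq_one hζ h5Ω h4)
  refine ⟨e, c, ⟨hc0, hcΩ, he⟩, ?_, ?_⟩
  · intro σ τ
    apply huniq
    rw [← he (σ * τ), AlgEquiv.mul_apply, he τ, map_mul, hσZ, he σ, Zp_add hζ]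
    ring
  · intro σ hσ
    have h1 : σ (c : Ω) = c := by
      refine hfixL σ ?_ c c.2
      exact (act_eq_iff R (rs K σ)).1 hσ
    apply huniq
    rw [← he σ, h1, Zp_zero, one_mul]

end ee

end Pool.Agent.Helper23K9.T5
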