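import Mathlib

/-!
Eisenstein's criterion for discrete valuations.
-/

set_option autoImplicit false
set_option linter.all false

open Polynomial

namespace Pool.Agent.Helper23K9.T5

/-- Eisenstein's criterion for a discrete valuation. -/
theorem eis_val {L : Type} [Field L] (v : Valuation L (WithZero (Multiplicative ℤ))) {f : L[X]}
    (hm : f.Monic) (hd : 0 < f.natDegree) (h1 : ∀ i < f.natDegree, v (f.coeff i) < 1)
    (h0 : v (f.coeff 0) = WithZero.exp (-1)) : Irreducible f := by
  set R := v.valuationSubring with hR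
  have hmemR : ∀ x : L, x ∈ R ↔ v x ≤ 1 := fun x => Iff.rfl
  have hlift : f ∈ lifts (algebraMap R L) := by
    rw [lifts_iff_coeff_lifts]
    intro i
    have h2 : v (f.coeff i) ≤ 1 := by
      rcases lt_trichotomy i f.natDegree with h | h | h
      · exact (h1 i h).le
      · rw [h, hm.coeff_natDegree, map_one]
      · rw [coeff_eq_zero_of_natDegree_lt h, map_zero]
        exact zero_le_one
    exact ⟨⟨f.coeff i, (hmemR _).2 h2⟩, rfl⟩
  obtain ⟨g, hg, hgd, hgm⟩ := lifts_and_natDegree_eq_and_monic hlift hm
  have hco : ∀ i, ((g.coeff i : R) : L) = f.coeff i := by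
    intro i
    rw [← hg, coeff_map]
    rfl
  have hP : ∀ x : R, x ∈ IsLocalRing.maximalIdeal R → v (x : L) < 1 := by
    intro x hx
    by_contra hcon
    have h2 : v (x : L) = 1 := le_antisymm ((hmemR _).1 x.2) (not_lt.1 hcon)
    have hx0 : (x : L) ≠ 0 := by
      intro h
      rw [h, map_zero] at h2
      exact zero_ne_one h2
    apply (IsLocalRing.mem_maximalIdeal x).1 hx
    refine IsUnit.of_mul_eq_one ⟨(x : L)⁻¹, (hmemR _).2 (by rw [map_inv₀, h2, inv_one])⟩ ?_
    exact Subtype.ext (mul_inv_cancel₀ hx0)
  have hP' : ∀ x : R, v (x : L) < 1 → x ∈ IsLocalRing.maximalIdeal R := by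
    intro x hx
    rw [IsLocalRing.mem_maximalIdeal]
    intro hu
    obtain ⟨y, hy⟩ := hu.exists_right_inv
    have h2 : v ((x : L) * (y : L)) = 1 := by
      have : (x : L) * (y : L) = 1 := by exact_mod_cast congrArg (Subtype.val) hy
      rw [this, map_one]
    rw [map_mul] at h2
    have h3 : v (x : L) * v (y : L) < 1 := by
      calc v (x : L) * v (y : L) ≤ v (x : L) * 1 := by gcongr; exact (hmemR _).1 y.2
        _ < 1 := by rwa [mul_one]
    exact absurd h2 h3.ne
  have hlt : ∀ a : WithZero (Multiplicative ℤ), a < 1 → a ≤ WithZero.exp (-1) := by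
    intro a ha
    induction a using WithZero.expRecOn with
    | zero => exact zero_le'
    | exp n =>
      rw [← WithZero.exp_zero, WithZero.exp_lt_exp] at ha
      rw [WithZero.exp_le_exp]
      omega
  have hP2 : ∀ x : R, x ∈ IsLocalRing.maximalIdeal R ^ 2 → v (x : L) ≤ WithZero.exp (-2) := by
    intro x hx
    rw [pow_two] at hx
    refine Submodule.mul_induction_on hx ?_ ?_
    · intro a ha b hb
      have h2 := hlt _ (hP a ha)
      have h3 := hlt _ (hP b hb)
      have h4 : ((a * b : R) : L) = (a : L) * (b : L) := rfl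
      rw [h4, map_mul]
      calc v (a : L) * v (b : L) ≤ WithZero.exp (-1) * WithZero.exp (-1) := mul_le_mul' h2 h3
        _ = WithZero.exp (-2) := by rw [← WithZero.exp_add]; norm_num
    · intro a b ha hb
      have h4 : ((a + b : R) : L) = (a : L) + (b : L) := rfl
      rw [h4]
      exact (v.map_add _ _).trans (max_le ha hb)
  have hgi : Irreducible g := by
    refine irreducible_of_eisenstein_criterion (P := IsLocalRing.maximalIdeal R)
      inferInstance ?_ ?_ ?_ ?_ hgm.isPrimitive
    · rw [hgm.leadingCoeff]
      exact fun h => (IsLocalRing.mem_maximalIdeal _).1 h isUnit_one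
    · intro i hi
      apply hP'
      rw [hco]
      apply h1
      rw [← hgd]
      exact_mod_cast lt_of_lt_of_le hi degree_le_natDegree
    · rw [degree_eq_natDegree hgm.ne_zero, hgd]
      exact_mod_cast hd
    · intro h
      have h2 := hP2 _ h
      rw [hco, h0, WithZero.exp_le_exp] at h2
      norm_num at h2
  have h2 := (Monic.irreducible_iff_irreducible_map_fraction_map (K := L) hgm).1 hgi
  rwa [hg] at h2

end Pool.Agent.Helper23K9.T5
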