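import Mathlib
import Pool.Agent.Helper23K9.T5.Tr

/-!
Existence of generic pairs `(β, γ)` for the curves with a section of order five.
-/

set_option autoImplicit false
set_option linter.all false

open Polynomial IsDedekindDomain WeierstrassCurve WeierstrassCurve.Affine
open scoped Classical

namespace Pool.Agent.Helper23K9.T5

/-- `p` is a constant multiple of a power with an exponent prime to five of an irreducible separable
polynomial of a degree prime to five. -/
def PP5 {k : Type*} [Field k] (p : k[X]) : Prop :=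
  ∃ (c : k) (π : k[X]) (m : ℕ), c ≠ 0 ∧ Irreducible π ∧ π.Separable ∧ ¬ 5 ∣ π.natDegree ∧
    ¬ 5 ∣ m ∧ p = C c * π ^ m

/-- The conditions on `β / γ`. -/
structure Gen5 {k : Type*} [Field k] (z : k) (β γ : k[X]) : Prop where
  cop : IsCoprime β γ
  b1 : PP5 β
  b2 : PP5 γ
  b3 : PP5 (β - C (ep z) * γ)
  b4 : PP5 (β - C (ep' z) * γ)
  d2 : γ.natDegree = β.natDegree
  d3 : (β - C (ep z) * γ).natDegree = β.natDegree
  d4 : (β - C (ep' z) * γ).natDegree = β.natDegree

lemma eis_irred (κ : Type) [Field κ] (n : ℕ) (hn : 0 < n) (t : κ) :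
    Irreducible ((X : (FractionRing κ[X])[X]) ^ n -
      C (algebraMap κ[X] (FractionRing κ[X]) (X - C t))) := by
  have hX : Prime (X - C t : κ[X]) := prime_X_sub_C t
  set f : κ[X][X] := X ^ n - C (X - C t) with hf
  have hmon : f.Monic := monic_X_pow_sub_C _ hn.ne'
  have hdeg : f.degree = n := degree_X_pow_sub_C hn _
  have hirr : Irreducible f := by
    refine irreducible_of_eisenstein_criterion (P := Ideal.span {(X - C t : κ[X])})
      ((Ideal.span_singleton_prime hX.ne_zero).2 hX) ?_ ?_ ?_ ?_ hmon.isPrimitive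
    · rw [hmon.leadingCoeff, Ideal.mem_span_singleton]
      exact fun h => hX.not_unit (isUnit_of_dvd_one h)
    · intro i hi
      rw [hdeg] at hi
      have hi' : i < n := by exact_mod_cast hi
      rw [hf, coeff_sub, coeff_X_pow, if_neg hi'.ne, zero_sub, coeff_C]
      split_ifs
      · exact neg_mem (Ideal.mem_span_singleton_self _)
      · simp
    · rw [hdeg]
      exact_mod_cast hn
    · rw [hf, coeff_sub, coeff_X_pow, if_neg hn.ne, zero_sub, coeff_C_zero, Ideal.span_singleton_pow,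
        Ideal.mem_span_singleton, dvd_neg]
      intro h
      have h2 : (X - C t : κ[X]) * (X - C t) ∣ (X - C t) * 1 := by
        rw [← pow_two, mul_one]
        exact h
      exact hX.not_unit (isUnit_of_dvd_one ((mul_dvd_mul_iff_left hX.ne_zero).1 h2))
  have h1 := (Monic.irreducible_iff_irreducible_map_fraction_map (K := FractionRing κ[X]) hmon).1
    hirr
  rw [hf] at h1
  simpa [Polynomial.map_sub, Polynomial.map_pow] using h1

lemma pp_aux (κ : Type) [Field κ] (n : ℕ) (hn : 0 < n) (hn5 : ¬ 5 ∣ n) (hnκ : (n : κ) ≠ 0)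
    (a : κ) (ha : a ≠ 0) :
    PP5 (C (algebraMap κ[X] (FractionRing κ[X]) (C a)) *
      (X ^ n - C (algebraMap κ[X] (FractionRing κ[X]) X)) + 1) ∧
    (C (algebraMap κ[X] (FractionRing κ[X]) (C a)) *
      (X ^ n - C (algebraMap κ[X] (FractionRing κ[X]) X)) + 1).natDegree = n := by
  have hinj : Function.Injective (algebraMap κ[X] (FractionRing κ[X])) :=
    IsFractionRing.injective κ[X] (FractionRing κ[X])
  have ha0 : algebraMap κ[X] (FractionRing κ[X]) (C a) ≠ 0 := by
    intro h
    have := hinj (h.trans (map_zero _).symm)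
    exact ha (C_eq_zero.1 this)
  have hnK : ((n : ℕ) : FractionRing κ[X]) ≠ 0 := by
    intro h
    have h1 : algebraMap κ[X] (FractionRing κ[X]) (C (n : κ)) = 0 := by
      rw [map_natCast, map_natCast]
      exact h
    have := hinj (h1.trans (map_zero _).symm)
    exact hnκ (C_eq_zero.1 this)
  have hX0 : algebraMap κ[X] (FractionRing κ[X]) (X - C a⁻¹) ≠ 0 := by
    intro h
    have := hinj (h.trans (map_zero _).symm)
    exact X_sub_C_ne_zero _ this
  have hid : (C (algebraMap κ[X] (FractionRing κ[X]) (C a)) *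
      (X ^ n - C (algebraMap κ[X] (FractionRing κ[X]) X)) + 1 : (FractionRing κ[X])[X]) =
      C (algebraMap κ[X] (FractionRing κ[X]) (C a)) *
      (X ^ n - C (algebraMap κ[X] (FractionRing κ[X]) (X - C a⁻¹))) ^ 1 := by
    have h1 : (C (algebraMap κ[X] (FractionRing κ[X]) (C a)) *
        C (algebraMap κ[X] (FractionRing κ[X]) (C a⁻¹)) : (FractionRing κ[X])[X]) = 1 := by
      rw [← C_mul, ← map_mul, ← C_mul, mul_inv_cancel₀ ha, C_1, map_one, C_1]
    rw [map_sub, C_sub, pow_one]
    linear_combination -h1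
  constructor
  · refine ⟨_, _, 1, ha0, eis_irred κ n hn a⁻¹, separable_X_pow_sub_C _ hnK hX0, ?_, by norm_num,
      hid⟩
    rw [natDegree_X_pow_sub_C]
    exact hn5
  · rw [hid, pow_one, natDegree_C_mul ha0, natDegree_X_pow_sub_C]

theorem exists_gen5 (κ : Type) [Field κ] (h5 : (5 : κ) ≠ 0) (z : κ) (hz : IsZ z) (n : ℕ)
    (hn : 0 < n) (hn5 : ¬ 5 ∣ n) (hnκ : (n : κ) ≠ 0) (r : κ) (hr : r ≠ 0) (hr1 : r ≠ ep z)
    (hr2 : r ≠ ep' z) :
    Gen5 (k := FractionRing κ[X]) (algebraMap κ[X] _ (C z))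
      (C (algebraMap κ[X] (FractionRing κ[X]) (C r)) *
        (X ^ n - C (algebraMap κ[X] (FractionRing κ[X]) X)) + 1)
      (X ^ n - C (algebraMap κ[X] (FractionRing κ[X]) X)) := by
  have e1 : ep (algebraMap κ[X] (FractionRing κ[X]) (C z)) =
      algebraMap κ[X] (FractionRing κ[X]) (C (ep z)) := by
    have h := map_add ((algebraMap κ[X] (FractionRing κ[X])).comp C) 8 (5 * eta z)
    rw [RingHom.comp_apply] at h
    rw [show ep z = 8 + 5 * eta z from rfl, h, map_mul, map_ofNat, map_ofNat, ep, eta, eta, map_add,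
      map_pow, RingHom.comp_apply]
  have e2 : ep' (algebraMap κ[X] (FractionRing κ[X]) (C z)) =
      algebraMap κ[X] (FractionRing κ[X]) (C (ep' z)) := by
    have h := map_add ((algebraMap κ[X] (FractionRing κ[X])).comp C) 8 (5 * eta' z)
    rw [RingHom.comp_apply] at h
    rw [show ep' z = 8 + 5 * eta' z from rfl, h, map_mul, map_ofNat, map_ofNat, ep', eta', eta',
      map_add, map_pow, map_pow, RingHom.comp_apply]
  have e3 : ∀ e : κ, (C (algebraMap κ[X] (FractionRing κ[X]) (C r)) *
        (X ^ n - C (algebraMap κ[X] (FractionRing κ[X]) X)) + 1) -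
        C (algebraMap κ[X] (FractionRing κ[X]) (C e)) *
        (X ^ n - C (algebraMap κ[X] (FractionRing κ[X]) X)) =
      C (algebraMap κ[X] (FractionRing κ[X]) (C (r - e))) *
        (X ^ n - C (algebraMap κ[X] (FractionRing κ[X]) X)) + 1 := by
    intro e
    rw [C_sub, map_sub, C_sub]
    ring
  obtain ⟨p1, q1⟩ := pp_aux κ n hn hn5 hnκ r hr
  obtain ⟨p2, q2⟩ := pp_aux κ n hn hn5 hnκ (r - ep z) (sub_ne_zero.2 hr1)
  obtain ⟨p3, q3⟩ := pp_aux κ n hn hn5 hnκ (r - ep' z) (sub_ne_zero.2 hr2)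
  have hnK : ((n : ℕ) : FractionRing κ[X]) ≠ 0 := by
    intro h
    have h1 : algebraMap κ[X] (FractionRing κ[X]) (C (n : κ)) = 0 := by
      rw [map_natCast, map_natCast]
      exact h
    have := IsFractionRing.injective κ[X] (FractionRing κ[X]) (h1.trans (map_zero _).symm)
    exact hnκ (C_eq_zero.1 this)
  have hX0 : algebraMap κ[X] (FractionRing κ[X]) X ≠ 0 := by
    intro h
    exact X_ne_zero (IsFractionRing.injective κ[X] (FractionRing κ[X]) (h.trans (map_zero _).symm))
  refine ⟨⟨1, -C (algebraMap κ[X] (FractionRing κ[X]) (C r)), by ring⟩, p1, ?_, ?_, ?_, ?_, ?_, ?_⟩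
  · refine ⟨1, _, 1, one_ne_zero, ?_, separable_X_pow_sub_C _ hnK hX0, ?_, by norm_num, by simp⟩
    · have := eis_irred κ n hn 0
      rwa [C_0, sub_zero] at this
    · rw [natDegree_X_pow_sub_C]
      exact hn5
  · rw [e1, e3]
    exact p2
  · rw [e2, e3]
    exact p3
  · rw [q1, natDegree_X_pow_sub_C]
  · rw [e1, e3, q2, q1]
  · rw [e2, e3, q3, q1]

end Pool.Agent.Helper23K9.T5
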