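import Mathlib
import Pool.Agent.Helper23K9.T5.Exi
import Pool.Agent.Helper23K9.T5.Sdef

/-!
A generic pair `(β, γ)` of rank one over `κ(u)(s)`.
-/

set_option autoImplicit false
set_option linter.all false

open Polynomial IsDedekindDomain WeierstrassCurve WeierstrassCurve.Affine
open scoped Classical

namespace Pool.Agent.Helper23K9.T5

namespace Exr

lemma map_ep {K L : Type*} [Field K] [Field L] (f : K →+* L) (z : K) : f (ep z) = ep (f z) := by
  rw [ep, ep, eta, eta, map_add, map_mul, map_add, map_pow, map_ofNat, map_ofNat]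

lemma map_ep' {K L : Type*} [Field K] [Field L] (f : K →+* L) (z : K) :
    f (ep' z) = ep' (f z) := by
  rw [ep', ep', eta', eta', map_add, map_mul, map_add, map_pow, map_pow, map_ofNat, map_ofNat]

/-- A polynomial of odd degree is not a square in the field of rational functions. -/
lemma not_sq {κ : Type} [Field κ] (d : κ[X]) (hd : Odd d.natDegree) (r : Ku κ)
    (h : r ^ 2 = algebraMap κ[X] (Ku κ) d) : False := by
  obtain ⟨a, b, hb, hr⟩ := IsFractionRing.div_surjective (A := κ[X]) r
  have hb0 : b ≠ 0 := nonZeroDivisors.ne_zero hb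
  have hinj : Function.Injective (algebraMap κ[X] (Ku κ)) := IsFractionRing.injective κ[X] (Ku κ)
  have hb1 : algebraMap κ[X] (Ku κ) b ≠ 0 := fun h1 => hb0 (hinj (h1.trans (map_zero _).symm))
  have hd0 : d ≠ 0 := by
    rintro rfl
    simp at hd
  have h1 : a ^ 2 = d * b ^ 2 := by
    apply hinj
    rw [map_pow, map_mul, map_pow, ← h, ← hr, div_pow, div_mul_cancel₀ _ (pow_ne_zero 2 hb1)]
  have h2 := congrArg natDegree h1
  rw [natDegree_pow, natDegree_mul hd0 (pow_ne_zero 2 hb0), natDegree_pow] at h2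
  obtain ⟨k, hk⟩ := hd
  omega

/-- A monic quadratic polynomial whose discriminant is not a square is irreducible. -/
lemma quad_irred {M : Type*} [Field M] (B D : M) (h : ∀ r : M, r ^ 2 ≠ B ^ 2 - 4 * D) :
    Irreducible (X ^ 2 + C B * X + C D : M[X]) := by
  have hm : (X ^ 2 + C B * X + C D : M[X]).Monic := by
    have h1 : (X ^ 2 + C B * X + C D : M[X]) = C 1 * X ^ 2 + C B * X + C D := by simp
    rw [h1, Monic, leadingCoeff_quadratic one_ne_zero]
  have hd : (X ^ 2 + C B * X + C D : M[X]).natDegree = 2 := by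
    have h1 : (X ^ 2 + C B * X + C D : M[X]) = C 1 * X ^ 2 + C B * X + C D := by simp
    rw [h1, natDegree_quadratic one_ne_zero]
  rw [hm.irreducible_iff_roots_eq_zero_of_degree_le_three (by omega) (by omega)]
  rw [Multiset.eq_zero_iff_forall_notMem]
  intro r hr
  have h1 : r ^ 2 + B * r + D = 0 := by
    have := (mem_roots'.1 hr).2
    simpa [IsRoot.def] using this
  apply h (2 * r + B)
  linear_combination 4 * h1

section comp

variable (M : Type) [Field M] (n : ℕ)

/-- The involution `s ↦ t ^ n - s` of `M[s][t]`. -/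
noncomputable def inv : M[X][X] →+* M[X][X] :=
  eval₂RingHom (eval₂RingHom ((C : M[X] →+* M[X][X]).comp (C : M →+* M[X])) (X ^ n - C X)) X

lemma inv_X : inv M n X = X := by simp [inv]

lemma inv_CC (a : M) : inv M n (C (C a)) = C (C a) := by simp [inv]

lemma inv_CX : inv M n (C X) = X ^ n - C X := by simp [inv]

lemma inv_inv : (inv M n).comp (inv M n) = RingHom.id _ := by
  refine Polynomial.ringHom_ext' (Polynomial.ringHom_ext' ?_ ?_) ?_
  · ext a : 1
    simp only [RingHom.comp_apply, inv_CC, RingHom.id_apply]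
  · simp only [RingHom.comp_apply, inv_CX, map_sub, map_pow, inv_X, RingHom.id_apply]
    ring
  · simp only [RingHom.comp_apply, inv_X, RingHom.id_apply]

/-- The involution as an equivalence. -/
noncomputable def invE : M[X][X] ≃+* M[X][X] :=
  RingEquiv.ofRingHom (inv M n) (inv M n) (inv_inv M n) (inv_inv M n)

lemma invE_apply (f : M[X][X]) : invE M n f = inv M n f := rfl

variable {M n}

lemma irr_comp (hn : 0 < n) (B D : M) (h : Irreducible (X ^ 2 + C B * X + C D : M[X])) :
    Irreducible ((X ^ n - C (algebraMap M[X] (FractionRing M[X]) X)) ^ 2 +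
      C (algebraMap M[X] (FractionRing M[X]) (C B)) *
        (X ^ n - C (algebraMap M[X] (FractionRing M[X]) X)) +
      C (algebraMap M[X] (FractionRing M[X]) (C D)) : (FractionRing M[X])[X]) := by
  have h1 : Irreducible (C (X ^ 2 + C B * X + C D : M[X]) : M[X][X]) :=
    (prime_C_iff.2 h.prime).irreducible
  have h2 : Irreducible (invE M n (C (X ^ 2 + C B * X + C D : M[X]))) :=
    (MulEquiv.irreducible_iff (invE M n)).2 h1
  have h3 : invE M n (C (X ^ 2 + C B * X + C D : M[X])) =
      (X ^ n - C X) ^ 2 + C (C B) * (X ^ n - C X) + C (C D) := by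
    rw [invE_apply]
    simp only [C_add, C_mul, C_pow, map_add, map_mul, map_pow, inv_CX, inv_CC]
  rw [h3] at h2
  have hm1 : (X ^ n - C X : M[X][X]).Monic := monic_X_pow_sub_C _ hn.ne'
  have hnd : (X ^ n - C X : M[X][X]).natDegree = n := natDegree_X_pow_sub_C
  have hm : ((X ^ n - C X) ^ 2 + C (C B) * (X ^ n - C X) + C (C D) : M[X][X]).Monic := by
    rw [add_assoc]
    refine (hm1.pow 2).add_of_left ?_
    have h4 : ((X ^ n - C X : M[X][X]) ^ 2).degree = ((2 * n : ℕ) : WithBot ℕ) := by
      rw [degree_eq_natDegree (hm1.pow 2).ne_zero, natDegree_pow, hnd]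
    rw [h4]
    refine lt_of_le_of_lt degree_le_natDegree ?_
    have h5 : (C (C B) * (X ^ n - C X) + C (C D) : M[X][X]).natDegree ≤ n := by
      refine (natDegree_add_le _ _).trans (max_le ?_ ?_)
      · refine (natDegree_C_mul_le _ _).trans ?_
        rw [hnd]
      · rw [natDegree_C]
        exact Nat.zero_le _
    exact_mod_cast lt_of_le_of_lt h5 (by omega)
  have h4 := (Monic.irreducible_iff_irreducible_map_fraction_map (K := FractionRing M[X]) hm).1 h2
  simpa [Polynomial.map_add, Polynomial.map_mul, Polynomial.map_sub, Polynomial.map_pow] using h4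

end comp

end Exr

open Exr in
theorem exists_rank (κ : Type) [Field κ] (h2 : (2 : κ) ≠ 0) (h5 : (5 : κ) ≠ 0) (z : κ)
    (hz : IsZ z) (n : ℕ) (hn : 0 < n) (hn5 : ¬ 5 ∣ n) (hnκ : (n : κ) ≠ 0) :
    let x := xr κ
    let y := yr κ n
    let β := y ^ 2 + x * y - x ^ 3
    let γ := (x + 1) * y - x ^ 2
    let z1 : Kus κ := cu κ (algebraMap κ[X] (Ku κ) (C z))
    IsCoprime β γ ∧ PP5 β ∧ PP5 γ ∧ PP5 (β - C (ep z1) * γ) ∧ PP5 (β - C (ep' z1) * γ) ∧
      γ.natDegree < β.natDegree := by
  intro x y β γ z1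
  -- embeddings
  let f0 : κ[X] →+* Ku κ := algebraMap κ[X] (Ku κ)
  let f1 : (Ku κ)[X] →+* Kus κ := algebraMap (Ku κ)[X] (Kus κ)
  have hf0 : Function.Injective f0 := IsFractionRing.injective κ[X] (Ku κ)
  have hf1 : Function.Injective f1 := IsFractionRing.injective (Ku κ)[X] (Kus κ)
  let φ : Ku κ →+* Kus κ := f1.comp C
  let ψ : κ →+* Kus κ := φ.comp (f0.comp C)
  have hφ : Function.Injective φ := φ.injective
  let u : Ku κ := f0 X
  have hu0 : u ≠ 0 := fun h => X_ne_zero (hf0 (h.trans (map_zero _).symm))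
  have hu1 : u + 1 ≠ 0 := by
    intro h
    have h1 : f0 (X + C 1) = 0 := by
      rw [map_add, C_1, map_one]
      exact h
    exact X_add_C_ne_zero _ (hf0 (h1.trans (map_zero _).symm))
  have hx : x = C (φ u) := rfl
  have hy : y = X ^ n - C (f1 X) := rfl
  have hnK : ((n : ℕ) : Kus κ) ≠ 0 := by
    rw [← map_natCast ψ]
    exact fun h => hnκ ((map_eq_zero ψ).1 h)
  have h2K : (2 : Kus κ) ≠ 0 := by
    rw [← map_ofNat ψ 2]
    exact fun h => h2 ((map_eq_zero ψ).1 h)
  have hydeg : y.natDegree = n := by rw [hy, natDegree_X_pow_sub_C]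
  have hymon : y.Monic := by rw [hy]; exact monic_X_pow_sub_C _ hn.ne'
  -- the quadratic polynomials
  have key : ∀ e : κ, PP5 (β - C (ψ e) * γ) ∧ (β - C (ψ e) * γ).natDegree = 2 * n := by
    intro e
    have hexp : β - C (ψ e) * γ =
        y ^ 2 + C (φ (u - f0 (C e) * (u + 1))) * y + C (φ (-u ^ 3 + f0 (C e) * u ^ 2)) := by
      have h1 : ψ e = φ (f0 (C e)) := rfl
      simp only [β, γ, hx, h1, map_sub, map_add, map_mul, map_neg, map_pow, map_one, C_sub, C_add,
        C_mul, C_neg, C_pow, C_1]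
      ring
    have hq : Irreducible (X ^ 2 + C (u - f0 (C e) * (u + 1)) * X +
        C (-u ^ 3 + f0 (C e) * u ^ 2) : (Ku κ)[X]) := by
      refine quad_irred _ _ fun r hr => ?_
      refine not_sq (C 4 * X ^ 3 + C (1 - 6 * e + e ^ 2) * X ^ 2 + C (2 * e ^ 2 - 2 * e) * X +
        C (e ^ 2) : κ[X]) ?_ r ?_
      · have h4 : (4 : κ) ≠ 0 := by
          have : (4 : κ) = 2 * 2 := by norm_num
          rw [this]
          exact mul_ne_zero h2 h2
        rw [natDegree_cubic h4]
        decide
      · rw [hr]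
        change _ = f0 _
        simp only [map_add, map_mul, map_pow, map_sub, map_one, map_ofNat, C_add, C_mul, C_pow,
          C_sub, C_1]
        change (f0 X - f0 (C e) * (f0 X + 1)) ^ 2 -
          4 * (-(f0 X) ^ 3 + f0 (C e) * (f0 X) ^ 2) = _
        ring
    have hirr := irr_comp hn (u - f0 (C e) * (u + 1)) (-u ^ 3 + f0 (C e) * u ^ 2) hq
    have hirr' : Irreducible (β - C (ψ e) * γ) := by
      rw [hexp]
      exact hirr
    have hdeg : (β - C (ψ e) * γ).natDegree = 2 * n := by
      rw [hexp, add_assoc, natDegree_add_eq_left_of_natDegree_lt]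
      · rw [natDegree_pow, hydeg]
      · rw [natDegree_pow, hydeg]
        refine lt_of_le_of_lt ((natDegree_add_le _ _).trans (max_le (c := n)
          ?_ ?_)) (by omega)
        · exact (natDegree_C_mul_le _ _).trans hydeg.le
        · rw [natDegree_C]
          exact Nat.zero_le _
    refine ⟨⟨1, _, 1, one_ne_zero, hirr', ?_, ?_, by norm_num, by simp⟩, hdeg⟩
    · rw [separable_iff_derivative_ne_zero hirr']
      have hder : derivative (β - C (ψ e) * γ) =
          (C 2 * y + C (φ (u - f0 (C e) * (u + 1)))) * (C (n : Kus κ) * X ^ (n - 1)) := by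
        rw [hexp]
        have hdy : derivative y = C (n : Kus κ) * X ^ (n - 1) := by
          rw [hy, derivative_sub, derivative_X_pow, derivative_C, sub_zero]
        simp only [derivative_add, derivative_mul, derivative_C, derivative_pow, hdy]
        simp
        ring
      rw [hder]
      refine mul_ne_zero ?_ (mul_ne_zero (C_ne_zero.2 hnK) (pow_ne_zero _ X_ne_zero))
      intro h
      have h3 := congrArg (fun f => coeff f n) h
      have hyc : y.coeff n = 1 := by
        have := hymon.coeff_natDegree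
        rwa [hydeg] at this
      simp only [coeff_add, coeff_C_mul, hyc, coeff_C, coeff_zero, if_neg hn.ne'] at h3
      apply h2K
      linear_combination h3
    · rw [hdeg]
      intro h
      have h5' : Nat.Prime 5 := by norm_num
      rcases (Nat.Prime.dvd_mul h5').1 h with h | h
      · omega
      · exact hn5 h
  have hγ : γ = C (φ (u + 1)) * (X ^ n - C (f1 (X - C (-(u ^ 2 / (u + 1)))))) ^ 1 := by
    have h1 : (C (φ (u + 1)) * C (φ (u ^ 2 / (u + 1))) : (Kus κ)[X]) = C (φ u) ^ 2 := by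
      rw [← C_mul, ← map_mul, mul_div_cancel₀ _ hu1, map_pow, C_pow]
    have h3 : f1 (C (-(u ^ 2 / (u + 1)))) = -φ (u ^ 2 / (u + 1)) := by
      rw [C_neg, map_neg]
      rfl
    have h4 : (C (φ (u + 1)) : (Kus κ)[X]) = C (φ u) + 1 := by
      rw [map_add, map_one, C_add, C_1]
    simp only [γ, hx, hy, pow_one]
    rw [map_sub, h3, C_sub, C_neg, h4]
    rw [h4] at h1
    linear_combination h1
  have hu1' : φ (u + 1) ≠ 0 := fun h => hu1 ((map_eq_zero φ).1 h)
  have hγdeg : γ.natDegree = n := by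
    rw [hγ, pow_one, natDegree_C_mul hu1', natDegree_X_pow_sub_C]
  have k0 := key 0
  rw [map_zero, C_0, zero_mul, sub_zero] at k0
  have hz1 : z1 = ψ z := rfl
  refine ⟨?_, k0.1, ?_, ?_, ?_, ?_⟩
  · -- coprime
    have h5u : φ (u ^ 5) ≠ 0 := fun h => (pow_ne_zero 5 hu0) ((map_eq_zero φ).1 h)
    have hid : (C (φ (u + 1))) ^ 2 * β - (γ + 3 * C (φ u) ^ 2 + C (φ u)) * γ =
        -C (φ (u ^ 5)) := by
      have h4 : (C (φ (u + 1)) : (Kus κ)[X]) = C (φ u) + 1 := by
        rw [map_add, map_one, C_add, C_1]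
      simp only [β, γ, hx]
      rw [h4, map_pow, C_pow]
      ring
    have hinv : (C (φ (u ^ 5))⁻¹ * C (φ (u ^ 5)) : (Kus κ)[X]) = 1 := by
      rw [← C_mul, inv_mul_cancel₀ h5u, C_1]
    refine ⟨-C (φ (u ^ 5))⁻¹ * (C (φ (u + 1))) ^ 2,
      C (φ (u ^ 5))⁻¹ * (γ + 3 * C (φ u) ^ 2 + C (φ u)), ?_⟩
    linear_combination (-C (φ (u ^ 5))⁻¹) * hid + hinv
  · -- the linear one
    have hne : f1 (X - C (-(u ^ 2 / (u + 1)))) ≠ 0 := by
      intro h
      exact X_sub_C_ne_zero _ (hf1 (h.trans (map_zero _).symm))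
    refine ⟨_, _, 1, hu1', eis_irred (Ku κ) n hn (-(u ^ 2 / (u + 1))),
      separable_X_pow_sub_C _ hnK hne, ?_, by norm_num, hγ⟩
    rw [natDegree_X_pow_sub_C]
    exact hn5
  · rw [hz1, ← map_ep ψ]
    exact (key _).1
  · rw [hz1, ← map_ep' ψ]
    exact (key _).1
  · rw [k0.2, hγdeg]
    omega

end Pool.Agent.Helper23K9.T5
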