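import Pool.Agent.Helper23K9.T5.Exi

/-!
Definitions for the statement.
-/

set_option autoImplicit false
set_option linter.all false

open Polynomial

namespace Pool.Agent.Helper23K9.T5

/-- The constant `z` in the field `κ(s)`. -/
noncomputable def czeta (κ : Type) [Field κ] (z : κ) : FractionRing κ[X] :=
  algebraMap κ[X] (FractionRing κ[X]) (C z)

/-- The polynomial `t ^ n - s` over the field `κ(s)`. -/
noncomputable def gam (κ : Type) [Field κ] (n : ℕ) : (FractionRing κ[X])[X] :=
  X ^ n - C (algebraMap κ[X] (FractionRing κ[X]) X)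

/-- The polynomial `r (t ^ n - s) + 1` over the field `κ(s)`. -/
noncomputable def bet (κ : Type) [Field κ] (n : ℕ) (r : κ) : (FractionRing κ[X])[X] :=
  C (czeta κ r) * gam κ n + 1

end Pool.Agent.Helper23K9.T5
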