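import Pool.Agent.Helper23K9.T5.Qex
import Pool.Agent.Helper23K9.T5.Exr
import Pool.Agent.Helper23K9.T5.Stm

/-!
Families over fields of rational functions.
-/

set_option autoImplicit false
set_option linter.all false

open Polynomial IsDedekindDomain WeierstrassCurve WeierstrassCurve.Affine
open scoped Classical

namespace Pool.Agent.Helper23K9.T5

section exs

/-- The surfaces with `b = t ^ n - a`. -/
theorem crit_irr {k : Type} [Field k] (h5 : (5 : k) ≠ 0) {z : k} (hz : IsZ z) {a : k} {n : ℕ}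
    (hn : 0 < n) (hn5 : ¬ 5 ∣ n) (hnk : (n : k) ≠ 0) (ha1 : a ≠ 0) (ha2 : a + ep z ≠ 0)
    (ha3 : a + ep' z ≠ 0) (i1 : Irreducible (X ^ n - C a : k[X]))
    (i2 : Irreducible (X ^ n - C (a + ep z) : k[X]))
    (i3 : Irreducible (X ^ n - C (a + ep' z) : k[X])) :
    Crit5 z (X ^ n - C a) 1 ∧ nn5 z (X ^ n - C a) 1 ≤ 4 := by
  have he : ep z ≠ ep' z := fun h => (isZ_ne_aux5 h5 hz).2.2 (sub_eq_zero.2 h.symm)
  have hx : ∀ e : k, (X ^ n - C a) - C e * 1 = (X ^ n - C (a + e) : k[X]) := by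
    intro e
    rw [C_add]
    ring
  have pp : ∀ c : k, c ≠ 0 → Irreducible (X ^ n - C c : k[X]) → PP5 (X ^ n - C c : k[X]) :=
    fun c hc hi => ⟨1, _, 1, one_ne_zero, hi, separable_X_pow_sub_C c hnk hc,
      by rw [natDegree_X_pow_sub_C]; exact hn5, by norm_num, by rw [pow_one, C_1, one_mul]⟩
  have p2 := pp _ ha2 i2
  have p3 := pp _ ha3 i3
  rw [← hx] at p2 p3
  have hd : ∀ e : k, ((X ^ n - C a) - C e * 1 : k[X]).natDegree = n := by
    intro e
    rw [hx, natDegree_X_pow_sub_C]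
  refine ⟨⟨⟨isCoprime_one_right, i1.ne_zero, one_ne_zero, ?_, ?_⟩,
    pairOK_of (cop_eps isCoprime_one_right he) p2 p3⟩, ?_⟩
  · intro π hi hdv
    rw [mul_one] at hdv
    exact (hi.associated_of_dvd i1 hdv).symm.separable (separable_X_pow_sub_C a hnk ha1)
  · refine ⟨X ^ n - C a, 1, i1, by rw [natDegree_X_pow_sub_C]; exact hn5, by norm_num, ?_, ?_⟩
    · rw [pow_one, mul_one]
    · rw [mul_one]
      intro h
      have h4 := natDegree_le_of_dvd h i1.ne_zero
      rw [natDegree_pow, natDegree_X_pow_sub_C] at h4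
      omega
  · unfold nn5
    have a2 := nPl_le2 p2 p3 (by rw [hd, hd])
    have a1 : nPl (X ^ n - C a : k[X]) 1 ≤ 2 := by
      unfold nPl
      have h4 : irr ((X ^ n - C a) * 1 : k[X]) ⊆ {X ^ n - C a} := by
        intro r hr
        obtain ⟨hri, hrm, hrd⟩ := (mem_irr (mul_ne_zero i1.ne_zero one_ne_zero)).1 hr
        rw [mul_one] at hrd
        rw [Finset.mem_singleton]
        exact eq_of_monic_of_associated hrm (monic_X_pow_sub_C a hn.ne')
          (hri.associated_of_dvd i1 hrd)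
      have h5 := Finset.card_le_card h4
      rw [Finset.card_singleton] at h5
      split_ifs <;> omega
    omega

/-- `b = t ^ n - s` over `κ(s)`. -/
theorem crit_ks (κ : Type) [Field κ] (h5 : (5 : κ) ≠ 0) {z : κ} (hz : IsZ z) {n : ℕ} (hn : 0 < n)
    (hn5 : ¬ 5 ∣ n) (hnκ : (n : κ) ≠ 0) :
    Crit5 (czeta κ z) (gam κ n) 1 ∧ nn5 (czeta κ z) (gam κ n) 1 ≤ 4 := by
  have hinj : Function.Injective (algebraMap κ[X] (FractionRing κ[X])) :=
    IsFractionRing.injective κ[X] (FractionRing κ[X])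
  set f : κ →+* FractionRing κ[X] := (algebraMap κ[X] (FractionRing κ[X])).comp C with hf
  have e1 : ep (czeta κ z) = algebraMap κ[X] (FractionRing κ[X]) (C (ep z)) :=
    (Exr.map_ep f z).symm
  have e2 : ep' (czeta κ z) = algebraMap κ[X] (FractionRing κ[X]) (C (ep' z)) :=
    (Exr.map_ep' f z).symm
  have key : ∀ c : κ, algebraMap κ[X] (FractionRing κ[X]) X +
      algebraMap κ[X] (FractionRing κ[X]) (C c) =
        algebraMap κ[X] (FractionRing κ[X]) (X - C (-c)) := by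
    intro c
    rw [← map_add, C_neg, sub_neg_eq_add]
  have h0 : ∀ c : κ, algebraMap κ[X] (FractionRing κ[X]) (X - C c) ≠ 0 := by
    intro c h
    exact X_sub_C_ne_zero c (hinj (h.trans (map_zero _).symm))
  refine crit_irr (a := algebraMap κ[X] (FractionRing κ[X]) X) ?_ ?_ hn hn5 ?_ ?_ ?_ ?_ ?_ ?_ ?_
  · rw [← map_ofNat f 5]
    exact (_root_.map_ne_zero f).2 h5
  · exact hz.map f
  · rw [← map_natCast f n]
    exact (_root_.map_ne_zero f).2 hnκ
  · have := h0 0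
    rwa [C_0, sub_zero] at this
  · rw [e1, key]
    exact h0 _
  · rw [e2, key]
    exact h0 _
  · have := eis_irred κ n hn 0
    rwa [C_0, sub_zero] at this
  · rw [e1, key]
    exact eis_irred κ n hn _
  · rw [e2, key]
    exact eis_irred κ n hn _

/-- The surfaces through `(u, t ^ n - s)` over `κ(u)(s)`. -/
theorem crit_kus (κ : Type) [Field κ] (h2 : (2 : κ) ≠ 0) (h5 : (5 : κ) ≠ 0) {z : κ} (hz : IsZ z)
    {n : ℕ} (hn : 0 < n) (hn5 : ¬ 5 ∣ n) (hnκ : (n : κ) ≠ 0) :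
    Crit5 (cu κ (algebraMap κ[X] (Ku κ) (C z))) (bxy (xr κ) (yr κ n)) (gxy (xr κ) (yr κ n)) ∧
      HasM5 (bxy (xr κ) (yr κ n)) ∧ HasM5 (gxy (xr κ) (yr κ n)) ∧
      nn5 (cu κ (algebraMap κ[X] (Ku κ) (C z))) (bxy (xr κ) (yr κ n)) (gxy (xr κ) (yr κ n)) ≤ 5 := by
  obtain ⟨hc, p1, p2, p3, p4, hd⟩ := exists_rank κ h2 h5 z hz n hn hn5 hnκ
  set f : κ →+* Kus κ := ((algebraMap (Ku κ)[X] (Kus κ)).comp C).comp
    ((algebraMap κ[X] (Ku κ)).comp C) with hf
  have hdeg : ∀ e : Kus κ, (bxy (xr κ) (yr κ n) - C e * gxy (xr κ) (yr κ n)).natDegree =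
      (bxy (xr κ) (yr κ n)).natDegree := by
    intro e
    refine natDegree_sub_eq_left_of_natDegree_lt ?_
    exact lt_of_le_of_lt (natDegree_C_mul_le _ _) hd
  refine crit_of_pp ?_ ?_ hc p1 p2 p3 p4 ?_
  · rw [← map_ofNat f 5]
    exact (_root_.map_ne_zero f).2 h5
  · exact hz.map f
  · rw [hdeg, hdeg]

end exs

end Pool.Agent.Helper23K9.T5
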