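import Pool.Agent.Helper23K9.T5.Rat
import Pool.Agent.Helper23K9.T5.Exs

/-!
Definitions for the statement.
-/

set_option autoImplicit false
set_option linter.all false

open Polynomial WeierstrassCurve WeierstrassCurve.Affine
open scoped Classical

namespace Pool.Agent.Helper23K9.T5

open Pool.Agent.TH115.GD (Pt act incl IsTower)
open Pool.Agent.Helper7K9.T3 (TateAt)

/-- The curve `y² + (1 - b) x y - b y = x³ - b x²` with `b = β / γ`. -/
noncomputable def crvQ (K : Type) {k : Type} [Field k] [Field K] [Algebra k[X] K] (β γ : k[X]) :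
    WeierstrassCurve K := crv5 (algebraMap k[X] K β / algebraMap k[X] K γ)

/-- The points `Q j` are linearly independent in `W(F) / 5 W(F)`. -/
def Indep5 {K : Type} (F : Type) [Field K] [Field F] [Algebra K F] {W : WeierstrassCurve K} {N : ℕ}
    (Q : Fin N → Pt W K) : Prop :=
  ∀ (l : Fin N → ℕ) (R : Pt W F), 5 • R = ∑ j, l j • act W (incl K K F) (Q j) → ∀ j, 5 ∣ l j

/-- The conditions of the criterion with the point of order five. -/
def Rk0 {k : Type} [Field k] (z : k) (β γ : k[X]) : Prop := Crit5 z β γ ∧ nn5 z β γ ≤ 4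

/-- The conditions of the criterion for the curve through the point `(x, y)`. -/
def Rk1 {k : Type} [Field k] (z : k) (x y : k[X]) : Prop :=
  Crit5 z (bxy x y) (gxy x y) ∧ HasM5 (bxy x y) ∧ HasM5 (gxy x y) ∧
    nn5 z (bxy x y) (gxy x y) ≤ 5

/-- The Tate conjecture at 5 for the curve through the point `(x, y)`, and this point has infinite
order. -/
def TatePt (k' K F : Type) {k : Type} [Field k] [Field k'] [Field K] [Algebra k[X] K] [Field F]
    [Algebra k'[X] F] [IsFractionRing k'[X] F] [Algebra K F] (x y : k[X]) : Prop :=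
  TateAt (F := F) 5 k' (crvQ K (bxy x y) (gxy x y)) ∧
    ∃ Q : Pt (crvQ K (bxy x y) (gxy x y)) K,
      (∃ hn, Q = Point.some (algebraMap k[X] K x) (algebraMap k[X] K y) hn) ∧
        ∀ n : ℕ, n ≠ 0 → n • Q ≠ 0

/-- Some prime different from five divides `m` exactly once. -/
def ExactP (m : ℤ) : Prop := ∃ p : ℕ, p.Prime ∧ p ≠ 5 ∧ (p : ℤ) ∣ m ∧ ¬ (p : ℤ) ^ 2 ∣ m

end Pool.Agent.Helper23K9.T5
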