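import Pool.Agent.Helper23K9.T5.Cb

/-!
The action of the Galois group on the points of order five.
-/

set_option autoImplicit false
set_option linter.all false

open Polynomial IsDedekindDomain WeierstrassCurve WeierstrassCurve.Affine
open scoped Classical

namespace Pool.Agent.Helper23K9.T5

open Pool.Agent.TH115.GD (Pt act incl rs ak act_act act_inj IsCoc rs_mul)

section ga

variable {K Ω : Type} [Field K] [Field Ω] [Algebra K Ω] {b z : K} (h5 : (5 : K) ≠ 0) (hb : b ≠ 0)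
  (hd : b ^ 2 - 11 * b - 1 ≠ 0) (hz : IsZ z)
  {T : Pt (crv5 b) Ω} {m : Ω} (hT : IsT (isE5 b Ω h5 hb hd) (algebraMap K Ω z) m T)
  (hm : AA (algebraMap K Ω z) (algebraMap K Ω b) = (5 + 3 * eta (algebraMap K Ω z)) * m ^ 5 *
      BB (algebraMap K Ω z) (algebraMap K Ω b))

include hz hT hm in
theorem T_gal (φ : Ω →ₐ[K] Ω) : ∃ x : ZMod 5,
    act (crv5 b) φ T = cb (isE5 b Ω h5 hb hd) T x 1 ∧
    φ m⁻¹ = (algebraMap K Ω z) ^ x.val * m⁻¹ := by
  have h := isE5 b Ω h5 hb hd
  have hzΩ : IsZ (algebraMap K Ω z) := hz.map _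
  have hT5 := hT.five h hzΩ hm
  have hφz : φ (algebraMap K Ω z) = algebraMap K Ω z := φ.commutes z
  have hn : act (crv5 b) φ T ∉ HP h := fun hh => hT.nm ((HP_act h h φ T).1 hh)
  have ht : ∀ j, tq h (algebraMap K Ω z) (act (crv5 b) φ T) j =
      φ (tq h (algebraMap K Ω z) T j) := by
    intro j
    have := tq_act h h φ (algebraMap K Ω z) T j
    rwa [hφz] at this
  obtain ⟨n, hn'⟩ := t1_zero h hzΩ hm hT hn (by rw [ht, hT.t1, map_zero])
  have hn5 : act (crv5 b) φ T = T + ((n : ZMod 5)).val • pP h := by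
    rw [cast_smul (five_pP h)]
    exact hn'
  refine ⟨n, ?_, ?_⟩
  · rw [hn5]
    unfold cb
    have : (1 : ZMod 5).val = 1 := by decide
    rw [this, one_smul, add_comm]
  · set x := ((n : ZMod 5)).val with hx
    have m0 := m_ne h hzΩ hm
    have e3 := tq_add_pP h hzΩ T x (j := 3) (by norm_num)
    have e4 := tq_add_pP h hzΩ T x (j := 4) (by norm_num)
    rw [← hn5, ht] at e3 e4
    have e34 : tq h (algebraMap K Ω z) T 4 = -m * tq h (algebraMap K Ω z) T 3 := by
      rw [hT.t3, hT.t4]; ring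
    have n4 := hT.t4_ne h hzΩ hm
    have n3 : tq h (algebraMap K Ω z) T 3 ≠ 0 := by
      intro h0
      rw [h0, mul_zero] at e34
      exact n4 e34
    rw [e34, map_mul, map_neg] at e4
    have zn : algebraMap K Ω z ≠ 0 := hzΩ.ne
    have key : (algebraMap K Ω z) ^ x * φ m = m := by
      have h1 : (algebraMap K Ω z) ^ (4 * x) = (algebraMap K Ω z) ^ (3 * x) * (algebraMap K Ω z) ^ x := by
        rw [← pow_add]; congr 1; ring
      rw [h1] at e4
      have h2 : ((algebraMap K Ω z) ^ x * φ m - m) * tq h (algebraMap K Ω z) T 3 = 0 := by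
        linear_combination -e4 - ((algebraMap K Ω z) ^ x * φ m) * e3
      rcases mul_eq_zero.1 h2 with h3 | h3
      · exact sub_eq_zero.1 h3
      · exact absurd h3 n3
    have zx : (algebraMap K Ω z) ^ x ≠ 0 := pow_ne_zero _ zn
    have fm : φ m ≠ 0 := (_root_.map_ne_zero φ).2 m0
    rw [map_inv₀]
    conv_rhs => rw [← key]
    rw [mul_inv, ← mul_assoc, mul_inv_cancel₀ zx, one_mul]

include h5 hb hd in
theorem act_cb {φ : Ω →ₐ[K] Ω} {x : ZMod 5} (hT5 : 5 • T = 0)
    (hx : act (crv5 b) φ T = cb (isE5 b Ω h5 hb hd) T x 1) (i a : ZMod 5) :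
    act (crv5 b) φ (cb (isE5 b Ω h5 hb hd) T i a) = cb (isE5 b Ω h5 hb hd) T (i + a * x) a := by
  have h := isE5 b Ω h5 hb hd
  have h1 : cb h T i a = i.val • pP h + a.val • T := rfl
  rw [h1, map_add, map_nsmul, map_nsmul, hx, pP_act h h φ, cb_nsmul h hT5]
  have h2 : ((a.val : ℕ) : ZMod 5) = a := by rw [ZMod.natCast_val, ZMod.cast_id]
  rw [h2, mul_one, ← cb_i h (T := T) i, cb_add h hT5, zero_add]

end ga

end Pool.Agent.Helper23K9.T5
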