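import Pool.Agent.Helper23K9.T5.Uf

/-!
Identities for the translation by a second point of order five.
-/

set_option autoImplicit false
set_option linter.all false

open scoped Classical

namespace Pool.Agent.Helper23K9.T5

section mv

variable {F : Type*} [Field F] {z e m B t1 t2 t3 t4 T1 T2 T3 T4 : F}

theorem move_aux (he : e ^ 2 + e - 1 = 0) (z5 : z ^ 5 = 1) (h4 : t4 ≠ 0)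
    (E1 : t4 * T1 = z ^ 3 * (5 + 3 * e) * m ^ 6 * B ^ 2)
    (E2 : t4 * T2 = z * (2 + e) * m ^ 2 * B * t1)
    (E3 : t4 * T3 = z ^ 4 * (2 + e) * m ^ 3 * B * t2)
    (E4 : t4 * T4 = z ^ 2 * (2 + e) * m ^ 4 * B * t3)
    (q0 : (-1 - e) * (t1 * t4) + e * (t2 * t3) = -(((5 + 3 * e) * m ^ 5 * B) * B))
    (q1 : t2 * t4 - e * t3 ^ 2 = B * t1)
    (q2 : t3 * t4 - (-1 - e) * t1 ^ 2 = ((5 + 3 * e) * m ^ 5 * B) * t2)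
    (q3 : t1 * t2 - (-1 - e) * t4 ^ 2 = ((5 + 3 * e) * m ^ 5 * B) * t3)
    (q4 : t3 * t1 - e * t2 ^ 2 = B * t4) :
    (-1 - e) * (T1 * T4) + e * (T2 * T3) = -(((5 + 3 * e) * m ^ 5 * B) * B) ∧
    T2 * T4 - e * T3 ^ 2 = B * T1 ∧
    T3 * T4 - (-1 - e) * T1 ^ 2 = ((5 + 3 * e) * m ^ 5 * B) * T2 ∧
    T1 * T2 - (-1 - e) * T4 ^ 2 = ((5 + 3 * e) * m ^ 5 * B) * T3 ∧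
    T3 * T1 - e * T2 ^ 2 = B * T4 := by
  have hh := pow_ne_zero 2 h4
  refine ⟨?_, ?_, ?_, ?_, ?_⟩ <;> apply mul_left_cancel₀ hh
  · linear_combination (-1-e)*((t4*T4)*E1 + (z^3*(5+3*e)*m^6*B^2)*E4) + e*((t4*T3)*E2 + (z*(2+e)*m^2*B*t1)*E3) + (3*e^2*m^5*B^2 +5*e*m^5*B^2)*q3 + (-3*e^3*m^10*B^3*t3 +e^3*m^5*B^2*t1*t2 -14*e^2*m^10*B^3*t3 +4*e^2*m^5*B^2*t1*t2 -21*e*m^10*B^3*t3 +4*e*m^5*B^2*t1*t2 -10*m^10*B^3*t3)*z5 + (6*e*m^10*B^3*t3 +e*m^5*B^2*t1*t2 -3*e*m^5*B^2*t4^2 +10*m^10*B^3*t3 -5*m^5*B^2*t4^2)*he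
  · linear_combination ((t4*T4)*E2 + (z*(2+e)*m^2*B*t1)*E4) - e*((t4*T3)*E3 + (z^4*(2+e)*m^3*B*t2)*E3) - B*t4*E1 + (3*z^3*e*m^6*B^2 +5*z^3*m^6*B^2)*q4 + (-z^3*e^3*m^6*B^2*t2^2 -4*z^3*e^2*m^6*B^2*t2^2 -4*z^3*e*m^6*B^2*t2^2)*z5 + (-z^3*e*m^6*B^2*t2^2 +z^3*m^6*B^2*t1*t3)*he
  · linear_combination ((t4*T4)*E3 + (z^4*(2+e)*m^3*B*t2)*E4) - (-1-e)*((t4*T1)*E1 + (z^3*(5+3*e)*m^6*B^2)*E1) - ((5+3*e)*m^5*B)*t4*E2 + (3*z*e^2*m^7*B^2 +8*z*e*m^7*B^2 +5*z*m^7*B^2)*q0 + (9*z*e^3*m^12*B^4 +39*z*e^2*m^12*B^4 +z*e^2*m^7*B^2*t2*t3 +55*z*e*m^12*B^4 +4*z*e*m^7*B^2*t2*t3 +25*z*m^12*B^4 +4*z*m^7*B^2*t2*t3)*z5 + (3*z*e*m^7*B^2*t1*t4 -3*z*e*m^7*B^2*t2*t3 +5*z*m^7*B^2*t1*t4 -4*z*m^7*B^2*t2*t3)*he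
  · linear_combination ((t4*T2)*E1 + (z^3*(5+3*e)*m^6*B^2)*E2) - (-1-e)*((t4*T4)*E4 + (z^2*(2+e)*m^4*B*t3)*E4) - ((5+3*e)*m^5*B)*t4*E3 + (-8*z^4*e*m^8*B^2 -13*z^4*m^8*B^2)*q1 + (0)*z5 + (z^4*e*m^8*B^2*t3^2 +3*z^4*m^8*B^3*t1 -3*z^4*m^8*B^2*t2*t4 -4*z^4*m^8*B^2*t3^2)*he
  · linear_combination ((t4*T1)*E3 + (z^4*(2+e)*m^3*B*t2)*E1) - e*((t4*T2)*E2 + (z*(2+e)*m^2*B*t1)*E2) - B*t4*E4 + (-z^2*e*m^4*B^2 -2*z^2*m^4*B^2)*q2 + (3*z^2*e^2*m^9*B^3*t2 +11*z^2*e*m^9*B^3*t2 +10*z^2*m^9*B^3*t2)*z5 + (-z^2*e*m^4*B^2*t1^2 -2*z^2*m^4*B^2*t1^2)*he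

theorem tT_aux (he : e ^ 2 + e - 1 = 0) :
    (-1 - e) * (0 * ((-1 - e) * (2 + e) * m ^ 4 * B)) + e * ((-(2 + e) * m ^ 2 * B) *
      (-(-1 - e) * (2 + e) * m ^ 3 * B)) = -(((5 + 3 * e) * m ^ 5 * B) * B) ∧
    (-(2 + e) * m ^ 2 * B) * ((-1 - e) * (2 + e) * m ^ 4 * B) -
      e * (-(-1 - e) * (2 + e) * m ^ 3 * B) ^ 2 = B * 0 ∧
    (-(-1 - e) * (2 + e) * m ^ 3 * B) * ((-1 - e) * (2 + e) * m ^ 4 * B) - (-1 - e) * 0 ^ 2 =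
      ((5 + 3 * e) * m ^ 5 * B) * (-(2 + e) * m ^ 2 * B) ∧
    0 * (-(2 + e) * m ^ 2 * B) - (-1 - e) * ((-1 - e) * (2 + e) * m ^ 4 * B) ^ 2 =
      ((5 + 3 * e) * m ^ 5 * B) * (-(-1 - e) * (2 + e) * m ^ 3 * B) ∧
    (-(-1 - e) * (2 + e) * m ^ 3 * B) * 0 - e * (-(2 + e) * m ^ 2 * B) ^ 2 =
      B * ((-1 - e) * (2 + e) * m ^ 4 * B) := by
  refine ⟨?_, ?_, ?_, ?_, ?_⟩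
  · linear_combination (-e^2*m^5*B^2 -4*e*m^5*B^2 -5*m^5*B^2)*he
  · linear_combination (-e^3*m^6*B^2 -5*e^2*m^6*B^2 -8*e*m^6*B^2 -4*m^6*B^2)*he
  · linear_combination (-e^2*m^7*B^2 -5*e*m^7*B^2 -6*m^7*B^2)*he
  · linear_combination (e^3*m^8*B^2 +6*e^2*m^8*B^2 +11*e*m^8*B^2 +6*m^8*B^2)*he
  · linear_combination (-e*m^4*B^2 -2*m^4*B^2)*he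

set_option maxHeartbeats 1000000 in
theorem det_aux (he : e ^ 2 + e - 1 = 0) (hz2 : z ^ 2 - e * z + 1 = 0) {t0 : F}
    (h0 : t0 = 5 - 10 * e - (4 * e - 2) * B)
    (q0 : (-1 - e) * (t1 * t4) + e * (t2 * t3) = -(((5 + 3 * e) * m ^ 5 * B) * B))
    (q1 : t2 * t4 - e * t3 ^ 2 = B * t1)
    (q2 : t3 * t4 - (-1 - e) * t1 ^ 2 = ((5 + 3 * e) * m ^ 5 * B) * t2)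
    (q3 : t1 * t2 - (-1 - e) * t4 ^ 2 = ((5 + 3 * e) * m ^ 5 * B) * t3) :
    ((t0 + -(2 + e) * m ^ 2 * B + -(-1 - e) * (2 + e) * m ^ 3 * B + (-1 - e) * (2 + e) * m ^ 4 * B) -
      (t0 + t1 + t2 + t3 + t4)) * (t0 * t4 + z ^ 3 * (5 + 3 * e) * m ^ 6 * B ^ 2 +
        z * (2 + e) * m ^ 2 * B * t1 + z ^ 4 * (2 + e) * m ^ 3 * B * t2 +
        z ^ 2 * (2 + e) * m ^ 4 * B * t3 - t4 * (t0 + z * t1 + z ^ 2 * t2 + z ^ 3 * t3 + z ^ 4 * t4)) -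
    (t0 * t4 + z * (z ^ 3 * (5 + 3 * e) * m ^ 6 * B ^ 2) + z ^ 2 * (z * (2 + e) * m ^ 2 * B * t1) +
      z ^ 3 * (z ^ 4 * (2 + e) * m ^ 3 * B * t2) + z ^ 4 * (z ^ 2 * (2 + e) * m ^ 4 * B * t3) -
        t4 * (t0 + t1 + t2 + t3 + t4)) *
    ((t0 + z ^ 2 * (-(2 + e) * m ^ 2 * B) + z ^ 3 * (-(-1 - e) * (2 + e) * m ^ 3 * B) +
      z ^ 4 * ((-1 - e) * (2 + e) * m ^ 4 * B)) -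
      (t0 + z * t1 + z ^ 2 * t2 + z ^ 3 * t3 + z ^ 4 * t4)) = 0 := by
  subst h0
  have z2 : z ^ 2 = e * z - 1 := by linear_combination hz2
  have z3 : z ^ 3 = -z * e - e := by linear_combination (z + e) * hz2 + z * he
  have z4 : z ^ 4 = e - z := by
    linear_combination (z ^ 2 + e * z + e ^ 2 - 1) * hz2 + (z * e - z - 1) * he
  rw [z4, z3, z2]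
  linear_combination (-2*z*e*m^4*B +2*z*e*m^3*B -4*z*m^4*B +3*z*m^3*B +e*m^4*B +e*m^3*B +m^4*B +m^3*B)*q0 + (3*z*e*m^4*B +5*z*m^4*B -3*e*m^4*B -5*m^4*B)*q1 + (-2*z*e*m^2*B -2*z*m^2*B +m^2*B)*q2 + (-z*e*m^2*B +z*m^3*B -2*z*m^2*B -2*e*m^3*B +e*m^2*B -2*m^3*B +2*m^2*B)*q3 + (-3*z*e^5*m^9*B^3 -z*e^5*m^7*B^2*t3 +z*e^5*m^6*B^2*t2 +z*e^5*m^5*B^2*t1 +3*z*e^4*m^10*B^3 -14*z*e^4*m^9*B^3 -3*z*e^4*m^8*B^3 +z*e^4*m^8*B^2*t3 -z*e^4*m^7*B^2*t2 -5*z*e^4*m^7*B^2*t3 -z*e^4*m^6*B^2*t1 +5*z*e^4*m^6*B^2*t2 -z*e^4*m^6*B^2*t3 +5*z*e^4*m^5*B^2*t1 +z*e^4*m^5*B^2*t2 +z*e^4*m^4*B^2*t1 +14*z*e^3*m^10*B^3 -21*z*e^3*m^9*B^3 -11*z*e^3*m^8*B^3 +5*z*e^3*m^8*B^2*t3 -5*z*e^3*m^7*B^2*t2 -8*z*e^3*m^7*B^2*t3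 -5*z*e^3*m^6*B^2*t1 +5*z*e^3*m^6*B^2*t2 -z*e^3*m^6*B^2*t3 +8*z*e^3*m^5*B^2*t1 +4*z*e^3*m^5*B^2*t2 +4*z*e^3*m^4*B^2*t1 -z*e^3*m^4*B*t2*t3 +z*e^3*m^4*B*t3^2 +z*e^3*m^3*B*t2^2 -z*e^3*m^3*B*t2*t3 +z*e^3*m^2*B*t1*t2 -z*e^3*m^2*B*t1*t3 +21*z*e^2*m^10*B^3 -10*z*e^2*m^9*B^3 -10*z*e^2*m^8*B^3 +8*z*e^2*m^8*B^2*t3 -8*z*e^2*m^7*B^2*t2 -4*z*e^2*m^7*B^2*t3 -11*z*e^2*m^6*B^2*t1 -z*e^2*m^6*B^2*t2 +z*e^2*m^6*B^2*t3 +3*z*e^2*m^6*B^2*t4 +4*z*e^2*m^5*B^2*t1 +4*z*e^2*m^5*B^2*t2 +4*z*e^2*m^4*B^2*t1 -z*e^2*m^4*B*t1*t3 -2*z*e^2*m^4*B*t2*t3 +2*z*e^2*m^4*B*t3^2 +z*e^2*m^4*B*t3*t4 +z*e^2*m^3*B*t1*t2 +2*z*e^2*m^3*B*t2^2 -2*z*e^2*m^3*B*t2*t3 -z*e^2*m^3*B*t2*t4 +z*e^2*m^2*B*t1^2 +2*z*e^2*m^2*B*t1*t2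 -2*z*e^2*m^2*B*t1*t3 -z*e^2*m^2*B*t1*t4 +10*z*e*m^10*B^3 +4*z*e*m^8*B^2*t3 -4*z*e*m^7*B^2*t2 -9*z*e*m^6*B^2*t1 +5*z*e*m^6*B^2*t4 -2*z*e*m^4*B*t1*t3 +2*z*e*m^4*B*t3*t4 +2*z*e*m^3*B*t1*t2 -2*z*e*m^3*B*t2*t4 +2*z*e*m^2*B*t1^2 -2*z*e*m^2*B*t1*t4 -3*e^6*m^9*B^3 +e^6*m^5*B^2*t1 -20*e^5*m^9*B^3 -3*e^5*m^8*B^3 -e^5*m^8*B^2*t3 +e^5*m^7*B^2*t2 -e^5*m^7*B^2*t3 +2*e^5*m^6*B^2*t2 +6*e^5*m^5*B^2*t1 +e^5*m^4*B^2*t1 +3*e^4*m^10*B^3 -49*e^4*m^9*B^3 -14*e^4*m^8*B^3 -5*e^4*m^8*B^2*t3 +4*e^4*m^7*B^2*t2 -4*e^4*m^7*B^2*t3 +7*e^4*m^6*B^2*t2 +3*e^4*m^6*B^2*t3 +12*e^4*m^5*B^2*t1 +e^4*m^5*B^2*t2 +4*e^4*m^4*B^2*t1 +e^4*m^2*B*t1*t2 -e^4*m^2*B*t1*t3 +14*e^3*m^10*B^3 -52*e^3*m^9*B^3 -18*e^3*m^8*B^3 -9*e^3*m^8*B^2*t3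 +3*e^3*m^7*B^2*t2 -3*e^3*m^7*B^2*t3 -2*e^3*m^6*B^2*t1 +8*e^3*m^6*B^2*t2 +13*e^3*m^6*B^2*t3 +7*e^3*m^5*B^2*t1 +3*e^3*m^5*B^2*t2 +2*e^3*m^4*B^2*t1 +e^3*m^4*B*t3^2 -e^3*m^4*B*t3*t4 +e^3*m^3*B*t2^2 -2*e^3*m^3*B*t2*t3 +e^3*m^3*B*t2*t4 +e^3*m^2*B*t1^2 +2*e^3*m^2*B*t1*t2 -3*e^3*m^2*B*t1*t3 +21*e^2*m^10*B^3 -20*e^2*m^9*B^3 +e^2*m^8*B^3 -9*e^2*m^8*B^2*t3 -4*e^2*m^7*B^2*t2 +4*e^2*m^7*B^2*t3 -3*e^2*m^6*B^2*t1 +6*e^2*m^6*B^2*t2 +18*e^2*m^6*B^2*t3 +3*e^2*m^6*B^2*t4 -4*e^2*m^5*B^2*t1 -8*e^2*m^4*B^2*t1 +2*e^2*m^4*B*t2*t3 +e^2*m^4*B*t3^2 -2*e^2*m^4*B*t3*t4 +e^2*m^3*B*t1*t2 +e^2*m^3*B*t2^2 -4*e^2*m^3*B*t2*t3 +e^2*m^3*B*t2*t4 +2*e^2*m^2*B*t1^2 -2*e^2*m^2*B*t1*t2 -e^2*m^2*B*t1*t3 +10*e*m^10*B^3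 +10*e*m^8*B^3 -8*e*m^8*B^2*t3 -4*e*m^7*B^2*t2 +4*e*m^7*B^2*t3 +3*e*m^6*B^2*t1 +5*e*m^6*B^2*t2 +8*e*m^6*B^2*t3 +5*e*m^6*B^2*t4 -4*e*m^5*B^2*t1 -4*e*m^5*B^2*t2 -8*e*m^4*B^2*t1 +e*m^4*B*t1*t3 +4*e*m^4*B*t2*t3 -2*e*m^4*B*t3^2 -e*m^4*B*t3*t4 +2*e*m^3*B*t1*t2 -2*e*m^3*B*t2^2 -2*e*m^3*B*t2*t4 -e*m^2*B*t1^2 -4*e*m^2*B*t1*t2 +2*e*m^2*B*t1*t3 +e*m^2*B*t1*t4 -4*m^8*B^2*t3 +4*m^6*B^2*t1 +2*m^4*B*t1*t3 -2*m^4*B*t3*t4 -2*m^2*B*t1^2 +2*m^2*B*t1*t4)*hz2 + (-3*z*e^5*m^9*B^3 +z*e^5*m^5*B^2*t1 -17*z*e^4*m^9*B^3 -3*z*e^4*m^8*B^3 +5*z*e^4*m^5*B^2*t1 +z*e^4*m^4*B^2*t1 -35*z*e^3*m^9*B^3 -11*z*e^3*m^8*B^3 +z*e^3*m^7*B^2*t2 +z*e^3*m^7*B^2*t3 -3*z*e^3*m^6*B^2*t2 +3*z*e^3*m^6*B^2*t3 +7*z*e^3*m^5*B^2*t1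 +3*z*e^3*m^4*B^2*t1 +z*e^3*m^2*B*t1*t2 -z*e^3*m^2*B*t1*t3 -37*z*e^2*m^9*B^3 -7*z*e^2*m^8*B^3 -z*e^2*m^8*B^2*t3 +5*z*e^2*m^7*B^2*t2 +6*z*e^2*m^7*B^2*t3 -2*z*e^2*m^6*B^2*t1 -5*z*e^2*m^6*B^2*t2 +9*z*e^2*m^6*B^2*t3 -z*e^2*m^5*B^2*t1 -z*e^2*m^5*B^2*t2 -z*e^2*m^4*B^2*t1 +z*e^2*m^2*B*t1^2 +z*e^2*m^2*B*t1*t2 -2*z*e^2*m^2*B*t1*t3 -32*z*e*m^9*B^3 +14*z*e*m^8*B^3 -4*z*e*m^8*B^2*t3 +10*z*e*m^7*B^2*t2 +13*z*e*m^7*B^2*t3 -2*z*e*m^6*B^2*t1 +2*z*e*m^6*B^2*t2 +7*z*e*m^6*B^2*t3 -8*z*e*m^5*B^2*t1 -4*z*e*m^5*B^2*t2 -8*z*e*m^4*B^2*t1 +z*e*m^4*B*t2*t3 +z*e*m^4*B*t2*t4 -z*e*m^4*B*t3^2 -z*e*m^4*B*t3*t4 -z*e*m^3*B*t1*t4 -z*e*m^3*B*t2^2 -z*e*m^3*B*t2*t4 -z*e*m^3*B*t4^2 +z*e*m^2*B*t1^2 -3*z*e*m^2*B*t1*t2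 +z*e*m^2*B*t1*t3 -20*z*m^9*B^3 +15*z*m^8*B^3 -5*z*m^8*B^2*t3 +6*z*m^7*B^2*t2 +10*z*m^7*B^2*t3 +4*z*m^6*B^2*t1 +4*z*m^6*B^2*t2 +4*z*m^6*B^2*t3 -4*z*m^5*B^2*t1 -4*z*m^5*B^2*t2 -5*z*m^4*B^2*t1 +2*z*m^4*B*t2*t3 +3*z*m^4*B*t2*t4 -2*z*m^4*B*t3*t4 -z*m^3*B*t1*t2 -z*m^3*B*t1*t4 -2*z*m^3*B*t2^2 -2*z*m^3*B*t2*t3 -2*z*m^3*B*t2*t4 -z*m^3*B*t4^2 -2*z*m^2*B*t1*t2 +2*z*m^2*B*t1*t3 -2*z*m^2*B*t3*t4 +3*e^4*m^9*B^3 -e^4*m^7*B^2*t2 -e^4*m^6*B^2*t2 -e^4*m^5*B^2*t1 +17*e^3*m^9*B^3 +3*e^3*m^8*B^3 -5*e^3*m^7*B^2*t2 -6*e^3*m^6*B^2*t2 -5*e^3*m^5*B^2*t1 -e^3*m^4*B^2*t1 +32*e^2*m^9*B^3 +11*e^2*m^8*B^3 -9*e^2*m^7*B^2*t2 -e^2*m^7*B^2*t3 -9*e^2*m^6*B^2*t2 -3*e^2*m^6*B^2*t3 -8*e^2*m^5*B^2*t1 -3*e^2*m^4*B^2*t1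 +e^2*m^3*B*t2*t3 -e^2*m^3*B*t2*t4 -e^2*m^2*B*t1*t2 +e^2*m^2*B*t1*t3 +23*e*m^9*B^3 +13*e*m^8*B^3 +2*e*m^8*B^2*t3 -8*e*m^7*B^2*t2 -5*e*m^7*B^2*t3 +2*e*m^6*B^2*t1 -4*e*m^6*B^2*t2 -9*e*m^6*B^2*t3 -4*e*m^5*B^2*t1 -e*m^4*B*t1*t4 -e*m^4*B*t2*t4 -2*e*m^4*B*t3*t4 -e*m^3*B*t1*t4 +3*e*m^3*B*t2*t3 -3*e*m^3*B*t2*t4 -2*e*m^3*B*t4^2 -e*m^2*B*t1^2 -e*m^2*B*t1*t2 +2*e*m^2*B*t1*t3 +5*m^9*B^3 +5*m^8*B^3 +2*m^8*B^2*t3 -5*m^7*B^2*t2 -6*m^7*B^2*t3 +4*m^6*B^2*t1 -4*m^6*B^2*t3 +5*m^4*B^2*t1 -m^4*B*t1*t4 -2*m^4*B*t2*t3 -3*m^4*B*t2*t4 -2*m^4*B*t3^2 -4*m^4*B*t3*t4 -2*m^3*B*t1*t2 -m^3*B*t1*t4 -2*m^3*B*t2*t4 -2*m^3*B*t4^2 -m^2*B*t1^2 +2*m^2*B*t1*t2 -m^2*B*t3*t4)*he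

end mv

end Pool.Agent.Helper23K9.T5
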