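import Pool.Agent.Helper23K9.T5.Pair

/-!
Prime powers and divisors modulo five.
-/

set_option autoImplicit false
set_option linter.all false

open Polynomial IsDedekindDomain
open scoped Classical

namespace Pool.Agent.Helper23K9.T5

open Pool.Agent.TH115.GD (vInf pl)

section grp

theorem inf_of_ind {A : Type*} [AddCommGroup A] {P Q : A}
    (hind : ∀ (l0 l1 : ℕ) (R : A), 5 • R = l0 • P + l1 • Q → 5 ∣ l0 ∧ 5 ∣ l1)
    (htor : ∀ S : A, 5 • S = 0 → ∃ i : ℕ, S = i • P) (hP : 5 • P = 0) :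
    ∀ n : ℕ, n ≠ 0 → n • Q ≠ 0 := by
  intro n
  induction n using Nat.strong_induction_on with
  | _ n ih =>
    intro hn h0
    obtain ⟨-, m, rfl⟩ := hind 0 n 0 (by rw [h0, smul_zero, zero_smul, add_zero])
    have hm : m ≠ 0 := by
      rintro rfl
      exact hn (mul_zero 5)
    obtain ⟨i, hi⟩ := htor (m • Q) (by rw [smul_smul, h0])
    have h1 : (4 * i) • P + m • Q = 0 := by
      rw [hi, ← add_smul]
      have : 4 * i + i = i * 5 := by ring
      rw [this, mul_smul, hP, smul_zero]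
    obtain ⟨h2, -⟩ := hind (4 * i) m 0 (by rw [h1, smul_zero])
    have h3 : 5 ∣ i := by omega
    obtain ⟨j, rfl⟩ := h3
    refine ih m (by omega) hm ?_
    rw [hi, mul_comm, mul_smul, hP, smul_zero]

end grp

section pp

variable {k : Type} [Field k]

theorem PP5.ne0 {p : k[X]} (h : PP5 p) : p ≠ 0 := by
  obtain ⟨c, π, m, hc, hi, hs, hd, hm, e⟩ := h
  rw [e]
  exact mul_ne_zero (C_ne_zero.2 hc) (pow_ne_zero _ hi.ne_zero)

/-- The prime factor. -/
theorem PP5.data {p : k[X]} (h : PP5 p) : ∃ (c : k) (π : k[X]) (m : ℕ), c ≠ 0 ∧ Irreducible π ∧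
    π.Monic ∧ π.Separable ∧ ¬ 5 ∣ π.natDegree ∧ ¬ 5 ∣ m ∧ p = C c * π ^ m := by
  obtain ⟨c, π, m, hc, hi, hs, hd, hm, e⟩ := h
  have hl : π.leadingCoeff ≠ 0 := leadingCoeff_ne_zero.2 hi.ne_zero
  have hu : IsUnit (C π.leadingCoeff⁻¹ : k[X]) := isUnit_C.2 (isUnit_iff_ne_zero.2 (inv_ne_zero hl))
  refine ⟨c * π.leadingCoeff ^ m, C π.leadingCoeff⁻¹ * π, m, mul_ne_zero hc (pow_ne_zero _ hl),
    (irreducible_isUnit_mul hu).2 hi, ?_, ?_, ?_, hm, ?_⟩
  · rw [mul_comm]
    exact monic_mul_leadingCoeff_inv hi.ne_zero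
  · exact Separable.unit_mul hu hs
  · rwa [natDegree_C_mul (inv_ne_zero hl)]
  · rw [e, mul_pow, ← C_pow, ← mul_assoc, ← C_mul, inv_pow, mul_assoc c,
      mul_inv_cancel₀ (pow_ne_zero _ hl), mul_one]

theorem PP5.dvd_imp {c : k} {π q : k[X]} {m : ℕ} (hc : c ≠ 0) (hi : Irreducible π)
    (hq : Irreducible q) (h : q ∣ C c * π ^ m) : Associated q π := by
  have h1 : q ∣ π ^ m := by
    rcases (hq.prime.dvd_mul).1 h with h | h
    · exact absurd (isUnit_of_dvd_unit h (isUnit_C.2 (isUnit_iff_ne_zero.2 hc))) hq.not_isUnit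
    · exact h
  exact hq.associated_of_dvd hi (hq.prime.dvd_of_dvd_pow h1)

theorem pairOK_of {p q : k[X]} (hc : IsCoprime p q) (hp : PP5 p) (hq : PP5 q) : PairOK p q := by
  obtain ⟨c, π, m, hc0, hi, hmo, hs, hd, hm, e⟩ := hp.data
  obtain ⟨c', π', m', hc0', hi', hmo', hs', hd', hm', e'⟩ := hq.data
  have hm0 : m ≠ 0 := by
    rintro rfl
    exact hm (dvd_zero 5)
  refine ⟨hc, hp.ne0, hq.ne0, ?_, ?_⟩
  · intro r hr hdv
    rcases (hr.prime.dvd_mul).1 hdv with h | h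
    · rw [e] at h
      exact (PP5.dvd_imp hc0 hi hr h).symm.separable hs
    · rw [e'] at h
      exact (PP5.dvd_imp hc0' hi' hr h).symm.separable hs'
  · refine ⟨π, m, hi, hd, hm, ?_, ?_⟩
    · rw [e]
      exact Dvd.dvd.mul_right (Dvd.intro_left _ rfl) _
    · intro h
      rw [e, pow_succ, mul_assoc, mul_left_comm] at h
      have h1 : π ∣ C c * q := (mul_dvd_mul_iff_left (pow_ne_zero m hi.ne_zero)).1 h
      have h2 : π ∣ q := by
        rcases (hi.prime.dvd_mul).1 h1 with h | h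
        · exact absurd (isUnit_of_dvd_unit h (isUnit_C.2 (isUnit_iff_ne_zero.2 hc0))) hi.not_isUnit
        · exact h
      have h3 : π ∣ p := by
        rw [e]
        exact Dvd.dvd.mul_left (dvd_pow_self π hm0) _
      exact hi.not_isUnit (hc.isUnit_of_dvd' h3 h2)

/-- At most two irreducible factors. -/
theorem card_irr {p q : k[X]} (hp : PP5 p) (hq : PP5 q) : (irr (p * q)).card ≤ 2 := by
  obtain ⟨c, π, m, hc0, hi, hmo, hs, hd, hm, e⟩ := hp.data
  obtain ⟨c', π', m', hc0', hi', hmo', hs', hd', hm', e'⟩ := hq.data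
  have hsub : irr (p * q) ⊆ {π, π'} := by
    intro r hr
    obtain ⟨hri, hrm, hrd⟩ := (mem_irr (mul_ne_zero hp.ne0 hq.ne0)).1 hr
    rw [Finset.mem_insert, Finset.mem_singleton]
    rcases (hri.prime.dvd_mul).1 hrd with h | h
    · rw [e] at h
      exact Or.inl (eq_of_monic_of_associated hrm hmo (PP5.dvd_imp hc0 hi hri h))
    · rw [e'] at h
      exact Or.inr (eq_of_monic_of_associated hrm hmo' (PP5.dvd_imp hc0' hi' hri h))
  exact (Finset.card_le_card hsub).trans Finset.card_le_two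

theorem nPl_le2 {p q : k[X]} (hp : PP5 p) (hq : PP5 q) (h : p.natDegree = q.natDegree) :
    nPl p q ≤ 2 := by
  unfold nPl
  rw [if_pos h]
  exact card_irr hp hq

theorem nPl_le3 {p q : k[X]} (hp : PP5 p) (hq : PP5 q) : nPl p q ≤ 3 := by
  unfold nPl
  have := card_irr hp hq
  split_ifs <;> omega

end pp

end Pool.Agent.Helper23K9.T5
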