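import Pool.Agent.Helper23K9.T5.Tors
import Pool.Agent.Helper23K9.T5.Pps

/-!
Independence of points modulo five.
-/

set_option autoImplicit false
set_option linter.all false

open Polynomial IsDedekindDomain WeierstrassCurve WeierstrassCurve.Affine
open scoped Classical

namespace Pool.Agent.Helper23K9.T5

open Pool.Agent.TH115.GD (vInf pl Pt act incl IsTower mem_pl)

section ind

variable {k k' K F : Type} [Field k] [Field k'] [Algebra k k'] [IsSepClosure k k'] [Field K]
    [Algebra k[X] K] [IsFractionRing k[X] K]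
    [Field F] [Algebra k'[X] F] [IsFractionRing k'[X] F] [Algebra K F]

/-- A place at which the order of `p` is prime to five. -/
theorem HasM5.place (hKF : ∀ p : k[X],
      algebraMap K F (algebraMap k[X] K p) = algebraMap k'[X] F (p.map (algebraMap k k')))
    {p q : k[X]} (h : HasM5 p) (hp : p ≠ 0) (hq : q ≠ 0) (hc : IsCoprime p q)
    (hs : ∀ π : k[X], Irreducible π → π ∣ p → π.Separable) :
    ∃ v : HeightOneSpectrum k'[X], om5 v (algebraMap K F (algebraMap k[X] K p)) ≠ 0 ∧
      om5 v (algebraMap K F (algebraMap k[X] K q)) = 0 := by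
  haveI : IsSepClosed k' := IsSepClosure.sep_closed k
  have injk := (algebraMap k k').injective
  obtain ⟨π, m, hi, hm5, hdvd, hnd⟩ := h
  have hm0 : m ≠ 0 := by
    rintro rfl
    exact hm5 (dvd_zero 5)
  have hdv : π ∣ p := (dvd_pow_self π hm0).trans hdvd
  obtain ⟨θ, hθ, hmu⟩ := sep_root (k' := k') hi (hs π hi hdv)
  obtain ⟨r, hr⟩ := hdvd
  have hρr : ¬ π ∣ r := by
    rintro ⟨r', rfl⟩
    exact hnd ⟨r', by rw [hr]; ring⟩
  have hcop : IsCoprime π r := (hi.coprime_iff_not_dvd).2 hρr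
  have hrr : ¬ (r.map (algebraMap k k')).IsRoot θ := by
    have h1 := cop_root hcop hθ
    rwa [mem_pl] at h1
  have hr0 : r ≠ 0 := by
    rintro rfl
    exact hρr (dvd_zero π)
  have h0 : π.map (algebraMap k k') ≠ 0 := (Polynomial.map_ne_zero_iff injk).2 hi.ne_zero
  have h0r : r.map (algebraMap k k') ≠ 0 := (Polynomial.map_ne_zero_iff injk).2 hr0
  refine ⟨pl θ, ?_, ?_⟩
  · rw [om5_root hKF p hp, hr, Polynomial.map_mul, Polynomial.map_pow,
      rootMultiplicity_mul (mul_ne_zero (pow_ne_zero _ h0) h0r),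
      rootMultiplicity_eq_zero hrr, add_zero, ← count_roots, roots_pow, Multiset.count_nsmul,
      count_roots, hmu, mul_one, Ne, ZMod.natCast_eq_zero_iff]
    exact hm5
  · rw [om5_root hKF q hq]
    have hqr : ¬ (q.map (algebraMap k k')).IsRoot θ := by
      have hc2 : IsCoprime π q := hc.of_isCoprime_of_dvd_left hdv
      have h1 := cop_root hc2 hθ
      rwa [mem_pl] at h1
    rw [rootMultiplicity_eq_zero hqr, Nat.cast_zero]

end ind

section indep

variable {k' K F : Type} [Field k'] [Field K] [Field F] [Algebra k'[X] F] [IsFractionRing k'[X] F]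
  [Algebra K F] {b : K}

/-- The orders of the values of the descent function. -/
theorem om_dd (h : IsE5 ((crv5 b).baseChange F).toAffine (algebraMap K F b)) {N : ℕ}
    (Q : Fin N → Pt (crv5 b) F) (l : Fin N → ℕ) (R : Pt (crv5 b) F)
    (hR : 5 • R = ∑ j, l j • Q j) (v : HeightOneSpectrum k'[X]) :
    ∑ j, (l j : ZMod 5) * om5 v (dd (algebraMap K F b) (Q j)) = 0 := by
  obtain ⟨c, hc, e⟩ := dd_nsmul h 5 R
  obtain ⟨c', hc', e'⟩ := dd_sum h Finset.univ l Q
  rw [← hR, e] at e'
  have hR0 := dd_ne h R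
  have h1 : om5 v (∏ j, dd (algebraMap K F b) (Q j) ^ l j) = 0 := by
    have h2 : ∏ j, dd (algebraMap K F b) (Q j) ^ l j =
        (c * c'⁻¹ * dd (algebraMap K F b) R) ^ 5 * 1 := by
      have h3 : c' ^ 5 * c'⁻¹ ^ 5 = 1 := by rw [← mul_pow, mul_inv_cancel₀ hc', one_pow]
      have h4 : (c'⁻¹ ^ 5) * (c' ^ 5 * ∏ j, dd (algebraMap K F b) (Q j) ^ l j) =
          (c'⁻¹ ^ 5) * (c ^ 5 * dd (algebraMap K F b) R ^ 5) := by rw [e']
      linear_combination h4 - (∏ j, dd (algebraMap K F b) (Q j) ^ l j) * h3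
    rw [h2, om5_fifth _ (mul_ne_zero (mul_ne_zero hc (inv_ne_zero hc')) hR0) one_ne_zero, om5_one]
  have h5 : ∀ s : Finset (Fin N), om5 v (∏ j ∈ s, dd (algebraMap K F b) (Q j) ^ l j) =
      ∑ j ∈ s, (l j : ZMod 5) * om5 v (dd (algebraMap K F b) (Q j)) := by
    intro s
    induction s using Finset.induction_on with
    | empty => rw [Finset.prod_empty, Finset.sum_empty, om5_one]
    | insert a s ha ih =>
      rw [Finset.prod_insert ha, Finset.sum_insert ha, om5_mul v (pow_ne_zero _ (dd_ne h _))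
        (Finset.prod_ne_zero_iff.2 fun j _ => pow_ne_zero _ (dd_ne h _)), om5_pow, ih]
  rw [← h5, h1]

end indep

end Pool.Agent.Helper23K9.T5
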