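import Pool.Agent.Helper23K9.T5.Tr

/-!
The cyclic quintuple of the isogenous curve.
-/

set_option autoImplicit false
set_option linter.all false

open WeierstrassCurve WeierstrassCurve.Affine
open scoped Classical

namespace Pool.Agent.Helper23K9.T5

section vt

variable {F : Type*} [Field F]

/-- The quintuple of the isogenous curve. -/
def vt (e A B t1 t2 t3 t4 : F) (k : ZMod 5) : F :=
  (![-(e / A) * (t1 * t3 / t4), -(e * B) * (t2 / (t3 * t4)), (-1 - e) * (B / A) * (t1 * t4 / (t2 * t3)),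
    -(e * B) * (t3 / (t1 * t2)), -(e / A) * (t2 * t4 / t1)] : Fin 5 → F) k

variable {e A B t1 t2 t3 t4 : F}

theorem vt_vals : vt e A B t1 t2 t3 t4 0 = -(e / A) * (t1 * t3 / t4) ∧
    vt e A B t1 t2 t3 t4 1 = -(e * B) * (t2 / (t3 * t4)) ∧
    vt e A B t1 t2 t3 t4 2 = (-1 - e) * (B / A) * (t1 * t4 / (t2 * t3)) ∧
    vt e A B t1 t2 t3 t4 3 = -(e * B) * (t3 / (t1 * t2)) ∧
    vt e A B t1 t2 t3 t4 4 = -(e / A) * (t2 * t4 / t1) :=
  ⟨rfl, rfl, rfl, rfl, rfl⟩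

/-- The parameter of the isogenous curve. -/
def bb (e A B : F) : F := -(e * B) / A

theorem vt_cyc (he : e ^ 2 + e - 1 = 0) (hA : A ≠ 0) (hB : B ≠ 0) (n1 : t1 ≠ 0) (n2 : t2 ≠ 0)
    (n3 : t3 ≠ 0) (n4 : t4 ≠ 0)
    (q0 : (-1 - e) * (t1 * t4) + e * (t2 * t3) = -(A * B))
    (q1 : t2 * t4 - e * t3 ^ 2 = B * t1)
    (q2 : t3 * t4 - (-1 - e) * t1 ^ 2 = A * t2)
    (q3 : t1 * t2 - (-1 - e) * t4 ^ 2 = A * t3)
    (q4 : t3 * t1 - e * t2 ^ 2 = B * t4) : Cyc (bb e A B) (vt e A B t1 t2 t3 t4) := by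
  obtain ⟨v0, v1, v2, v3, v4⟩ := vt_vals (e := e) (A := A) (B := B) (t1 := t1) (t2 := t2)
    (t3 := t3) (t4 := t4)
  have key : ∀ i : ZMod 5, i = 0 ∨ i = 1 ∨ i = 2 ∨ i = 3 ∨ i = 4 := by decide
  refine ⟨?_, ?_, fun i => ?_⟩
  · rw [v0, v1, v2, v3, v4]
    have hne : A * (t1 * t2 * t3 * t4) ≠ 0 :=
      mul_ne_zero hA (mul_ne_zero (mul_ne_zero (mul_ne_zero n1 n2) n3) n4)
    have e0 : A * (t1 * t2 * t3 * t4) * (-(e / A) * (t1 * t3 / t4)) = -e * t1 ^ 2 * t2 * t3 ^ 2 := by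
      field_simp
    have e1 : A * (t1 * t2 * t3 * t4) * (-(e * B) * (t2 / (t3 * t4))) = -e * A * B * t1 * t2 ^ 2 := by
      field_simp
    have e2 : A * (t1 * t2 * t3 * t4) * ((-1 - e) * (B / A) * (t1 * t4 / (t2 * t3))) =
        (-1 - e) * B * t1 ^ 2 * t4 ^ 2 := by
      field_simp
    have e3 : A * (t1 * t2 * t3 * t4) * (-(e * B) * (t3 / (t1 * t2))) = -e * A * B * t3 ^ 2 * t4 := by
      field_simp
    have e4 : A * (t1 * t2 * t3 * t4) * (-(e / A) * (t2 * t4 / t1)) = -e * t2 ^ 2 * t3 * t4 ^ 2 := by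
      field_simp
    have e5 : A * (t1 * t2 * t3 * t4) * (2 * bb e A B - 1) =
        (-2 * e * B - A) * (t1 * t2 * t3 * t4) := by
      unfold bb
      field_simp
    apply mul_left_cancel₀ hne
    rw [e5, mul_add, mul_add, mul_add, mul_add, e0, e1, e2, e3, e4]
    linear_combination (-e*t1*t2^2 -e*t3^2*t4 +t1^2*t3) * q0 + (-e*t2*t3*t4 +A*t1*t3) * q1 +
      (-e*t1*t3^2) * q3 + (e*t1^2*t4 -e*t1*t2*t3 +t1^2*t4) * q4
  · rw [v0, v1, v2, v3, v4]
    have hne : A ^ 2 * (t1 * t2 * t3 * t4) ≠ 0 :=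
      mul_ne_zero (pow_ne_zero 2 hA) (mul_ne_zero (mul_ne_zero (mul_ne_zero n1 n2) n3) n4)
    have e02 : A ^ 2 * (t1 * t2 * t3 * t4) * (-(e / A) * (t1 * t3 / t4) *
        ((-1 - e) * (B / A) * (t1 * t4 / (t2 * t3)))) = -(e * (-1 - e)) * B * t1 ^ 3 * t3 * t4 := by
      field_simp
    have e13 : A ^ 2 * (t1 * t2 * t3 * t4) * (-(e * B) * (t2 / (t3 * t4)) *
        (-(e * B) * (t3 / (t1 * t2)))) = A ^ 2 * e ^ 2 * B ^ 2 * t2 * t3 := by
      field_simp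
    have e24 : A ^ 2 * (t1 * t2 * t3 * t4) * ((-1 - e) * (B / A) * (t1 * t4 / (t2 * t3)) *
        (-(e / A) * (t2 * t4 / t1))) = -(e * (-1 - e)) * B * t1 * t2 * t4 ^ 3 := by
      field_simp
    have e30 : A ^ 2 * (t1 * t2 * t3 * t4) * (-(e * B) * (t3 / (t1 * t2)) *
        (-(e / A) * (t1 * t3 / t4))) = e ^ 2 * A * B * t1 * t3 ^ 3 := by
      field_simp
    have e41 : A ^ 2 * (t1 * t2 * t3 * t4) * (-(e / A) * (t2 * t4 / t1) *
        (-(e * B) * (t2 / (t3 * t4)))) = e ^ 2 * A * B * t2 ^ 3 * t4 := by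
      field_simp
    have e5 : A ^ 2 * (t1 * t2 * t3 * t4) * (bb e A B ^ 2 - 3 * bb e A B) =
        (e ^ 2 * B ^ 2 + 3 * e * A * B) * (t1 * t2 * t3 * t4) := by
      unfold bb
      field_simp
      ring
    apply mul_left_cancel₀ hne
    rw [e5, mul_add, mul_add, mul_add, mul_add, e02, e13, e24, e30, e41]
    linear_combination B * (-e*A*t2*t3 -e*t1^2*t3 -e*t1*t2^2 -e*t2*t4^2 +A*t2*t3 -t1*t2^2) * q0 +
      B * (-e*A*t1*t3 -e*A*t2^2 -A*t2^2 -t1*t4^2 +t2*t3*t4) * q1 +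
      B * (-e*t1*t3*t4 -e*t2^2*t4 +e*t2*t3^2 -t2^2*t4) * q2 +
      B * (e*t1*t2*t4 +e*t2^2*t3) * q3 +
      B * (-e*A*t2*t4 -e*t1*t2*t3 +t1^2*t4) * q4 +
      B * (A^2*B*t2*t3 -A*t1*t2*t3*t4 -B*t1*t2*t3*t4 -2*t1*t2*t4^3 + t1^3*t3*t4 + t1*t2*t4^3) * he
  · rcases key i with rfl | rfl | rfl | rfl | rfl
    · rw [show (0 + 2 : ZMod 5) = 2 from by decide, show (0 - 2 : ZMod 5) = 3 from by decide,
        v0, v2, v3]
      have hne : (A ^ 2 * t2 * t4) ≠ 0 := (mul_ne_zero (mul_ne_zero (pow_ne_zero 2 hA) n2) n4)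
      have f1 : (A ^ 2 * t2 * t4) * ((-(e / A) * (t1 * t3 / t4)) * ((-1 - e) * (B / A) * (t1 * t4 / (t2 * t3)))) = -e * (-1 - e) * B * t1 ^ 2 * t4 := by field_simp
      have f2 : (A ^ 2 * t2 * t4) * ((-(e / A) * (t1 * t3 / t4)) * (-(e * B) * (t3 / (t1 * t2)))) = e ^ 2 * A * B * t3 ^ 2 := by field_simp
      have f3 : (A ^ 2 * t2 * t4) * (bb e A B * ((-(e / A) * (t1 * t3 / t4)))) = e ^ 2 * B * t1 * t2 * t3 := by unfold bb; field_simp
      have f4 : (A ^ 2 * t2 * t4) * bb e A B = -e * A * B * t2 * t4 := by unfold bb; field_simp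
      apply mul_left_cancel₀ hne
      rw [mul_add, mul_add, mul_sub, f1, f2, f3, f4]
      linear_combination B * (-e * t1) * q0 + B * (-e * A) * q1
    · rw [show (1 + 2 : ZMod 5) = 3 from by decide, show (1 - 2 : ZMod 5) = 4 from by decide,
        v1, v3, v4]
      have hne : (A * t1 * t3 * t4) ≠ 0 := (mul_ne_zero (mul_ne_zero (mul_ne_zero hA n1) n3) n4)
      have f1 : (A * t1 * t3 * t4) * ((-(e * B) * (t2 / (t3 * t4))) * (-(e * B) * (t3 / (t1 * t2)))) = e ^ 2 * A * B ^ 2 * t3 := by field_simp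
      have f2 : (A * t1 * t3 * t4) * ((-(e * B) * (t2 / (t3 * t4))) * (-(e / A) * (t2 * t4 / t1))) = e ^ 2 * B * t2 ^ 2 * t4 := by field_simp
      have f3 : (A * t1 * t3 * t4) * (bb e A B * ((-(e * B) * (t2 / (t3 * t4))))) = e ^ 2 * B ^ 2 * t1 * t2 := by unfold bb; field_simp
      have f4 : (A * t1 * t3 * t4) * bb e A B = -e * B * t1 * t3 * t4 := by unfold bb; field_simp
      apply mul_left_cancel₀ hne
      rw [mul_add, mul_add, mul_sub, f1, f2, f3, f4]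
      linear_combination B * (-e * t4) * q4 + B * (-e ^ 2 * B) * q3 + e * B ^ 2 * t4 ^ 2 * he
    · rw [show (2 + 2 : ZMod 5) = 4 from by decide, show (2 - 2 : ZMod 5) = 0 from by decide,
        v2, v4, v0]
      have hne : (A ^ 2 * t2 * t3) ≠ 0 := (mul_ne_zero (mul_ne_zero (pow_ne_zero 2 hA) n2) n3)
      have f1 : (A ^ 2 * t2 * t3) * (((-1 - e) * (B / A) * (t1 * t4 / (t2 * t3))) * (-(e / A) * (t2 * t4 / t1))) = -e * (-1 - e) * B * t2 * t4 ^ 2 := by field_simp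
      have f2 : (A ^ 2 * t2 * t3) * (((-1 - e) * (B / A) * (t1 * t4 / (t2 * t3))) * (-(e / A) * (t1 * t3 / t4))) = -e * (-1 - e) * B * t1 ^ 2 * t3 := by field_simp
      have f3 : (A ^ 2 * t2 * t3) * (bb e A B * (((-1 - e) * (B / A) * (t1 * t4 / (t2 * t3))))) = -e * (-1 - e) * B ^ 2 * t1 * t4 := by unfold bb; field_simp
      have f4 : (A ^ 2 * t2 * t3) * bb e A B = -e * A * B * t2 * t3 := by unfold bb; field_simp
      apply mul_left_cancel₀ hne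
      rw [mul_add, mul_add, mul_sub, f1, f2, f3, f4]
      linear_combination B * t4 * q1 + B * (e * t3) * q2 + B * (t2 * t4 ^ 2 - B * t1 * t4) * he
    · rw [show (3 + 2 : ZMod 5) = 0 from by decide, show (3 - 2 : ZMod 5) = 1 from by decide,
        v3, v0, v1]
      have hne : (A * t1 * t2 * t4) ≠ 0 := (mul_ne_zero (mul_ne_zero (mul_ne_zero hA n1) n2) n4)
      have f1 : (A * t1 * t2 * t4) * ((-(e * B) * (t3 / (t1 * t2))) * (-(e / A) * (t1 * t3 / t4))) = e ^ 2 * B * t1 * t3 ^ 2 := by field_simp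
      have f2 : (A * t1 * t2 * t4) * ((-(e * B) * (t3 / (t1 * t2))) * (-(e * B) * (t2 / (t3 * t4)))) = e ^ 2 * A * B ^ 2 * t2 := by field_simp
      have f3 : (A * t1 * t2 * t4) * (bb e A B * ((-(e * B) * (t3 / (t1 * t2))))) = e ^ 2 * B ^ 2 * t3 * t4 := by unfold bb; field_simp
      have f4 : (A * t1 * t2 * t4) * bb e A B = -e * B * t1 * t2 * t4 := by unfold bb; field_simp
      apply mul_left_cancel₀ hne
      rw [mul_add, mul_add, mul_sub, f1, f2, f3, f4]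
      linear_combination B * (-e * t1) * q1 + B * (-e ^ 2 * B) * q2 + e * B ^ 2 * t1 ^ 2 * he
    · rw [show (4 + 2 : ZMod 5) = 1 from by decide, show (4 - 2 : ZMod 5) = 2 from by decide,
        v4, v1, v2]
      have hne : (A ^ 2 * t1 * t3) ≠ 0 := (mul_ne_zero (mul_ne_zero (pow_ne_zero 2 hA) n1) n3)
      have f1 : (A ^ 2 * t1 * t3) * ((-(e / A) * (t2 * t4 / t1)) * (-(e * B) * (t2 / (t3 * t4)))) = e ^ 2 * A * B * t2 ^ 2 := by field_simp
      have f2 : (A ^ 2 * t1 * t3) * ((-(e / A) * (t2 * t4 / t1)) * ((-1 - e) * (B / A) * (t1 * t4 / (t2 * t3)))) = -e * (-1 - e) * B * t1 * t4 ^ 2 := by field_simp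
      have f3 : (A ^ 2 * t1 * t3) * (bb e A B * ((-(e / A) * (t2 * t4 / t1)))) = e ^ 2 * B * t2 * t3 * t4 := by unfold bb; field_simp
      have f4 : (A ^ 2 * t1 * t3) * bb e A B = -e * A * B * t1 * t3 := by unfold bb; field_simp
      apply mul_left_cancel₀ hne
      rw [mul_add, mul_add, mul_sub, f1, f2, f3, f4]
      linear_combination B * (-e * A) * q4 + B * (-e * t4) * q0

/-- The quintuple of the isogenous curve does not change under translation by `(0, 0)`. -/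
theorem vt_scale {y : F} (hy : y ^ 5 = 1) (k : ZMod 5) :
    vt e A B (y * t1) (y ^ 2 * t2) (y ^ 3 * t3) (y ^ 4 * t4) k = vt e A B t1 t2 t3 t4 k := by
  have hy0 : y ≠ 0 := by
    rintro rfl
    norm_num at hy
  obtain ⟨v0, v1, v2, v3, v4⟩ := vt_vals (e := e) (A := A) (B := B) (t1 := t1) (t2 := t2)
    (t3 := t3) (t4 := t4)
  obtain ⟨w0, w1, w2, w3, w4⟩ := vt_vals (e := e) (A := A) (B := B) (t1 := y * t1)
    (t2 := y ^ 2 * t2) (t3 := y ^ 3 * t3) (t4 := y ^ 4 * t4)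
  have key : ∀ i : ZMod 5, i = 0 ∨ i = 1 ∨ i = 2 ∨ i = 3 ∨ i = 4 := by decide
  rcases key k with rfl | rfl | rfl | rfl | rfl
  · rw [v0, w0]
    congr 1
    rw [show y * t1 * (y ^ 3 * t3) = y ^ 4 * (t1 * t3) by ring,
      mul_div_mul_left _ _ (pow_ne_zero 4 hy0)]
  · rw [v1, w1]
    congr 1
    rw [show y ^ 3 * t3 * (y ^ 4 * t4) = y ^ 2 * (t3 * t4) * y ^ 5 by ring, hy, mul_one,
      mul_div_mul_left _ _ (pow_ne_zero 2 hy0)]
  · rw [v2, w2]
    congr 1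
    rw [show y * t1 * (y ^ 4 * t4) = y ^ 5 * (t1 * t4) by ring,
      show y ^ 2 * t2 * (y ^ 3 * t3) = y ^ 5 * (t2 * t3) by ring,
      mul_div_mul_left _ _ (pow_ne_zero 5 hy0)]
  · rw [v3, w3]
    congr 1
    rw [show y * t1 * (y ^ 2 * t2) = y ^ 3 * (t1 * t2) by ring,
      mul_div_mul_left _ _ (pow_ne_zero 3 hy0)]
  · rw [v4, w4]
    congr 1
    rw [show y ^ 2 * t2 * (y ^ 4 * t4) = y * (t2 * t4) * y ^ 5 by ring, hy, mul_one,
      mul_div_mul_left _ _ hy0]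

/-- The effect of the translation by the second point of order five. -/
theorem vt_move {z m s1 s2 s3 s4 : F} (he : e ^ 2 + e - 1 = 0) (hz : z ^ 5 = 1)
    (hA : A = (5 + 3 * e) * m ^ 5 * B) (nA : A ≠ 0) (n1 : t1 ≠ 0) (n2 : t2 ≠ 0)
    (n3 : t3 ≠ 0) (n4 : t4 ≠ 0)
    (E1 : t4 * s1 = z ^ 3 * (5 + 3 * e) * m ^ 6 * B ^ 2)
    (E2 : t4 * s2 = z * (2 + e) * m ^ 2 * B * t1)
    (E3 : t4 * s3 = z ^ 4 * (2 + e) * m ^ 3 * B * t2)
    (E4 : t4 * s4 = z ^ 2 * (2 + e) * m ^ 4 * B * t3) (k : ZMod 5) :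
    vt e A B s1 s2 s3 s4 k = vt e A B t1 t2 t3 t4 (k + 1) := by
  have hcc : (2 + e) ^ 2 - 3 * (2 + e) + 1 = 0 := by linear_combination he
  have hd : 5 + 3 * e = (2 + e) ^ 2 := by linear_combination -he
  rw [hd] at hA E1
  have hcd : e = (2 + e) - 2 := by ring
  obtain ⟨c, hc⟩ : ∃ c, c = 2 + e := ⟨_, rfl⟩
  rw [← hc] at hcc hA E1 E2 E3 E4 hcd
  have hm0 : m ≠ 0 := by
    rintro rfl
    apply nA
    rw [hA]; ring
  have nB : B ≠ 0 := by
    rintro rfl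
    apply nA
    rw [hA]; ring
  have nc : c ≠ 0 := by
    rintro rfl
    apply nA
    rw [hA]; ring
  have hz0 : z ≠ 0 := by
    rintro rfl
    norm_num at hz
  have F1 : s1 = z ^ 3 * c ^ 2 * m ^ 6 * B ^ 2 / t4 := by
    rw [eq_div_iff n4, mul_comm]; exact E1
  have F2 : s2 = z * c * m ^ 2 * B * t1 / t4 := by
    rw [eq_div_iff n4, mul_comm]; exact E2
  have F3 : s3 = z ^ 4 * c * m ^ 3 * B * t2 / t4 := by
    rw [eq_div_iff n4, mul_comm]; exact E3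
  have F4 : s4 = z ^ 2 * c * m ^ 4 * B * t3 / t4 := by
    rw [eq_div_iff n4, mul_comm]; exact E4
  obtain ⟨v0, v1, v2, v3, v4⟩ := vt_vals (e := e) (A := A) (B := B) (t1 := t1) (t2 := t2)
    (t3 := t3) (t4 := t4)
  obtain ⟨w0, w1, w2, w3, w4⟩ := vt_vals (e := e) (A := A) (B := B) (t1 := s1)
    (t2 := s2) (t3 := s3) (t4 := s4)
  have key : ∀ i : ZMod 5, i = 0 ∨ i = 1 ∨ i = 2 ∨ i = 3 ∨ i = 4 := by decide
  clear hc
  subst hcd
  rcases key k with rfl | rfl | rfl | rfl | rfl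
  · rw [show (0 + 1 : ZMod 5) = 1 from by decide, w0, v1, F1, F3, F4, hA]
    field_simp
    linear_combination -(c - 2) * hz
  · rw [show (1 + 1 : ZMod 5) = 2 from by decide, w1, v2, F2, F3, F4, hA]
    field_simp
    linear_combination -hcc + (c - 1) * hz
  · rw [show (2 + 1 : ZMod 5) = 3 from by decide, w2, v3, F1, F2, F3, F4, hA]
    field_simp
    linear_combination hcc
  · rw [show (3 + 1 : ZMod 5) = 4 from by decide, w3, v4, F1, F2, F3, hA]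
    field_simp
  · rw [show (4 + 1 : ZMod 5) = 0 from by decide, w4, v0, F1, F2, F4, hA]
    field_simp

end vt

end Pool.Agent.Helper23K9.T5
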