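import Pool.Agent.Helper23K9.T5.Act

/-!
Fifth roots and characters.
-/

set_option autoImplicit false
set_option linter.all false

open Polynomial IsDedekindDomain WeierstrassCurve WeierstrassCurve.Affine
open scoped Classical

namespace Pool.Agent.Helper23K9.T5

section kd

variable {F Ω : Type} [Field F] [Field Ω] [Algebra F Ω]

/-- `s ^ 5 = f`, and `s` is an eigenvector with character `χ`. -/
structure KD (z : Ω) (χ : (Ω ≃ₐ[F] Ω) → ZMod 5) (s : Ω) (f : F) : Prop where
  ne : s ≠ 0
  five : s ^ 5 = algebraMap F Ω f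
  act : ∀ σ : Ω ≃ₐ[F] Ω, σ s = z ^ (χ σ).val * s

end kd

end Pool.Agent.Helper23K9.T5
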