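import Pool.Agent.Helper23K9.T5.Kd
import Pool.Agent.Helper23K9.T5.Glob
import Pool.Agent.Helper23K9.T5.Exi

/-!
Places and valuations of `b = β / γ`.
-/

set_option autoImplicit false
set_option linter.all false

open Polynomial IsDedekindDomain WeierstrassCurve WeierstrassCurve.Affine
open scoped Classical

namespace Pool.Agent.Helper23K9.T5

open Pool.Agent.TH115.GD (vInf pl Pt act incl rs ak IsCoc LocTriv Sep Comp IsTower Preserves
  val_poly mem_pl vInf_poly)

section plc

variable {k : Type} [Field k] {z0 : k} {β γ : k[X]}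

theorem PP5.ne_zero' {p : k[X]} (h : PP5 p) : p ≠ 0 := by
  obtain ⟨c, π, m, hc, hπ, -, -, -, rfl⟩ := h
  exact mul_ne_zero (C_ne_zero.2 hc) (pow_ne_zero m hπ.ne_zero)

theorem Gen5.pos (hG : Gen5 z0 β γ) : β ≠ 0 ∧ γ ≠ 0 ∧ β - C (ep z0) * γ ≠ 0 ∧
    β - C (ep' z0) * γ ≠ 0 :=
  ⟨hG.b1.ne_zero', hG.b2.ne_zero', hG.b3.ne_zero', hG.b4.ne_zero'⟩

theorem isZ_ne_aux {F : Type*} [Field F] {z : F} (hz : IsZ z) :
    2 * eta z - 1 ≠ 0 ∧ 2 * eta' z - 1 ≠ 0 ∧ 5 + 3 * eta z ≠ 0 ∧ eta z + 2 ≠ 0 := by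
  have h1 := hz.eta_mul
  have h2 := hz.eta_add
  have e1 : (2 * eta z - 1) * (2 * eta' z - 1) = -1 := by linear_combination 4 * h1 - 2 * h2
  have e2 : (5 + 3 * eta z) * (5 + 3 * eta' z) = 1 := by linear_combination 9 * h1 + 15 * h2
  have e3 : (eta z + 2) * (eta' z + 2) = 1 := by linear_combination h1 + 2 * h2
  have hn : (-1 : F) ≠ 0 := neg_ne_zero.2 one_ne_zero
  refine ⟨?_, ?_, ?_, ?_⟩
  · intro h; rw [h, zero_mul] at e1; exact hn e1.symm
  · intro h; rw [h, mul_zero] at e1; exact hn e1.symm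
  · intro h; rw [h, zero_mul] at e2; exact one_ne_zero e2.symm
  · intro h; rw [h, zero_mul] at e3; exact one_ne_zero e3.symm

theorem isZ_ne_aux5 {F : Type*} [Field F] (h5 : (5 : F) ≠ 0) {z : F} (hz : IsZ z) :
    2 * eta z + 1 ≠ 0 ∧ 4 * eta z - 3 ≠ 0 ∧ ep' z - ep z ≠ 0 := by
  have h1 := hz.eta_mul
  have h2 := hz.eta_add
  have h3 := hz.eta_sq
  have e1 : (2 * eta z + 1) ^ 2 = 5 := by linear_combination 4 * h3
  have e2 : (4 * eta z - 3) * (4 * eta' z - 3) = 5 := by linear_combination 16 * h1 - 12 * h2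
  have e3 : ep' z - ep z = -(5 * (2 * eta z + 1)) := by
    unfold ep ep'
    linear_combination 5 * h2
  have n1 : 2 * eta z + 1 ≠ 0 := by
    intro h
    rw [h] at e1
    apply h5
    rw [← e1]
    ring
  refine ⟨n1, ?_, ?_⟩
  · intro h; rw [h, zero_mul] at e2; exact h5 e2.symm
  · rw [e3]
    exact neg_ne_zero.2 (mul_ne_zero h5 n1)

theorem Gen5.cop2 (h5 : (5 : k) ≠ 0) (hz : IsZ z0) (hG : Gen5 z0 β γ) :
    IsCoprime (β - C (ep z0) * γ) (β - C (ep' z0) * γ) := by
  obtain ⟨u, v, h⟩ := hG.cop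
  obtain ⟨-, -, hd⟩ := isZ_ne_aux5 h5 hz
  have hC : C ((ep' z0 - ep z0)⁻¹) * (C (ep' z0) - C (ep z0)) = (1 : k[X]) := by
    rw [← C_sub, ← C_mul, inv_mul_cancel₀ hd, C_1]
  refine ⟨C ((ep' z0 - ep z0)⁻¹) * (u * C (ep' z0) + v),
    -(C ((ep' z0 - ep z0)⁻¹) * (u * C (ep z0) + v)), ?_⟩
  linear_combination (C ((ep' z0 - ep z0)⁻¹) * (C (ep' z0) - C (ep z0))) * h + hC

section map

variable {R S : Type*} [Field R] [Field S] (f : R →+* S) (z : R)

theorem map_eta : f (eta z) = eta (f z) := by unfold eta; rw [map_add, map_pow]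
theorem map_eta' : f (eta' z) = eta' (f z) := by unfold eta'; rw [map_add, map_pow, map_pow]
theorem map_ep : f (ep z) = ep (f z) := by
  unfold ep; rw [map_add, map_mul, map_eta, map_ofNat, map_ofNat]
theorem map_ep' : f (ep' z) = ep' (f z) := by
  unfold ep'; rw [map_add, map_mul, map_eta', map_ofNat, map_ofNat]

end map

/-- `b ≠ 0`, ... -/
theorem Gen5.fld {K : Type} [Field K] [Algebra k[X] K] [IsFractionRing k[X] K] (h5 : (5 : k) ≠ 0)
    (hz : IsZ z0) (hG : Gen5 z0 β γ) {b z : K}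
    (hb : b = algebraMap k[X] K β / algebraMap k[X] K γ) (hzz : z = algebraMap k[X] K (C z0)) :
    (5 : K) ≠ 0 ∧ b ≠ 0 ∧ b ^ 2 - 11 * b - 1 ≠ 0 ∧ IsZ z ∧
    AA z b = algebraMap k[X] K (C (2 * eta z0 - 1) * (β - C (ep z0) * γ)) / algebraMap k[X] K γ ∧
    BB z b = algebraMap k[X] K (C (2 * eta' z0 - 1) * (β - C (ep' z0) * γ)) / algebraMap k[X] K γ ∧
    2 * eta z0 - 1 ≠ 0 ∧ 2 * eta' z0 - 1 ≠ 0 ∧ 5 + 3 * eta z0 ≠ 0 := by
  obtain ⟨p1, p2, p3, p4⟩ := hG.pos
  obtain ⟨q1, q2, q3, -⟩ := isZ_ne_aux hz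
  have inj := IsFractionRing.injective k[X] K
  have nz : ∀ {p : k[X]}, p ≠ 0 → algebraMap k[X] K p ≠ 0 := by
    intro p hp h
    exact hp (inj (h.trans (map_zero _).symm))
  set f : k →+* K := (algebraMap k[X] K).comp C with hf
  have hfC : ∀ c : k, algebraMap k[X] K (C c) = f c := fun c => rfl
  have hzf : z = f z0 := hzz
  have hG0 := nz p2
  have hzK : IsZ z := by rw [hzf]; exact hz.map f
  have hAA : AA z b =
      algebraMap k[X] K (C (2 * eta z0 - 1) * (β - C (ep z0) * γ)) / algebraMap k[X] K γ := by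
    unfold AA
    rw [(algebraMap k[X] K).map_mul, (algebraMap k[X] K).map_sub, (algebraMap k[X] K).map_mul,
      hfC, hfC, hb, map_ep, f.map_sub, f.map_mul, map_eta, map_one,
      map_ofNat, ← hzf]
    field_simp
  have hBB : BB z b =
      algebraMap k[X] K (C (2 * eta' z0 - 1) * (β - C (ep' z0) * γ)) / algebraMap k[X] K γ := by
    unfold BB
    rw [(algebraMap k[X] K).map_mul, (algebraMap k[X] K).map_sub, (algebraMap k[X] K).map_mul,
      hfC, hfC, hb, map_ep', f.map_sub, f.map_mul, map_eta', map_one,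
      map_ofNat, ← hzf]
    field_simp
  have hA0 : AA z b ≠ 0 := by
    rw [hAA]
    exact div_ne_zero (nz (mul_ne_zero (C_ne_zero.2 q1) p3)) hG0
  have hB0 : BB z b ≠ 0 := by
    rw [hBB]
    exact div_ne_zero (nz (mul_ne_zero (C_ne_zero.2 q2) p4)) hG0
  refine ⟨?_, ?_, ?_, hzK, hAA, hBB, q1, q2, q3⟩
  · rw [← map_ofNat f 5]
    exact (_root_.map_ne_zero _).2 h5
  · rw [hb]
    exact div_ne_zero (nz p1) hG0
  · intro h
    have h1 := hzK.eta_mul
    have h2 := hzK.eta_add
    have h3 : AA z b * BB z b = 0 := by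
      have e1 : (2 * eta z - 1) * (2 * eta' z - 1) = -1 := by linear_combination 4 * h1 - 2 * h2
      have e2 : (b - ep z) * (b - ep' z) = 0 := by
        unfold ep ep'
        linear_combination h + 25 * h1 + (40 - 5 * b) * h2
      unfold AA BB
      rw [show (2 * eta z - 1) * (b - ep z) * ((2 * eta' z - 1) * (b - ep' z)) =
        ((2 * eta z - 1) * (2 * eta' z - 1)) * ((b - ep z) * (b - ep' z)) by ring, e2, mul_zero]
    exact mul_ne_zero hA0 hB0 h3

theorem bb_id {F : Type*} [Field F] {z : F} (hz : IsZ z) {b : F} (hA : AA z b ≠ 0) :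
    AA z (bb (eta z) (AA z b) (BB z b)) =
      (2 * eta z - 1) * 5 * (eta z + 2) * (2 * eta z + 1) / AA z b ∧
    BB z (bb (eta z) (AA z b) (BB z b)) =
      -((2 * eta' z - 1) * 5 * (4 * eta z - 3)) * b / AA z b := by
  have h2 := hz.eta'
  have h3 := hz.eta_sq
  have e1 : eta z * BB z b + ep z * AA z b = -(5 * (eta z + 2) * (2 * eta z + 1)) := by
    unfold AA BB ep ep'
    rw [h2]
    linear_combination (8 * b - 60 * eta z - 74) * h3
  have e2 : eta z * BB z b + ep' z * AA z b = 5 * (4 * eta z - 3) * b := by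
    unfold AA BB ep ep'
    rw [h2]
    linear_combination (-12 * b + 40 * eta z - 24) * h3
  have e3 : ∀ c : F, bb (eta z) (AA z b) (BB z b) - c = -(eta z * BB z b + c * AA z b) / AA z b := by
    intro c
    unfold bb
    field_simp
    ring
  constructor
  · rw [show AA z (bb (eta z) (AA z b) (BB z b)) =
      (2 * eta z - 1) * (bb (eta z) (AA z b) (BB z b) - ep z) from rfl, e3, e1]
    ring
  · rw [show BB z (bb (eta z) (AA z b) (BB z b)) =
      (2 * eta' z - 1) * (bb (eta z) (AA z b) (BB z b) - ep' z) from rfl, e3, e2]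
    ring

/-- Valuations at the places where `b` is a unit. -/
theorem Gen5.val1 {K L : Type} [Field K] [Algebra k[X] K] [IsFractionRing k[X] K] [Field L]
    [Algebra K L] (h5 : (5 : k) ≠ 0)
    (hz : IsZ z0) (hG : Gen5 z0 β γ) {b z : K}
    (hb : b = algebraMap k[X] K β / algebraMap k[X] K γ) (hzz : z = algebraMap k[X] K (C z0))
    (w : Valuation L Zm) (hw : ∀ c : k, c ≠ 0 → w (algebraMap K L (algebraMap k[X] K (C c))) = 1)
    (h : w (algebraMap K L (algebraMap k[X] K β)) = w (algebraMap K L (algebraMap k[X] K γ))) :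
    AA (algebraMap K L z) (algebraMap K L (bb (eta z) (AA z b) (BB z b))) ≠ 0 ∧
    w (AA (algebraMap K L z) (algebraMap K L (bb (eta z) (AA z b) (BB z b)))) =
      w (BB (algebraMap K L z) (algebraMap K L (bb (eta z) (AA z b) (BB z b)))) := by
  obtain ⟨f1, f2, f3, hzK, hAA, hBB, q1, q2, q3⟩ := hG.fld h5 hz hb hzz
  obtain ⟨p1, p2, p3, p4⟩ := hG.pos
  obtain ⟨r1, r2, r3, r4⟩ := isZ_ne_aux hz
  obtain ⟨s1, s2, -⟩ := isZ_ne_aux5 h5 hz
  have inj := IsFractionRing.injective k[X] K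
  have nz : ∀ {p : k[X]}, p ≠ 0 → algebraMap k[X] K p ≠ 0 := by
    intro p hp h
    exact hp (inj (h.trans (map_zero _).symm))
  have hA0 : AA z b ≠ 0 := by
    rw [hAA]
    exact div_ne_zero (nz (mul_ne_zero (C_ne_zero.2 q1) p3)) (nz p2)
  obtain ⟨e1, e2⟩ := bb_id hzK hA0
  set g : K →+* L := algebraMap K L with hg
  have hAm : ∀ x : K, AA (g z) (g x) = g (AA z x) := by
    intro x
    unfold AA
    rw [map_mul, map_sub, map_sub, map_mul, map_one, map_ofNat, map_ep, map_eta]
  have hBm : ∀ x : K, BB (g z) (g x) = g (BB z x) := by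
    intro x
    unfold BB
    rw [map_mul, map_sub, map_sub, map_mul, map_one, map_ofNat, map_ep', map_eta']
  set f : k →+* K := (algebraMap k[X] K).comp C with hf
  have hzf : z = f z0 := hzz
  have c1 : (2 * eta z - 1) * 5 * (eta z + 2) * (2 * eta z + 1) =
      f ((2 * eta z0 - 1) * 5 * (eta z0 + 2) * (2 * eta z0 + 1)) := by
    rw [hzf, ← map_eta]
    simp only [map_mul, map_sub, map_add, map_one, map_ofNat]
  have c2 : -((2 * eta' z - 1) * 5 * (4 * eta z - 3)) =
      f (-((2 * eta' z0 - 1) * 5 * (4 * eta z0 - 3))) := by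
    rw [hzf, ← map_eta, ← map_eta']
    simp only [map_neg, map_mul, map_sub, map_add, map_one, map_ofNat]
  have n1 : (2 * eta z0 - 1) * 5 * (eta z0 + 2) * (2 * eta z0 + 1) ≠ 0 :=
    mul_ne_zero (mul_ne_zero (mul_ne_zero r1 h5) r4) s1
  have n2 : -((2 * eta' z0 - 1) * 5 * (4 * eta z0 - 3)) ≠ 0 :=
    neg_ne_zero.2 (mul_ne_zero (mul_ne_zero r2 h5) s2)
  have hwb : w (g b) = 1 := by
    rw [hb, map_div₀, map_div₀, h, div_self]
    rw [Valuation.ne_zero_iff]
    exact (_root_.map_ne_zero g).2 (nz p2)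
  have hw' : ∀ c : k, c ≠ 0 → w (g (f c)) = 1 := hw
  rw [hAm, hBm, e1, e2, c1, c2]
  constructor
  · rw [_root_.map_ne_zero]
    exact div_ne_zero ((_root_.map_ne_zero f).2 n1) hA0
  · rw [map_div₀, map_div₀, map_div₀, map_div₀, g.map_mul (f _) b, w.map_mul, hw' _ n1,
      hw' _ n2, hwb, one_mul]

/-- Valuations at the places where `δ1`, `δ2` have the same valuation. -/
theorem Gen5.val2 {K L : Type} [Field K] [Algebra k[X] K] [IsFractionRing k[X] K] [Field L]
    [Algebra K L] (h5 : (5 : k) ≠ 0)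
    (hz : IsZ z0) (hG : Gen5 z0 β γ) {b z : K}
    (hb : b = algebraMap k[X] K β / algebraMap k[X] K γ) (hzz : z = algebraMap k[X] K (C z0))
    (w : Valuation L Zm) (hw : ∀ c : k, c ≠ 0 → w (algebraMap K L (algebraMap k[X] K (C c))) = 1)
    (h : w (algebraMap K L (algebraMap k[X] K (β - C (ep z0) * γ))) =
      w (algebraMap K L (algebraMap k[X] K (β - C (ep' z0) * γ)))) :
    w (AA (algebraMap K L z) (algebraMap K L b)) = w (BB (algebraMap K L z) (algebraMap K L b)) := by
  obtain ⟨f1, f2, f3, hzK, hAA, hBB, q1, q2, q3⟩ := hG.fld h5 hz hb hzz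
  set g : K →+* L := algebraMap K L with hg
  have hAm : ∀ x : K, AA (g z) (g x) = g (AA z x) := by
    intro x
    unfold AA
    rw [map_mul, map_sub, map_sub, map_mul, map_one, map_ofNat, map_ep, map_eta]
  have hBm : ∀ x : K, BB (g z) (g x) = g (BB z x) := by
    intro x
    unfold BB
    rw [map_mul, map_sub, map_sub, map_mul, map_one, map_ofNat, map_ep', map_eta']
  rw [hAm, hBm, hAA, hBB, map_div₀, map_div₀, map_div₀, map_div₀,
    (algebraMap k[X] K).map_mul (C (2 * eta z0 - 1)), (algebraMap k[X] K).map_mul (C (2 * eta' z0 - 1)),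
    g.map_mul, g.map_mul, w.map_mul, w.map_mul, hw _ q1, hw _ q2, h]

variable {k' K F : Type} [Field k'] [Algebra k k'] [Field K] [Algebra k[X] K]
  [Field F] [Algebra k'[X] F] [IsFractionRing k'[X] F] [Algebra K F]

/-- The finite places. -/
theorem fin_one (hKF : ∀ p : k[X], algebraMap K F (algebraMap k[X] K p) =
      algebraMap k'[X] F (p.map (algebraMap k k'))) (v : HeightOneSpectrum k'[X]) {p : k[X]}
    (hp : p.map (algebraMap k k') ∉ v.asIdeal) :
    v.valuation F (algebraMap K F (algebraMap k[X] K p)) = 1 := by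
  rw [hKF, v.valuation_of_algebraMap, HeightOneSpectrum.intValuation_eq_one_iff]
  exact hp

theorem inf_deg (hKF : ∀ p : k[X], algebraMap K F (algebraMap k[X] K p) =
      algebraMap k'[X] F (p.map (algebraMap k k'))) {p : k[X]} (hp : p ≠ 0) :
    vInf k' F (algebraMap K F (algebraMap k[X] K p)) = WithZero.exp (p.natDegree : ℤ) := by
  rw [hKF, vInf_poly ((Polynomial.map_ne_zero_iff (algebraMap k k').injective).2 hp),
    natDegree_map]

/-- A root of an irreducible separable polynomial. -/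
theorem sep_root [IsSepClosed k'] {π : k[X]} (hi : Irreducible π) (hs : π.Separable) :
    ∃ θ : k', (π.map (algebraMap k k')).IsRoot θ ∧
      rootMultiplicity θ (π.map (algebraMap k k')) = 1 := by
  have hsm : (π.map (algebraMap k k')).Separable := hs.map
  obtain ⟨θ, hθ⟩ := IsSepClosed.exists_root (π.map (algebraMap k k')) (by
    rw [degree_map]
    exact hi.degree_pos.ne') hsm
  refine ⟨θ, hθ, ?_⟩
  have h0 : π.map (algebraMap k k') ≠ 0 :=
    (Polynomial.map_ne_zero_iff (algebraMap k k').injective).2 hi.ne_zero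
  exact le_antisymm (rootMultiplicity_le_one_of_separable hsm θ)
    ((rootMultiplicity_pos h0).2 hθ)

theorem cop_root {p q : k[X]} (hc : IsCoprime p q) {θ : k'}
    (h : (p.map (algebraMap k k')).IsRoot θ) : q.map (algebraMap k k') ∉ (pl θ).asIdeal := by
  rw [mem_pl]
  intro h2
  obtain ⟨u, v, huv⟩ := hc.map (Polynomial.mapRingHom (algebraMap k k'))
  have := congrArg (Polynomial.eval θ) huv
  rw [IsRoot.def] at h h2
  simp only [coe_mapRingHom, eval_add, eval_mul, h, h2, mul_zero, add_zero, eval_one] at this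
  exact zero_ne_one this

/-- `p` a constant times a power, `q` coprime to `p`: a place at which the order of `p` is prime to
five and `q` is a unit. -/
theorem PP5.place [IsSepClosed k'] [IsFractionRing k[X] K] {p q : k[X]} (hp : PP5 p) (hp0 : p ≠ 0) (hc : IsCoprime p q)
    (hKF : ∀ p : k[X], algebraMap K F (algebraMap k[X] K p) =
      algebraMap k'[X] F (p.map (algebraMap k k'))) :
    ∃ v : HeightOneSpectrum k'[X], om5 v (algebraMap K F (algebraMap k[X] K p)) ≠ 0 ∧
      q.map (algebraMap k k') ∉ v.asIdeal ∧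
      v.valuation F (algebraMap K F (algebraMap k[X] K p)) < 1 := by
  obtain ⟨c, π, m, hc0, hi, hs, hd, hm, rfl⟩ := hp
  obtain ⟨θ, hθ, hmu⟩ := sep_root (k' := k') hi hs
  have hm0 : m ≠ 0 := by
    rintro rfl
    exact hm (dvd_zero 5)
  have inj := (algebraMap k k').injective
  have hp0' : (C c * π ^ m).map (algebraMap k k') ≠ 0 := (Polynomial.map_ne_zero_iff inj).2 hp0
  have hmult : rootMultiplicity θ ((C c * π ^ m).map (algebraMap k k')) = m := by
    rw [Polynomial.map_mul, Polynomial.map_pow, Polynomial.map_C] at hp0' ⊢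
    rw [rootMultiplicity_mul hp0', rootMultiplicity_C, zero_add, ← count_roots, roots_pow,
      Multiset.count_nsmul, count_roots, hmu, mul_one]
  have hroot : ((C c * π ^ m).map (algebraMap k k')).IsRoot θ := by
    rw [← rootMultiplicity_pos hp0', hmult]
    exact Nat.pos_of_ne_zero hm0
  refine ⟨pl θ, ?_, cop_root hc hroot, ?_⟩
  · rw [hKF, om5_poly θ hp0', hmult, Ne, ZMod.natCast_eq_zero_iff]
    exact hm
  · rw [hKF, val_poly θ hp0', hmult]
    rw [← WithZero.exp_zero, WithZero.exp_lt_exp]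
    have : 0 < m := Nat.pos_of_ne_zero hm0
    omega

/-- A place at which `b` has a pole and a place at which the order of `b` is prime to five and
positive, ... -/
theorem Gen5.pole [IsSepClosed k'] [IsFractionRing k[X] K] (hG : Gen5 z0 β γ)
    (hKF : ∀ p : k[X], algebraMap K F (algebraMap k[X] K p) =
      algebraMap k'[X] F (p.map (algebraMap k k'))) :
    ∃ v : HeightOneSpectrum k'[X], 1 < v.valuation F
      (algebraMap K F (algebraMap k[X] K β / algebraMap k[X] K γ)) := by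
  obtain ⟨v, -, h2, h3⟩ := hG.b2.place (K := K) (F := F) (k' := k') hG.b2.ne_zero' hG.cop.symm hKF
  refine ⟨v, ?_⟩
  have hγ : v.valuation F (algebraMap K F (algebraMap k[X] K γ)) ≠ 0 := by
    rw [Valuation.ne_zero_iff, _root_.map_ne_zero]
    intro h
    exact hG.b2.ne_zero' (IsFractionRing.injective k[X] K (h.trans (map_zero _).symm))
  rw [map_div₀, map_div₀, fin_one hKF v h2, one_div]
  exact (one_lt_inv₀ (zero_lt_iff.2 hγ)).2 h3

end plc

end Pool.Agent.Helper23K9.T5
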