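import Pool.Agent.Helper23K9.T5.Gp
import Pool.Agent.Helper23K9.T5.Plc
import Pool.Agent.Helper23K9.T5.Ktr
import Pool.Agent.Helper7K9.T3.Step

/-!
The local conditions at the places of the projective line.
-/

set_option autoImplicit false
set_option linter.all false

open Polynomial IsDedekindDomain WeierstrassCurve WeierstrassCurve.Affine
open scoped Classical

namespace Pool.Agent.Helper23K9.T5

open Pool.Agent.TH115.GD (vInf wInf wFin AtInf CompInf pl Pt act incl rs ak IsCoc LocTriv Sep Comp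
  IsTower Preserves LocallyTrivial lt_subT)

section pc

variable {k k' K F : Type} [Field k] [Field k'] [Algebra k k'] [Field K] [Algebra k[X] K]
  [IsFractionRing k[X] K] [Field F] [Algebra k'[X] F] [IsFractionRing k'[X] F] [Algebra K F]
  (hKF : ∀ p : k[X], algebraMap K F (algebraMap k[X] K p) =
      algebraMap k'[X] F (p.map (algebraMap k k')))
  {z0 : k} {β γ : k[X]} (h5k : (5 : k) ≠ 0) (hz0 : IsZ z0) (hG : Gen5 z0 β γ) {b z : K}
  (eb : b = algebraMap k[X] K β / algebraMap k[X] K γ) (ez : z = algebraMap k[X] K (C z0))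
  (h5 : (5 : K) ≠ 0) (hb : b ≠ 0) (hd : b ^ 2 - 11 * b - 1 ≠ 0) (hz : IsZ z)

include hKF in
theorem fin_const (v : HeightOneSpectrum k'[X]) {c : k} (hc : c ≠ 0) :
    v.valuation F (algebraMap K F (algebraMap k[X] K (C c))) = 1 := by
  apply fin_one hKF v
  rw [map_C]
  intro h
  apply v.isPrime.ne_top
  rw [Ideal.eq_top_iff_one]
  have : (1 : k'[X]) = C (algebraMap k k' c)⁻¹ * C (algebraMap k k' c) := by
    rw [← C_mul, inv_mul_cancel₀ ((_root_.map_ne_zero _).2 hc), C_1]
  rw [this]
  exact v.asIdeal.mul_mem_left _ h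

include hKF in
theorem inf_const {c : k} (hc : c ≠ 0) :
    vInf k' F (algebraMap K F (algebraMap k[X] K (C c))) = 1 := by
  rw [inf_deg hKF (C_ne_zero.2 hc), natDegree_C]
  rfl

include hKF h5k hz0 hG eb ez hz in
theorem first_place {T : Pt (crv5 b) (Sep F)} {m : Sep F}
    (hT : IsT (isE5 b (Sep F) h5 hb hd) (algebraMap K (Sep F) z) m T)
    (hm : AA (algebraMap K (Sep F) z) (algebraMap K (Sep F) b) =
      (5 + 3 * eta (algebraMap K (Sep F) z)) * m ^ 5 *
        BB (algebraMap K (Sep F) z) (algebraMap K (Sep F) b))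
    (hTG : ∀ σ : Sep F ≃ₐ[F] Sep F, act (crv5 b) (rs K σ) T - T ∈ HP (isE5 b (Sep F) h5 hb hd))
    {f : (Sep F ≃ₐ[F] Sep F) → Pt (crv5 b) (Sep F)} {i χ : (Sep F ≃ₐ[F] Sep F) → ZMod 5}
    (hf : ∀ σ, f σ = cb (isE5 b (Sep F) h5 hb hd) T (i σ) (χ σ))
    (hloc : LocallyTrivial k' (crv5 b) f) {s : Sep F} {f0 : F}
    (hk : KD (algebraMap K (Sep F) z) χ s f0) :
    (∀ v : HeightOneSpectrum k'[X], β.map (algebraMap k k') ∉ v.asIdeal →
      γ.map (algebraMap k k') ∉ v.asIdeal → om5 v f0 = 0) ∧
    (5 : ℤ) ∣ WithZero.log (vInf k' F f0) := by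
  constructor
  · intro v hv1 hv2
    obtain ⟨A0, AB⟩ := hG.val1 (L := Comp k'[X] F v) h5k hz0 eb ez
      (Valued.v (R := v.adicCompletion F) (Γ₀ := WithZero (Multiplicative ℤ)))
      (fun c hc => by
        have h1 := wFin v (algebraMap K F (algebraMap k[X] K (C c)))
        rw [fin_const hKF v hc] at h1
        exact h1)
      (by
        have h1 := wFin v (algebraMap K F (algebraMap k[X] K β))
        have h2 := wFin v (algebraMap K F (algebraMap k[X] K γ))
        rw [fin_one hKF v hv1] at h1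
        rw [fin_one hKF v hv2] at h2
        exact h1.trans h2.symm)
    have h3 := loc_first (F := F) (L := Comp k'[X] F v) (Ω' := Sep (Comp k'[X] F v)) h5 hb hd hz
      (Valued.v (R := v.adicCompletion F) (Γ₀ := WithZero (Multiplicative ℤ))) hT hm hTG hf
      (hloc.1 v) hk.ne hk.five hk.act A0 AB
    apply om5_of_Fi
    have h4 := wFin v f0
    rw [← h4]
    exact h3
  · obtain ⟨A0, AB⟩ := hG.val1 (L := CompInf k' F) h5k hz0 eb ez
      (Valued.v (R := (pl (0 : k')).adicCompletion (AtInf F)) (Γ₀ := WithZero (Multiplicative ℤ)))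
      (fun c hc => by
        have h1 := wInf (k' := k') (algebraMap K F (algebraMap k[X] K (C c)))
        rw [inf_const hKF hc] at h1
        exact h1)
      (by
        have h1 := wInf (k' := k') (algebraMap K F (algebraMap k[X] K β))
        have h2 := wInf (k' := k') (algebraMap K F (algebraMap k[X] K γ))
        rw [inf_deg hKF hG.pos.1] at h1
        rw [inf_deg hKF hG.pos.2.1, hG.d2] at h2
        exact h1.trans h2.symm)
    have h3 := loc_first (F := F) (L := CompInf k' F) (Ω' := Sep (CompInf k' F)) h5 hb hd hz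
      (Valued.v (R := (pl (0 : k')).adicCompletion (AtInf F)) (Γ₀ := WithZero (Multiplicative ℤ)))
      hT hm hTG hf (hloc.2) hk.ne hk.five hk.act A0 AB
    have h4 := wInf (k' := k') f0
    have f0n : f0 ≠ 0 := hk.fne
    have h5' : Fi (vInf k' F f0) := by
      rw [← h4]
      exact h3
    exact (Fi.iff ((Valuation.ne_zero_iff _).2 f0n)).1 h5'

include hKF h5k hz0 hG eb ez hz in
theorem second_place {f : (Sep F ≃ₐ[F] Sep F) → Pt (crv5 b) (Sep F)}
    {χ : (Sep F ≃ₐ[F] Sep F) → ZMod 5}
    (hf : ∀ σ, f σ = (χ σ).val • pP (isE5 b (Sep F) h5 hb hd))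
    (hloc : LocallyTrivial k' (crv5 b) f) {s : Sep F} {f0 : F}
    (hk : KD (algebraMap K (Sep F) z) χ s f0) :
    (∀ v : HeightOneSpectrum k'[X], (β - C (ep z0) * γ).map (algebraMap k k') ∉ v.asIdeal →
      (β - C (ep' z0) * γ).map (algebraMap k k') ∉ v.asIdeal → om5 v f0 = 0) ∧
    (5 : ℤ) ∣ WithZero.log (vInf k' F f0) := by
  constructor
  · intro v hv1 hv2
    have AB := hG.val2 (L := Comp k'[X] F v) h5k hz0 eb ez
      (Valued.v (R := v.adicCompletion F) (Γ₀ := WithZero (Multiplicative ℤ)))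
      (fun c hc => by
        have h1 := wFin v (algebraMap K F (algebraMap k[X] K (C c)))
        rw [fin_const hKF v hc] at h1
        exact h1)
      (by
        have h1 := wFin v (algebraMap K F (algebraMap k[X] K (β - C (ep z0) * γ)))
        have h2 := wFin v (algebraMap K F (algebraMap k[X] K (β - C (ep' z0) * γ)))
        rw [fin_one hKF v hv1] at h1
        rw [fin_one hKF v hv2] at h2
        exact h1.trans h2.symm)
    have h3 := loc_second (F := F) (L := Comp k'[X] F v) (Ω' := Sep (Comp k'[X] F v)) h5 hb hd hz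
      (Valued.v (R := v.adicCompletion F) (Γ₀ := WithZero (Multiplicative ℤ))) hf
      (hloc.1 v) hk.ne hk.five hk.act AB
    apply om5_of_Fi
    have h4 := wFin v f0
    rw [← h4]
    exact h3
  · have AB := hG.val2 (L := CompInf k' F) h5k hz0 eb ez
      (Valued.v (R := (pl (0 : k')).adicCompletion (AtInf F)) (Γ₀ := WithZero (Multiplicative ℤ)))
      (fun c hc => by
        have h1 := wInf (k' := k') (algebraMap K F (algebraMap k[X] K (C c)))
        rw [inf_const hKF hc] at h1
        exact h1)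
      (by
        have h1 := wInf (k' := k') (algebraMap K F (algebraMap k[X] K (β - C (ep z0) * γ)))
        have h2 := wInf (k' := k') (algebraMap K F (algebraMap k[X] K (β - C (ep' z0) * γ)))
        rw [inf_deg hKF hG.pos.2.2.1, hG.d3] at h1
        rw [inf_deg hKF hG.pos.2.2.2, hG.d4] at h2
        exact h1.trans h2.symm)
    have h3 := loc_second (F := F) (L := CompInf k' F) (Ω' := Sep (CompInf k' F)) h5 hb hd hz
      (Valued.v (R := (pl (0 : k')).adicCompletion (AtInf F)) (Γ₀ := WithZero (Multiplicative ℤ)))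
      hf (hloc.2) hk.ne hk.five hk.act AB
    have h4 := wInf (k' := k') f0
    have f0n : f0 ≠ 0 := hk.fne
    have h5' : Fi (vInf k' F f0) := by
      rw [← h4]
      exact h3
    exact (Fi.iff ((Valuation.ne_zero_iff _).2 f0n)).1 h5'

end pc

end Pool.Agent.Helper23K9.T5
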