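import Pool.Agent.Helper23K9.T5.Glob
import Pool.Agent.Helper23K9.T5.Plc

/-!
Divisors modulo five: definitions.
-/

set_option autoImplicit false
set_option linter.all false

open Polynomial IsDedekindDomain
open scoped Classical

namespace Pool.Agent.Helper23K9.T5

open Pool.Agent.TH115.GD (vInf pl)

section pair

variable {k : Type} [Field k]

/-- `p` has an irreducible factor whose degree and multiplicity are prime to five. -/
def HasF5 (p : k[X]) : Prop :=
  ∃ (π : k[X]) (m : ℕ), Irreducible π ∧ ¬ 5 ∣ π.natDegree ∧ ¬ 5 ∣ m ∧ π ^ m ∣ p ∧ ¬ π ^ (m + 1) ∣ p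

/-- Conditions on the zeros and poles of `p / q`. -/
structure PairOK (p q : k[X]) : Prop where
  cop : IsCoprime p q
  pne : p ≠ 0
  qne : q ≠ 0
  sep : ∀ π : k[X], Irreducible π → π ∣ p * q → π.Separable
  f5 : HasF5 (p * q)

/-- The monic irreducible factors. -/
noncomputable def irr (p : k[X]) : Finset k[X] :=
  (UniqueFactorizationMonoid.normalizedFactors p).toFinset

/-- The number of zeros and poles of `p / q` (closed points of the projective line) for coprime
`p`, `q`. -/
noncomputable def nPl (p q : k[X]) : ℕ :=
  (irr (p * q)).card + if p.natDegree = q.natDegree then 0 else 1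

variable {k' F : Type} [Field k'] [Algebra k k'] [Field F] [Algebra k'[X] F]
  [IsFractionRing k'[X] F]

variable (k k') in
/-- A root in `k'`. -/
noncomputable def rt (π : k[X]) : k' :=
  if h : ∃ θ : k', (π.map (algebraMap k k')).IsRoot θ then h.choose else 0

/-- The divisor of `f` modulo five is supported on the zeros and poles of `p / q` and fixed by the
Galois group. -/
structure Supp (k' : Type) [Field k'] [Algebra k k'] [Algebra k'[X] F] [IsFractionRing k'[X] F]
    (p q : k[X]) (f : F) : Prop where
  ne : f ≠ 0
  out : ∀ v : HeightOneSpectrum k'[X], p.map (algebraMap k k') ∉ v.asIdeal →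
    q.map (algebraMap k k') ∉ v.asIdeal → om5 v f = 0
  inv : ∀ (s : k' ≃ₐ[k] k') (θ : k'), om5 (pl (s θ)) f = om5 (pl θ) f
  inf : p.natDegree = q.natDegree → (5 : ℤ) ∣ WithZero.log (vInf k' F f)

end pair

end Pool.Agent.Helper23K9.T5
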