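import Pool.Agent.Helper23K9.T5.Shift

/-!
Elliptic curves `y ^ 2 + (1 - b) x y - b y = x ^ 3 - b x ^ 2` with a point `(0, 0)` of order five.
-/

set_option autoImplicit false
set_option linter.all false

open WeierstrassCurve WeierstrassCurve.Affine
open scoped Classical

namespace Pool.Agent.Helper23K9.T5

section cyc

variable {F : Type*} [Field F] {b : F} {u : ZMod 5 → F}

theorem Cyc.shift (h : Cyc b u) (n : ZMod 5) : Cyc b (fun k => u (k + n)) := by
  have key : ∀ n : ZMod 5, n = 0 ∨ n = 1 ∨ n = 2 ∨ n = 3 ∨ n = 4 := by decide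
  have h1 := h.sum
  have h2 := h.sum2
  refine ⟨?_, ?_, fun i => ?_⟩
  · rcases key n with rfl | rfl | rfl | rfl | rfl
    · show u 0 + u 1 + u 2 + u 3 + u 4 = _
      linear_combination h1
    · show u 1 + u 2 + u 3 + u 4 + u 0 = _
      linear_combination h1
    · show u 2 + u 3 + u 4 + u 0 + u 1 = _
      linear_combination h1
    · show u 3 + u 4 + u 0 + u 1 + u 2 = _
      linear_combination h1
    · show u 4 + u 0 + u 1 + u 2 + u 3 = _
      linear_combination h1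
  · rcases key n with rfl | rfl | rfl | rfl | rfl
    · show u 0 * u 2 + u 1 * u 3 + u 2 * u 4 + u 3 * u 0 + u 4 * u 1 = _
      linear_combination h2
    · show u 1 * u 3 + u 2 * u 4 + u 3 * u 0 + u 4 * u 1 + u 0 * u 2 = _
      linear_combination h2
    · show u 2 * u 4 + u 3 * u 0 + u 4 * u 1 + u 0 * u 2 + u 1 * u 3 = _
      linear_combination h2
    · show u 3 * u 0 + u 4 * u 1 + u 0 * u 2 + u 1 * u 3 + u 2 * u 4 = _
      linear_combination h2
    · show u 4 * u 1 + u 0 * u 2 + u 1 * u 3 + u 2 * u 4 + u 3 * u 0 = _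
      linear_combination h2
  · have h3 := h.rel (i + n)
    show u (i + n) * (u (i + 2 + n) + u (i - 2 + n)) = b * u (i + n) - b
    rw [show i + 2 + n = i + n + 2 by ring, show i - 2 + n = i + n - 2 by ring]
    exact h3

theorem Cyc.r3 (h : Cyc b u) : (b - u 4 * u 0) * (u 0 + u 4 + 1 - b) = b := by
  obtain ⟨r0, r1, r2, r3, r4⟩ := h.rels
  have hs := h.sum
  have hs2 := h.sum2
  linear_combination (-u 1 + u 4) * r0 + (u 0 - u 2 - u 3 - 1) * r1 + (u 1 - 1) * r2 +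
    (-u 1 - 1) * r3 + (-u 0 * u 4 + u 1 * u 3) * hs + hs2

theorem Cyc.r2 (h : Cyc b u) : b * u 0 = (b - u 4 * u 0) * (b - u 0 * u 1) := by
  obtain ⟨r0, r1, r2, r3, r4⟩ := h.rels
  have hs := h.sum
  have hs2 := h.sum2
  generalize u 0 = u0 at *
  generalize u 1 = u1 at *
  generalize u 2 = u2 at *
  generalize u 3 = u3 at *
  generalize u 4 = u4 at *
  linear_combination (u0*u1 -u0 -u1 +u2 -2*u3 -u4 +1) * r0 +
    (-u0^2 +u0*u2 +u2*u3 -2*u2 +u3^2 -u3 +1) * r1 +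
    (-u0*u1 -u0*u3 +u0 -2*u1*u3 +u1 +u2*u3 -u2 +u3^2 +u3*u4 -u4) * r2 +
    (u0*u2 +u0 -u1*u2 +u1*u3 -u2^2 -u2*u3 +u2*u4 +u2 +2*u3 +u4) * r3 +
    (b +u1*u2*u3 -u1*u3^2 -u2*u3*u4 +u2*u4) * hs - hs2

theorem Cyc.ne (h : Cyc b u) (hb : b ≠ 0) (i : ZMod 5) : u i ≠ 0 := by
  intro h0
  have := h.rel i
  rw [h0] at this
  apply hb
  linear_combination this

/-- The abscissas. -/
def xx (b : F) (u : ZMod 5 → F) (i : ZMod 5) : F := b - u (i - 1) * u i

theorem Cyc.xx_ne (h : Cyc b u) (hb : b ≠ 0) (i : ZMod 5) : xx b u i ≠ 0 := by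
  intro h0
  have h1 := (h.shift i).r3
  have e : (4 : ZMod 5) + i = i - 1 := by
    have : (4 : ZMod 5) = -1 := by decide
    rw [this]; ring
  simp only [zero_add, e] at h1
  unfold xx at h0
  rw [h0, zero_mul] at h1
  exact hb h1.symm

end cyc

section crv

variable {F : Type*} [Field F] {W : Affine F} {b : F}

/-- `W` is the curve `y ^ 2 + (1 - b) x y - b y = x ^ 3 - b x ^ 2`. -/
structure IsE5 (W : Affine F) (b : F) : Prop where
  a1 : W.a₁ = 1 - b
  a2 : W.a₂ = -b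
  a3 : W.a₃ = -b
  a4 : W.a₄ = 0
  a6 : W.a₆ = 0
  five : (5 : F) ≠ 0
  nb : b ≠ 0
  nd : b ^ 2 - 11 * b - 1 ≠ 0

variable (h : IsE5 W b)

include h

theorem IsE5.equation {x y : F} :
    W.Equation x y ↔ y ^ 2 + (1 - b) * x * y - b * y = x ^ 3 - b * x ^ 2 := by
  rw [Affine.equation_iff, h.a1, h.a2, h.a3, h.a4, h.a6]
  constructor
  · intro e; linear_combination e
  · intro e; linear_combination e

theorem IsE5.disc : W.Δ ≠ 0 := by
  have e : W.Δ = b ^ 5 * (b ^ 2 - 11 * b - 1) := by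
    simp only [WeierstrassCurve.Δ, WeierstrassCurve.b₂, WeierstrassCurve.b₄, WeierstrassCurve.b₆,
      WeierstrassCurve.b₈]
    rw [h.a1, h.a2, h.a3, h.a4, h.a6]
    ring
  rw [e]
  exact mul_ne_zero (pow_ne_zero 5 h.nb) h.nd

theorem IsE5.nonsingular {x y : F} : W.Nonsingular x y ↔
    y ^ 2 + (1 - b) * x * y - b * y = x ^ 3 - b * x ^ 2 := by
  rw [← h.equation]
  exact (Affine.equation_iff_nonsingular_of_Δ_ne_zero h.disc).symm

theorem IsE5.negY (x y : F) : W.negY x y = -y - (1 - b) * x + b := by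
  rw [Affine.negY, h.a1, h.a3]; ring

theorem IsE5.neg_some {x y : F} (hP : W.Nonsingular x y) :
    ∃ hQ, -(Point.some x y hP) = Point.some x (-y - (1 - b) * x + b) hQ := by
  have e := h.negY x y
  have hQ : W.Nonsingular x (-y - (1 - b) * x + b) := by
    rw [h.nonsingular] at hP ⊢
    linear_combination hP
  refine ⟨hQ, ?_⟩
  rw [Point.neg_some]
  simp only [e]

/-- Three points on a line: two points with different abscissas. -/
theorem IsE5.add_line {x1 y1 x2 y2 x3 y3 m : F} (h1 : W.Nonsingular x1 y1)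
    (h2 : W.Nonsingular x2 y2) (hx : x1 ≠ x2) (hm : y1 - y2 = m * (x1 - x2))
    (e1 : x1 + x2 + x3 = m ^ 2 + (1 - b) * m + b)
    (e2 : y3 = -(m * (x3 - x1) + y1) - (1 - b) * x3 + b) :
    ∃ h3, Point.some x1 y1 h1 + Point.some x2 y2 h2 = Point.some x3 y3 h3 := by
  have hxy : ¬(x1 = x2 ∧ y1 = W.negY x2 y2) := fun hh => hx hh.1
  have hs : W.slope x1 x2 y1 y2 = m := by
    rw [Affine.slope_of_X_ne hx, hm]
    field_simp [sub_ne_zero.2 hx]
  have hX : W.addX x1 x2 (W.slope x1 x2 y1 y2) = x3 := by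
    rw [hs, Affine.addX, h.a1, h.a2]
    linear_combination -e1
  have hY : W.addY x1 x2 y1 (W.slope x1 x2 y1 y2) = y3 := by
    rw [Affine.addY, Affine.negAddY, h.negY, hX, hs, e2]
  have h3 := W.nonsingular_add h1 h2 hxy
  rw [hX, hY] at h3
  refine ⟨h3, ?_⟩
  rw [Point.add_some hxy]
  simp only [hX, hY]

/-- Doubling. -/
theorem IsE5.dbl_line {x1 y1 x3 y3 m : F} (h1 : W.Nonsingular x1 y1)
    (hn : 2 * y1 + (1 - b) * x1 - b ≠ 0)
    (hm : 3 * x1 ^ 2 - 2 * b * x1 - (1 - b) * y1 = m * (2 * y1 + (1 - b) * x1 - b))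
    (e1 : x1 + x1 + x3 = m ^ 2 + (1 - b) * m + b)
    (e2 : y3 = -(m * (x3 - x1) + y1) - (1 - b) * x3 + b) :
    ∃ h3, Point.some x1 y1 h1 + Point.some x1 y1 h1 = Point.some x3 y3 h3 := by
  have hy : y1 ≠ W.negY x1 y1 := by
    rw [h.negY]
    intro hh
    apply hn
    linear_combination hh
  have hxy : ¬(x1 = x1 ∧ y1 = W.negY x1 y1) := fun hh => hy hh.2
  have hs : W.slope x1 x1 y1 y1 = m := by
    rw [Affine.slope_of_Y_ne rfl hy, h.negY, h.a1, h.a2, h.a4]
    have e : y1 - (-y1 - (1 - b) * x1 + b) = 2 * y1 + (1 - b) * x1 - b := by ring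
    rw [e, div_eq_iff hn, ← hm]
    ring
  have hX : W.addX x1 x1 (W.slope x1 x1 y1 y1) = x3 := by
    rw [hs, Affine.addX, h.a1, h.a2]
    linear_combination -e1
  have hY : W.addY x1 x1 y1 (W.slope x1 x1 y1 y1) = y3 := by
    rw [Affine.addY, Affine.negAddY, h.negY, hX, hs, e2]
  have h3 := W.nonsingular_add h1 h1 hxy
  rw [hX, hY] at h3
  refine ⟨h3, ?_⟩
  rw [Point.add_some hxy]
  simp only [hX, hY]

/-- The point `(0, 0)`. -/
noncomputable def pP : W.Point := Point.some 0 0 (h.nonsingular.2 (by ring))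

theorem two_pP : ∃ hQ, 2 • (pP h) = Point.some b (b ^ 2) hQ := by
  have h0 : W.Nonsingular 0 0 := h.nonsingular.2 (by ring)
  obtain ⟨h3, e⟩ := h.dbl_line (x3 := b) (y3 := b ^ 2) (m := 0) h0
    (by simpa using h.nb) (by ring) (by ring) (by ring)
  refine ⟨h3, ?_⟩
  rw [two_nsmul]
  exact e

theorem three_pP : ∃ hQ, 3 • (pP h) = Point.some b 0 hQ := by
  have h0 : W.Nonsingular 0 0 := h.nonsingular.2 (by ring)
  obtain ⟨h2, e2⟩ := two_pP h
  obtain ⟨h3, e⟩ := h.add_line (x3 := b) (y3 := 0) (m := b) h2 h0 h.nb (by ring) (by ring)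
    (by ring)
  refine ⟨h3, ?_⟩
  rw [succ_nsmul, e2]
  exact e

theorem four_pP : ∃ hQ, 4 • (pP h) = Point.some 0 b hQ := by
  have h0 : W.Nonsingular 0 0 := h.nonsingular.2 (by ring)
  obtain ⟨h2, e2⟩ := three_pP h
  obtain ⟨h3, e⟩ := h.add_line (x3 := 0) (y3 := b) (m := 0) h2 h0 h.nb (by ring) (by ring)
    (by ring)
  refine ⟨h3, ?_⟩
  rw [succ_nsmul, e2]
  exact e

theorem neg_pP : ∃ hQ, -(pP h) = Point.some 0 b hQ := by
  obtain ⟨hQ, e⟩ := h.neg_some (h.nonsingular.2 (by ring) : W.Nonsingular 0 0)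
  have e3 : -(0 : F) - (1 - b) * 0 + b = b := by ring
  rw [e3] at hQ
  refine ⟨hQ, ?_⟩
  rw [pP, e]
  simp only [e3]

theorem five_pP : 5 • pP h = 0 := by
  obtain ⟨h4, e4⟩ := four_pP h
  obtain ⟨hn, en⟩ := neg_pP h
  rw [succ_nsmul, e4, ← en, neg_add_cancel]

theorem pP_ne : pP h ≠ 0 := Point.some_ne_zero _

/-- The group generated by `(0, 0)`. -/
noncomputable def HP : AddSubgroup W.Point := AddSubgroup.zmultiples (pP h)

theorem pP_mem : pP h ∈ HP h := AddSubgroup.mem_zmultiples _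

theorem nsmul_mod (n : ℕ) : n • pP h = (n % 5) • pP h := by
  conv_lhs => rw [← Nat.div_add_mod n 5]
  rw [add_smul, mul_comm, mul_smul, five_pP, smul_zero, zero_add]

theorem mem_HP {Q : W.Point} : Q ∈ HP h ↔ Q = 0 ∨ Q = pP h ∨ Q = 2 • pP h ∨ Q = 3 • pP h ∨
    Q = 4 • pP h := by
  constructor
  · intro hQ
    obtain ⟨n, hn⟩ := AddSubgroup.mem_zmultiples_iff.1 hQ
    obtain ⟨m, hm⟩ : ∃ m : ℕ, Q = m • pP h := by
      refine ⟨(n % 5).toNat, ?_⟩
      rw [← hn]
      conv_lhs => rw [← Int.mul_ediv_add_emod n 5]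
      have h5 : (5 : ℤ) • pP h = 0 := by
        have := five_pP h
        exact_mod_cast this
      rw [add_smul, mul_comm, mul_smul, h5, smul_zero, zero_add]
      have h6 : 0 ≤ n % 5 := Int.emod_nonneg n (by norm_num)
      conv_lhs => rw [← Int.toNat_of_nonneg h6]
      rw [natCast_zsmul]
    rw [nsmul_mod] at hm
    have h7 : m % 5 < 5 := Nat.mod_lt _ (by norm_num)
    obtain ⟨j, hj⟩ : ∃ j, j = m % 5 := ⟨_, rfl⟩
    rw [← hj] at hm h7
    interval_cases j
    · left; rw [hm, zero_smul]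
    · right; left; rw [hm, one_smul]
    · right; right; left; exact hm
    · right; right; right; left; exact hm
    · right; right; right; right; exact hm
  · rintro (rfl | rfl | rfl | rfl | rfl)
    · exact (HP h).zero_mem
    · exact pP_mem h
    · exact (HP h).nsmul_mem (pP_mem h) 2
    · exact (HP h).nsmul_mem (pP_mem h) 3
    · exact (HP h).nsmul_mem (pP_mem h) 4

theorem not_mem_HP {x y : F} {hxy : W.Nonsingular x y} :
    Point.some x y hxy ∉ HP h ↔ x ≠ 0 ∧ y ≠ 0 ∧ x ≠ b := by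
  have e := h.nonsingular.1 hxy
  obtain ⟨h2, e2⟩ := two_pP h
  obtain ⟨h3, e3⟩ := three_pP h
  obtain ⟨h4, e4⟩ := four_pP h
  rw [mem_HP, e2, e3, e4]
  have nb := h.nb
  constructor
  · intro hQ
    have key : ¬ (x = 0 ∧ y = 0) ∧ ¬ (x = b ∧ y = b ^ 2) ∧ ¬ (x = b ∧ y = 0) ∧
        ¬ (x = 0 ∧ y = b) := by
      refine ⟨fun hh => hQ ?_, fun hh => hQ ?_, fun hh => hQ ?_, fun hh => hQ ?_⟩
      · obtain ⟨rfl, rfl⟩ := hh
        exact Or.inr (Or.inl rfl)
      · obtain ⟨rfl, rfl⟩ := hh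
        exact Or.inr (Or.inr (Or.inl rfl))
      · obtain ⟨rfl, rfl⟩ := hh
        exact Or.inr (Or.inr (Or.inr (Or.inl rfl)))
      · obtain ⟨rfl, rfl⟩ := hh
        exact Or.inr (Or.inr (Or.inr (Or.inr rfl)))
    obtain ⟨k1, k2, k3, k4⟩ := key
    refine ⟨?_, ?_, ?_⟩
    · rintro rfl
      have : y * (y - b) = 0 := by linear_combination e
      rcases mul_eq_zero.1 this with h5 | h5
      · exact k1 ⟨rfl, h5⟩
      · exact k4 ⟨rfl, sub_eq_zero.1 h5⟩
    · rintro rfl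
      have : x ^ 2 * (x - b) = 0 := by linear_combination -e
      rcases mul_eq_zero.1 this with h5 | h5
      · exact k1 ⟨pow_eq_zero_iff (by norm_num) |>.1 h5, rfl⟩
      · exact k3 ⟨sub_eq_zero.1 h5, rfl⟩
    · rintro rfl
      have : y * (y - x ^ 2) = 0 := by linear_combination e
      rcases mul_eq_zero.1 this with h5 | h5
      · exact k3 ⟨rfl, h5⟩
      · exact k2 ⟨rfl, sub_eq_zero.1 h5⟩
  · rintro ⟨k1, k2, k3⟩ (h5 | h5 | h5 | h5 | h5)
    · exact Point.some_ne_zero _ h5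
    · unfold pP at h5
      rw [Point.some.injEq] at h5
      exact k1 h5.1
    · rw [Point.some.injEq] at h5
      exact k3 h5.1
    · rw [Point.some.injEq] at h5
      exact k3 h5.1
    · rw [Point.some.injEq] at h5
      exact k1 h5.1

theorem add_pP {x y : F} (hxy : W.Nonsingular x y) (hx : x ≠ 0) :
    ∃ h3, Point.some x y hxy + pP h = Point.some (b * y / x ^ 2) (b ^ 2 * (x ^ 2 - y) / x ^ 3) h3 := by
  have e := h.nonsingular.1 hxy
  have h0 : W.Nonsingular 0 0 := h.nonsingular.2 (by ring)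
  obtain ⟨h3, e3⟩ := h.add_line (x3 := b * y / x ^ 2) (y3 := b ^ 2 * (x ^ 2 - y) / x ^ 3)
    (m := y / x) hxy h0 hx (by field_simp; ring) (by field_simp; linear_combination -e)
    (by field_simp; linear_combination b * e)
  exact ⟨h3, e3⟩

end crv

end Pool.Agent.Helper23K9.T5
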