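import Pool.Agent.Helper23K9.T5.Rk
import Pool.Agent.Helper23K9.T5.Eis

/-!
Explicit families: the conditions of the criterion from discrete valuations.
-/

set_option autoImplicit false
set_option linter.all false

open Polynomial IsDedekindDomain WeierstrassCurve WeierstrassCurve.Affine
open scoped Classical

namespace Pool.Agent.Helper23K9.T5

section qex

variable {k : Type} [Field k]

theorem cop_eps {β γ : k[X]} (h : IsCoprime β γ) {e e' : k} (he : e ≠ e') :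
    IsCoprime (β - C e * γ) (β - C e' * γ) := by
  obtain ⟨u, w, huw⟩ := h
  have h1 : (C (e - e')⁻¹ : k[X]) * (C e - C e') = 1 := by
    rw [← C_sub, ← C_mul, inv_mul_cancel₀ (sub_ne_zero.2 he), C_1]
  refine ⟨-(C (e - e')⁻¹ * (u * C e' + w)), C (e - e')⁻¹ * (u * C e + w), ?_⟩
  linear_combination (u * β + w * γ) * h1 + huw

theorem PP5.hasM {p : k[X]} (h : PP5 p) : HasM5 p := by
  obtain ⟨c, π, m, hc0, hi, hmo, hs, hd, hm, e⟩ := h.data
  refine ⟨π, m, hi, hm, by rw [e]; exact Dvd.intro_left _ rfl, fun h => ?_⟩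
  rw [e, pow_succ, mul_comm (C c)] at h
  have h1 : π ∣ C c := (mul_dvd_mul_iff_left (pow_ne_zero m hi.ne_zero)).1 h
  exact hi.not_isUnit (isUnit_of_dvd_unit h1 (isUnit_C.2 (isUnit_iff_ne_zero.2 hc0)))

/-- The conditions of the criterion for one more point. -/
theorem crit_of_pp (h5 : (5 : k) ≠ 0) {z : k} (hz : IsZ z) {β γ : k[X]} (hc : IsCoprime β γ)
    (h1 : PP5 β) (h2 : PP5 γ) (h3 : PP5 (β - C (ep z) * γ)) (h4 : PP5 (β - C (ep' z) * γ))
    (hd : (β - C (ep z) * γ).natDegree = (β - C (ep' z) * γ).natDegree) :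
    Crit5 z β γ ∧ HasM5 β ∧ HasM5 γ ∧ nn5 z β γ ≤ 5 := by
  have he : ep z ≠ ep' z := fun h => (isZ_ne_aux5 h5 hz).2.2 (sub_eq_zero.2 h.symm)
  refine ⟨⟨pairOK_of hc h1 h2, pairOK_of (cop_eps hc he) h3 h4⟩, h1.hasM, h2.hasM, ?_⟩
  unfold nn5
  have a1 := nPl_le3 h1 h2
  have a2 := nPl_le2 h3 h4 hd
  omega

theorem eis_bin (v : Valuation k (WithZero (Multiplicative ℤ))) {a : k} {n : ℕ} (hn : 0 < n)
    (ha : v a = WithZero.exp (-1)) : Irreducible (X ^ n - C a : k[X]) := by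
  have h1 : (X ^ n - C a : k[X]).natDegree = n := natDegree_X_pow_sub_C
  refine eis_val v (monic_X_pow_sub_C a hn.ne') (by rw [h1]; exact hn) ?_ ?_
  · intro i hi
    rw [h1] at hi
    rw [coeff_sub, coeff_X_pow, if_neg hi.ne, zero_sub, coeff_C]
    split_ifs
    · rw [Valuation.map_neg, ha, ← WithZero.exp_zero, WithZero.exp_lt_exp]
      norm_num
    · rw [neg_zero, map_zero]
      exact zero_lt_one
  · rw [coeff_sub, coeff_X_pow, if_neg hn.ne, zero_sub, coeff_C_zero, Valuation.map_neg, ha]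

theorem ne_of_exp {v : Valuation k (WithZero (Multiplicative ℤ))} {a : k}
    (ha : v a = WithZero.exp (-1)) : a ≠ 0 := by
  rintro rfl
  rw [map_zero] at ha
  exact WithZero.exp_ne_zero ha.symm

theorem pp_bin (v : Valuation k (WithZero (Multiplicative ℤ))) {a c : k} {n : ℕ} (hn : 0 < n)
    (hn5 : ¬ 5 ∣ n) (hnk : (n : k) ≠ 0) (hc : c ≠ 0) (ha : v a = WithZero.exp (-1)) :
    PP5 (C c * (X ^ n - C a) : k[X]) := by
  refine ⟨c, _, 1, hc, eis_bin v hn ha, separable_X_pow_sub_C a hnk (ne_of_exp ha), ?_, by norm_num,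
    by rw [pow_one]⟩
  rw [natDegree_X_pow_sub_C]
  exact hn5

/-- The trinomial `X ^ (2 n) + p X ^ n + q`. -/
theorem tri_deg (p q : k) {n : ℕ} (hn : 0 < n) :
    ((X ^ n) ^ 2 + C p * X ^ n + C q : k[X]).natDegree = 2 * n ∧
      ((X ^ n) ^ 2 + C p * X ^ n + C q : k[X]).Monic := by
  have h1 : ((X ^ n) ^ 2 + C p * X ^ n + C q : k[X]) =
      X ^ (2 * n) + (C p * X ^ n + C q) := by ring
  have h2 : (C p * X ^ n + C q : k[X]).degree < ((2 * n : ℕ) : WithBot ℕ) := by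
    refine lt_of_le_of_lt (degree_add_le _ _) (max_lt ?_ ?_)
    · refine lt_of_le_of_lt (degree_C_mul_X_pow_le n p) ?_
      exact_mod_cast (by omega : n < 2 * n)
    · refine lt_of_le_of_lt degree_C_le ?_
      exact_mod_cast (by omega : 0 < 2 * n)
  rw [h1]
  refine ⟨?_, monic_X_pow_add h2⟩
  exact natDegree_eq_of_degree_eq_some (by
    rw [degree_add_eq_left_of_degree_lt (by rwa [degree_X_pow]), degree_X_pow])

theorem pp_tri (v : Valuation k (WithZero (Multiplicative ℤ))) {p q : k} {n : ℕ} (hn : 0 < n)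
    (hn5 : ¬ 5 ∣ n) (hnk : (n : k) ≠ 0) (h2 : (2 : k) ≠ 0) (hp : v p < 1)
    (hq : v q = WithZero.exp (-1)) : PP5 ((X ^ n) ^ 2 + C p * X ^ n + C q : k[X]) := by
  obtain ⟨hd, hm⟩ := tri_deg p q hn
  have hco : ∀ i, ((X ^ n) ^ 2 + C p * X ^ n + C q : k[X]).coeff i =
      (if i = 2 * n then 1 else 0) + (if i = n then p else 0) + (if i = 0 then q else 0) := by
    intro i
    rw [coeff_add, coeff_add, ← pow_mul, coeff_X_pow, coeff_C_mul, coeff_X_pow, coeff_C,
      mul_comm n 2]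
    split_ifs <;> simp
  have hirr : Irreducible ((X ^ n) ^ 2 + C p * X ^ n + C q : k[X]) := by
    refine eis_val v hm (by omega) ?_ ?_
    · intro i hi
      rw [hd] at hi
      rw [hco, if_neg hi.ne, zero_add]
      by_cases h0 : i = 0
      · rw [if_neg (by omega), if_pos h0, zero_add, hq, ← WithZero.exp_zero, WithZero.exp_lt_exp]
        norm_num
      · rw [if_neg h0, add_zero]
        split_ifs
        · exact hp
        · rw [map_zero]
          exact zero_lt_one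
    · rw [hco, if_neg (by omega), if_neg (by omega), if_pos rfl, zero_add, zero_add, hq]
  refine ⟨1, _, 1, one_ne_zero, hirr, ?_, ?_, by norm_num, by rw [pow_one, C_1, one_mul]⟩
  · rw [separable_iff_derivative_ne_zero hirr]
    intro h0
    have h3 := congrArg (fun f => coeff f (2 * n - 1)) h0
    simp only [coeff_derivative, coeff_zero] at h3
    rw [hco, if_pos (by omega), if_neg (by omega), if_neg (by omega)] at h3
    have h4 : ((2 * n - 1 : ℕ) : k) + 1 = 2 * n := by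
      have : ((2 * n - 1 + 1 : ℕ) : k) = ((2 * n : ℕ) : k) := by congr 1; omega
      push_cast at this
      exact this
    rw [h4, add_zero, add_zero, one_mul] at h3
    exact mul_ne_zero h2 hnk h3
  · rw [hd]
    intro h
    rcases (Nat.Prime.dvd_mul (by norm_num : Nat.Prime 5)).1 h with h | h
    · omega
    · exact hn5 h

/-- The surfaces with `b = t ^ n - a`. -/
theorem crit_bin (h5 : (5 : k) ≠ 0) {z : k} (hz : IsZ z) {a : k} {n : ℕ} (hn : 0 < n)
    (hn5 : ¬ 5 ∣ n) (hnk : (n : k) ≠ 0) {v1 v2 v3 : Valuation k (WithZero (Multiplicative ℤ))}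
    (h1 : v1 a = WithZero.exp (-1)) (h2 : v2 (a + ep z) = WithZero.exp (-1))
    (h3 : v3 (a + ep' z) = WithZero.exp (-1)) :
    Crit5 z (X ^ n - C a) 1 ∧ nn5 z (X ^ n - C a) 1 ≤ 4 := by
  have he : ep z ≠ ep' z := fun h => (isZ_ne_aux5 h5 hz).2.2 (sub_eq_zero.2 h.symm)
  have hx : ∀ e : k, (X ^ n - C a) - C e * 1 = (C 1 * (X ^ n - C (a + e)) : k[X]) := by
    intro e
    rw [C_add, C_1]
    ring
  have i1 := eis_bin v1 hn h1
  have p2 := pp_bin v2 hn hn5 hnk one_ne_zero h2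
  have p3 := pp_bin v3 hn hn5 hnk one_ne_zero h3
  rw [← hx] at p2 p3
  have hd : ∀ e : k, ((X ^ n - C a) - C e * 1 : k[X]).natDegree = n := by
    intro e
    rw [hx, C_1, one_mul, natDegree_X_pow_sub_C]
  refine ⟨⟨⟨isCoprime_one_right, i1.ne_zero, one_ne_zero, ?_, ?_⟩,
    pairOK_of (cop_eps isCoprime_one_right he) p2 p3⟩, ?_⟩
  · intro π hi hdv
    rw [mul_one] at hdv
    exact (hi.associated_of_dvd i1 hdv).symm.separable
      (separable_X_pow_sub_C a hnk (ne_of_exp h1))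
  · refine ⟨X ^ n - C a, 1, i1, by rw [natDegree_X_pow_sub_C]; exact hn5, by norm_num, ?_, ?_⟩
    · rw [pow_one, mul_one]
    · rw [mul_one]
      intro h
      have h4 := natDegree_le_of_dvd h i1.ne_zero
      rw [natDegree_pow, natDegree_X_pow_sub_C] at h4
      omega
  · unfold nn5
    have a2 := nPl_le2 p2 p3 (by rw [hd, hd])
    have a1 : nPl (X ^ n - C a : k[X]) 1 ≤ 2 := by
      unfold nPl
      have h4 : irr ((X ^ n - C a) * 1 : k[X]) ⊆ {X ^ n - C a} := by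
        intro r hr
        obtain ⟨hri, hrm, hrd⟩ := (mem_irr (mul_ne_zero i1.ne_zero one_ne_zero)).1 hr
        rw [mul_one] at hrd
        rw [Finset.mem_singleton]
        exact eq_of_monic_of_associated hrm (monic_X_pow_sub_C a hn.ne')
          (hri.associated_of_dvd i1 hrd)
      have h5 := Finset.card_le_card h4
      rw [Finset.card_singleton] at h5
      split_ifs <;> omega
    omega

/-- The surfaces with the points `(u, t ^ n - a)`. -/
theorem crit_tri (h5 : (5 : k) ≠ 0) (h2 : (2 : k) ≠ 0) {z : k} (hz : IsZ z) {a u : k} {n : ℕ}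
    (hn : 0 < n) (hn5 : ¬ 5 ∣ n) (hnk : (n : k) ≠ 0) (hu : u ≠ 0) (hu1 : u + 1 ≠ 0)
    {v1 v2 v3 v4 : Valuation k (WithZero (Multiplicative ℤ))}
    (h10 : v1 (u - 2 * a) < 1) (h11 : v1 (a ^ 2 - u * a - u ^ 3) = WithZero.exp (-1))
    (h20 : v2 (a + u ^ 2 / (u + 1)) = WithZero.exp (-1))
    (h30 : v3 (u - 2 * a - ep z * (u + 1)) < 1)
    (h31 : v3 (a ^ 2 - u * a - u ^ 3 + ep z * ((u + 1) * a + u ^ 2)) = WithZero.exp (-1))
    (h40 : v4 (u - 2 * a - ep' z * (u + 1)) < 1)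
    (h41 : v4 (a ^ 2 - u * a - u ^ 3 + ep' z * ((u + 1) * a + u ^ 2)) = WithZero.exp (-1)) :
    Crit5 z (bxy (C u) (X ^ n - C a)) (gxy (C u) (X ^ n - C a)) ∧
      HasM5 (bxy (C u) (X ^ n - C a)) ∧ HasM5 (gxy (C u) (X ^ n - C a)) ∧
      nn5 z (bxy (C u) (X ^ n - C a)) (gxy (C u) (X ^ n - C a)) ≤ 5 := by
  have e0 : ∀ e : k, bxy (C u) (X ^ n - C a) - C e * gxy (C u) (X ^ n - C a) =
      (X ^ n) ^ 2 + C (u - 2 * a - e * (u + 1)) * X ^ n +
        C (a ^ 2 - u * a - u ^ 3 + e * ((u + 1) * a + u ^ 2)) := by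
    intro e
    unfold bxy gxy
    simp only [C_sub, C_add, C_mul, C_pow, C_1, C_ofNat]
    ring
  have e1 : bxy (C u) (X ^ n - C a) = (X ^ n) ^ 2 + C (u - 2 * a) * X ^ n +
        C (a ^ 2 - u * a - u ^ 3) := by
    have := e0 0
    rw [C_0, zero_mul, sub_zero, zero_mul, sub_zero, zero_mul, add_zero] at this
    exact this
  have e2 : gxy (C u) (X ^ n - C a) = C (u + 1) * (X ^ n - C (a + u ^ 2 / (u + 1))) := by
    have h3 : (C (u + 1) * C (u ^ 2 / (u + 1)) : k[X]) = C u ^ 2 := by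
      rw [← C_mul, mul_div_cancel₀ _ hu1, C_pow]
    unfold gxy
    rw [C_add (a := a), C_add (a := u), C_1] at *
    linear_combination h3
  have p1 := pp_tri v1 hn hn5 hnk h2 h10 h11
  have p2 := pp_bin v2 hn hn5 hnk hu1 h20
  have p3 := pp_tri v3 hn hn5 hnk h2 h30 h31
  have p4 := pp_tri v4 hn hn5 hnk h2 h40 h41
  rw [← e1] at p1
  rw [← e2] at p2
  rw [← e0] at p3 p4
  refine crit_of_pp h5 hz ?_ p1 p2 p3 p4 ?_
  · have hid : (C (u + 1)) ^ 2 * bxy (C u) (X ^ n - C a) -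
        (gxy (C u) (X ^ n - C a) + 3 * C u ^ 2 + C u) * gxy (C u) (X ^ n - C a) =
        -C (u ^ 5) := by
      unfold bxy gxy
      rw [C_add, C_1, C_pow]
      ring
    have hinv : (C (u ^ 5)⁻¹ * C (u ^ 5) : k[X]) = 1 := by
      rw [← C_mul, inv_mul_cancel₀ (pow_ne_zero 5 hu), C_1]
    refine ⟨-C (u ^ 5)⁻¹ * (C (u + 1)) ^ 2,
      C (u ^ 5)⁻¹ * (gxy (C u) (X ^ n - C a) + 3 * C u ^ 2 + C u), ?_⟩
    linear_combination (-C (u ^ 5)⁻¹) * hid + hinv
  · rw [e0, e0, (tri_deg _ _ hn).1, (tri_deg _ _ hn).1]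

end qex

end Pool.Agent.Helper23K9.T5
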