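import Pool.Agent.Helper23K9.T5.Tr
import Mathlib

/-!
Valuations of the field of the fifth roots of unity.
-/

set_option autoImplicit false
set_option linter.all false

open Polynomial IsDedekindDomain NumberField

namespace Pool.Agent.Helper23K9.T5

section val5

variable {L : Type} [Field L] [CharZero L] [IsCyclotomicExtension {5} ℚ L]

theorem prim5 {z : L} (hz : IsZ z) : IsPrimitiveRoot z 5 := by
  have h1 : z ≠ 1 := by
    rintro rfl
    have h2 : (1 : L) ^ 4 + 1 ^ 3 + 1 ^ 2 + 1 + 1 = 0 := hz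
    norm_num at h2
  haveI : Fact (Nat.Prime 5) := ⟨by norm_num⟩
  have h2 := IsPrimitiveRoot.orderOf z
  rwa [orderOf_eq_prime hz.five h1] at h2

/-- The `q`-adic valuation for `q ≠ 5` is unramified. -/
theorem exists_val_int {z : L} (hz : IsZ z) {q : ℕ} (hq : q.Prime) (hq5 : q ≠ 5) :
    ∃ v : Valuation L (WithZero (Multiplicative ℤ)), v (q : L) = WithZero.exp (-1) ∧
      (∀ n : ℤ, v (n : L) ≤ 1) ∧ (∀ n : ℤ, ¬ (q : ℤ) ∣ n → v (n : L) = 1) ∧ v z ≤ 1 := by
  haveI : Fact q.Prime := ⟨hq⟩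
  haveI : NumberField L := IsCyclotomicExtension.numberField {5} ℚ L
  have hqZ : Prime (q : ℤ) := Nat.prime_iff_prime_int.1 hq
  have hpb : Ideal.span {(q : ℤ)} ≠ ⊥ := by
    rw [Ne, Ideal.span_singleton_eq_bot]
    exact hqZ.ne_zero
  haveI hpp : (Ideal.span {(q : ℤ)}).IsPrime := (Ideal.span_singleton_prime hqZ.ne_zero).2 hqZ
  haveI hpm : (Ideal.span {(q : ℤ)}).IsMaximal := hpp.isMaximal hpb
  obtain ⟨P, hPm, hPo⟩ := Ideal.exists_maximal_ideal_liesOver_of_isIntegral (S := 𝓞 L)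
    (Ideal.span {(q : ℤ)})
  have hPb : P ≠ ⊥ := by
    intro h
    have h1 := hPo.over
    rw [h] at h1
    apply hpb
    rw [h1, Ideal.under_bot]
  let v : HeightOneSpectrum ℤ := ⟨Ideal.span {(q : ℤ)}, hpp, hpb⟩
  let w : HeightOneSpectrum (𝓞 L) := ⟨P, hPm.isPrime, hPb⟩
  haveI hwo : w.asIdeal.LiesOver v.asIdeal := hPo
  haveI : P.IsPrime := hPm.isPrime
  have hr : v.asIdeal.ramificationIdx' w.asIdeal = 1 := by
    have h1 := IsCyclotomicExtension.Rat.ramificationIdx_eq_of_not_dvd (m := 5) (p := q) (K := L)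
      (P := P) (by
        intro h
        rcases (Nat.dvd_prime (by norm_num : Nat.Prime 5)).1 h with h | h
        · exact hq.one_lt.ne' h
        · exact hq5 h)
    rw [← h1]
    exact Ideal.ramificationIdx'_eq_ramificationIdx _ _ hpb
  have key : ∀ x : ℚ, w.valuation L (algebraMap ℚ L x) = v.valuation ℚ x := by
    intro x
    rw [← HeightOneSpectrum.valuation_liesOver L v w x, hr, pow_one]
  have keyZ : ∀ n : ℤ, w.valuation L (n : L) = v.valuation ℚ (n : ℚ) := by
    intro n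
    rw [← key, map_intCast (algebraMap ℚ L)]
  have hle : ∀ n : ℤ, w.valuation L (n : L) ≤ 1 := by
    intro n
    rw [keyZ]
    exact v.valuation_le_one (K := ℚ) n
  refine ⟨w.valuation L, ?_, hle, ?_, ?_⟩
  · have h1 := keyZ (q : ℤ)
    rw [Int.cast_natCast] at h1
    rw [h1]
    have h2 : (((q : ℤ) : ℤ) : ℚ) = algebraMap ℤ ℚ (q : ℤ) := rfl
    rw [h2, v.valuation_of_algebraMap]
    exact v.intValuation_singleton hqZ.ne_zero rfl
  · intro n hn
    rw [keyZ]
    have h2 : (n : ℚ) = algebraMap ℤ ℚ n := rfl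
    rw [h2, v.valuation_of_algebraMap, HeightOneSpectrum.intValuation_eq_one_iff]
    intro h
    exact hn (Ideal.mem_span_singleton.1 h)
  · have h1 : (w.valuation L z) ^ 5 = 1 := by rw [← map_pow, hz.five, map_one]
    exact (pow_le_one_iff (by norm_num)).1 h1.le

theorem exists_sq_aut {z : L} (hz : IsZ z) : ∃ σ : L ≃ₐ[ℚ] L, σ z = z ^ 2 := by
  have h1 := prim5 hz
  have h2 : IsPrimitiveRoot (z ^ 2) 5 := h1.pow_of_coprime 2 (by norm_num)
  have hirr : Irreducible (cyclotomic 5 ℚ) := cyclotomic.irreducible_rat (by norm_num)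
  refine ⟨(IsCyclotomicExtension.fromZetaAut h1 hirr).symm.trans
    (IsCyclotomicExtension.fromZetaAut h2 hirr), ?_⟩
  have e1 := IsCyclotomicExtension.fromZetaAut_spec h1 hirr
  have e2 := IsCyclotomicExtension.fromZetaAut_spec h2 hirr
  rw [AlgEquiv.trans_apply]
  have e3 : (IsCyclotomicExtension.fromZetaAut h1 hirr).symm z =
      IsCyclotomicExtension.zeta 5 ℚ L := by
    rw [AlgEquiv.symm_apply_eq, e1]
  rw [e3, e2]

/-- The valuation at a prime of degree one of `ℚ(√5)`: `c + d ε` is a uniformizer (`q` divides its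
norm `c ^ 2 + 11 c d - d ^ 2` exactly once). -/
theorem exists_val_eps {z : L} (hz : IsZ z) {q : ℕ} (hq : q.Prime) (hq5 : q ≠ 5) (c d : ℤ)
    (h1 : (q : ℤ) ∣ c ^ 2 + 11 * c * d - d ^ 2) (h2 : ¬ (q : ℤ) ^ 2 ∣ c ^ 2 + 11 * c * d - d ^ 2) :
    ∃ v : Valuation L (WithZero (Multiplicative ℤ)), v ((c : L) + d * ep z) = WithZero.exp (-1) ∧
      v (q : L) = WithZero.exp (-1) ∧ (∀ n : ℤ, v (n : L) ≤ 1) ∧ v z ≤ 1 := by
  obtain ⟨v, v1, v2, v3, v4⟩ := exists_val_int hz hq hq5
  have hadd : ∀ x y : L, v x ≤ 1 → v y ≤ 1 → v (x + y) ≤ 1 := fun x y hx hy =>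
    (v.map_add x y).trans (max_le hx hy)
  have hmul : ∀ x y : L, v x ≤ 1 → v y ≤ 1 → v (x * y) ≤ 1 := fun x y hx hy => by
    rw [map_mul]
    exact mul_le_one' hx hy
  have hpow : ∀ n : ℕ, v (z ^ n) ≤ 1 := fun n => by
    rw [map_pow]
    exact pow_le_one' v4 n
  have hi : ∀ n : ℤ, v (n : L) ≤ 1 := v2
  have he : v (ep z) ≤ 1 := by
    have h8 := hi 8
    have h5 := hi 5
    push_cast at h8 h5
    exact hadd _ _ h8 (hmul _ _ h5 (hadd _ _ v4 (hpow 4)))
  have he' : v (ep' z) ≤ 1 := by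
    have h8 := hi 8
    have h5 := hi 5
    push_cast at h8 h5
    exact hadd _ _ h8 (hmul _ _ h5 (hadd _ _ (hpow 2) (hpow 3)))
  have hA : v ((c : L) + d * ep z) ≤ 1 := hadd _ _ (hi c) (hmul _ _ (hi d) he)
  have hB : v ((c : L) + d * ep' z) ≤ 1 := hadd _ _ (hi c) (hmul _ _ (hi d) he')
  have hN : v ((c : L) + d * ep z) * v ((c : L) + d * ep' z) = WithZero.exp (-1) := by
    obtain ⟨m, hm⟩ := h1
    have hm2 : ¬ (q : ℤ) ∣ m := by
      rintro ⟨r, rfl⟩
      exact h2 ⟨r, by rw [hm]; ring⟩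
    have e1 : ((c : L) + d * ep z) * ((c : L) + d * ep' z) = (q : L) * (m : L) := by
      have e2 : ((c ^ 2 + 11 * c * d - d ^ 2 : ℤ) : L) = ((q * m : ℤ) : L) := by rw [hm]
      push_cast at e2
      rw [← e2]
      unfold ep ep'
      linear_combination (5 * (c : L) * d + 40 * d ^ 2) * hz.eta_add + 25 * d ^ 2 * hz.eta_mul
    rw [← map_mul, e1, map_mul, v1, v3 m hm2, mul_one]
  have hlt : ∀ a : WithZero (Multiplicative ℤ), a ≤ 1 → a = 1 ∨ a ≤ WithZero.exp (-1) := by
    intro a ha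
    induction a using WithZero.expRecOn with
    | zero => exact Or.inr zero_le'
    | exp n =>
      rw [← WithZero.exp_zero, WithZero.exp_le_exp] at ha
      rcases ha.lt_or_eq with h | h
      · right
        rw [WithZero.exp_le_exp]
        omega
      · left
        rw [h, WithZero.exp_zero]
  rcases hlt _ hA with hA1 | hA1
  · -- the other root
    rw [hA1, one_mul] at hN
    obtain ⟨σ, hσ⟩ := exists_sq_aut hz
    have hσe : σ (ep z) = ep' z := by
      unfold ep ep' eta eta'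
      have h5 := hz.five
      simp only [map_add, map_mul, map_pow, map_ofNat, hσ]
      linear_combination 5 * z ^ 3 * h5
    refine ⟨v.comap (σ : L →+* L), ?_, ?_, fun n => ?_, ?_⟩
    · show v (σ ((c : L) + d * ep z)) = _
      rw [map_add, map_mul, map_intCast, map_intCast, hσe, hN]
    · show v (σ (q : L)) = _
      rw [map_natCast, v1]
    · show v (σ (n : L)) ≤ 1
      rw [map_intCast]
      exact v2 n
    · show v (σ z) ≤ 1
      rw [hσ]
      exact hpow 2
  · refine ⟨v, ?_, v1, v2, v4⟩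
    refine le_antisymm hA1 ?_
    rw [← hN]
    calc v ((c : L) + d * ep z) * v ((c : L) + d * ep' z) ≤ v ((c : L) + d * ep z) * 1 := by gcongr
      _ = _ := mul_one _

end val5

end Pool.Agent.Helper23K9.T5
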