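import Pool.Agent.Helper23K9.T5.Qex
import Pool.Agent.Helper23K9.T5.Val5

/-!
Explicit families over the rational numbers.
-/

set_option autoImplicit false
set_option linter.all false

open Polynomial IsDedekindDomain WeierstrassCurve WeierstrassCurve.Affine
open scoped Classical

namespace Pool.Agent.Helper23K9.T5

open Pool.Agent.TH115.GD (vInf pl Pt act incl rs Sep IsTower)
open Pool.Agent.Helper7K9.T3 (TateAt)

section cyc

/-- A field with the fifth roots of unity between `ℚ` and its separable closure. -/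
theorem exists_k1 (k' : Type) [Field k'] [Algebra ℚ k'] [IsSepClosure ℚ k'] :
    ∃ (k1 : IntermediateField ℚ k') (z : k1), IsZ z ∧ CharZero k1 ∧
      ∀ (h : CharZero k1), IsCyclotomicExtension {5} ℚ k1 := by
  haveI : IsSepClosed k' := IsSepClosure.sep_closed ℚ
  haveI : CharZero k' := algebraRat.charZero k'
  haveI : NeZero ((5 : ℕ) : k') := ⟨by norm_num⟩
  obtain ⟨ζ, hζ⟩ := IsSepClosed.exists_root (cyclotomic 5 k')
    (by rw [degree_cyclotomic]; decide) (separable_cyclotomic 5 k')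
  have hp : IsPrimitiveRoot ζ 5 := isRoot_cyclotomic_iff.1 hζ
  have hz : IsZ ζ := by
    have h1 := hζ
    have h5 : Fact (Nat.Prime 5) := ⟨by norm_num⟩
    rw [IsRoot.def, cyclotomic_prime, eval_geom_sum] at h1
    unfold IsZ
    rw [← h1]
    simp only [Finset.sum_range_succ, Finset.sum_range_zero]
    ring
  refine ⟨IntermediateField.adjoin ℚ {ζ}, ⟨ζ, IntermediateField.mem_adjoin_simple_self ℚ ζ⟩, ?_,
    algebraRat.charZero _, fun h => ?_⟩
  · exact Subtype.ext hz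
  · have h1 := hp.intermediateField_adjoin_isCyclotomicExtension ℚ
    convert h1
    · rfl
    · exact Subsingleton.elim _ _

theorem bxy_map {R S : Type} [Field R] [Field S] (f : R →+* S) (x y : R[X]) :
    (bxy x y).map f = bxy (x.map f) (y.map f) := by
  unfold bxy
  rw [Polynomial.map_sub, Polynomial.map_add, Polynomial.map_mul, Polynomial.map_pow,
    Polynomial.map_pow]

theorem gxy_map {R S : Type} [Field R] [Field S] (f : R →+* S) (x y : R[X]) :
    (gxy x y).map f = gxy (x.map f) (y.map f) := by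
  unfold gxy
  rw [Polynomial.map_sub, Polynomial.map_mul, Polynomial.map_add, Polynomial.map_pow,
    Polynomial.map_one]

/-- The conditions for `b = t ^ n - a`. -/
theorem crit_bin_Q {L : Type} [Field L] [CharZero L] [IsCyclotomicExtension {5} ℚ L] {z : L}
    (hz : IsZ z) {n : ℕ} (hn : 0 < n) (hn5 : ¬ 5 ∣ n) {a : ℤ} {p q : ℕ} (hp : p.Prime)
    (hp5 : p ≠ 5) (hpa : (p : ℤ) ∣ a) (hpa2 : ¬ (p : ℤ) ^ 2 ∣ a) (hq : q.Prime) (hq5 : q ≠ 5)
    (hqa : (q : ℤ) ∣ a ^ 2 + 11 * a - 1) (hqa2 : ¬ (q : ℤ) ^ 2 ∣ a ^ 2 + 11 * a - 1) :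
    Crit5 z (X ^ n - C (a : L)) 1 ∧ nn5 z (X ^ n - C (a : L)) 1 ≤ 4 := by
  obtain ⟨v1, w1, w2, w3, w4⟩ := exists_val_int hz hp hp5
  obtain ⟨v2, w5, -⟩ := exists_val_eps hz hq hq5 a 1 (by simpa using hqa) (by simpa using hqa2)
  have hz2 : IsZ (z ^ 2) := by
    have h5 := hz.five
    unfold IsZ at hz ⊢
    linear_combination hz + (z ^ 3 + z) * h5
  obtain ⟨v3, w6, -⟩ := exists_val_eps hz2 hq hq5 a 1 (by simpa using hqa) (by simpa using hqa2)
  have he : ep (z ^ 2) = ep' z := by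
    have h5 := hz.five
    unfold ep ep' eta eta'
    linear_combination 5 * z ^ 3 * h5
  have hv : v1 (a : L) = WithZero.exp (-1) := by
    obtain ⟨m, rfl⟩ := hpa
    have hm : ¬ (p : ℤ) ∣ m := by
      rintro ⟨r, rfl⟩
      exact hpa2 ⟨r, by ring⟩
    push_cast
    rw [map_mul, w1, w3 m hm, mul_one]
  rw [Int.cast_one, one_mul] at w5 w6
  rw [he] at w6
  exact crit_bin (by norm_num) hz hn hn5 (by exact_mod_cast hn.ne') hv w5 w6

/-- The conditions for the surface through `(-4, t ^ n - 1)`. -/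
theorem crit_tri_Q {L : Type} [Field L] [CharZero L] [IsCyclotomicExtension {5} ℚ L] {z : L}
    (hz : IsZ z) {n : ℕ} (hn : 0 < n) (hn5 : ¬ 5 ∣ n) :
    Crit5 z (bxy (C (-4 : L)) (X ^ n - C 1)) (gxy (C (-4)) (X ^ n - C 1)) ∧
      HasM5 (bxy (C (-4 : L)) (X ^ n - C 1)) ∧ HasM5 (gxy (C (-4 : L)) (X ^ n - C 1)) ∧
      nn5 z (bxy (C (-4)) (X ^ n - C 1)) (gxy (C (-4)) (X ^ n - C 1)) ≤ 5 := by
  obtain ⟨v1, a1, a2, a3, a4⟩ := exists_val_int hz (by norm_num : Nat.Prime 3) (by norm_num)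
  obtain ⟨v2, b1, b2, b3, b4⟩ := exists_val_int hz (by norm_num : Nat.Prime 13) (by norm_num)
  obtain ⟨v3, c1, c2, c3, c4⟩ := exists_val_eps hz (by norm_num : Nat.Prime 19) (by norm_num) 69 13
    (by norm_num) (by norm_num)
  have hz2 : IsZ (z ^ 2) := by
    have h5 := hz.five
    unfold IsZ at hz ⊢
    linear_combination hz + (z ^ 3 + z) * h5
  obtain ⟨v4, d1, d2, d3, d4⟩ := exists_val_eps hz2 (by norm_num : Nat.Prime 19) (by norm_num) 69 13
    (by norm_num) (by norm_num)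
  have he : ep (z ^ 2) = ep' z := by
    have h5 := hz.five
    unfold ep ep' eta eta'
    linear_combination 5 * z ^ 3 * h5
  rw [he] at d1
  have hlt : (WithZero.exp (-1) : WithZero (Multiplicative ℤ)) < 1 := by
    rw [← WithZero.exp_zero, WithZero.exp_lt_exp]
    norm_num
  have h69 : v1 ((69 : ℤ) : L) = WithZero.exp (-1) := by
    have h1 : ((69 : ℤ) : L) = ((3 : ℕ) : L) * ((23 : ℤ) : L) := by norm_num
    rw [h1, map_mul, a1, a3 23 (by norm_num), mul_one]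
  have h6 : v1 ((-6 : ℤ) : L) < 1 := by
    have h1 : ((-6 : ℤ) : L) = ((3 : ℕ) : L) * ((-2 : ℤ) : L) := by norm_num
    rw [h1, map_mul, a1, a3 (-2) (by norm_num), mul_one]
    exact hlt
  have h133 : v2 (-13 / 3 : L) = WithZero.exp (-1) := by
    have h1 : (-13 / 3 : L) * ((3 : ℤ) : L) = ((13 : ℕ) : L) * ((-1 : ℤ) : L) := by
      push_cast
      norm_num
    have h2 := congrArg v2 h1
    rw [map_mul, map_mul, b1, b3 3 (by norm_num), b3 (-1) (by norm_num), mul_one, mul_one] at h2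
    exact h2
  have hsmall : ∀ (v : Valuation L (WithZero (Multiplicative ℤ))) (e : L),
      v (((69 : ℤ) : L) + ((13 : ℤ) : L) * e) = WithZero.exp (-1) →
      v ((19 : ℕ) : L) = WithZero.exp (-1) → (∀ n : ℤ, v (n : L) ≤ 1) → v e ≤ 1 →
      v (-4 - 2 * 1 - e * (-4 + 1)) < 1 := by
    intro v e h1 h2 h3 h4
    have h5 : (-4 - 2 * 1 - e * (-4 + 1) : L) =
        ((9 : ℤ) : L) * (((69 : ℤ) : L) + ((13 : ℤ) : L) * e) +
          ((19 : ℕ) : L) * (((-33 : ℤ) : L) + ((-6 : ℤ) : L) * e) := by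
      push_cast
      ring
    rw [h5]
    refine lt_of_le_of_lt (v.map_add _ _) (max_lt ?_ ?_)
    · rw [map_mul, h1]
      calc v ((9 : ℤ) : L) * WithZero.exp (-1) ≤ 1 * WithZero.exp (-1) := by
            gcongr
            exact h3 9
        _ < 1 := by rw [one_mul]; exact hlt
    · rw [map_mul, h2]
      calc WithZero.exp (-1) * v (((-33 : ℤ) : L) + ((-6 : ℤ) : L) * e) ≤
            WithZero.exp (-1) * 1 := by
            gcongr
            refine (v.map_add _ _).trans (max_le (h3 _) ?_)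
            rw [map_mul]
            exact mul_le_one' (h3 _) h4
        _ < 1 := by rw [mul_one]; exact hlt
  have hep : ∀ (v : Valuation L (WithZero (Multiplicative ℤ))) (y : L), (∀ n : ℤ, v (n : L) ≤ 1) →
      v y ≤ 1 → v (ep y) ≤ 1 := by
    intro v y h3 h4
    have h8 := h3 8
    have h5 := h3 5
    push_cast at h8 h5
    unfold ep eta
    refine (v.map_add _ _).trans (max_le h8 ?_)
    rw [map_mul]
    refine mul_le_one' h5 ((v.map_add _ _).trans (max_le h4 ?_))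
    rw [map_pow]
    exact pow_le_one' h4 4
  refine crit_tri (v1 := v1) (v2 := v2) (v3 := v3) (v4 := v4) (by norm_num) (by norm_num) hz hn hn5
    (by exact_mod_cast hn.ne') (by norm_num) (by norm_num) ?_ ?_ ?_ ?_ ?_ ?_ ?_
  · have h1 : (-4 - 2 * 1 : L) = ((-6 : ℤ) : L) := by norm_num
    rw [h1]
    exact h6
  · have h1 : (1 ^ 2 - -4 * 1 - (-4) ^ 3 : L) = ((69 : ℤ) : L) := by norm_num
    rw [h1]
    exact h69
  · have h1 : (1 + (-4) ^ 2 / (-4 + 1) : L) = -13 / 3 := by norm_num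
    rw [h1]
    exact h133
  · exact hsmall v3 _ c1 c2 c3 (hep v3 z c3 c4)
  · have h1 : (1 ^ 2 - -4 * 1 - (-4) ^ 3 + ep z * ((-4 + 1) * 1 + (-4) ^ 2) : L) =
        ((69 : ℤ) : L) + ((13 : ℤ) : L) * ep z := by
      push_cast
      ring
    rw [h1]
    exact c1
  · refine hsmall v4 _ d1 d2 d3 ?_
    rw [← he]
    exact hep v4 _ d3 d4
  · have h1 : (1 ^ 2 - -4 * 1 - (-4) ^ 3 + ep' z * ((-4 + 1) * 1 + (-4) ^ 2) : L) =
        ((69 : ℤ) : L) + ((13 : ℤ) : L) * ep' z := by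
      push_cast
      ring
    rw [h1]
    exact d1

end cyc

section rat

variable {k' K F : Type} [Field k'] [Algebra ℚ k'] [Field K] [Algebra ℚ[X] K]
    [Field F] [Algebra k'[X] F] [IsFractionRing k'[X] F] [Algebra K F]

theorem tate_bin_Q (hT : IsTower ℚ k' K F) {n : ℕ} (hn : 0 < n) (hn5 : ¬ 5 ∣ n) {a : ℤ} {p q : ℕ}
    (hp : p.Prime) (hp5 : p ≠ 5) (hpa : (p : ℤ) ∣ a) (hpa2 : ¬ (p : ℤ) ^ 2 ∣ a) (hq : q.Prime)
    (hq5 : q ≠ 5) (hqa : (q : ℤ) ∣ a ^ 2 + 11 * a - 1)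
    (hqa2 : ¬ (q : ℤ) ^ 2 ∣ a ^ 2 + 11 * a - 1) :
    TateAt (F := F) 5 k' (crv5 (algebraMap ℚ[X] K (X ^ n - C (a : ℚ)) / algebraMap ℚ[X] K 1)) := by
  haveI := hT.sep
  obtain ⟨k1, z, hz, h0, hcyc⟩ := exists_k1 k'
  haveI := hcyc h0
  haveI : Fact (Nat.Prime 5) := ⟨by norm_num⟩
  obtain ⟨h1, h2⟩ := crit_bin_Q hz hn hn5 hp hp5 hpa hpa2 hq hq5 hqa hqa2
  have e1 : (X ^ n - C (a : ℚ)).map (algebraMap ℚ k1) = X ^ n - C (a : k1) := by
    rw [Polynomial.map_sub, Polynomial.map_pow, map_X, map_C, map_intCast (algebraMap ℚ k1)]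
  have e2 : (1 : ℚ[X]).map (algebraMap ℚ k1) = 1 := Polynomial.map_one _
  refine tate_rank0 (k1 := k1) hT (by norm_num) hz (β := X ^ n - C (a : ℚ)) (γ := 1) ?_ rfl ?_
  · rw [e1, e2]
    exact h1
  · rw [e1, e2]
    exact h2

theorem tate_tri_Q (hT : IsTower ℚ k' K F) {n : ℕ} (hn : 0 < n) (hn5 : ¬ 5 ∣ n) :
    TateAt (F := F) 5 k' (crv5 (algebraMap ℚ[X] K (bxy (C (-4)) (X ^ n - C 1)) /
      algebraMap ℚ[X] K (gxy (C (-4)) (X ^ n - C 1)))) ∧
    ∃ Q : Pt (crv5 (algebraMap ℚ[X] K (bxy (C (-4)) (X ^ n - C 1)) /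
      algebraMap ℚ[X] K (gxy (C (-4)) (X ^ n - C 1)))) K,
      (∃ hn, Q = Point.some (algebraMap ℚ[X] K (C (-4))) (algebraMap ℚ[X] K (X ^ n - C 1)) hn) ∧
        ∀ n : ℕ, n ≠ 0 → n • Q ≠ 0 := by
  haveI := hT.sep
  obtain ⟨k1, z, hz, h0, hcyc⟩ := exists_k1 k'
  haveI := hcyc h0
  haveI : Fact (Nat.Prime 5) := ⟨by norm_num⟩
  obtain ⟨h1, h2, h3, h4⟩ := crit_tri_Q hz hn hn5
  have ex : (C (-4) : ℚ[X]).map (algebraMap ℚ k1) = C (-4) := by
    rw [map_C, RingHom.map_neg, map_ofNat]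
  have ey : (X ^ n - C 1 : ℚ[X]).map (algebraMap ℚ k1) = X ^ n - C 1 := by
    rw [Polynomial.map_sub, Polynomial.map_pow, map_X, map_C, RingHom.map_one]
  have e1 : (bxy (C (-4)) (X ^ n - C 1) : ℚ[X]).map (algebraMap ℚ k1) =
      bxy (C (-4)) (X ^ n - C 1) := by
    rw [bxy_map, ex, ey]
  have e2 : (gxy (C (-4)) (X ^ n - C 1) : ℚ[X]).map (algebraMap ℚ k1) =
      gxy (C (-4)) (X ^ n - C 1) := by
    rw [gxy_map, ex, ey]
  refine tate_rank1 (k1 := k1) hT (by norm_num) hz (x := C (-4)) (y := X ^ n - C 1) ?_ ?_ ?_ rfl ?_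
  · rw [e1, e2]
    exact h1
  · rw [e1]
    exact h2
  · rw [e2]
    exact h3
  · rw [e1, e2]
    exact h4

end rat

end Pool.Agent.Helper23K9.T5
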