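import Pool.Agent.Helper23K9.T5.Tran
import Pool.Agent.Helper23K9.T5.Ind

/-!
The criterion with the point of order five, and with one more point.
-/

set_option autoImplicit false
set_option linter.all false

open Polynomial IsDedekindDomain WeierstrassCurve WeierstrassCurve.Affine
open scoped Classical

namespace Pool.Agent.Helper23K9.T5

open Pool.Agent.TH115.GD (vInf pl Pt act incl rs Sep IsTower mem_pl act_act act_some)
open Pool.Agent.Helper7K9.T3 (TateAt IsTateClass tate_of_part)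

section chgp

theorem chg_pP {K K1 L : Type} [Field K] [Field K1] [Field L] [Algebra K K1] [Algebra K L]
    [Algebra K1 L] [IsScalarTower K K1 L] {b : K}
    (hW : crv5 (algebraMap K K1 b) = (crv5 b).map (algebraMap K K1))
    (h : IsE5 ((crv5 b).baseChange L).toAffine (algebraMap K L b))
    (h' : IsE5 ((crv5 (algebraMap K K1 b)).baseChange L).toAffine
      (algebraMap K1 L (algebraMap K K1 b))) : chg hW L (pP h) = pP h' := by
  unfold pP
  obtain ⟨h1, h2⟩ := chg_some hW L (h.nonsingular.2 (by ring) :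
    ((crv5 b).baseChange L).toAffine.Nonsingular 0 0)
  rw [h2]

end chgp

section mid

variable {k k1 k' K F : Type} [Field k] [Field k1] [Field k'] [Algebra k k1]
    [Algebra k1 k'] [Algebra k k'] [IsScalarTower k k1 k'] [Field K] [Algebra k[X] K]
    [Field F] [Algebra k'[X] F] [IsFractionRing k'[X] F] [Algebra K F]

theorem mid5 (hT : IsTower k k' K F) (h5k : (5 : k) ≠ 0) {z0 : k1}
    (hz0 : IsZ z0) {β γ : k[X]}
    (hC : Crit5 z0 (β.map (algebraMap k k1)) (γ.map (algebraMap k k1))) {b : K}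
    (eb : b = algebraMap k[X] K β / algebraMap k[X] K γ) :
    (5 : K) ≠ 0 ∧ b ≠ 0 ∧ b ^ 2 - 11 * b - 1 ≠ 0 ∧
      (∃ v : HeightOneSpectrum k'[X], om5 v (algebraMap K F b) ≠ 0) ∧
      (∀ (hE : IsE5 ((crv5 b).baseChange F).toAffine (algebraMap K F b)) (S : Pt (crv5 b) F),
        5 • S = 0 → ∃ i : ℕ, S = i • pP hE) ∧
      (∀ p q : k[X], HasM5 (p.map (algebraMap k k1)) → p ≠ 0 → q ≠ 0 →
        IsCoprime (p.map (algebraMap k k1)) (q.map (algebraMap k k1)) →
        (∀ π : k1[X], Irreducible π → π ∣ p.map (algebraMap k k1) → π.Separable) →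
        ∃ v : HeightOneSpectrum k'[X], om5 v (algebraMap K F (algebraMap k[X] K p)) ≠ 0 ∧
          om5 v (algebraMap K F (algebraMap k[X] K q)) = 0) := by
  obtain ⟨K1, iK1, iX1, iKK1, iK1F, tow, hT1, hpol⟩ := exists_mid (k1 := k1) hT
  haveI := hT1.fracK
  haveI := hT1.sep
  haveI : IsSepClosed k' := IsSepClosure.sep_closed k1
  haveI : IsFractionRing k[X] K := hT.fracK
  have hKF1 := hT1.map
  have h51 : (5 : k1) ≠ 0 := by
    have h1 : (5 : k1) = algebraMap k k1 5 := (map_ofNat _ _).symm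
    rw [h1]
    exact (_root_.map_ne_zero _).2 h5k
  have eb1 : algebraMap K K1 b = algebraMap k1[X] K1 (β.map (algebraMap k k1)) /
      algebraMap k1[X] K1 (γ.map (algebraMap k k1)) := by
    rw [eb, map_div₀, hpol, hpol]
  have hW : crv5 (algebraMap K K1 b) = (crv5 b).map (algebraMap K K1) := crv5_map b
  have hp := And.intro hC.one.pne (And.intro hC.one.qne (And.intro hC.two.pne hC.two.qne))
  obtain ⟨h5K1, hb1, hd1, hz1, -⟩ := fldG h51 hz0 hp eb1 rfl
  have hFF : ∀ p : k[X], algebraMap K1 F (algebraMap k1[X] K1 (p.map (algebraMap k k1))) =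
      algebraMap K F (algebraMap k[X] K p) := by
    intro p
    rw [← hpol, ← IsScalarTower.algebraMap_apply]
  have h5K : (5 : K) ≠ 0 := by
    intro h0
    apply h5K1
    have h1 : (5 : K1) = algebraMap K K1 5 := (map_ofNat _ _).symm
    rw [h1, h0, map_zero]
  have hb : b ≠ 0 := by
    rintro rfl
    exact hb1 (map_zero _)
  have hd : b ^ 2 - 11 * b - 1 ≠ 0 := by
    intro h0
    apply hd1
    have h1 : algebraMap K K1 (b ^ 2 - 11 * b - 1) = 0 := by rw [h0, map_zero]
    rw [← h1]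
    simp only [map_sub, map_pow, map_mul, map_ofNat, map_one]
  refine ⟨h5K, hb, hd, ?_, ?_, ?_⟩
  · obtain ⟨π1, m1, d1, o1⟩ := pair_ord (k' := k') (F := F) hC.one hKF1
    obtain ⟨i1', mo1, dv1⟩ := (mem_irr (mul_ne_zero hC.one.pne hC.one.qne)).1 m1
    have r1 := rt_root (k' := k') i1' (hC.one.sep π1 i1' dv1)
    refine ⟨pl (rt k1 k' π1), ?_⟩
    have h1 := o1 _ r1
    have nF : ∀ p : k1[X], p ≠ 0 → algebraMap K1 F (algebraMap k1[X] K1 p) ≠ 0 := by
      intro p hp
      simpa using hp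
    rw [IsScalarTower.algebraMap_apply K K1 F, eb1, map_div₀,
      om5_div _ (nF _ hC.one.pne) (nF _ hC.one.qne)]
    exact h1
  · intro hE S hS
    have hE1 := isE5 (algebraMap K K1 b) F h5K1 hb1 hd1
    have hS1 : 5 • chg hW F S = 0 := by
      rw [← map_nsmul, hS, map_zero]
    obtain ⟨i, hi⟩ := tor_rat hT1 h51 hz0 hC eb1 hE1 hS1
    refine ⟨i, (chg hW F).injective ?_⟩
    rw [hi, map_nsmul, chg_pP hW hE hE1]
  · intro p q hm hp hq hc hs
    have injk := (algebraMap k k1).injective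
    obtain ⟨v, h1, h2⟩ := HasM5.place (k' := k') (F := F) hKF1 hm
      ((Polynomial.map_ne_zero_iff injk).2 hp) ((Polynomial.map_ne_zero_iff injk).2 hq) hc hs
    rw [hFF] at h1 h2
    exact ⟨v, h1, h2⟩

/-- **The criterion with the point of order five.** -/
theorem tate_rank0 [Fact (Nat.Prime 5)] (hT : IsTower k k' K F) (h5k : (5 : k) ≠ 0) {z0 : k1}
    (hz0 : IsZ z0) {β γ : k[X]}
    (hC : Crit5 z0 (β.map (algebraMap k k1)) (γ.map (algebraMap k k1))) {b : K}
    (eb : b = algebraMap k[X] K β / algebraMap k[X] K γ)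
    (hN : nn5 z0 (β.map (algebraMap k k1)) (γ.map (algebraMap k k1)) ≤ 4) :
    TateAt (F := F) 5 k' (crv5 b) := by
  obtain ⟨h5, hb, hd, ⟨v, hv⟩, -, -⟩ := mid5 hT h5k hz0 hC eb
  have hK := isE5 b K h5 hb hd
  have hF := isE5 b F h5 hb hd
  refine tate_crit hT h5k hz0 hC eb (N := 1) (fun _ => pP hK) ?_ hN
  intro l R hR j
  have bF : algebraMap K F b ≠ 0 := (_root_.map_ne_zero _).2 hb
  have h1 := om_dd hF (fun _ => act (crv5 b) (incl K K F) (pP hK)) l R hR v
  rw [Fin.sum_univ_one, pP_act hK hF, dd_P] at h1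
  have h2 : om5 v ((algebraMap K F b)⁻¹) = - om5 v (algebraMap K F b) := by
    have h3 := om5_div v (one_ne_zero (α := F)) bF
    rwa [one_div, om5_one, zero_sub] at h3
  rw [h2] at h1
  have h3 : (l 0 : ZMod 5) = 0 := mul5 _ _ (by linear_combination -h1) hv
  rw [Fin.fin_one_eq_zero j]
  exact (ZMod.natCast_eq_zero_iff _ _).1 h3

/-- **The criterion with one more point.** -/
theorem tate_rank1 [Fact (Nat.Prime 5)] (hT : IsTower k k' K F) (h5k : (5 : k) ≠ 0) {z0 : k1}
    (hz0 : IsZ z0) {x y : k[X]}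
    (hC : Crit5 z0 ((bxy x y).map (algebraMap k k1)) ((gxy x y).map (algebraMap k k1)))
    (m1 : HasM5 ((bxy x y).map (algebraMap k k1))) (m2 : HasM5 ((gxy x y).map (algebraMap k k1)))
    {b : K} (eb : b = algebraMap k[X] K (bxy x y) / algebraMap k[X] K (gxy x y))
    (hN : nn5 z0 ((bxy x y).map (algebraMap k k1)) ((gxy x y).map (algebraMap k k1)) ≤ 5) :
    TateAt (F := F) 5 k' (crv5 b) ∧ ∃ Q : Pt (crv5 b) K,
      (∃ hn, Q = Point.some (algebraMap k[X] K x) (algebraMap k[X] K y) hn) ∧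
        ∀ n : ℕ, n ≠ 0 → n • Q ≠ 0 := by
  obtain ⟨h5, hb, hd, -, htor, hpl⟩ := mid5 hT h5k hz0 hC eb
  haveI : IsFractionRing k[X] K := hT.fracK
  have hK := isE5 b K h5 hb hd
  have hF := isE5 b F h5 hb hd
  have injk := (algebraMap k k1).injective
  have β0 : bxy x y ≠ 0 := (Polynomial.map_ne_zero_iff injk).1 hC.one.pne
  have γ0 : gxy x y ≠ 0 := (Polynomial.map_ne_zero_iff injk).1 hC.one.qne
  have nK : ∀ p : k[X], p ≠ 0 → algebraMap k[X] K p ≠ 0 := by
    intro p hp
    simpa using hp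
  have nF : ∀ p : k[X], p ≠ 0 → algebraMap K F (algebraMap k[X] K p) ≠ 0 := by
    intro p hp
    exact (_root_.map_ne_zero _).2 (nK p hp)
  obtain ⟨X, hX⟩ : ∃ X : K, X = algebraMap k[X] K x := ⟨_, rfl⟩
  obtain ⟨Y, hY⟩ : ∃ Y : K, Y = algebraMap k[X] K y := ⟨_, rfl⟩
  have e1 : algebraMap k[X] K (bxy x y) = Y ^ 2 + X * Y - X ^ 3 := by
    rw [bxy, map_sub, map_add, map_pow, map_mul, map_pow, hX, hY]
  have e2 : algebraMap k[X] K (gxy x y) = (X + 1) * Y - X ^ 2 := by
    rw [gxy, map_sub, map_mul, map_add, map_one, map_pow, hX, hY]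
  have eqn : Y ^ 2 + (1 - b) * X * Y - b * Y = X ^ 3 - b * X ^ 2 := by
    have h1 : b * ((X + 1) * Y - X ^ 2) = Y ^ 2 + X * Y - X ^ 3 := by
      rw [← e1, ← e2, eb, div_mul_cancel₀ _ (nK _ γ0)]
    linear_combination -h1
  have hns : ((crv5 b).baseChange K).toAffine.Nonsingular X Y := hK.nonsingular.2 (by
    show Y ^ 2 + (1 - b) * X * Y - b * Y = X ^ 3 - b * X ^ 2
    exact eqn)
  obtain ⟨Q, hQ⟩ : ∃ Q : Pt (crv5 b) K, Q = Point.some X Y hns := ⟨_, rfl⟩
  -- the value of the descent function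
  have hdQ : dd (algebraMap K F b) (act (crv5 b) (incl K K F) Q) =
      algebraMap K F (algebraMap k[X] K (gxy x y)) := by
    rw [dd_act, hQ]
    have h1 : dd (algebraMap K K b) (Point.some X Y hns) = (X + 1) * Y - X ^ 2 := by
      rw [dd_some]
      by_cases hXY : X = 0
      · have hYn : Y ≠ 0 := by
          intro hY0
          apply nK _ γ0
          rw [e2, hXY, hY0]
          ring
        rw [vl5_of_ne' _ hYn]
        unfold ff5
        ring
      · rw [vl5_of_ne _ hXY]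
        unfold ff5
        ring
    rw [h1, ← e2]
    rfl
  have omb : ∀ v : HeightOneSpectrum k'[X], om5 v (dd (algebraMap K F b) (pP hF)) =
      om5 v (algebraMap K F (algebraMap k[X] K (gxy x y))) -
        om5 v (algebraMap K F (algebraMap k[X] K (bxy x y))) := by
    intro v
    rw [dd_P, eb, map_div₀, inv_div, om5_div v (nF _ γ0) (nF _ β0)]
  have hind : ∀ (l0 l1 : ℕ) (R : Pt (crv5 b) F),
      5 • R = l0 • pP hF + l1 • act (crv5 b) (incl K K F) Q → 5 ∣ l0 ∧ 5 ∣ l1 := by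
    intro l0 l1 R hR
    have h0 : ∀ v : HeightOneSpectrum k'[X], (l0 : ZMod 5) *
        om5 v (dd (algebraMap K F b) (pP hF)) +
          (l1 : ZMod 5) * om5 v (algebraMap K F (algebraMap k[X] K (gxy x y))) = 0 := by
      intro v
      have h1 := om_dd hF ![pP hF, act (crv5 b) (incl K K F) Q] ![l0, l1] R
        (by rw [hR, Fin.sum_univ_two]; rfl) v
      rw [Fin.sum_univ_two] at h1
      rw [← hdQ]
      exact h1
    obtain ⟨v1, a1, a2⟩ := hpl (bxy x y) (gxy x y) m1 β0 γ0 hC.one.cop (fun π hi hd =>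
      hC.one.sep π hi (Dvd.dvd.mul_right hd _))
    obtain ⟨v2, a3, a4⟩ := hpl (gxy x y) (bxy x y) m2 γ0 β0 hC.one.cop.symm (fun π hi hd =>
      hC.one.sep π hi (Dvd.dvd.mul_left hd _))
    have h1 := h0 v1
    rw [omb, a2, mul_zero, add_zero, zero_sub, mul_neg, neg_eq_zero] at h1
    have h2 : (l0 : ZMod 5) = 0 := mul5 _ _ h1 a1
    have h3 := h0 v2
    rw [h2, zero_mul, zero_add] at h3
    have h4 : (l1 : ZMod 5) = 0 := mul5 _ _ h3 a3
    exact ⟨(ZMod.natCast_eq_zero_iff _ _).1 h2, (ZMod.natCast_eq_zero_iff _ _).1 h4⟩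
  refine ⟨tate_crit hT h5k hz0 hC eb (N := 2) ![pP hK, Q] ?_ hN, Q, ⟨hX ▸ hY ▸ hns, ?_⟩, ?_⟩
  · intro l R hR
    rw [Fin.sum_univ_two] at hR
    obtain ⟨h1, h2⟩ := hind (l 0) (l 1) R (by
      rw [hR, ← pP_act hK hF (incl K K F)]
      rfl)
    intro j
    fin_cases j
    · exact h1
    · exact h2
  · subst hX hY
    exact hQ
  · have h1 := inf_of_ind hind (fun S hS => htor hF S hS) (five_pP hF)
    intro n hn h0
    apply h1 n hn
    rw [← map_nsmul, h0, map_zero]

end mid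

end Pool.Agent.Helper23K9.T5
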