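import Pool.Agent.Helper23K9.T5.Val

/-!
Cyclic quintuples which the Galois group permutes cyclically.
-/

set_option autoImplicit false
set_option linter.all false

open scoped Classical

namespace Pool.Agent.Helper23K9.T5

section shift

variable {F : Type*} [Field F]

theorem add3 (x : ZMod 5) : x + 2 + 3 = x := by revert x; decide

theorem tt_shift1 {z : F} (hz5 : z ^ 5 = 1) (u : ZMod 5 → F) {j : ℕ}
    (hj : j = 1 ∨ j = 2 ∨ j = 3 ∨ j = 4) :
    z ^ j * tt z (fun k => u (k + 1)) j = tt z u j := by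
  have e0 : (0 : ZMod 5) + 1 = 1 := by decide
  have e1 : (1 : ZMod 5) + 1 = 2 := by decide
  have e2 : (2 : ZMod 5) + 1 = 3 := by decide
  have e3 : (3 : ZMod 5) + 1 = 4 := by decide
  have e4 : (4 : ZMod 5) + 1 = 0 := by decide
  rcases hj with rfl | rfl | rfl | rfl
  · simp only [tt, e0, e1, e2, e3, e4]
    linear_combination u 0 * hz5
  · simp only [tt, e0, e1, e2, e3, e4]
    linear_combination (u 3 * z + u 0) * hz5
  · simp only [tt, e0, e1, e2, e3, e4]
    linear_combination (u 2 * z + u 4 * z ^ 2 + u 0) * hz5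
  · simp only [tt, e0, e1, e2, e3, e4]
    linear_combination (u 2 * z ^ 3 + u 3 * z ^ 2 + u 4 * z + u 0) * hz5

theorem tt_shift {z : F} (hz5 : z ^ 5 = 1) (u : ZMod 5 → F) {j : ℕ}
    (hj : j = 1 ∨ j = 2 ∨ j = 3 ∨ j = 4) (n : ℕ) :
    z ^ (j * n) * tt z (fun k => u (k + n)) j = tt z u j := by
  induction n generalizing u with
  | zero => simp
  | succ n ih =>
    have h1 := ih (fun k => u (k + 1))
    have h2 := tt_shift1 hz5 u hj
    rw [← h2, ← h1, ← mul_assoc, ← pow_add]
    congr 2
    · ring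
    · funext k
      congr 1
      push_cast
      ring

theorem IsZ.eta_mul {z : F} (hz : IsZ z) : eta z * eta' z = -1 := by
  unfold IsZ at hz
  unfold eta eta'
  linear_combination (z ^ 3 - z + 1) * hz

theorem IsZ.eta_add {z : F} (hz : IsZ z) : eta z + eta' z = -1 := by
  unfold IsZ at hz
  unfold eta eta'
  linear_combination hz

theorem val_z (v : Valuation F Zm) {z : F} (hz : IsZ z) : v z = 1 := by
  have h := hz.five
  have h1 : v z ^ 5 = 1 := by rw [← map_pow, h, map_one]
  have h0 : v z ≠ 0 := by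
    intro h0
    rw [h0, zero_pow (by norm_num)] at h1
    exact zero_ne_one h1
  have h2 := congrArg WithZero.log h1
  rw [WithZero.log_pow, WithZero.log_one, nsmul_eq_mul] at h2
  have h3 : WithZero.log (v z) = 0 := by push_cast at h2; omega
  rw [← WithZero.exp_log h0, h3, WithZero.exp_zero]

theorem val_eta (v : Valuation F Zm) {z : F} (hz : IsZ z) : v (eta z) = 1 ∧ v (eta' z) = 1 := by
  have hvz := val_z v hz
  have h1 : v (eta z) ≤ 1 := by
    unfold eta
    refine (v.map_add _ _).trans (max_le ?_ ?_)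
    · rw [hvz]
    · rw [map_pow, hvz, one_pow]
  have h2 : v (eta' z) ≤ 1 := by
    unfold eta'
    refine (v.map_add _ _).trans (max_le ?_ ?_)
    · rw [map_pow, hvz, one_pow]
    · rw [map_pow, hvz, one_pow]
  have h3 : v (eta z) * v (eta' z) = 1 := by
    rw [← map_mul, hz.eta_mul, Valuation.map_neg, map_one]
  constructor
  · refine le_antisymm h1 ?_
    rw [← h3]
    exact mul_le_of_le_one_right' h2
  · refine le_antisymm h2 ?_
    rw [← h3]
    exact mul_le_of_le_one_left' h1

end shift

section galois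

variable {L Ω : Type*} [Field L] [Field Ω] [Algebra L Ω] [IsGalois L Ω]

theorem eta_map {R S : Type*} [Field R] [Field S] (f : R →+* S) (z : R) :
    f (eta z) = eta (f z) := by unfold eta; simp

theorem eta'_map {R S : Type*} [Field R] [Field S] (f : R →+* S) (z : R) :
    f (eta' z) = eta' (f z) := by unfold eta'; simp

theorem AA_map {R S : Type*} [Field R] [Field S] (f : R →+* S) (z b : R) :
    f (AA z b) = AA (f z) (f b) := by
  unfold AA ep eta
  simp only [map_mul, map_sub, map_add, map_pow, map_one, map_ofNat]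

theorem BB_map {R S : Type*} [Field R] [Field S] (f : R →+* S) (z b : R) :
    f (BB z b) = BB (f z) (f b) := by
  unfold BB ep' eta'
  simp only [map_mul, map_sub, map_add, map_pow, map_one, map_ofNat]

theorem IsZ.map {R S : Type*} [Field R] [Field S] (f : R →+* S) {z : R} (hz : IsZ z) :
    IsZ (f z) := by
  unfold IsZ at *
  rw [← map_one f, ← map_pow, ← map_pow, ← map_pow, ← map_add, ← map_add, ← map_add, ← map_add,
    hz, map_zero]

theorem tt_gal (τ : Ω ≃ₐ[L] Ω) (z : L) (u : ZMod 5 → Ω) (j : ℕ) :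
    τ (tt (algebraMap L Ω z) u j) = tt (algebraMap L Ω z) (fun k => τ (u k)) j := by
  match j with
  | 0 => simp [tt]
  | 1 => simp [tt]
  | 2 => simp [tt]
  | 3 => simp [tt]
  | (n + 4) => simp [tt]

/-- If the Galois group permutes a cyclic quintuple cyclically, then the Kummer generator of the
character is unramified if the valuations of the two factors are equal. -/
theorem loc_shift (w : Valuation L Zm) {z b : L} (hz : IsZ z) (u : ZMod 5 → Ω)
    (hu : Cyc (algebraMap L Ω b) u) (a : (Ω ≃ₐ[L] Ω) → ZMod 5)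
    (ha : ∀ τ k, τ (u k) = u (k + a τ)) {s : Ω} {a0 : L} (hs : s ≠ 0)
    (hs5 : s ^ 5 = algebraMap L Ω a0)
    (hk : ∀ τ : Ω ≃ₐ[L] Ω, τ s = (algebraMap L Ω z) ^ (a τ).val * s)
    (hA : AA z b ≠ 0) (hAB : w (AA z b) = w (BB z b)) : Fi (w a0) := by
  have hz' := hz.map (algebraMap L Ω)
  have hz5 := hz'.five
  have inj := (algebraMap L Ω).injective
  have ha0 : a0 ≠ 0 := by
    rintro rfl
    rw [map_zero] at hs5
    exact pow_ne_zero 5 hs hs5
  have fix : ∀ j : ℕ, (j = 1 ∨ j = 2 ∨ j = 3 ∨ j = 4) →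
      ∃ r : L, algebraMap L Ω r = s ^ j * tt (algebraMap L Ω z) u j := by
    intro j hj
    have : s ^ j * tt (algebraMap L Ω z) u j ∈ Set.range (algebraMap L Ω) := by
      rw [InfiniteGalois.mem_range_algebraMap_iff_fixed]
      intro τ
      rw [map_mul, map_pow, hk, tt_gal, mul_pow, ← pow_mul]
      have h1 := tt_shift hz5 u hj (a τ).val
      rw [show ((fun k : ZMod 5 => τ (u k)) = fun k => u (k + ((a τ).val : ZMod 5))) from by
        funext k
        rw [ha, ZMod.natCast_val, ZMod.cast_id]]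
      rw [← h1, Nat.mul_comm j]
      ring
    obtain ⟨r, hr⟩ := this
    exact ⟨r, hr⟩
  obtain ⟨r1, h1⟩ := fix 1 (by norm_num)
  obtain ⟨r2, h2⟩ := fix 2 (by norm_num)
  obtain ⟨r3, h3⟩ := fix 3 (by norm_num)
  obtain ⟨r4, h4⟩ := fix 4 (by norm_num)
  obtain ⟨q0, q1, q2, q3, q4⟩ := hu.q5 hz'
  rw [← AA_map, ← BB_map, ← eta_map, ← eta'_map] at q0
  rw [← BB_map, ← eta_map] at q1
  rw [← AA_map, ← eta'_map] at q2
  rw [← AA_map, ← eta'_map] at q3
  rw [← BB_map, ← eta_map] at q4
  obtain ⟨ve, ve'⟩ := val_eta w hz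
  refine val_core w (e := eta z) (e' := eta' z) (A := AA z b) (B := BB z b) (a := a0) (r1 := r1)
    (r2 := r2) (r3 := r3) (r4 := r4) ve ve' hA hAB ha0 ?_ ?_ ?_ ?_ ?_
  · apply inj
    simp only [map_mul, map_add, map_neg, map_sub, map_pow, h1, h2, h3, h4, ← hs5]
    linear_combination s ^ 5 * q0
  · apply inj
    simp only [map_mul, map_add, map_neg, map_sub, map_pow, h1, h2, h3, h4, ← hs5]
    linear_combination s ^ 6 * q1
  · apply inj
    simp only [map_mul, map_add, map_neg, map_sub, map_pow, h1, h2, h3, h4, ← hs5]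
    linear_combination s ^ 7 * q2
  · apply inj
    simp only [map_mul, map_add, map_neg, map_sub, map_pow, h1, h2, h3, h4, ← hs5]
    linear_combination s ^ 8 * q3
  · apply inj
    simp only [map_mul, map_add, map_neg, map_sub, map_pow, h1, h2, h3, h4, ← hs5]
    linear_combination s ^ 4 * q4

end galois

end Pool.Agent.Helper23K9.T5
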