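import Pool.Agent.Helper23K9.T5.Crit

/-!
The points of order five over `k'(t)`.
-/

set_option autoImplicit false
set_option linter.all false

open Polynomial IsDedekindDomain WeierstrassCurve WeierstrassCurve.Affine
open scoped Classical

namespace Pool.Agent.Helper23K9.T5

open Pool.Agent.TH115.GD (vInf wInf wFin AtInf CompInf pl Pt act incl rs ak IsCoc LocTriv Sep Comp
  IsTower Preserves LocallyTrivial lt_subT act_act act_inj cob_isCoc preserves sepKΩ lift
  exists_conj fixed_point val_poly)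

section tors

variable {k k' K F : Type} [Field k] [Field k'] [Algebra k k'] [Field K] [Algebra k[X] K]
    [Field F] [Algebra k'[X] F] [IsFractionRing k'[X] F] [Algebra K F]

/-- The points of order five over `k'(t)` are the multiples of the point `P`. -/
theorem tor_rat (hT : IsTower k k' K F) (h5k : (5 : k) ≠ 0) {z0 : k}
    (hz0 : IsZ z0) {β γ : k[X]} (hC : Crit5 z0 β γ) {b : K}
    (eb : b = algebraMap k[X] K β / algebraMap k[X] K γ)
    (hE : IsE5 ((crv5 b).baseChange F).toAffine (algebraMap K F b))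
    {S : Pt (crv5 b) F} (hS : 5 • S = 0) : ∃ i : ℕ, S = i • pP hE := by
  haveI := hT.sep
  haveI := hT.fracK
  haveI : IsSepClosed k' := IsSepClosure.sep_closed k
  haveI : IsGalois k k' := inferInstance
  have hKF := hT.map
  obtain ⟨z, ez⟩ : ∃ z : K, z = algebraMap k[X] K (C z0) := ⟨_, rfl⟩
  have hp := And.intro hC.one.pne (And.intro hC.one.qne (And.intro hC.two.pne hC.two.qne))
  obtain ⟨h5, hb, hd, hz, eA, eB, c1n, c2n, c3n⟩ := fldG h5k hz0 hp eb ez
  haveI : IsSepClosure K (Sep F) := sepKΩ hKF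
  haveI : Algebra.IsSeparable K (Sep F) := IsSepClosure.separable
  haveI : IsGalois K (Sep F) := inferInstance
  have h := isE5 b (Sep F) h5 hb hd
  obtain ⟨pos1, pos2, pos3, pos4⟩ := hp
  -- the root of unity
  set ζ : Sep F := algebraMap K (Sep F) z with hζ
  have hzΩ : IsZ ζ := hz.map _
  have hzF : ∀ σ : Sep F ≃ₐ[F] Sep F, σ ζ = ζ := fun σ => by
    rw [hζ, IsScalarTower.algebraMap_apply K F (Sep F)]
    exact σ.commutes _
  have hz5 : ζ ^ 5 = 1 := hzΩ.five
  have h5Ω : (5 : Sep F) ≠ 0 := h.five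
  -- the point T
  have hA0 := AA_ne h hzΩ
  have hB0 := BB_ne h hzΩ
  have c3Ω : 5 + 3 * eta ζ ≠ 0 := by
    intro h0
    have h1 := hzΩ.eta_sq
    have h2 : (5 + 3 * eta ζ) * (1 - eta ζ) ^ 2 = 1 := by
      linear_combination (3 * eta ζ - 4) * h1
    rw [h0, zero_mul] at h2
    exact zero_ne_one h2
  obtain ⟨m, hm5⟩ : ∃ m : Sep F, m ^ 5 = AA ζ (algebraMap K (Sep F) b) /
      ((5 + 3 * eta ζ) * BB ζ (algebraMap K (Sep F) b)) := by
    haveI : NeZero ((5 : ℕ) : Sep F) := ⟨by exact_mod_cast h5Ω⟩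
    exact IsSepClosed.exists_pow_nat_eq _ 5
  have hm : AA ζ (algebraMap K (Sep F) b) = (5 + 3 * eta ζ) * m ^ 5 *
      BB ζ (algebraMap K (Sep F) b) := by
    rw [hm5]; field_simp
  obtain ⟨T, hTT⟩ := exists_T h hzΩ hm
  have hT5 := hTT.five h hzΩ hm
  have hTn := hTT.nm
  have m0 := m_ne h hzΩ hm
  have hbp : bpol (algebraMap K (Sep F) b) ≠ 0 := by
    obtain ⟨v, hv⟩ := pole5 (k' := k') (F := F) hKF hC.one
    rw [← eb] at hv
    have h1 := bpol_ne v hv
    have h2 : bpol (algebraMap K (Sep F) b) = algebraMap F (Sep F) (bpol (algebraMap K F b)) := by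
      rw [IsScalarTower.algebraMap_apply K F (Sep F)]
      simp only [bpol, map_add, map_sub, map_mul, map_pow, map_ofNat, map_one, map_neg]
    rw [h2]
    exact (_root_.map_ne_zero _).2 h1
  have hsurj : ∀ S : Pt (crv5 b) (Sep F), 5 • S = 0 → ∃ i a, S = cb h T i a :=
    fun S hS => cb_surj h hT5 hTn hbp hS
  obtain ⟨ξ, hξ⟩ : ∃ ξ : (Sep F →ₐ[K] Sep F) → ZMod 5, ∀ φ,
      act (crv5 b) φ T = cb h T (ξ φ) 1 ∧ φ m⁻¹ = ζ ^ (ξ φ).val * m⁻¹ :=
    ⟨fun φ => (T_gal h5 hb hd hz hTT hm φ).choose, fun φ =>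
      (T_gal h5 hb hd hz hTT hm φ).choose_spec⟩
  have hξT := fun φ => (hξ φ).1
  -- the Kummer generator of the character of T
  obtain ⟨g2, hg2⟩ : ∃ g2 : F, g2 = algebraMap K F ((5 + 3 * eta z) * BB z b / AA z b) := ⟨_, rfl⟩
  have kT : KD ζ (fun σ => ξ (rs K σ)) m⁻¹ g2 := by
    refine ⟨inv_ne_zero m0, ?_, fun σ => (hξ (rs K σ)).2⟩
    rw [inv_pow, hm5, hg2, ← IsScalarTower.algebraMap_apply K F (Sep F), map_div₀, map_mul,
      AA_map, BB_map, map_add, map_mul, eta_map, inv_div, map_ofNat, map_ofNat]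
  have nF : ∀ p : k[X], p ≠ 0 → algebraMap K F (algebraMap k[X] K p) ≠ 0 := by
    intro p hp
    simpa using hp
  have omC : ∀ (v : HeightOneSpectrum k'[X]) (c : k) (p : k[X]), c ≠ 0 → p ≠ 0 →
      om5 v (algebraMap K F (algebraMap k[X] K (C c * p))) =
        om5 v (algebraMap K F (algebraMap k[X] K p)) := by
    intro v c p hc hp
    rw [map_mul, map_mul, om5_mul v (nF _ (C_ne_zero.2 hc)) (nF _ hp),
      om_unit v (fin_const hKF v hc), zero_add]
  have e_g2 : g2 = algebraMap K F (algebraMap k[X] K (C ((5 + 3 * eta z0) * (2 * eta' z0 - 1)) *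
        (β - C (ep' z0) * γ))) / algebraMap K F (algebraMap k[X] K (C (2 * eta z0 - 1) *
          (β - C (ep z0) * γ))) := by
    rw [hg2, quot_eq pos2 ez eA eB, map_div₀]
  have om_g2 : ∀ v : HeightOneSpectrum k'[X], om5 v g2 =
      om5 v (algebraMap K F (algebraMap k[X] K (β - C (ep' z0) * γ))) -
        om5 v (algebraMap K F (algebraMap k[X] K (β - C (ep z0) * γ))) := by
    intro v
    rw [e_g2, om5_div v (nF _ (mul_ne_zero (C_ne_zero.2 (mul_ne_zero c3n c2n)) pos4))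
        (nF _ (mul_ne_zero (C_ne_zero.2 c1n) pos3)), omC v _ _ (mul_ne_zero c3n c2n) pos4,
        omC v _ _ c1n pos3]
  obtain ⟨π2, m2, d2, o2⟩ := pair_ord (k' := k') (F := F) hC.two hKF
  obtain ⟨i2', mo2, dv2⟩ := (mem_irr (mul_ne_zero pos3 pos4)).1 m2
  have s2' := hC.two.sep π2 i2' dv2
  have r2 := rt_root (k' := k') i2' s2'
  have hx0 : ∃ σ : Sep F ≃ₐ[F] Sep F, ξ (rs K σ) ≠ 0 := by
    by_contra hcon
    push Not at hcon
    have k1 : KD ζ (fun σ : Sep F ≃ₐ[F] Sep F => ξ (rs K σ)) (1 : Sep F) (1 : F) :=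
      ⟨one_ne_zero, by rw [one_pow, map_one], fun σ => by
        rw [hcon, ZMod.val_zero, pow_zero, one_mul, map_one]⟩
    obtain ⟨c, hc0, hc⟩ := k1.same kT
    apply o2 _ r2
    rw [← neg_eq_zero, neg_sub, ← om_g2, hc, om5_fifth _ hc0 one_ne_zero, om5_one]
  -- the point S
  have hS' : 5 • act (crv5 b) (incl K F (Sep F)) S = 0 := by
    rw [← map_nsmul, hS, map_zero]
  obtain ⟨i, a, e⟩ := hsurj _ hS'
  obtain ⟨σ, hσ⟩ := hx0
  have hfix : act (crv5 b) (rs K σ) (act (crv5 b) (incl K F (Sep F)) S) =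
      act (crv5 b) (incl K F (Sep F)) S := by
    rw [act_act]
    congr 1
    exact congrArg _ (AlgHom.ext fun x => σ.commutes x)
  rw [e, act_cb h5 hb hd hT5 (hξT _)] at hfix
  obtain ⟨h3, -⟩ := cb_inj h hT5 hTn hfix
  have ha : a = 0 := mul5 _ _ (by simpa using h3) hσ
  rw [ha, cb_i] at e
  refine ⟨i.val, act_inj (crv5 b) (incl K F (Sep F)) ?_⟩
  rw [e, map_nsmul, pP_act hE h]

end tors

end Pool.Agent.Helper23K9.T5
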