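import Pool.Agent.Helper23K9.T5.Coll

/-!
Inversion of the finite Fourier transform.
-/

set_option autoImplicit false
set_option linter.all false

open WeierstrassCurve WeierstrassCurve.Affine
open scoped Classical

namespace Pool.Agent.Helper23K9.T5

section uf

variable {F : Type*} [Field F]

/-- The quintuple with given eigenfunctions. -/
noncomputable def uf (z t0 t1 t2 t3 t4 : F) (k : ZMod 5) : F :=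
  (t0 + z ^ (4 * k.val) * t1 + z ^ (3 * k.val) * t2 + z ^ (2 * k.val) * t3 + z ^ k.val * t4) / 5

variable {z t0 t1 t2 t3 t4 b : F}

theorem uf_vals (h5 : (5 : F) ≠ 0) (hz5 : z ^ 5 = 1) :
    5 * uf z t0 t1 t2 t3 t4 0 = t0 + t1 + t2 + t3 + t4 ∧
    5 * uf z t0 t1 t2 t3 t4 1 = t0 + z ^ 4 * t1 + z ^ 3 * t2 + z ^ 2 * t3 + z * t4 ∧
    5 * uf z t0 t1 t2 t3 t4 2 = t0 + z ^ 3 * t1 + z * t2 + z ^ 4 * t3 + z ^ 2 * t4 ∧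
    5 * uf z t0 t1 t2 t3 t4 3 = t0 + z ^ 2 * t1 + z ^ 4 * t2 + z * t3 + z ^ 3 * t4 ∧
    5 * uf z t0 t1 t2 t3 t4 4 = t0 + z * t1 + z ^ 2 * t2 + z ^ 3 * t3 + z ^ 4 * t4 := by
  unfold uf
  simp only [mul_div_cancel₀ _ h5]
  have v0 : (0 : ZMod 5).val = 0 := rfl
  have v1 : (1 : ZMod 5).val = 1 := rfl
  have v2 : (2 : ZMod 5).val = 2 := rfl
  have v3 : (3 : ZMod 5).val = 3 := rfl
  have v4 : (4 : ZMod 5).val = 4 := rfl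
  rw [v0, v1, v2, v3, v4]
  refine ⟨by ring, by ring, ?_, ?_, ?_⟩
  · linear_combination (z ^ 3 * t1 + z * t2) * hz5
  · linear_combination ((z ^ 7 + z ^ 2) * t1 + z ^ 4 * t2 + z * t3) * hz5
  · linear_combination ((z ^ 11 + z ^ 6 + z) * t1 + (z ^ 7 + z ^ 2) * t2 + z ^ 3 * t3) * hz5

theorem Q5.cyc (h5 : (5 : F) ≠ 0) (hz : IsZ z) (hq : Q5 z (AA z b) (BB z b) t1 t2 t3 t4) :
    Cyc b (uf z (2 * b - 1) t1 t2 t3 t4) := by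
  obtain ⟨w0, w1, w2, w3, w4⟩ := uf_vals (t0 := 2 * b - 1) (t1 := t1) (t2 := t2) (t3 := t3)
    (t4 := t4) h5 hz.five
  obtain ⟨q0, q1, q2, q3, q4⟩ := hq
  unfold AA BB ep ep' eta eta' at *
  unfold IsZ at hz
  have e25 : (25 : F) ≠ 0 := by
    have : (25 : F) = 5 * 5 := by norm_num
    rw [this]; exact mul_ne_zero h5 h5
  refine ⟨?_, ?_, fun i => ?_⟩
  · apply mul_left_cancel₀ h5
    linear_combination w0 + w1 + w2 + w3 + w4 + (t1 + t2 + t3 + t4) * hz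
  · apply mul_left_cancel₀ e25
    have e : ∀ x y : F, 25 * (x * y) = (5 * x) * (5 * y) := fun x y => by ring
    rw [mul_add, mul_add, mul_add, mul_add, e, e, e, e, e, w0, w1, w2, w3, w4]
    linear_combination 5*q0 + (-500*z^10 -500*z^9 +500*z^8 +100*z^7*b -1050*z^7 +100*z^6*b -1550*z^6 +500*z^5 +50*z^4*b +z^4*t1*t2 +z^4*t1*t4 +z^4*t3*t4 -150*z^4 -20*z^3*b^2 +270*z^3*b -z^3*t1*t2 +z^3*t1*t3 +z^3*t1*t4 +z^3*t2^2 +z^3*t2*t4 +z^3*t3^2 -z^3*t3*t4 -1005*z^3 -50*z^2*b +z^2*t1^2 +z^2*t1*t2 -2*z^2*t1*t4 -z^2*t2^2 +3*z^2*t2*t3 -z^2*t3^2 +z^2*t3*t4 +z^2*t4^2 +400*z^2 +20*z*b^2 -270*z*b +z*t1*t2 +z*t1*t3 +z*t2^2 -3*z*t2*t3 +z*t2*t4 +z*t3^2 +z*t3*t4 +755*z -10*b^2 +4*b*t1 +4*b*t2 +4*b*t3 +4*b*t4 +135*b -2*t1 -2*t2 -2*t3 -2*t4 -315)*hz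
  · have e : ∀ x y y' : F, 25 * (x * (y + y')) = (5 * x) * (5 * y + 5 * y') := fun x y y' => by ring
    have e' : ∀ x : F, 25 * (b * x - b) = b * (5 * (5 * x)) - 25 * b := fun x => by ring
    have key : ∀ i : ZMod 5, i = 0 ∨ i = 1 ∨ i = 2 ∨ i = 3 ∨ i = 4 := by decide
    apply mul_left_cancel₀ e25
    rw [e, e']
    rcases key i with rfl | rfl | rfl | rfl | rfl
    · rw [show (0 + 2 : ZMod 5) = 2 from by decide, show (0 - 2 : ZMod 5) = 3 from by decide, w0, w2, w3]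
      linear_combination 2*q0 - z^0*q1 - z^0*q2 - z^0*q3 - z^0*q4 + (-200*z^10 -200*z^9 +200*z^8 +40*z^7*b -420*z^7 +40*z^6*b -620*z^6 +200*z^5 +20*z^4*b +10*z^4*t2 +10*z^4*t3 -60*z^4 -8*z^3*b^2 +108*z^3*b -10*z^3*t2 -10*z^3*t3 -402*z^3 -20*z^2*b +10*z^2*t1 +10*z^2*t4 +160*z^2 +8*z*b^2 -108*z*b +10*z*t1 +20*z*t2 +20*z*t3 +10*z*t4 +302*z -4*b^2 +54*b +t1*t2 +t1*t3 -10*t1 +t2*t4 -10*t2 +t3*t4 -10*t3 -10*t4 -126)*hz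
    · rw [show (1 + 2 : ZMod 5) = 3 from by decide, show (1 - 2 : ZMod 5) = 4 from by decide, w1, w3, w4]
      linear_combination 2*q0 - z^4*q1 - z^3*q2 - z^2*q3 - z^1*q4 + (-200*z^10 -200*z^9 +200*z^8 +40*z^7*b +10*z^7*t2 -420*z^7 +40*z^6*b +10*z^6*t1 -10*z^6*t2 +10*z^6*t3 -620*z^6 +10*z^5*t1 -10*z^5*t3 +200*z^5 +20*z^4*b +z^4*t1*t2 +z^4*t1*t4 -10*z^4*t1 +20*z^4*t2 -z^4*t3^2 -60*z^4 -8*z^3*b^2 -2*z^3*b*t1 -2*z^3*b*t2 +108*z^3*b -z^3*t1*t2 +z^3*t1*t3 +z^3*t1 +z^3*t2^2 +z^3*t2*t4 -9*z^3*t2 +z^3*t3^2 +20*z^3*t3 +10*z^3*t4 -402*z^3 +2*z^2*b*t2 -2*z^2*b*t3 -20*z^2*b +z^2*t1*t2 -z^2*t1*t3 -z^2*t1*t4 -z^2*t2^2 +2*z^2*t2*t3 -z^2*t2 +z^2*t3*t4 -9*z^2*t3 +10*z^2*t4 +160*z^2 +8*z*b^2 +2*z*b*t1 +2*z*b*t3 -108*z*b +z*t1*t3 -z*t1 -2*z*t2*t3 -z*t3 -10*z*t4 +302*z -4*b^2 +54*b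 -126)*hz
    · rw [show (2 + 2 : ZMod 5) = 4 from by decide, show (2 - 2 : ZMod 5) = 0 from by decide, w2, w4, w0]
      linear_combination 2*q0 - z^3*q1 - z^1*q2 - z^4*q3 - z^2*q4 + (-200*z^10 -200*z^9 +10*z^8*t3 +200*z^8 +40*z^7*b -10*z^7*t3 -420*z^7 +40*z^6*b -620*z^6 +10*z^5*t1 +10*z^5*t2 +20*z^5*t3 +200*z^5 -2*z^4*b*t3 +20*z^4*b +10*z^4*t1 -10*z^4*t2 +z^4*t3*t4 -9*z^4*t3 +10*z^4*t4 -60*z^4 -8*z^3*b^2 +2*z^3*b*t3 +108*z^3*b +z^3*t1*t4 -10*z^3*t1 -z^3*t3*t4 -z^3*t3 -z^3*t4^2 +10*z^3*t4 -402*z^3 -2*z^2*b*t1 -20*z^2*b +z^2*t1*t3 -z^2*t1*t4 +z^2*t1 -z^2*t2^2 +z^2*t2*t3 +20*z^2*t2 +z^2*t4^2 -10*z^2*t4 +160*z^2 +8*z*b^2 -2*z*b*t2 -2*z*b*t3 -2*z*b*t4 -108*z*b +z*t1*t2 +z*t2^2 -z*t2*t3 +z*t2*t4 -9*z*t2 +z*t3*t4 +z*t3 +z*t4 +302*z -4*b^2 +2*b*t1 +2*b*t2 +2*b*t3 +2*b*t4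 +54*b -t1 -t2 -t3 -t4 -126)*hz
    · rw [show (3 + 2 : ZMod 5) = 0 from by decide, show (3 - 2 : ZMod 5) = 1 from by decide, w3, w0, w1]
      linear_combination 2*q0 - z^2*q1 - z^4*q2 - z^1*q3 - z^3*q4 + (-200*z^10 -200*z^9 +10*z^8*t2 +200*z^8 +40*z^7*b -10*z^7*t2 -420*z^7 +40*z^6*b -620*z^6 +20*z^5*t2 +10*z^5*t3 +10*z^5*t4 +200*z^5 -2*z^4*b*t2 +20*z^4*b +z^4*t1*t2 +10*z^4*t1 -9*z^4*t2 -10*z^4*t3 +10*z^4*t4 -60*z^4 -8*z^3*b^2 +2*z^3*b*t2 +108*z^3*b -z^3*t1^2 -z^3*t1*t2 +z^3*t1*t4 +10*z^3*t1 -z^3*t2 -10*z^3*t4 -402*z^3 -2*z^2*b*t4 -20*z^2*b +z^2*t1^2 -z^2*t1*t4 -10*z^2*t1 +z^2*t2*t3 +z^2*t2*t4 -z^2*t3^2 +20*z^2*t3 +z^2*t4 +160*z^2 +8*z*b^2 -2*z*b*t1 -2*z*b*t2 -2*z*b*t3 -108*z*b +z*t1*t2 +z*t1*t3 +z*t1 -z*t2*t3 +z*t2 +z*t3^2 +z*t3*t4 -9*z*t3 +302*z -4*b^2 +2*b*t1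 +2*b*t2 +2*b*t3 +2*b*t4 +54*b -t1 -t2 -t3 -t4 -126)*hz
    · rw [show (4 + 2 : ZMod 5) = 1 from by decide, show (4 - 2 : ZMod 5) = 2 from by decide, w4, w1, w2]
      linear_combination 2*q0 - z^1*q1 - z^2*q2 - z^3*q3 - z^4*q4 + (-200*z^10 -200*z^9 +200*z^8 +40*z^7*b +10*z^7*t3 -420*z^7 +40*z^6*b +10*z^6*t2 -10*z^6*t3 +10*z^6*t4 -620*z^6 -10*z^5*t2 +10*z^5*t4 +200*z^5 +20*z^4*b +z^4*t1*t4 -z^4*t2^2 +z^4*t3*t4 +20*z^4*t3 -10*z^4*t4 -60*z^4 -8*z^3*b^2 -2*z^3*b*t3 -2*z^3*b*t4 +108*z^3*b +z^3*t1*t3 +10*z^3*t1 +z^3*t2^2 +z^3*t2*t4 +20*z^3*t2 +z^3*t3^2 -z^3*t3*t4 -9*z^3*t3 +z^3*t4 -402*z^3 -2*z^2*b*t2 +2*z^2*b*t3 -20*z^2*b +z^2*t1*t2 -z^2*t1*t4 +10*z^2*t1 +2*z^2*t2*t3 -z^2*t2*t4 -9*z^2*t2 -z^2*t3^2 +z^2*t3*t4 -z^2*t3 +160*z^2 +8*z*b^2 +2*z*b*t2 +2*z*b*t4 -108*z*b -10*z*t1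 -2*z*t2*t3 +z*t2*t4 -z*t2 -z*t4 +302*z -4*b^2 +54*b -126)*hz

theorem uf_tt (h5 : (5 : F) ≠ 0) (hz : IsZ z) (u : ZMod 5 → F) :
    uf z (tt z u 0) (tt z u 1) (tt z u 2) (tt z u 3) (tt z u 4) = u := by
  obtain ⟨w0, w1, w2, w3, w4⟩ := uf_vals (t0 := tt z u 0) (t1 := tt z u 1) (t2 := tt z u 2)
    (t3 := tt z u 3) (t4 := tt z u 4) h5 hz.five
  have key : ∀ i : ZMod 5, i = 0 ∨ i = 1 ∨ i = 2 ∨ i = 3 ∨ i = 4 := by decide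
  unfold IsZ at hz
  funext k
  apply mul_left_cancel₀ h5
  rcases key k with rfl | rfl | rfl | rfl | rfl
  · rw [w0]
    simp only [tt]
    linear_combination (u 1 +u 2 +u 3 +u 4) * hz
  · rw [w1]
    simp only [tt]
    linear_combination (z ^ 4 * u 4 +z ^ 3 * u 2 +z ^ 3 * u 3 -z ^ 3 * u 4 +z ^ 2 * u 4 +4 * z * u 1 -z * u 2 -z * u 3 -z * u 4 +u 0 -4 * u 1 +u 2 +u 3 +u 4) * hz
  · rw [w2]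
    simp only [tt]
    linear_combination (z ^ 4 * u 3 +z ^ 3 * u 1 -z ^ 3 * u 3 +z ^ 3 * u 4 +z ^ 2 * u 3 -z * u 1 +4 * z * u 2 -z * u 3 -z * u 4 +u 0 +u 1 -4 * u 2 +u 3 +u 4) * hz
  · rw [w3]
    simp only [tt]
    linear_combination (z ^ 4 * u 2 +z ^ 3 * u 1 -z ^ 3 * u 2 +z ^ 3 * u 4 +z ^ 2 * u 2 -z * u 1 -z * u 2 +4 * z * u 3 -z * u 4 +u 0 +u 1 +u 2 -4 * u 3 +u 4) * hz
  · rw [w4]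
    simp only [tt]
    linear_combination (z ^ 4 * u 1 -z ^ 3 * u 1 +z ^ 3 * u 2 +z ^ 3 * u 3 +z ^ 2 * u 1 -z * u 1 -z * u 2 -z * u 3 +4 * z * u 4 +u 0 +u 1 +u 2 +u 3 -4 * u 4) * hz

theorem tt_uf (h5 : (5 : F) ≠ 0) (hz : IsZ z) : tt z (uf z t0 t1 t2 t3 t4) 0 = t0 ∧
    tt z (uf z t0 t1 t2 t3 t4) 1 = t1 ∧ tt z (uf z t0 t1 t2 t3 t4) 2 = t2 ∧
    tt z (uf z t0 t1 t2 t3 t4) 3 = t3 ∧ tt z (uf z t0 t1 t2 t3 t4) 4 = t4 := by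
  obtain ⟨w0, w1, w2, w3, w4⟩ := uf_vals (t0 := t0) (t1 := t1) (t2 := t2)
    (t3 := t3) (t4 := t4) h5 hz.five
  unfold IsZ at hz
  refine ⟨?_, ?_, ?_, ?_, ?_⟩
  · apply mul_left_cancel₀ h5
    simp only [tt]
    linear_combination z ^ 0 * w0 + z ^ 0 * w1 + z ^ 0 * w2 + z ^ 0 * w3 + z ^ 0 * w4 + (t1 +t2 +t3 +t4) * hz
  · apply mul_left_cancel₀ h5
    simp only [tt]
    linear_combination z ^ 0 * w0 + z ^ 1 * w1 + z ^ 2 * w2 + z ^ 3 * w3 + z ^ 4 * w4 + (z^4*t4 +z^3*t2 +z^3*t3 -z^3*t4 +z^2*t4 +4*z*t1 -z*t2 -z*t3 -z*t4 +t0 -4*t1 +t2 +t3 +t4) * hz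
  · apply mul_left_cancel₀ h5
    simp only [tt]
    linear_combination z ^ 0 * w0 + z ^ 2 * w1 + z ^ 4 * w2 + z ^ 1 * w3 + z ^ 3 * w4 + (z^4*t3 +z^3*t1 -z^3*t3 +z^3*t4 +z^2*t3 -z*t1 +4*z*t2 -z*t3 -z*t4 +t0 +t1 -4*t2 +t3 +t4) * hz
  · apply mul_left_cancel₀ h5
    simp only [tt]
    linear_combination z ^ 0 * w0 + z ^ 3 * w1 + z ^ 1 * w2 + z ^ 4 * w3 + z ^ 2 * w4 + (z^4*t2 +z^3*t1 -z^3*t2 +z^3*t4 +z^2*t2 -z*t1 -z*t2 +4*z*t3 -z*t4 +t0 +t1 +t2 -4*t3 +t4) * hz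
  · apply mul_left_cancel₀ h5
    simp only [tt]
    linear_combination z ^ 0 * w0 + z ^ 4 * w1 + z ^ 3 * w2 + z ^ 2 * w3 + z ^ 1 * w4 + (z^4*t1 -z^3*t1 +z^3*t2 +z^3*t3 +z^2*t1 -z*t1 -z*t2 -z*t3 +4*z*t4 +t0 +t1 +t2 +t3 -4*t4) * hz

end uf

end Pool.Agent.Helper23K9.T5
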