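import Pool.Agent.Helper23K9.T5.Pts

/-!
The function `y / x` at the five translates of a point.
-/

set_option autoImplicit false
set_option linter.all false

open WeierstrassCurve WeierstrassCurve.Affine
open scoped Classical

namespace Pool.Agent.Helper23K9.T5

section alg

variable {F : Type*} [Field F]

/-- The cyclic sequence of abscissas. -/
structure Seq (b : F) (X u : ZMod 5 → F) : Prop where
  nx : ∀ i, X i ≠ 0
  nxb : ∀ i, X i ≠ b
  ra : ∀ i, b * u i = X i * X (i + 1)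
  rb : ∀ i, u i * u (i + 1) = b - X (i + 1)
  rc : ∀ i, X (i + 1) * (u i + u (i + 1) + 1 - b) = b

variable {b : F} {X u : ZMod 5 → F}

theorem Seq.shift (h : Seq b X u) (n : ZMod 5) : Seq b (fun i => X (i + n)) (fun i => u (i + n)) := by
  have e : ∀ i : ZMod 5, i + 1 + n = i + n + 1 := fun i => by ring
  refine ⟨fun i => h.nx _, fun i => h.nxb _, fun i => ?_, fun i => ?_, fun i => ?_⟩
  · show b * u (i + n) = X (i + n) * X (i + 1 + n)
    rw [e]; exact h.ra _
  · show u (i + n) * u (i + 1 + n) = b - X (i + 1 + n)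
    rw [e]; exact h.rb _
  · show X (i + 1 + n) * (u (i + n) + u (i + 1 + n) + 1 - b) = b
    rw [e]; exact h.rc _

theorem Seq.norm (h : Seq b X u) (hb : b ≠ 0) : X 0 * X 1 * X 2 * X 3 * X 4 = -b ^ 4 := by
  have a0 : b * u 0 = X 0 * X 1 := h.ra 0
  have a1 : b * u 1 = X 1 * X 2 := h.ra 1
  have a3 : b * u 3 = X 3 * X 4 := h.ra 3
  have a4 : b * u 4 = X 4 * X 0 := h.ra 4
  have b0 : u 0 * u 1 = b - X 1 := h.rb 0
  have b3 : u 3 * u 4 = b - X 4 := h.rb 3
  have b4 : u 4 * u 0 = b - X 0 := h.rb 4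
  have c4 : X 0 * (u 4 + u 0 + 1 - b) = b := h.rc 4
  have n0 : X 0 ≠ 0 := h.nx 0
  have n1 : b - X 0 ≠ 0 := fun hh => h.nxb 0 (sub_eq_zero.1 hh).symm
  generalize X 0 = X0 at *
  generalize X 1 = X1 at *
  generalize X 2 = X2 at *
  generalize X 3 = X3 at *
  generalize X 4 = X4 at *
  generalize u 0 = u0 at *
  generalize u 1 = u1 at *
  generalize u 3 = u3 at *
  generalize u 4 = u4 at *
  have p1 : X0 ^ 2 * (X1 * X4) = b ^ 2 * (b - X0) := by
    linear_combination b ^ 2 * b4 - b * u0 * a4 - X4 * X0 * a0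
  have s1 : X0 ^ 2 * (X1 + X4) = b ^ 2 - b * (1 - b) * X0 := by
    linear_combination b * c4 - X0 * a0 - X0 * a4
  have m1 : X1 ^ 2 * X0 * X2 = b ^ 2 * (b - X1) := by
    linear_combination b ^ 2 * b0 - b * u0 * a1 - X1 * X2 * a0
  have m4 : X4 ^ 2 * X0 * X3 = b ^ 2 * (b - X4) := by
    linear_combination b ^ 2 * b3 - b * u3 * a4 - X4 * X0 * a3
  have key : b ^ 2 * X0 * (b - X0) * (X0 * X1 * X2 * X3 * X4 + b ^ 4) = 0 := by
    linear_combination -(X0 * (X0 * X1 * X2 * X3 * X4)) * p1 + X0 ^ 2 * X4 ^ 2 * X0 * X3 * m1 +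
      X0 ^ 2 * b ^ 2 * (b - X1) * m4 - b ^ 5 * s1 + b ^ 4 * p1
  have h1 := (mul_eq_zero.1 key).resolve_left
    (mul_ne_zero (mul_ne_zero (pow_ne_zero 2 hb) n0) n1)
  linear_combination h1

theorem Seq.rel0 (h : Seq b X u) (hb : b ≠ 0) : u 0 * (u 2 + u 3) = b * u 0 - b := by
  have N := h.norm hb
  have a0 : b * u 0 = X 0 * X 1 := h.ra 0
  have a2 : b * u 2 = X 2 * X 3 := h.ra 2
  have a3 : b * u 3 = X 3 * X 4 := h.ra 3
  have b2 : u 2 * u 3 = b - X 3 := h.rb 2
  have c2 : X 3 * (u 2 + u 3 + 1 - b) = b := h.rc 2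
  have n3 : X 3 ≠ 0 := h.nx 3
  generalize X 0 = X0 at *
  generalize X 1 = X1 at *
  generalize X 2 = X2 at *
  generalize X 3 = X3 at *
  generalize X 4 = X4 at *
  generalize u 0 = u0 at *
  generalize u 2 = u2 at *
  generalize u 3 = u3 at *
  have h1 : b ^ 3 * (u0 * (u2 * u3) + b * X3) = 0 := by
    linear_combination b ^ 2 * u2 * u3 * a0 + b * u3 * X0 * X1 * a2 +
      X0 * X1 * X2 * X3 * a3 + X3 * N
  have h2 : u0 * (u2 * u3) + b * X3 = 0 := (mul_eq_zero.1 h1).resolve_left (pow_ne_zero 3 hb)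
  have h3 : X3 * (u0 * (u2 + u3) - (b * u0 - b)) = 0 := by
    linear_combination u0 * c2 + h2 - u0 * b2
  exact sub_eq_zero.1 ((mul_eq_zero.1 h3).resolve_left n3)

theorem Seq.uu0 (h : Seq b X u) (hb : b ≠ 0) : X 1 * (u 2 * u 4) = -b ^ 2 := by
  have N := h.norm hb
  have a2 : b * u 2 = X 2 * X 3 := h.ra 2
  have a4 : b * u 4 = X 4 * X 0 := h.ra 4
  generalize X 0 = X0 at *
  generalize X 1 = X1 at *
  generalize X 2 = X2 at *
  generalize X 3 = X3 at *
  generalize X 4 = X4 at *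
  generalize u 2 = u2 at *
  generalize u 4 = u4 at *
  have h1 : b ^ 2 * (X1 * (u2 * u4) + b ^ 2) = 0 := by
    linear_combination b * X1 * u4 * a2 + X1 * X2 * X3 * a4 + N
  have h2 := (mul_eq_zero.1 h1).resolve_left (pow_ne_zero 2 hb)
  linear_combination h2

theorem Seq.cyc (h : Seq b X u) (hb : b ≠ 0) : Cyc b u := by
  have rel : ∀ i, u i * (u (i + 2) + u (i - 2)) = b * u i - b := by
    intro i
    have := (h.shift i).rel0 hb
    have e2 : (2 : ZMod 5) + i = i + 2 := by ring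
    have e3 : (3 : ZMod 5) + i = i - 2 := by
      have : (3 : ZMod 5) = -2 := by decide
      rw [this]; ring
    simp only [zero_add, e2, e3] at this
    exact this
  have r0 : u 0 * (u 2 + u 3) = b * u 0 - b := rel 0
  have r1 : u 1 * (u 3 + u 4) = b * u 1 - b := rel 1
  have c0 : X 1 * (u 0 + u 1 + 1 - b) = b := h.rc 0
  have k1 := h.uu0 hb
  have n1 : X 1 ≠ 0 := h.nx 1
  refine ⟨?_, ?_, rel⟩
  · -- the sum
    have c4 : X 0 * (u 4 + u 0 + 1 - b) = b := h.rc 4
    have c1 : X 2 * (u 1 + u 2 + 1 - b) = b := h.rc 1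
    have a0 : b * u 0 = X 0 * X 1 := h.ra 0
    have a1 : b * u 1 = X 1 * X 2 := h.ra 1
    have a3 : b * u 3 = X 3 * X 4 := h.ra 3
    have b0 : u 0 * u 1 = b - X 1 := h.rb 0
    have N := h.norm hb
    have n0 : X 0 ≠ 0 := h.nx 0
    have n2 : X 2 ≠ 0 := h.nx 2
    generalize X 0 = X0 at *
    generalize X 1 = X1 at *
    generalize X 2 = X2 at *
    generalize X 3 = X3 at *
    generalize X 4 = X4 at *
    generalize u 0 = u0 at *
    generalize u 1 = u1 at *
    generalize u 2 = u2 at *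
    generalize u 3 = u3 at *
    generalize u 4 = u4 at *
    have p1 : X1 ^ 2 * (X0 * X2) = b ^ 2 * (b - X1) := by
      linear_combination b ^ 2 * b0 - b * u0 * a1 - X1 * X2 * a0
    have s1 : X1 ^ 2 * (X0 + X2) = b ^ 2 - b * (1 - b) * X1 := by
      linear_combination b * c0 - X1 * a0 - X1 * a1
    have key : b * X0 * X2 * X1 ^ 2 * (u0 + u1 + u2 + u3 + u4 - (2 * b - 1)) = 0 := by
      linear_combination b * X2 * X1 ^ 2 * c4 + b * X0 * X1 ^ 2 * c1 + X0 * X2 * X1 ^ 2 * a3 +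
        b ^ 2 * s1 + X1 * N - b * p1
    have h1 := (mul_eq_zero.1 key).resolve_left
      (mul_ne_zero (mul_ne_zero (mul_ne_zero hb n0) n2) (pow_ne_zero 2 n1))
    linear_combination h1
  · generalize X 1 = X1 at *
    generalize u 0 = u0 at *
    generalize u 1 = u1 at *
    generalize u 2 = u2 at *
    generalize u 3 = u3 at *
    generalize u 4 = u4 at *
    have key : X1 * (u0 * u2 + u1 * u3 + u2 * u4 + u3 * u0 + u4 * u1 - (b ^ 2 - 3 * b)) = 0 := by
      linear_combination X1 * r0 + X1 * r1 + k1 + b * c0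
    exact sub_eq_zero.1 ((mul_eq_zero.1 key).resolve_left n1)

end alg

section crv

variable {F : Type*} [Field F] {W : Affine F} {b : F}

/-- The function `y / x`. -/
noncomputable def UU : W.Point → F
  | .zero => 0
  | .some x y _ => y / x

variable (h : IsE5 W b)

/-- The function `y / x` at the five translates of a point. -/
noncomputable def uu (Q : W.Point) : ZMod 5 → F := fun k => UU (Q + k.val • pP h)

include h

theorem uu_add_pP (Q : W.Point) (n : ℕ) : uu h (Q + n • pP h) = fun k => uu h Q (k + n) := by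
  funext k
  unfold uu
  congr 1
  rw [add_assoc, ← add_smul, nsmul_mod h (n + k.val), nsmul_mod h (k + n : ZMod 5).val]
  congr 2
  rw [ZMod.val_add, ZMod.val_natCast]
  omega

theorem exists_xy {Q : W.Point} (hQ : Q ∉ HP h) :
    ∃ x y hxy, Q = Point.some x y hxy ∧ x ≠ 0 ∧ y ≠ 0 ∧ x ≠ b := by
  rcases Q with _ | ⟨x, y, hxy⟩
  · exact absurd (HP h).zero_mem hQ
  · exact ⟨x, y, hxy, rfl, (not_mem_HP h).1 hQ⟩

theorem add_not_mem {Q R : W.Point} (hQ : Q ∉ HP h) (hR : R ∈ HP h) : Q + R ∉ HP h := by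
  intro hh
  exact hQ (by simpa using (HP h).sub_mem hh hR)

/-- The abscissas of the translates. -/
theorem seq_of {Q : W.Point} (hQ : Q ∉ HP h) : ∃ X : ZMod 5 → F, Seq b X (uu h Q) ∧
    ∃ hxy, Q = Point.some (X 0) (uu h Q 0 * X 0) hxy := by
  have key : ∀ k : ZMod 5, ∃ x y hxy, Q + k.val • pP h = Point.some x y hxy ∧ x ≠ 0 ∧ y ≠ 0 ∧
      x ≠ b := fun k => exists_xy h (add_not_mem h hQ ((HP h).nsmul_mem (pP_mem h) _))
  choose X Y hXY e nX nY nXb using key
  have hu : ∀ k, uu h Q k = Y k / X k := by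
    intro k
    unfold uu
    rw [e]
    rfl
  have step : ∀ k : ZMod 5, X (k + 1) = b * Y k / X k ^ 2 ∧
      Y (k + 1) = b ^ 2 * (X k ^ 2 - Y k) / X k ^ 3 := by
    intro k
    obtain ⟨h3, e3⟩ := add_pP h (hXY k) (nX k)
    have e4 : Q + (k + 1).val • pP h = Q + k.val • pP h + pP h := by
      rw [add_assoc, ← succ_nsmul, nsmul_mod h (k + 1).val, nsmul_mod h (k.val + 1)]
      congr 2
      rw [ZMod.val_add]
      show (k.val + 1) % 5 % 5 = _
      omega
    rw [e, e, e3, Point.some.injEq] at e4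
    exact e4
  have heq : ∀ k, Y k ^ 2 + (1 - b) * X k * Y k - b * Y k = X k ^ 3 - b * X k ^ 2 :=
    fun k => h.nonsingular.1 (hXY k)
  refine ⟨X, ⟨nX, nXb, fun i => ?_, fun i => ?_, fun i => ?_⟩, ?_⟩
  · rw [hu, (step i).1]
    have := nX i
    field_simp
  · rw [hu, hu, (step i).1, (step i).2]
    have h1 := nX i
    have h2 := nY i
    have h3 := h.nb
    field_simp
  · rw [hu, hu, (step i).1, (step i).2]
    have h1 := nX i
    have h2 := nY i
    have h3 := h.nb
    have h4 := heq i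
    field_simp
    linear_combination h4
  · have e0 := e 0
    have e1 : Q + (0 : ZMod 5).val • pP h = Q := by
      rw [show (0 : ZMod 5).val = 0 from rfl, zero_smul, add_zero]
    rw [e1] at e0
    have e2 : uu h Q 0 * X 0 = Y 0 := by
      rw [hu]
      exact div_mul_cancel₀ _ (nX 0)
    rw [e2]
    exact ⟨hXY 0, e0⟩

theorem uu_cyc {Q : W.Point} (hQ : Q ∉ HP h) : Cyc b (uu h Q) := by
  obtain ⟨X, hX, -⟩ := seq_of h hQ
  exact hX.cyc h.nb

theorem eq_of_uu {Q : W.Point} (hQ : Q ∉ HP h) : ∃ hxy, Q = Point.some (b - uu h Q 4 * uu h Q 0)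
    (uu h Q 0 * (b - uu h Q 4 * uu h Q 0)) hxy := by
  obtain ⟨X, hX, hxy, e⟩ := seq_of h hQ
  have h1 : uu h Q 4 * uu h Q 0 = b - X 0 := hX.rb 4
  have h2 : X 0 = b - uu h Q 4 * uu h Q 0 := by rw [h1]; ring
  rw [← h2]
  exact ⟨hxy, e⟩

theorem uu_inj {Q R : W.Point} (hQ : Q ∉ HP h) (hR : R ∉ HP h) (e : uu h Q = uu h R) : Q = R := by
  obtain ⟨h1, e1⟩ := eq_of_uu h hQ
  obtain ⟨h2, e2⟩ := eq_of_uu h hR
  rw [e1, e2, Point.some.injEq, e]
  exact ⟨rfl, rfl⟩

/-- The point with a given quintuple. -/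
theorem exists_pt {u : ZMod 5 → F} (hu : Cyc b u) : ∃ Q : W.Point, Q ∉ HP h ∧ uu h Q = u := by
  have hb := h.nb
  -- the points with the coordinates given by the shifts
  have key : ∀ k : ZMod 5, W.Nonsingular (xx b u k) (u k * xx b u k) := by
    intro k
    rw [h.nonsingular]
    have h1 := (hu.shift k).r3
    have e : (4 : ZMod 5) + k = k - 1 := by
      have : (4 : ZMod 5) = -1 := by decide
      rw [this]; ring
    simp only [zero_add, e] at h1
    unfold xx
    linear_combination (u k * (b - u (k - 1) * u k)) * h1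
  have nX : ∀ k, xx b u k ≠ 0 := hu.xx_ne hb
  have r2 : ∀ k : ZMod 5, b * u k = xx b u k * xx b u (k + 1) := by
    intro k
    have h1 := (hu.shift k).r2
    have e : (4 : ZMod 5) + k = k - 1 := by
      have : (4 : ZMod 5) = -1 := by decide
      rw [this]; ring
    simp only [zero_add, e] at h1
    unfold xx
    rw [h1]
    have e1 : k + 1 - 1 = k := by ring
    rw [e1, add_comm 1 k]
  have step : ∀ k : ZMod 5, Point.some (xx b u k) (u k * xx b u k) (key k) + pP h =
      Point.some (xx b u (k + 1)) (u (k + 1) * xx b u (k + 1)) (key (k + 1)) := by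
    intro k
    obtain ⟨h3, e3⟩ := add_pP h (key k) (nX k)
    rw [e3, Point.some.injEq]
    have h4 := r2 k
    have h5 := nX k
    have h7 : u k * u (k + 1) = b - xx b u (k + 1) := by
      unfold xx
      have e1 : k + 1 - 1 = k := by ring
      rw [e1]; ring
    constructor
    · rw [div_eq_iff (pow_ne_zero 2 h5)]
      linear_combination xx b u k * h4
    · rw [div_eq_iff (pow_ne_zero 3 h5)]
      have h8 : xx b u k * xx b u (k + 1) ^ 2 * u (k + 1) = b * xx b u (k + 1) * (b - xx b u (k + 1)) := by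
        linear_combination (-(xx b u (k + 1) * u (k + 1))) * h4 + b * xx b u (k + 1) * h7
      have h9 : b ^ 2 * (xx b u k ^ 2 - u k * xx b u k) = u (k + 1) * xx b u (k + 1) * xx b u k ^ 3 := by
        have h10 := nX (k + 1)
        apply mul_right_cancel₀ h10
        linear_combination (-(xx b u k ^ 2)) * h8 - (b * xx b u k * xx b u (k + 1)) * h4
      exact h9
  obtain ⟨Q, hQd⟩ : ∃ Q : W.Point, Q = Point.some (xx b u 0) (u 0 * xx b u 0) (key 0) := ⟨_, rfl⟩
  have hQ : ∀ n : ℕ, Q + n • pP h = Point.some (xx b u n) (u n * xx b u n) (key n) := by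
    intro n
    induction n with
    | zero => rw [zero_smul, add_zero, hQd]; simp only [Nat.cast_zero]
    | succ n ih =>
      rw [succ_nsmul, ← add_assoc, ih, step]
      simp only [Nat.cast_succ]
  refine ⟨Q, ?_, ?_⟩
  · rw [hQd, not_mem_HP]
    refine ⟨nX 0, mul_ne_zero (hu.ne hb 0) (nX 0), fun h1 => ?_⟩
    unfold xx at h1
    have h2 : u (0 - 1) * u 0 = 0 := by linear_combination -h1
    exact (mul_ne_zero (hu.ne hb _) (hu.ne hb _)) h2
  · funext k
    unfold uu
    rw [hQ]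
    show u _ * xx b u _ / xx b u _ = u k
    rw [mul_div_cancel_right₀ _ (nX _), ZMod.natCast_val, ZMod.cast_id]

end crv

end Pool.Agent.Helper23K9.T5
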