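import Pool.Agent.Helper23K9.T5.Alg
import Pool.Agent.W309.TD.Kum

/-!
The local computation: a class which is the coboundary of a point and takes values in the group
generated by a point of order five is unramified unless one of the two factors degenerates.
-/

set_option autoImplicit false
set_option linter.all false

open scoped Classical

namespace Pool.Agent.Helper23K9.T5

/-- The value group. -/
abbrev Zm := WithZero (Multiplicative ℤ)

/-- Fifth powers in the value group. -/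
def Fi (γ : Zm) : Prop := ∃ β, γ = β ^ 5

theorem Fi.one : Fi 1 := ⟨1, by rw [one_pow]⟩

theorem Fi.pow (x : Zm) : Fi (x ^ 5) := ⟨x, rfl⟩

theorem Fi.mul {x y : Zm} (hx : Fi x) (hy : Fi y) : Fi (x * y) := by
  obtain ⟨s, rfl⟩ := hx
  obtain ⟨t, rfl⟩ := hy
  exact ⟨s * t, by rw [mul_pow]⟩

theorem Fi.iff {V : Zm} (h0 : V ≠ 0) : Fi V ↔ (5 : ℤ) ∣ WithZero.log V := by
  constructor
  · rintro ⟨β, rfl⟩
    rw [WithZero.log_pow, nsmul_eq_mul]
    exact ⟨WithZero.log β, by push_cast; ring⟩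
  · rintro ⟨m, hm⟩
    refine ⟨WithZero.exp m, ?_⟩
    rw [← WithZero.exp_log h0, hm, ← WithZero.exp_nsmul, nsmul_eq_mul]
    norm_num

section order

variable {w w1 w2 w3 w4 wk wl wi E : Zm}

theorem ord_aux (hE : 0 < E) (hw : E < w) (hk : wk < w) (hl : wl < w) (hi : wi ≤ w)
    (h : w ^ 2 ≤ wk * wl ∨ w ^ 2 ≤ E * wi) : False := by
  have hw0 : 0 < w := hE.trans hw
  rcases h with h | h
  · have h1 : wk * wl < w ^ 2 := by
      rw [pow_two]
      exact mul_lt_mul'' hk hl zero_le zero_le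
    exact absurd h (not_le.2 h1)
  · have h1 : E * wi < w ^ 2 := by
      rw [pow_two]
      exact lt_of_le_of_lt (mul_le_mul_right hi E) (mul_lt_mul_of_pos_right hw hw0)
    exact absurd h (not_le.2 h1)

theorem ord_core (hE : 0 < E) (n1 : w1 ≠ E) (n2 : w2 ≠ E) (n3 : w3 ≠ E) (n4 : w4 ≠ E)
    (d12 : w1 = w2 → w1 = 0) (d13 : w1 = w3 → w1 = 0) (d14 : w1 = w4 → w1 = 0)
    (d23 : w2 = w3 → w2 = 0) (d24 : w2 = w4 → w2 = 0) (d34 : w3 = w4 → w3 = 0)
    (q0 : E ^ 2 ≤ w1 * w4 ∨ E ^ 2 ≤ w2 * w3)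
    (q1 : w3 ^ 2 ≤ w2 * w4 ∨ w3 ^ 2 ≤ E * w1)
    (q2 : w1 ^ 2 ≤ w3 * w4 ∨ w1 ^ 2 ≤ E * w2)
    (q3 : w4 ^ 2 ≤ w1 * w2 ∨ w4 ^ 2 ≤ E * w3)
    (q4 : w2 ^ 2 ≤ w3 * w1 ∨ w2 ^ 2 ≤ E * w4) : False := by
  have key : ∀ m, w1 ≤ m → w2 ≤ m → w3 ≤ m → w4 ≤ m → m ≠ E → E < m := by
    intro m h1 h2 h3 h4 hm
    rcases lt_trichotomy m E with h | h | h
    · exfalso
      have : ∀ x y, x ≤ m → y ≤ m → ¬ E ^ 2 ≤ x * y := by
        intro x y hx hy hh
        have h5 : x * y < E ^ 2 := by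
          rw [pow_two]
          exact mul_lt_mul'' (lt_of_le_of_lt hx h) (lt_of_le_of_lt hy h) zero_le zero_le
        exact absurd hh (not_le.2 h5)
      rcases q0 with q | q
      · exact this _ _ h1 h4 q
      · exact this _ _ h2 h3 q
    · exact absurd h hm
    · exact h
  have lt_of : ∀ x m, x ≤ m → (m = x → m = 0) → E < m → x < m := by
    intro x m hx hne hm
    refine lt_of_le_of_ne hx (fun h => ?_)
    have := hne h.symm
    rw [this] at hm
    exact absurd hm (not_lt.2 zero_le)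
  have sym : ∀ {x y : Zm}, (x = y → x = 0) → (y = x → y = 0) := by
    intro x y h h'
    rw [h']; exact h h'.symm
  -- the maximum
  have hmax : (w2 ≤ w1 ∧ w3 ≤ w1 ∧ w4 ≤ w1) ∨ (w1 ≤ w2 ∧ w3 ≤ w2 ∧ w4 ≤ w2) ∨
      (w1 ≤ w3 ∧ w2 ≤ w3 ∧ w4 ≤ w3) ∨ (w1 ≤ w4 ∧ w2 ≤ w4 ∧ w3 ≤ w4) := by
    rcases le_total w1 w2 with a | a <;> rcases le_total w3 w4 with b | b
    · rcases le_total w2 w4 with c | c
      · exact Or.inr (Or.inr (Or.inr ⟨a.trans c, c, b⟩))
      · exact Or.inr (Or.inl ⟨a, b.trans c, c⟩)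
    · rcases le_total w2 w3 with c | c
      · exact Or.inr (Or.inr (Or.inl ⟨a.trans c, c, b⟩))
      · exact Or.inr (Or.inl ⟨a, c, b.trans c⟩)
    · rcases le_total w1 w4 with c | c
      · exact Or.inr (Or.inr (Or.inr ⟨c, a.trans c, b⟩))
      · exact Or.inl ⟨a, b.trans c, c⟩
    · rcases le_total w1 w3 with c | c
      · exact Or.inr (Or.inr (Or.inl ⟨c, a.trans c, b⟩))
      · exact Or.inl ⟨a, c, b.trans c⟩
  rcases hmax with ⟨h2, h3, h4⟩ | ⟨h1, h3, h4⟩ | ⟨h1, h2, h4⟩ | ⟨h1, h2, h3⟩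
  · have hm := key _ le_rfl h2 h3 h4 n1
    exact ord_aux hE hm (lt_of _ _ h3 d13 hm) (lt_of _ _ h4 d14 hm) h2 q2
  · have hm := key _ h1 le_rfl h3 h4 n2
    exact ord_aux hE hm (lt_of _ _ h3 d23 hm) (lt_of _ _ h1 (sym d12) hm) h4 q4
  · have hm := key _ h1 h2 le_rfl h4 n3
    exact ord_aux hE hm (lt_of _ _ h2 (sym d23) hm) (lt_of _ _ h4 d34 hm) h1 q1
  · have hm := key _ h1 h2 h3 le_rfl n4
    exact ord_aux hE hm (lt_of _ _ h1 (sym d14) hm) (lt_of _ _ h2 (sym d24) hm) h3 q3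

end order

section core

variable {L : Type*} [Field L] (v : Valuation L Zm)

theorem val_le_or {x y s : L} (h : x - y = s) : v y ≤ v x ∨ v y ≤ v s := by
  have : y = x - s := by rw [← h]; ring
  rw [this]
  rcases le_total (v x) (v s) with h1 | h1
  · right; exact (v.map_sub _ _).trans (max_le h1 le_rfl)
  · left; exact (v.map_sub _ _).trans (max_le le_rfl h1)

/-- The valuation of the Kummer generator is divisible by five. -/
theorem val_core {e e' A B a r1 r2 r3 r4 : L} (ve : v e = 1) (ve' : v e' = 1)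
    (hA : A ≠ 0) (hAB : v A = v B) (ha : a ≠ 0)
    (h0 : e' * (r1 * r4) + e * (r2 * r3) = -(A * B) * a)
    (h1 : r2 * r4 - e * r3 ^ 2 = B * r1 * a)
    (h2 : r3 * r4 - e' * r1 ^ 2 * a = A * r2 * a)
    (h3 : r1 * r2 * a - e' * r4 ^ 2 = A * r3 * a)
    (h4 : r3 * r1 - e * r2 ^ 2 = B * r4) : Fi (v a) := by
  by_contra hcon
  have V0 : v a ≠ 0 := (Valuation.ne_zero_iff v).2 ha
  have E0 : v A ≠ 0 := (Valuation.ne_zero_iff v).2 hA
  obtain ⟨V, hV⟩ : ∃ V, V = v a := ⟨_, rfl⟩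
  obtain ⟨E, hE⟩ : ∃ E, E = v A := ⟨_, rfl⟩
  rw [← hV] at V0 hcon
  rw [← hE] at E0 hAB
  -- the relations between the valuations
  have g0 : E * E * V ≤ v r1 * v r4 ∨ E * E * V ≤ v r2 * v r3 := by
    have := val_le_or v (x := -(e * (r2 * r3))) (y := A * B * a) (s := e' * (r1 * r4))
      (by linear_combination -h0)
    simp only [map_mul, Valuation.map_neg, ve, ve', ← hE, ← hAB, ← hV, one_mul] at this
    exact this.symm
  have g1 : v r3 ^ 2 ≤ v r2 * v r4 ∨ v r3 ^ 2 ≤ E * v r1 * V := by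
    have := val_le_or v h1
    simpa only [map_mul, map_pow, ve, ve', ← hE, ← hAB, ← hV, one_mul] using this
  have g2 : v r1 ^ 2 * V ≤ v r3 * v r4 ∨ v r1 ^ 2 * V ≤ E * v r2 * V := by
    have := val_le_or v h2
    simpa only [map_mul, map_pow, ve, ve', ← hE, ← hAB, ← hV, one_mul] using this
  have g3 : v r4 ^ 2 ≤ v r1 * v r2 * V ∨ v r4 ^ 2 ≤ E * v r3 * V := by
    have := val_le_or v h3
    simpa only [map_mul, map_pow, ve, ve', ← hE, ← hAB, ← hV, one_mul] using this
  have g4 : v r2 ^ 2 ≤ v r3 * v r1 ∨ v r2 ^ 2 ≤ E * v r4 := by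
    have := val_le_or v h4
    simpa only [map_mul, map_pow, ve, ve', ← hE, ← hAB, ← hV, one_mul] using this
  generalize v r1 = ρ1 at *
  generalize v r2 = ρ2 at *
  generalize v r3 = ρ3 at *
  generalize v r4 = ρ4 at *
  have Vp : 0 < V := zero_lt_iff.2 V0
  have p5 : ∀ {x y : Zm}, x ≤ y → x ^ 5 ≤ y ^ 5 := fun h => pow_le_pow_left₀ zero_le h 5
  have dv : ∀ {x y : Zm} (n : ℕ), x ≤ y → x / V ^ n ≤ y / V ^ n := fun n h =>
    div_le_div_of_nonneg_right h zero_le
  have tr : ∀ {x y x' y' : Zm} (n : ℕ), x ≤ y → x ^ 5 / V ^ n = x' → y ^ 5 / V ^ n = y' →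
      x' ≤ y' := by
    intro x y x' y' n h h1 h2
    rw [← h1, ← h2]
    exact dv n (p5 h)
  have hcon' : ¬ (5 : ℤ) ∣ WithZero.log V := fun h => hcon ((Fi.iff V0).2 h)
  have lg : ∀ {ρ : Zm} {k : ℕ}, ρ ≠ 0 → WithZero.log (ρ ^ 5 / V ^ k) =
      5 * WithZero.log ρ - k * WithZero.log V := by
    intro ρ k hρ
    rw [WithZero.log_div (pow_ne_zero 5 hρ) (pow_ne_zero k V0), WithZero.log_pow, WithZero.log_pow,
      nsmul_eq_mul, nsmul_eq_mul]
    norm_num
  have dE : ∀ {ρ : Zm} {k : ℕ}, ρ ^ 5 / V ^ k = E ^ 5 → (0 < k ∧ k < 5) → False := by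
    intro ρ k h hk
    have hρ : ρ ≠ 0 := by
      rintro rfl
      rw [zero_pow (by norm_num), zero_div] at h
      exact pow_ne_zero 5 E0 h.symm
    have h5 := congrArg WithZero.log h
    rw [lg hρ, WithZero.log_pow, nsmul_eq_mul] at h5
    apply hcon'
    obtain ⟨h6, h7⟩ := hk
    interval_cases k <;> push_cast at h5 <;> omega
  have dd : ∀ {ρ σ : Zm} {j k : ℕ}, ρ ^ 5 / V ^ j = σ ^ 5 / V ^ k → 0 < j → j < 5 → 0 < k → k < 5 →
      j ≠ k → ρ ^ 5 / V ^ j = 0 := by
    intro ρ σ j k h h1 h2 h3 h4 hjk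
    by_contra hne
    have hρ : ρ ≠ 0 := fun h' => hne (by rw [h', zero_pow (by norm_num), zero_div])
    have hσ : σ ≠ 0 := fun h' => hne (by rw [h, h', zero_pow (by norm_num), zero_div])
    have h5 := congrArg WithZero.log h
    rw [lg hρ, lg hσ] at h5
    apply hcon'
    interval_cases j <;> interval_cases k <;> first | exact absurd rfl hjk | (push_cast at h5; omega)
  -- the elements `w j = ρ j ^ 5 / V ^ j`
  refine ord_core (E := E ^ 5) (w1 := ρ1 ^ 5 / V ^ 1) (w2 := ρ2 ^ 5 / V ^ 2) (w3 := ρ3 ^ 5 / V ^ 3)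
    (w4 := ρ4 ^ 5 / V ^ 4) (pow_pos (zero_lt_iff.2 E0) 5) ?_ ?_ ?_ ?_ ?_ ?_ ?_ ?_ ?_ ?_ ?_ ?_ ?_ ?_ ?_
  · intro h
    exact dE (k := 1) h (by norm_num)
  · intro h
    exact dE (k := 2) h (by norm_num)
  · intro h
    exact dE (k := 3) h (by norm_num)
  · intro h
    exact dE (k := 4) h (by norm_num)
  · intro h
    exact dd (j := 1) (k := 2) h (by norm_num) (by norm_num) (by norm_num) (by norm_num) (by norm_num)
  · intro h
    exact dd (j := 1) (k := 3) h (by norm_num) (by norm_num) (by norm_num) (by norm_num) (by norm_num)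
  · intro h
    exact dd (j := 1) (k := 4) h (by norm_num) (by norm_num) (by norm_num) (by norm_num) (by norm_num)
  · intro h
    exact dd (j := 2) (k := 3) h (by norm_num) (by norm_num) (by norm_num) (by norm_num) (by norm_num)
  · intro h
    exact dd (j := 2) (k := 4) h (by norm_num) (by norm_num) (by norm_num) (by norm_num) (by norm_num)
  · intro h
    exact dd (j := 3) (k := 4) h (by norm_num) (by norm_num) (by norm_num) (by norm_num) (by norm_num)
  · rcases g0 with g | g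
    · left
      refine tr 5 g ?_ ?_
      · field_simp
      · field_simp
    · right
      refine tr 5 g ?_ ?_
      · field_simp
      · field_simp
  · rcases g1 with g | g
    · left
      refine tr 6 g ?_ ?_
      · field_simp
      · field_simp
    · right
      refine tr 6 g ?_ ?_
      · field_simp
      · field_simp
  · rcases g2 with g | g
    · left
      refine tr 7 g ?_ ?_
      · field_simp
      · field_simp
    · right
      refine tr 7 g ?_ ?_
      · field_simp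
      · field_simp
  · rcases g3 with g | g
    · left
      refine tr 8 g ?_ ?_
      · field_simp
      · field_simp
    · right
      refine tr 8 g ?_ ?_
      · field_simp
      · field_simp
  · rcases g4 with g | g
    · left
      refine tr 4 g ?_ ?_
      · field_simp
      · field_simp
    · right
      refine tr 4 g ?_ ?_
      · field_simp
      · field_simp

end core

end Pool.Agent.Helper23K9.T5
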