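import Pool.Agent.Helper23K9.T5.Iso

/-!
The points of order five and the zeros of the eigenfunctions.
-/

set_option autoImplicit false
set_option linter.all false

open WeierstrassCurve WeierstrassCurve.Affine
open scoped Classical

namespace Pool.Agent.Helper23K9.T5

section zer

variable {F : Type*} [Field F] {W : Affine F} {b : F} (h : IsE5 W b) {z m : F} (hz : IsZ z)
  (hm : AA z b = (5 + 3 * eta z) * m ^ 5 * BB z b)

include h hz hm

theorem m_ne : m ≠ 0 := by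
  rintro rfl
  have hA := AA_ne h hz
  rw [hm] at hA
  apply hA; ring

theorem two_eta_ne : (2 + eta z) ≠ 0 := by
  intro h0
  have hA := AA_ne h hz
  have h1 := hz.eta_sq
  rw [hm] at hA
  apply hA
  linear_combination ((2 + eta z) * m ^ 5 * BB z b) * h0 - m ^ 5 * BB z b * h1

omit h hm in
theorem eta'_ne : (-1 - eta z) ≠ 0 := by
  intro h0
  have h1 := hz.eta_mul
  rw [hz.eta'] at h1
  rw [h0, mul_zero] at h1
  norm_num at h1

theorem IsT.t4_ne {T : W.Point} (hT : IsT h z m T) : tq h z T 4 ≠ 0 := by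
  rw [hT.t4]
  exact mul_ne_zero (mul_ne_zero (mul_ne_zero (eta'_ne hz) (two_eta_ne h hz hm))
    (pow_ne_zero 4 (m_ne h hz hm))) (BB_ne h hz)

theorem IsT.t2_ne {T : W.Point} (hT : IsT h z m T) : tq h z T 2 ≠ 0 := by
  rw [hT.t2]
  exact mul_ne_zero (mul_ne_zero (neg_ne_zero.2 (two_eta_ne h hz hm))
    (pow_ne_zero 2 (m_ne h hz hm))) (BB_ne h hz)

/-- The order of `T` is five. -/
theorem IsT.five {T : W.Point} (hT : IsT h z m T) : 5 • T = 0 := by
  have hB := BB_ne h hz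
  have nm := m_ne h hz hm
  have ne' := eta'_ne hz
  have n2 := two_eta_ne h hz hm
  have nz := hz.ne
  have z5 := hz.five
  have he := hz.eta_sq
  have hn := hT.nm
  obtain ⟨R1, M1⟩ := exists_MRel h hz hm hn (hT.t4_ne h hz hm)
  have a1 := M1.add h hz hT hm
  obtain ⟨-, hR1, E1, E2, E3, E4⟩ := M1
  have t4n := hT.t4_ne h hz hm
  rw [hT.t1] at E2
  rw [hT.t2] at E3
  rw [hT.t3] at E4
  rw [hT.t4] at E1 E2 E3 E4
  rw [hT.t4] at t4n
  have e1 : eta z = eta z := rfl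
  generalize hE : eta z = e at *
  generalize hBB : BB z b = B at *
  have r1 : tq h z R1 1 = z ^ 3 * (-1 - e) * m ^ 2 * B := by
    apply mul_left_cancel₀ t4n
    rw [E1]
    linear_combination (-z^3*e*m^6*B^2 -3*z^3*m^6*B^2) * he
  have r2 : tq h z R1 2 = 0 := by
    apply mul_left_cancel₀ t4n
    rw [E2]; ring
  have r3 : tq h z R1 3 = -z ^ 4 * (-1 - e) * m * B := by
    apply mul_left_cancel₀ t4n
    rw [E3]
    linear_combination (z^4*e*m^5*B^2 +2*z^4*m^5*B^2) * he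
  have r4 : tq h z R1 4 = -z ^ 2 * (2 + e) * m ^ 3 * B := by
    apply mul_left_cancel₀ t4n
    rw [E4]
    ring
  have r4n : tq h z R1 4 ≠ 0 := by
    rw [r4]
    exact mul_ne_zero (mul_ne_zero (mul_ne_zero (neg_ne_zero.2 (pow_ne_zero 2 nz)) n2)
      (pow_ne_zero 3 nm)) hB
  obtain ⟨R2, M2⟩ := exists_MRel h hz (by rw [hE, hBB]; exact hm) hR1 r4n
  have a2 := M2.add h hz hT (by rw [hE, hBB]; exact hm)
  obtain ⟨-, hR2, E1, E2, E3, E4⟩ := M2
  rw [hE, hBB] at E1 E2 E3 E4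
  rw [r1] at E2
  rw [r2] at E3
  rw [r3] at E4
  rw [r4] at E1 E2 E3 E4
  rw [r4] at r4n
  have s1 : tq h z R2 1 = -z * (2 + e) * m ^ 3 * B := by
    apply mul_left_cancel₀ r4n
    rw [E1]
    linear_combination (-z^3*m^6*B^2) * he
  have s2 : tq h z R2 2 = -z ^ 2 * (-1 - e) * m * B := by
    apply mul_left_cancel₀ r4n
    rw [E2]; ring
  have s3 : tq h z R2 3 = 0 := by
    apply mul_left_cancel₀ r4n
    rw [E3]; ring
  have s4 : tq h z R2 4 = z ^ 4 * (-1 - e) * m ^ 2 * B := by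
    apply mul_left_cancel₀ r4n
    rw [E4]
    ring
  have s4n : tq h z R2 4 ≠ 0 := by
    rw [s4]
    exact mul_ne_zero (mul_ne_zero (mul_ne_zero (pow_ne_zero 4 nz) ne')
      (pow_ne_zero 2 nm)) hB
  obtain ⟨R3, M3⟩ := exists_MRel h hz (by rw [hE, hBB]; exact hm) hR2 s4n
  have a3 := M3.add h hz hT (by rw [hE, hBB]; exact hm)
  obtain ⟨-, hR3, E1, E2, E3, E4⟩ := M3
  rw [hE, hBB] at E1 E2 E3 E4
  rw [s1] at E2
  rw [s2] at E3
  rw [s3] at E4
  rw [s4] at E1 E2 E3 E4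
  rw [s4] at s4n
  have w1 : tq h z R3 1 = z ^ 4 * (-1 - e) * (2 + e) * m ^ 4 * B := by
    apply mul_left_cancel₀ s4n
    rw [E1]
    linear_combination (-z^3*e^3*m^6*B^2 -4*z^3*e^2*m^6*B^2 -5*z^3*e*m^6*B^2 -2*z^3*m^6*B^2)*z5 +
      (-z^3*e*m^6*B^2 -3*z^3*m^6*B^2)*he
  have w2 : tq h z R3 2 = -z ^ 3 * (-1 - e) * (2 + e) * m ^ 3 * B := by
    apply mul_left_cancel₀ s4n
    rw [E2]
    linear_combination (z^2*e^3*m^5*B^2 +4*z^2*e^2*m^5*B^2 +5*z^2*e*m^5*B^2 +2*z^2*m^5*B^2)*z5 +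
      (z^2*e*m^5*B^2 +2*z^2*m^5*B^2)*he
  have w3 : tq h z R3 3 = -z ^ 2 * (2 + e) * m ^ 2 * B := by
    apply mul_left_cancel₀ s4n
    rw [E3]; ring
  have w4 : tq h z R3 4 = 0 := by
    apply mul_left_cancel₀ s4n
    rw [E4]
    ring
  -- `R3 = -T`
  have hR : R3 = -T := by
    obtain ⟨f1, f2, f3, f4⟩ := tq_neg h hz hn
    apply tq_ext h hz hR3 (neg_not_mem h hn)
    · apply mul_left_cancel₀ nz
      rw [f1, w1, hT.t4, hE, hBB]
      linear_combination ((-1 - e) * (2 + e) * m ^ 4 * B) * z5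
    · apply mul_left_cancel₀ (pow_ne_zero 2 nz)
      rw [f2, w2, hT.t3, hE, hBB]
      linear_combination (-(-1 - e) * (2 + e) * m ^ 3 * B) * z5
    · apply mul_left_cancel₀ (pow_ne_zero 3 nz)
      rw [f3, w3, hT.t2, hE, hBB]
      linear_combination (-(2 + e) * m ^ 2 * B) * z5
    · apply mul_left_cancel₀ (pow_ne_zero 4 nz)
      rw [f4, w4, hT.t1]
      ring
  have : 5 • T = ((T + T) + T) + T + T := by
    rw [succ_nsmul, succ_nsmul, succ_nsmul, succ_nsmul, one_smul]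
  rw [this, a1, a2, a3, hR, neg_add_cancel]

omit hm in
/-- Two points with `t 1 = 0` and the same `t 2` are equal. -/
theorem eq_of_t1 {Q R : W.Point} (hQ : Q ∉ HP h) (hR : R ∉ HP h) (h1 : tq h z Q 1 = 0)
    (h1' : tq h z R 1 = 0) (h2 : tq h z Q 2 = tq h z R 2) : Q = R := by
  obtain ⟨q0, q1, q2, q3, q4⟩ := q5_tq h hz hQ
  obtain ⟨r0, r1, r2, r3, r4⟩ := q5_tq h hz hR
  have hA := AA_ne h hz
  have hB := BB_ne h hz
  have he : eta z ≠ 0 := by
    intro h0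
    have := hz.eta_mul
    rw [h0, zero_mul] at this
    norm_num at this
  rw [h1] at q0 q4
  rw [h1'] at r0 r4
  rw [← h2] at r0 r4
  have n2 : tq h z Q 2 ≠ 0 := by
    intro h0
    rw [h0] at q0
    have : AA z b * BB z b = 0 := by linear_combination q0
    exact (mul_ne_zero hA hB) this
  apply tq_ext h hz hQ hR (h1.trans h1'.symm) h2
  · apply mul_left_cancel₀ (mul_ne_zero he n2)
    linear_combination q0 - r0
  · apply mul_left_cancel₀ hB
    linear_combination r4 - q4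

omit h hm in
/-- Fifth roots of unity. -/
theorem root_of_five {x : F} (hx : x ^ 5 = 1) : ∃ k : ℕ, x = z ^ k := by
  have z5 := hz.five
  have h1 : (x - 1) * ((x - z) * ((x - z ^ 2) * ((x - z ^ 3) * (x - z ^ 4)))) = 0 := by
    unfold IsZ at hz
    linear_combination hx + (-x^4 +x^3*z^3 +x^3*z -x^2*z^5 -x^2*z^3 +x*z^6 -z^6 +z^5 -z +1) * hz
  rcases mul_eq_zero.1 h1 with h2 | h2
  · exact ⟨0, by rw [pow_zero]; exact sub_eq_zero.1 h2⟩
  rcases mul_eq_zero.1 h2 with h2 | h2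
  · exact ⟨1, by rw [pow_one]; exact sub_eq_zero.1 h2⟩
  rcases mul_eq_zero.1 h2 with h2 | h2
  · exact ⟨2, sub_eq_zero.1 h2⟩
  rcases mul_eq_zero.1 h2 with h2 | h2
  · exact ⟨3, sub_eq_zero.1 h2⟩
  · exact ⟨4, sub_eq_zero.1 h2⟩

/-- The zeros of the first eigenfunction. -/
theorem t1_zero {T S : W.Point} (hT : IsT h z m T) (hS : S ∉ HP h) (h1 : tq h z S 1 = 0) :
    ∃ i : ℕ, S = T + i • pP h := by
  have hB := BB_ne h hz
  have he := hz.eta_sq
  have hen : eta z ≠ 0 := by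
    intro h0
    rw [h0] at he
    norm_num at he
  have key : ∀ Q : W.Point, Q ∉ HP h → tq h z Q 1 = 0 →
      eta z ^ 2 * tq h z Q 2 ^ 5 = -(AA z b ^ 2 * BB z b ^ 3) := by
    intro Q hQ h1
    obtain ⟨q0, q1, q2, q3, q4⟩ := q5_tq h hz hQ
    rw [h1] at q0 q1 q4
    have n2 : tq h z Q 2 ≠ 0 := by
      intro h0
      rw [h0] at q0
      have : AA z b * BB z b = 0 := by linear_combination q0
      exact (mul_ne_zero (AA_ne h hz) hB) this
    have k3 : eta z * (tq h z Q 2 * tq h z Q 3) = -(AA z b * BB z b) := by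
      linear_combination q0
    have k4 : BB z b * tq h z Q 4 = -(eta z * tq h z Q 2 ^ 2) := by linear_combination -q4
    have k1 : tq h z Q 2 * tq h z Q 4 = eta z * tq h z Q 3 ^ 2 := by linear_combination q1
    apply mul_left_cancel₀ hen
    linear_combination (eta z ^ 2 * tq h z Q 2 ^ 2) * (tq h z Q 2 * k4 - BB z b * k1) -
      eta z * BB z b * (eta z * (tq h z Q 2 * tq h z Q 3) - AA z b * BB z b) * k3
  have k1 := key S hS h1
  have k2 := key T hT.nm hT.t1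
  have n2 := hT.t2_ne h hz hm
  have hx : (tq h z T 2 / tq h z S 2) ^ 5 = 1 := by
    have : tq h z S 2 ^ 5 = tq h z T 2 ^ 5 := by
      apply mul_left_cancel₀ (pow_ne_zero 2 hen)
      rw [k1, k2]
    rw [div_pow, this]
    exact div_self (pow_ne_zero 5 n2)
  have nS2 : tq h z S 2 ≠ 0 := by
    intro h0
    rw [h0, div_zero] at hx
    norm_num at hx
  obtain ⟨k, hk⟩ := root_of_five hz hx
  refine ⟨3 * k, ?_⟩
  have hT' : T + (3 * k) • pP h ∉ HP h := add_not_mem h hT.nm ((HP h).nsmul_mem (pP_mem h) _)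
  have c1 := tq_add_pP h hz T (3 * k) (j := 1) (by norm_num)
  have c2 := tq_add_pP h hz T (3 * k) (j := 2) (by norm_num)
  have zk : z ^ (2 * (3 * k)) = z ^ k := by
    have : 2 * (3 * k) = 5 * k + k := by ring
    rw [this, pow_add, pow_mul, hz.five, one_pow, one_mul]
  apply eq_of_t1 h hz hS hT' h1
  · rw [hT.t1] at c1
    exact (mul_eq_zero.1 c1).resolve_left (pow_ne_zero _ hz.ne)
  · rw [zk, ← hk, div_mul_eq_mul_div, div_eq_iff nS2, mul_comm] at c2
    exact (mul_right_cancel₀ n2 (by rw [mul_comm (tq h z S 2), c2, mul_comm])).symm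

/-- The group generated by the two points of order five. -/
noncomputable def VT (T : W.Point) : AddSubgroup W.Point := HP h ⊔ AddSubgroup.zmultiples T

omit hz hm in
theorem HP_le_VT (T : W.Point) : HP h ≤ VT h T := le_sup_left

omit hz hm in
theorem T_mem_VT (T : W.Point) : T ∈ VT h T :=
  (le_sup_right : AddSubgroup.zmultiples T ≤ VT h T) (AddSubgroup.mem_zmultiples T)

omit hz hm in
theorem add_not_VT {T Q R : W.Point} (hQ : Q ∉ VT h T) (hR : R ∈ VT h T) : Q + R ∉ VT h T := by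
  intro hh
  exact hQ (by simpa using (VT h T).sub_mem hh hR)

/-- The eigenfunctions do not vanish outside of the group `VT`. -/
theorem tq_ne {T S : W.Point} (hT : IsT h z m T) (hS : S ∉ VT h T) :
    tq h z S 1 ≠ 0 ∧ tq h z S 2 ≠ 0 ∧ tq h z S 3 ≠ 0 ∧ tq h z S 4 ≠ 0 := by
  have nz := hz.ne
  have nH : ∀ {Q : W.Point}, Q ∉ VT h T → Q ∉ HP h := fun hQ hh => hQ (HP_le_VT h T hh)
  have n1 : ∀ Q : W.Point, Q ∉ VT h T → tq h z Q 1 ≠ 0 := by
    intro Q hQ h1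
    obtain ⟨i, hi⟩ := t1_zero h hz hm hT (nH hQ) h1
    apply hQ
    rw [hi]
    exact (VT h T).add_mem (T_mem_VT h T) ((VT h T).nsmul_mem (HP_le_VT h T (pP_mem h)) i)
  have n4 : ∀ Q : W.Point, Q ∉ VT h T → tq h z Q 4 ≠ 0 := by
    intro Q hQ h4
    obtain ⟨f1, -⟩ := tq_neg h hz (nH hQ)
    rw [h4] at f1
    have hQ' : -Q ∉ VT h T := fun hh => hQ (by simpa using (VT h T).neg_mem hh)
    exact n1 _ hQ' ((mul_eq_zero.1 f1).resolve_left nz)
  have tr : ∀ Q : W.Point, Q ∉ VT h T → Q + T ∉ VT h T ∧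
      tq h z Q 4 * tq h z (Q + T) 3 = z ^ 4 * (2 + eta z) * m ^ 3 * BB z b * tq h z Q 2 ∧
      tq h z Q 4 * tq h z (Q + T) 4 = z ^ 2 * (2 + eta z) * m ^ 4 * BB z b * tq h z Q 3 := by
    intro Q hQ
    obtain ⟨R, M⟩ := exists_MRel h hz hm (nH hQ) (n4 Q hQ)
    have := M.add h hz hT hm
    rw [this]
    exact ⟨this ▸ add_not_VT h hQ (T_mem_VT h T), M.E3, M.E4⟩
  have n3 : ∀ Q : W.Point, Q ∉ VT h T → tq h z Q 3 ≠ 0 := by
    intro Q hQ h3
    obtain ⟨k1, -, k3⟩ := tr Q hQ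
    rw [h3, mul_zero] at k3
    exact n4 _ k1 ((mul_eq_zero.1 k3).resolve_left (n4 Q hQ))
  have n2 : ∀ Q : W.Point, Q ∉ VT h T → tq h z Q 2 ≠ 0 := by
    intro Q hQ h2
    obtain ⟨k1, k2, -⟩ := tr Q hQ
    rw [h2, mul_zero] at k2
    exact n3 _ k1 ((mul_eq_zero.1 k2).resolve_left (n4 Q hQ))
  exact ⟨n1 S hS, n2 S hS, n3 S hS, n4 S hS⟩

/-- The quintuple of the isogenous curve. -/
noncomputable def wq (z : F) (Q : W.Point) : ZMod 5 → F :=
  vt (eta z) (AA z b) (BB z b) (tq h z Q 1) (tq h z Q 2) (tq h z Q 3) (tq h z Q 4)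

theorem wq_cyc {T S : W.Point} (hT : IsT h z m T) (hS : S ∉ VT h T) :
    Cyc (bb (eta z) (AA z b) (BB z b)) (wq h z S) := by
  obtain ⟨n1, n2, n3, n4⟩ := tq_ne h hz hm hT hS
  obtain ⟨q0, q1, q2, q3, q4⟩ := q5_tq h hz (fun hh => hS (HP_le_VT h T hh))
  rw [hz.eta'] at q0 q2 q3
  exact vt_cyc hz.eta_sq (AA_ne h hz) (BB_ne h hz) n1 n2 n3 n4 q0 q1 q2 q3 q4

theorem wq_add_T {T S : W.Point} (hT : IsT h z m T) (hS : S ∉ VT h T) (k : ZMod 5) :
    wq h z (S + T) k = wq h z S (k + 1) := by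
  obtain ⟨n1, n2, n3, n4⟩ := tq_ne h hz hm hT hS
  obtain ⟨R, M⟩ := exists_MRel h hz hm (fun hh => hS (HP_le_VT h T hh)) n4
  rw [M.add h hz hT hm]
  exact vt_move hz.eta_sq hz.five hm (AA_ne h hz) n1 n2 n3 n4 M.E1 M.E2 M.E3 M.E4 k

omit hm in
theorem wq_add_pP (S : W.Point) (n : ℕ) : wq h z (S + n • pP h) = wq h z S := by
  have c : ∀ {j : ℕ} (hj : j = 1 ∨ j = 2 ∨ j = 3 ∨ j = 4),
      (z ^ n) ^ j * tq h z (S + n • pP h) j = tq h z S j := by
    intro j hj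
    rw [← pow_mul, mul_comm n]
    exact tq_add_pP h hz S n hj
  have zn5 : (z ^ n) ^ 5 = 1 := by rw [← pow_mul, mul_comm, pow_mul, hz.five, one_pow]
  funext k
  have h1 := vt_scale (e := eta z) (A := AA z b) (B := BB z b) (t1 := tq h z (S + n • pP h) 1)
    (t2 := tq h z (S + n • pP h) 2) (t3 := tq h z (S + n • pP h) 3)
    (t4 := tq h z (S + n • pP h) 4) zn5 k
  have c1 := c (j := 1) (by norm_num)
  rw [pow_one] at c1
  rw [c1, c (j := 2) (by norm_num), c (j := 3) (by norm_num), c (j := 4) (by norm_num)] at h1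
  exact h1.symm

theorem wq_add {T S : W.Point} (hT : IsT h z m T) (hS : S ∉ VT h T) (i j : ℕ) (k : ZMod 5) :
    wq h z (S + i • pP h + j • T) k = wq h z S (k + j) := by
  have hS' : S + i • pP h ∉ VT h T :=
    add_not_VT h hS ((VT h T).nsmul_mem (HP_le_VT h T (pP_mem h)) i)
  induction j generalizing k with
  | zero => rw [zero_smul, add_zero, wq_add_pP h hz, Nat.cast_zero, add_zero]
  | succ j ih =>
    rw [succ_nsmul, ← add_assoc, wq_add_T h hz hm hT (add_not_VT h hS'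
      ((VT h T).nsmul_mem (T_mem_VT h T) j)), ih]
    congr 1
    push_cast
    ring

omit hz hm in
theorem mem_VT {T S : W.Point} (hT : 5 • T = 0) : S ∈ VT h T ↔ ∃ i j : ℕ, S = i • pP h + j • T := by
  constructor
  · intro hS
    obtain ⟨y, hy, w, hw, e⟩ := AddSubgroup.mem_sup.1 hS
    have red : ∀ {R : W.Point}, 5 • R = 0 → ∀ n : ℤ, ∃ i : ℕ, n • R = i • R := by
      intro R hR n
      refine ⟨(n % 5).toNat, ?_⟩
      conv_lhs => rw [← Int.mul_ediv_add_emod n 5]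
      have h5 : (5 : ℤ) • R = 0 := by exact_mod_cast hR
      rw [add_smul, mul_comm, mul_smul, h5, smul_zero, zero_add]
      have h6 : 0 ≤ n % 5 := Int.emod_nonneg n (by norm_num)
      conv_lhs => rw [← Int.toNat_of_nonneg h6]
      rw [natCast_zsmul]
    obtain ⟨n, hn⟩ := AddSubgroup.mem_zmultiples_iff.1 hy
    obtain ⟨n', hn'⟩ := AddSubgroup.mem_zmultiples_iff.1 hw
    obtain ⟨i, hi⟩ := red (five_pP h) n
    obtain ⟨j, hj⟩ := red hT n'
    exact ⟨i, j, by rw [← e, ← hn, ← hn', hi, hj]⟩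
  · rintro ⟨i, j, rfl⟩
    exact (VT h T).add_mem ((VT h T).nsmul_mem (HP_le_VT h T (pP_mem h)) i)
      ((VT h T).nsmul_mem (T_mem_VT h T) j)

end zer

end Pool.Agent.Helper23K9.T5
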